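import Pool.Agent.Helper157.AbaDefs

set_option autoImplicit false

namespace Pool.Agent.Helper157

section aux

variable {K : Type} [Field K] {θ : Kˣ}

lemma aff_mul (x y : Aff K θ) : x * y = ⟨x.b + (θ ^ x.j : Kˣ) * y.b, x.j + y.j⟩ := rfl
lemma aff_one : (1 : Aff K θ) = ⟨0, 0⟩ := rfl
lemma aff_inv (x : Aff K θ) : x⁻¹ = ⟨-((θ ^ (-x.j) : Kˣ) * x.b), -x.j⟩ := rfl

lemma join_comm {H : Type} [Group H] {P : Set H} (hP : LCone P) {f s g : H}
    (hs : s ∈ P) (hfs : f⁻¹ * s ∈ P) (hmin : ∀ u ∈ P, f⁻¹ * u ∈ P → s⁻¹ * u ∈ P)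
    (hg : g * f = f * g) : g * s = s * g := by
  have key : ∀ g : H, g * f = f * g → s⁻¹ * (g * s * g⁻¹) ∈ P := by
    intro g hg
    apply hmin
    · exact hP.conj g s hs
    · have h1 : f⁻¹ * (g * s * g⁻¹) = g * (f⁻¹ * s) * g⁻¹ := by
        have h2 : f⁻¹ * g = g * f⁻¹ := by
          rw [inv_mul_eq_iff_eq_mul, ← mul_assoc, ← hg, mul_assoc, mul_inv_cancel, mul_one]
        calc f⁻¹ * (g * s * g⁻¹) = (f⁻¹ * g) * s * g⁻¹ := by group
          _ = g * (f⁻¹ * s) * g⁻¹ := by rw [h2]; group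
      rw [h1]
      exact hP.conj g _ hfs
  have h1 := key g hg
  have hg' : g⁻¹ * f = f * g⁻¹ := by
    rw [inv_mul_eq_iff_eq_mul, ← mul_assoc, hg, mul_assoc, mul_inv_cancel, mul_one]
  have h2 := key g⁻¹ hg'
  have h3 := hP.conj g _ h2
  have h4 : g * (s⁻¹ * (g⁻¹ * s * g⁻¹⁻¹)) * g⁻¹ = (s⁻¹ * (g * s * g⁻¹))⁻¹ := by group
  rw [h4] at h3
  have h5 := hP.anti _ h1 h3
  have h6 : s = g * s * g⁻¹ := by
    have := congrArg (fun x => s * x) h5
    simp only [mul_inv_cancel_left, mul_one] at this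
    exact this.symm
  calc g * s = (g * s * g⁻¹) * g := by group
    _ = s * g := by rw [← h6]

/-- a lattice order on the integers is total -/
lemma int_total {Q : Set ℤ} (h0 : (0 : ℤ) ∈ Q) (hadd : ∀ x ∈ Q, ∀ y ∈ Q, x + y ∈ Q)
    (hanti : ∀ x, x ∈ Q → -x ∈ Q → x = 0)
    (hj : ∃ s ∈ Q, s - 1 ∈ Q ∧ ∀ u ∈ Q, u - 1 ∈ Q → u - s ∈ Q) : (1 : ℤ) ∈ Q ∨ (-1 : ℤ) ∈ Q := by
  obtain ⟨s, hs, hs1, hmin⟩ := hj
  have hmul : ∀ (n : ℕ) (x : ℤ), x ∈ Q → (n : ℤ) * x ∈ Q := by
    intro n x hx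
    induction n with
    | zero => simpa using h0
    | succ n ih =>
      have : ((n + 1 : ℕ) : ℤ) * x = n * x + x := by push_cast; ring
      rw [this]
      exact hadd _ ih _ hx
  by_contra hcon
  push Not at hcon
  obtain ⟨hc1, hc2⟩ := hcon
  -- a common argument for a pair of consecutive members
  have main : ∀ (Q : Set ℤ), (0 : ℤ) ∈ Q → (∀ x ∈ Q, ∀ y ∈ Q, x + y ∈ Q) →
      (∀ x, x ∈ Q → -x ∈ Q → x = 0) → ∀ s : ℤ, 2 ≤ s → s ∈ Q → s - 1 ∈ Q →
      (∀ u ∈ Q, u - 1 ∈ Q → u - s ∈ Q) → (1 : ℤ) ∈ Q := by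
    intro Q h0 hadd hanti s hs2 hs hs1 hmin
    have hmul : ∀ (n : ℕ) (x : ℤ), x ∈ Q → (n : ℤ) * x ∈ Q := by
      intro n x hx
      induction n with
      | zero => simpa using h0
      | succ n ih =>
        have : ((n + 1 : ℕ) : ℤ) * x = n * x + x := by push_cast; ring
        rw [this]
        exact hadd _ ih _ hx
    have hbig : ∀ n : ℤ, s * s ≤ n → n ∈ Q := by
      intro n hn
      obtain ⟨m, rfl⟩ : ∃ m : ℤ, s = m + 1 := ⟨s - 1, by ring⟩
      have hm : 1 ≤ m := by omega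
      set q := n / m with hq
      set r := n % m with hr
      have h1 : n = m * q + r := (Int.mul_ediv_add_emod n m).symm
      have h2 : 0 ≤ r := Int.emod_nonneg _ (by omega)
      have h3 : r < m := Int.emod_lt_of_pos _ (by omega)
      have h4 : r ≤ q := by
        have : m * m ≤ n := by nlinarith
        have : m ≤ q := by
          rw [hq]; exact Int.le_ediv_of_mul_le (by omega) this
        omega
      have h5 : n = ((q - r).toNat : ℤ) * (m + 1 - 1) + (r.toNat : ℤ) * (m + 1) := by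
        rw [Int.toNat_of_nonneg (by omega), Int.toNat_of_nonneg h2]
        linear_combination h1
      rw [h5]
      exact hadd _ (hmul _ _ hs1) _ (hmul _ _ hs)
    by_contra h1Q
    -- largest non-member
    have hex : ∃ F : ℤ, F ∉ Q ∧ ∀ n : ℤ, n ∉ Q → n ≤ F := by
      have hb : ∃ b : ℤ, ∀ n : ℤ, n ∉ Q → n ≤ b := ⟨s * s, fun n hn => by
        by_contra h; push Not at h; exact hn (hbig n h.le)⟩
      obtain ⟨F, hF1, hF2⟩ := Int.exists_greatest_of_bdd (P := fun n => n ∉ Q) hb ⟨1, h1Q⟩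
      exact ⟨F, hF1, hF2⟩
    obtain ⟨F, hF1, hF2⟩ := hex
    have hF : ∀ n, F < n → n ∈ Q := by
      intro n hn
      by_contra h
      have := hF2 n h
      omega
    have h6 := hmin (F + s) (hF _ (by omega)) (hF _ (by omega))
    rw [add_sub_cancel_right] at h6
    exact hF1 h6
  rcases lt_trichotomy s 1 with h | h | h
  · -- s ≤ 0 : reflect
    have h1 : (1 : ℤ) ∈ {x : ℤ | -x ∈ Q} := by
      apply main {x : ℤ | -x ∈ Q} (by simpa using h0)
        (fun x hx y hy => by
          show -(x + y) ∈ Q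
          rw [neg_add]; exact hadd _ hx _ hy)
        (fun x hx hy => by
          have hx' : -x ∈ Q := hx
          have hy' : - -x ∈ Q := hy
          have := hanti _ hx' hy'
          omega) (1 - s)
      · by_contra hlt
        push Not at hlt
        have : s = 0 := by omega
        subst this
        exact hc2 (by simpa using hs1)
      · show -(1 - s) ∈ Q
        rw [neg_sub]; exact hs1
      · show -(1 - s - 1) ∈ Q
        have : -(1 - s - 1) = s := by ring
        rw [this]; exact hs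
      · intro u hu hu1
        have hu' : -u ∈ Q := hu
        have hu1' : -(u - 1) ∈ Q := hu1
        show -(u - (1 - s)) ∈ Q
        have h3 := hmin (-(u - 1)) hu1' (by
          have : -(u - 1) - 1 = -u := by ring
          rw [this]; exact hu')
        have : -(u - 1) - s = -(u - (1 - s)) := by ring
        rwa [this] at h3
    exact hc2 h1
  · rw [h] at hs
    exact hc1 hs
  · exact hc1 (main Q h0 hadd hanti s (by omega) hs hs1 hmin)

lemma theta_ne (hθ : ∀ m : ℤ, m ≠ 0 → θ ^ m ≠ 1) {m : ℤ} (hm : m ≠ 0) :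
    ((θ ^ m : Kˣ) : K) ≠ 1 := by
  intro h
  exact hθ m hm (Units.ext h)

/-- every element with nonzero exponent is conjugate to a power of `t` -/
lemma conj_t (hθ : ∀ m : ℤ, m ≠ 0 → θ ^ m ≠ 1) (b : K) {j : ℤ} (hj : j ≠ 0) :
    ∃ g : Aff K θ, (⟨b, j⟩ : Aff K θ) = g * ⟨0, j⟩ * g⁻¹ := by
  have h1 : 1 - ((θ ^ j : Kˣ) : K) ≠ 0 := sub_ne_zero.2 (Ne.symm (theta_ne hθ hj))
  refine ⟨⟨b / (1 - ((θ ^ j : Kˣ) : K)), 0⟩, ?_⟩
  rw [aff_inv, aff_mul, aff_mul]
  apply Aff.ext
  · simp only [neg_zero, zpow_zero, Units.val_one, mul_zero, add_zero, one_mul, zero_add]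
    field_simp
    ring
  · simp

lemma t_pow (j : ℕ) {P : Set (Aff K θ)} (hP : LCone P) (ht : (⟨0, 1⟩ : Aff K θ) ∈ P) :
    (⟨0, (j : ℤ)⟩ : Aff K θ) ∈ P := by
  induction j with
  | zero => exact hP.one
  | succ n ih =>
    have h := hP.mul _ ih _ ht
    rw [aff_mul] at h
    simpa using h

lemma t_pow_neg (j : ℕ) {P : Set (Aff K θ)} (hP : LCone P) (ht : (⟨0, -1⟩ : Aff K θ) ∈ P) :
    (⟨0, -(j : ℤ)⟩ : Aff K θ) ∈ P := by
  induction j with
  | zero => exact hP.one
  | succ n ih =>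
    have h := hP.mul _ ih _ ht
    rw [aff_mul] at h
    have e : (-(n : ℤ) + -1) = -((n + 1 : ℕ) : ℤ) := by push_cast; ring
    simpa [e] using h

lemma t_comparable (hθ : ∀ m : ℤ, m ≠ 0 → θ ^ m ≠ 1) {P : Set (Aff K θ)} (hP : LCone P) :
    (⟨0, 1⟩ : Aff K θ) ∈ P ∨ (⟨0, -1⟩ : Aff K θ) ∈ P := by
  apply int_total (Q := {j : ℤ | (⟨0, j⟩ : Aff K θ) ∈ P})
  · exact hP.one
  · intro x hx y hy
    have h := hP.mul _ hx _ hy
    rw [aff_mul] at h
    simpa using h
  · intro x hx hy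
    have h := hP.anti (⟨0, x⟩ : Aff K θ) hx (by
      rw [aff_inv]
      simpa using hy)
    exact congrArg Aff.j h
  · obtain ⟨s, hs, hs1, hmin⟩ := hP.join (⟨0, 1⟩ : Aff K θ)
    have hc := join_comm hP hs hs1 hmin (g := (⟨0, 1⟩ : Aff K θ)) rfl
    rw [aff_mul, aff_mul] at hc
    have hb := congrArg Aff.b hc
    simp only [zero_add, mul_zero, add_zero, zpow_one] at hb
    have hb0 : s.b = 0 := by
      by_contra h
      have h1 : (θ : K) = 1 := by
        have := mul_right_cancel₀ h (show (θ : K) * s.b = 1 * s.b by rw [one_mul]; exact hb)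
        exact this
      exact theta_ne hθ (m := 1) one_ne_zero (by rw [zpow_one]; exact h1)
    have hse : s = ⟨0, s.j⟩ := Aff.ext hb0 rfl
    refine ⟨s.j, ?_, ?_, ?_⟩
    · show (⟨0, s.j⟩ : Aff K θ) ∈ P
      rw [← hse]; exact hs
    · show (⟨0, s.j - 1⟩ : Aff K θ) ∈ P
      have : (⟨0, s.j - 1⟩ : Aff K θ) = (⟨0, 1⟩ : Aff K θ)⁻¹ * s := by
        rw [hse, aff_inv, aff_mul]
        apply Aff.ext
        · simp
        · simp; ring
      rw [this]; exact hs1
    · intro u hu hu1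
      show (⟨0, u - s.j⟩ : Aff K θ) ∈ P
      have h3 := hmin (⟨0, u⟩ : Aff K θ) hu (by
        rw [aff_inv, aff_mul]
        have h4 : (⟨0, u - 1⟩ : Aff K θ) ∈ P := hu1
        convert h4 using 1
        apply Aff.ext
        · simp
        · simp; ring)
      rw [hse, aff_inv, aff_mul] at h3
      convert h3 using 1
      apply Aff.ext
      · simp
      · simp; ring

/-- the part of the cone in the kernel -/
lemma kernel_cone (hθ : ∀ m : ℤ, m ≠ 0 → θ ^ m ≠ 1) {P : Set (Aff K θ)} (hP : LCone P) :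
    LatAdd {x : K | (⟨x, 0⟩ : Aff K θ) ∈ P} where
  zero := hP.one
  add := by
    intro x hx y hy
    have h := hP.mul _ hx _ hy
    rw [aff_mul] at h
    simpa using h
  anti := by
    intro x hx hy
    have h := hP.anti (⟨x, 0⟩ : Aff K θ) hx (by
      rw [aff_inv]
      simpa using hy)
    exact congrArg Aff.b h
  join := by
    intro x
    obtain ⟨s, hs, hs1, hmin⟩ := hP.join (⟨x, 0⟩ : Aff K θ)
    have hc := join_comm hP hs hs1 hmin (g := (⟨1, 0⟩ : Aff K θ)) (by
      rw [aff_mul, aff_mul]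
      apply Aff.ext
      · simp; ring
      · rfl)
    rw [aff_mul, aff_mul] at hc
    have hb := congrArg Aff.b hc
    simp only [zpow_zero, Units.val_one, one_mul, mul_one] at hb
    have hj0 : s.j = 0 := by
      by_contra h
      apply theta_ne hθ h
      linear_combination -hb
    have hse : s = ⟨s.b, 0⟩ := Aff.ext rfl hj0
    refine ⟨s.b, ?_, ?_, ?_⟩
    · show (⟨s.b, 0⟩ : Aff K θ) ∈ P
      rw [← hse]; exact hs
    · show (⟨s.b - x, 0⟩ : Aff K θ) ∈ P
      have : (⟨s.b - x, 0⟩ : Aff K θ) = (⟨x, 0⟩ : Aff K θ)⁻¹ * s := by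
        rw [hse, aff_inv, aff_mul]
        apply Aff.ext
        · simp; ring
        · simp
      rw [this]; exact hs1
    · intro u hu hu1
      show (⟨u - s.b, 0⟩ : Aff K θ) ∈ P
      have h3 := hmin (⟨u, 0⟩ : Aff K θ) hu (by
        rw [aff_inv, aff_mul]
        have h4 : (⟨u - x, 0⟩ : Aff K θ) ∈ P := hu1
        convert h4 using 1
        apply Aff.ext
        · simp; ring
        · simp)
      rw [hse, aff_inv, aff_mul] at h3
      convert h3 using 1
      apply Aff.ext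
      · simp; ring
      · simp

lemma kernel_theta {P : Set (Aff K θ)} (hP : LCone P) (x : K) :
    (θ : K) * x ∈ {x : K | (⟨x, 0⟩ : Aff K θ) ∈ P} ↔ x ∈ {x : K | (⟨x, 0⟩ : Aff K θ) ∈ P} := by
  constructor
  · intro h
    have h1 := hP.conj (⟨0, -1⟩ : Aff K θ) _ h
    rw [aff_mul, aff_inv, aff_mul] at h1
    show (⟨x, 0⟩ : Aff K θ) ∈ P
    convert h1 using 1
    apply Aff.ext
    · simp
    · simp
  · intro h
    have h1 := hP.conj (⟨0, 1⟩ : Aff K θ) _ h
    rw [aff_mul, aff_inv, aff_mul] at h1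
    show (⟨(θ : K) * x, 0⟩ : Aff K θ) ∈ P
    convert h1 using 1
    apply Aff.ext
    · simp
    · simp

lemma aff_sign_pos (hθ : ∀ m : ℤ, m ≠ 0 → θ ^ m ≠ 1) {P : Set (Aff K θ)} (hP : LCone P)
    (ht : (⟨0, 1⟩ : Aff K θ) ∈ P) (b : K) {j : ℤ} (hj : 0 < j) : (⟨b, j⟩ : Aff K θ) ∈ P := by
  obtain ⟨g, hg⟩ := conj_t hθ b hj.ne'
  rw [hg]
  apply hP.conj
  have := t_pow j.toNat hP ht
  rwa [Int.toNat_of_nonneg hj.le] at this

lemma aff_sign_neg (hθ : ∀ m : ℤ, m ≠ 0 → θ ^ m ≠ 1) {P : Set (Aff K θ)} (hP : LCone P)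
    (ht : (⟨0, -1⟩ : Aff K θ) ∈ P) (b : K) {j : ℤ} (hj : j < 0) : (⟨b, j⟩ : Aff K θ) ∈ P := by
  obtain ⟨g, hg⟩ := conj_t hθ b hj.ne
  rw [hg]
  apply hP.conj
  have := t_pow_neg (-j).toNat hP ht
  rwa [Int.toNat_of_nonneg (by omega), neg_neg] at this

/-- the cone attached to a cone of `K` and a sign -/
def mkP (K : Type) [Field K] (θ : Kˣ) (p : Set K × Bool) : Set (Aff K θ) :=
  {x | (if p.2 then 0 < x.j else x.j < 0) ∨ (x.j = 0 ∧ x.b ∈ p.1)}

lemma cone_eq (hθ : ∀ m : ℤ, m ≠ 0 → θ ^ m ≠ 1) {P : Set (Aff K θ)} (hP : LCone P) :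
    ∃ e : Bool, P = mkP K θ ({x : K | (⟨x, 0⟩ : Aff K θ) ∈ P}, e) := by
  have hno : ∀ x : Aff K θ, x.j ≠ 0 → x⁻¹ ∈ P → x ∉ P := by
    intro x hx h1 h2
    have := hP.anti x h2 h1
    rw [this] at hx
    exact hx rfl
  rcases t_comparable hθ hP with ht | ht
  · refine ⟨true, ?_⟩
    ext ⟨b, j⟩
    simp only [mkP, if_true]
    rcases lt_trichotomy j 0 with h | h | h
    · constructor
      · intro hx
        exfalso
        refine hno ⟨b, j⟩ h.ne ?_ hx
        rw [aff_inv]
        exact aff_sign_pos hθ hP ht _ (by simpa using h)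
      · rintro (h1 | ⟨h1, -⟩)
        · have h1' : 0 < j := h1
          omega
        · have h1' : j = 0 := h1
          omega
    · subst h
      constructor
      · intro hx; exact Or.inr ⟨rfl, hx⟩
      · rintro (h1 | ⟨-, h1⟩)
        · exact absurd h1 (lt_irrefl _)
        · exact h1
    · constructor
      · intro _; exact Or.inl h
      · intro _; exact aff_sign_pos hθ hP ht _ h
  · refine ⟨false, ?_⟩
    ext ⟨b, j⟩
    simp only [mkP]
    rcases lt_trichotomy j 0 with h | h | h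
    · constructor
      · intro _; exact Or.inl (by simpa using h)
      · intro _; exact aff_sign_neg hθ hP ht _ h
    · subst h
      constructor
      · intro hx; exact Or.inr ⟨rfl, hx⟩
      · rintro (h1 | ⟨-, h1⟩)
        · exact absurd h1 (by simp)
        · exact h1
    · constructor
      · intro hx
        exfalso
        refine hno ⟨b, j⟩ h.ne' ?_ hx
        rw [aff_inv]
        exact aff_sign_neg hθ hP ht _ (by simpa using h)
      · rintro (h1 | ⟨h1, -⟩)
        · have h1' : j < 0 := by simpa using h1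
          omega
        · have h1' : j = 0 := h1
          omega

lemma theta_all {Q : Set K} (hQ : TotAdd Q) (hθQ : ∀ x ∈ Q, (θ : K) * x ∈ Q) (i : ℤ) (x : K)
    (hx : x ∈ Q) : ((θ ^ i : Kˣ) : K) * x ∈ Q := by
  have hinv : ∀ x ∈ Q, ((θ⁻¹ : Kˣ) : K) * x ∈ Q := by
    intro x hx
    rcases hQ.total (((θ⁻¹ : Kˣ) : K) * x) with h | h
    · exact h
    · have h1 := hθQ _ h
      rw [mul_neg, Units.mul_inv_cancel_left] at h1
      have h2 := hQ.anti x hx h1
      rw [h2, mul_zero]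
      exact hQ.zero
  induction i using Int.induction_on with
  | zero => simpa using hx
  | succ n ih =>
    have h := hθQ _ ih
    rw [← mul_assoc, ← Units.val_mul] at h
    have e : θ * θ ^ (n : ℤ) = θ ^ ((n : ℤ) + 1) := by rw [zpow_add_one, mul_comm]
    rwa [e] at h
  | pred n ih =>
    have h := hinv _ ih
    rw [← mul_assoc, ← Units.val_mul] at h
    have e : θ⁻¹ * θ ^ (-(n : ℤ)) = θ ^ (-(n : ℤ) - 1) := by rw [zpow_sub_one, mul_comm]
    rwa [e] at h

lemma mkP_total {Q : Set K} (hQ : TotAdd Q) (e : Bool) (x : Aff K θ) :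
    x ∈ mkP K θ (Q, e) ∨ x⁻¹ ∈ mkP K θ (Q, e) := by
  obtain ⟨b, j⟩ := x
  rw [aff_inv]
  simp only [mkP]
  cases e
  · simp only [Bool.false_eq_true, if_false]
    rcases lt_trichotomy j 0 with h | h | h
    · exact Or.inl (Or.inl h)
    · subst h
      rcases hQ.total b with h | h
      · exact Or.inl (Or.inr ⟨rfl, h⟩)
      · right; right
        refine ⟨by simp, ?_⟩
        simpa using h
    · right; left
      show -j < 0
      omega
  · simp only [if_true]
    rcases lt_trichotomy j 0 with h | h | h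
    · right; left
      show 0 < -j
      omega
    · subst h
      rcases hQ.total b with h | h
      · exact Or.inl (Or.inr ⟨rfl, h⟩)
      · right; right
        refine ⟨by simp, ?_⟩
        simpa using h
    · exact Or.inl (Or.inl h)

lemma mkP_cone {Q : Set K} (hQ : TotAdd Q) (hθQ : ∀ x ∈ Q, (θ : K) * x ∈ Q) (e : Bool) :
    LCone (mkP K θ (Q, e)) where
  one := Or.inr ⟨rfl, hQ.zero⟩
  mul := by
    rintro ⟨b, j⟩ hx ⟨c, k⟩ hy
    rw [aff_mul]
    cases e
    · rcases hx with hx | ⟨hx1, hx2⟩ <;> rcases hy with hy | ⟨hy1, hy2⟩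
      · left
        simp only [Bool.false_eq_true, if_false] at hx hy ⊢
        omega
      · left
        simp only [Bool.false_eq_true, if_false] at hx hy1 ⊢
        omega
      · left
        simp only [Bool.false_eq_true, if_false] at hx1 hy ⊢
        omega
      · right
        simp only at hx1 hy1 hx2 hy2
        subst hx1 hy1
        refine ⟨by simp, ?_⟩
        simpa using hQ.add _ hx2 _ hy2
    · rcases hx with hx | ⟨hx1, hx2⟩ <;> rcases hy with hy | ⟨hy1, hy2⟩
      · left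
        simp only [if_true] at hx hy ⊢
        omega
      · left
        simp only [if_true] at hx hy1 ⊢
        omega
      · left
        simp only [if_true] at hx1 hy ⊢
        omega
      · right
        simp only at hx1 hy1 hx2 hy2
        subst hx1 hy1
        refine ⟨by simp, ?_⟩
        simpa using hQ.add _ hx2 _ hy2
  anti := by
    rintro ⟨b, j⟩ hx hy
    rw [aff_inv] at hy
    cases e
    · rcases hx with hx | ⟨hx1, hx2⟩ <;> rcases hy with hy | ⟨hy1, hy2⟩
      · simp only [Bool.false_eq_true, if_false] at hx hy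
        omega
      · simp only [Bool.false_eq_true, if_false] at hx hy1
        omega
      · simp only [Bool.false_eq_true, if_false] at hx1 hy
        omega
      · simp only at hx1 hx2 hy2
        subst hx1
        have : b = 0 := hQ.anti b hx2 (by simpa using hy2)
        subst this
        rfl
    · rcases hx with hx | ⟨hx1, hx2⟩ <;> rcases hy with hy | ⟨hy1, hy2⟩
      · simp only [if_true] at hx hy
        omega
      · simp only [if_true] at hx hy1
        omega
      · simp only [if_true] at hx1 hy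
        omega
      · simp only at hx1 hx2 hy2
        subst hx1
        have : b = 0 := hQ.anti b hx2 (by simpa using hy2)
        subst this
        rfl
  conj := by
    rintro ⟨a, i⟩ ⟨b, j⟩ hx
    rw [aff_mul, aff_inv, aff_mul]
    have hj : i + j + -i = j := by ring
    rcases hx with hx | ⟨hx1, hx2⟩
    · left
      simp only [hj]
      exact hx
    · right
      simp only at hx1 hx2
      subst hx1
      refine ⟨by simp, ?_⟩
      have h := theta_all hQ hθQ i b hx2
      convert h using 1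
      simp only [add_zero, zpow_neg]
      rw [mul_neg, Units.mul_inv_cancel_left]
      ring
  join := by
    intro f
    have hmul1 : f⁻¹ * f = 1 := inv_mul_cancel f
    rcases mkP_total (θ := θ) hQ e f with h | h
    · refine ⟨f, h, ?_, fun u _ hu => hu⟩
      rw [hmul1]
      exact Or.inr ⟨rfl, hQ.zero⟩
    · refine ⟨1, Or.inr ⟨rfl, hQ.zero⟩, ?_, fun u hu _ => ?_⟩
      · rw [mul_one]; exact h
      · rw [inv_one, one_mul]; exact hu

lemma mkP_inj {p p' : Set K × Bool} (h : mkP K θ p = mkP K θ p') : p = p' := by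
  obtain ⟨Q, e⟩ := p
  obtain ⟨Q', e'⟩ := p'
  have h1 : Q = Q' := by
    ext b
    have h2 : ((⟨b, 0⟩ : Aff K θ) ∈ mkP K θ (Q, e)) ↔ ((⟨b, 0⟩ : Aff K θ) ∈ mkP K θ (Q', e')) := by
      rw [h]
    simpa [mkP] using h2
  have h3 : e = e' := by
    have h2 : ((⟨0, 1⟩ : Aff K θ) ∈ mkP K θ (Q, e)) ↔ ((⟨0, 1⟩ : Aff K θ) ∈ mkP K θ (Q', e')) := by
      rw [h]
    cases e <;> cases e' <;> simp [mkP] at h2 ⊢
  rw [h1, h3]

end aux

/-- All lattice orders of `K ⋊ ⟨θ⟩` are total, and they are twice as many as the orders of `K`. -/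
theorem lcone_aff (K : Type) [Field K] (θ : Kˣ) (hθ : ∀ m : ℤ, m ≠ 0 → θ ^ m ≠ 1)
    (hQ : ∀ Q : Set K, LatAdd Q → (∀ x, (θ : K) * x ∈ Q ↔ x ∈ Q) → ∀ x, x ∈ Q ∨ -x ∈ Q)
    (N : ℕ) (hN : {Q : Set K | TotAdd Q ∧ ∀ x ∈ Q, (θ : K) * x ∈ Q}.ncard = N) (hN0 : N ≠ 0) :
    (∀ P : Set (Aff K θ), LCone P → ∀ x, x ∈ P ∨ x⁻¹ ∈ P) ∧
    {P : Set (Aff K θ) | LCone P}.ncard = 2 * N := by
  have htot : ∀ P : Set (Aff K θ), LCone P →
      TotAdd {x : K | (⟨x, 0⟩ : Aff K θ) ∈ P} ∧
        ∀ x ∈ {x : K | (⟨x, 0⟩ : Aff K θ) ∈ P}, (θ : K) * x ∈ {x : K | (⟨x, 0⟩ : Aff K θ) ∈ P} := by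
    intro P hP
    have hL := kernel_cone hθ hP
    have hT := hQ _ hL (kernel_theta hP)
    exact ⟨⟨hL.zero, hL.add, hL.anti, hT⟩, fun x hx => (kernel_theta hP x).2 hx⟩
  constructor
  · intro P hP x
    obtain ⟨e, he⟩ := cone_eq hθ hP
    rw [he]
    exact mkP_total (htot P hP).1 e x
  · have hset : {P : Set (Aff K θ) | LCone P} = mkP K θ ''
        ({Q : Set K | TotAdd Q ∧ ∀ x ∈ Q, (θ : K) * x ∈ Q} ×ˢ (Set.univ : Set Bool)) := by
      ext P
      constructor
      · intro hP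
        obtain ⟨e, he⟩ := cone_eq hθ hP
        exact ⟨(_, e), ⟨htot P hP, trivial⟩, he.symm⟩
      · rintro ⟨⟨Q, e⟩, ⟨⟨h1, h2⟩, -⟩, rfl⟩
        exact mkP_cone h1 h2 e
    rw [hset, Set.ncard_image_of_injective _ (fun p p' h => mkP_inj h), Set.ncard_prod, hN,
      Set.ncard_univ, Nat.card_eq_fintype_card, Fintype.card_bool, mul_comm]

end Pool.Agent.Helper157
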