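import Pool.Agent.Helper157.AbaDefs

set_option autoImplicit false

namespace Pool.Agent.Helper157

theorem exists_chart (lam : ℝ) (hlam : 1 < lam) : ∃ ψ : ℝ → ℝ, Chart lam ψ := by
  have h0 : (0 : ℝ) < lam := by linarith
  have hne : lam ≠ 0 := h0.ne'
  have hidx : ∀ v : ℝ, v < 0 → ∃ i : ℤ, lam ^ i < -v ∧ -v ≤ lam ^ (i + 1) := by
    intro v hv
    obtain ⟨n, hn⟩ := exists_mem_Ioc_zpow (x := -v) (y := lam) (by linarith) hlam
    exact ⟨n, hn.1, hn.2⟩
  have huniq : ∀ (v : ℝ) (i j : ℤ), lam ^ i < -v → -v ≤ lam ^ (j + 1) → i ≤ j := by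
    intro v i j h1 h2
    have h3 : lam ^ i < lam ^ (j + 1) := lt_of_lt_of_le h1 h2
    have h4 : i < j + 1 := (zpow_lt_zpow_iff_right₀ hlam).1 h3
    omega
  classical
  let ψ : ℝ → ℝ := fun v => if h : v < 0 then
    (lam ^ (-(hidx v h).choose)) ^ 2 * v + lam ^ (-(hidx v h).choose) * (lam + 1) else 0
  have hψ : ∀ (v : ℝ) (i : ℤ), v < 0 → lam ^ i < -v → -v ≤ lam ^ (i + 1) →
      ψ v = (lam ^ (-i)) ^ 2 * v + lam ^ (-i) * (lam + 1) := by
    intro v i hv h1 h2
    have hs := (hidx v hv).choose_spec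
    have he : (hidx v hv).choose = i :=
      le_antisymm (huniq v _ _ hs.1 h2) (huniq v _ _ h1 hs.2)
    change (if h : v < 0 then
      (lam ^ (-(hidx v h).choose)) ^ 2 * v + lam ^ (-(hidx v h).choose) * (lam + 1) else 0) = _
    rw [dif_pos hv, he]
  have hb : ∀ (v : ℝ) (i : ℤ), v < 0 → lam ^ i < -v → -v ≤ lam ^ (i + 1) →
      lam ^ (-i) ≤ ψ v ∧ ψ v < lam ^ (-i) * lam := by
    intro v i hv h1 h2
    rw [hψ v i hv h1 h2]
    have ha : 0 < lam ^ (-i) := zpow_pos h0 _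
    have e1 : lam ^ (-i) * lam ^ i = 1 := by rw [← zpow_add₀ hne]; simp
    have e2 : lam ^ (-i) * lam ^ (i + 1) = lam := by rw [← zpow_add₀ hne]; simp
    have g1 : 1 < lam ^ (-i) * (-v) := by rw [← e1]; exact mul_lt_mul_of_pos_left h1 ha
    have g2 : lam ^ (-i) * (-v) ≤ lam := by
      calc lam ^ (-i) * (-v) ≤ lam ^ (-i) * lam ^ (i + 1) := mul_le_mul_of_nonneg_left h2 ha.le
        _ = lam := e2
    constructor
    · nlinarith
    · nlinarith
  refine ⟨ψ, ?_, ?_, ?_, ?_, ?_⟩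
  · intro v hv
    obtain ⟨i, h1, h2⟩ := hidx v hv
    exact lt_of_lt_of_le (zpow_pos h0 _) (hb v i hv h1 h2).1
  · intro v w hvw hw
    have hv : v < 0 := hvw.trans hw
    obtain ⟨i, h1, h2⟩ := hidx v hv
    obtain ⟨k, h3, h4⟩ := hidx w hw
    have hki : k ≤ i := huniq w k i h3 (by linarith)
    rcases eq_or_lt_of_le hki with h | h
    · subst h
      rw [hψ v k hv h1 h2, hψ w k hw h3 h4]
      have : 0 < (lam ^ (-k)) ^ 2 := by positivity
      nlinarith
    · have g1 := (hb v i hv h1 h2).2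
      have g2 := (hb w k hw h3 h4).1
      have g3 : lam ^ (-i) * lam ≤ lam ^ (-k) := by
        have : lam ^ (-i) * lam = lam ^ (-i + 1) := by rw [zpow_add_one₀ hne]
        rw [this]
        exact zpow_le_zpow_right₀ hlam.le (by omega)
      linarith
  · intro y hy
    obtain ⟨n, hn1, hn2⟩ := exists_mem_Ico_zpow (x := y) (y := lam) hy hlam
    have ha : 0 < lam ^ n := zpow_pos h0 _
    have hai : 0 < lam ^ (-n) := zpow_pos h0 _
    have e1 : lam ^ (-n) * lam ^ n = 1 := by rw [← zpow_add₀ hne]; simp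
    have en : lam ^ (n + 1) = lam ^ n * lam := zpow_add_one₀ hne n
    have en' : lam ^ (-n + 1) = lam ^ (-n) * lam := zpow_add_one₀ hne (-n)
    rw [en] at hn2
    set a := lam ^ n with hadef
    set b := lam ^ (-n) with hbdef
    have hu1 : y * b < lam := by
      calc y * b < (a * lam) * b := mul_lt_mul_of_pos_right hn2 hai
        _ = (b * a) * lam := by ring
        _ = lam := by rw [e1]; ring
    have hu2 : 1 ≤ y * b := by
      calc (1:ℝ) = a * b := by rw [mul_comm]; exact e1.symm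
        _ ≤ y * b := mul_le_mul_of_nonneg_right hn1 hai.le
    have hv : -(b * (lam + 1 - y * b)) < 0 := by nlinarith
    refine ⟨-(b * (lam + 1 - y * b)), hv, ?_⟩
    rw [hψ _ (-n) hv]
    · rw [neg_neg, ← hadef]
      have : a ^ 2 * -(b * (lam + 1 - y * b)) + a * (lam + 1)
          = - (a * (b * a)) * (lam + 1) + (b * a) ^ 2 * y + a * (lam + 1) := by ring
      rw [this, e1]; ring
    · rw [neg_neg, ← hbdef]; nlinarith
    · rw [neg_neg, en']; nlinarith
  · intro v hv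
    obtain ⟨i, h1, h2⟩ := hidx v hv
    have hlv : lam * v < 0 := mul_neg_of_pos_of_neg h0 hv
    have e1 : lam ^ (i + 1) = lam ^ i * lam := zpow_add_one₀ hne i
    have e2 : lam ^ (i + 1 + 1) = lam ^ (i + 1) * lam := zpow_add_one₀ hne (i + 1)
    rw [hψ (lam * v) (i + 1) hlv (by rw [e1]; nlinarith) (by rw [e2]; nlinarith), hψ v i hv h1 h2]
    have e3 : lam ^ (-(i + 1)) = lam ^ (-i) * lam⁻¹ := by
      rw [neg_add, zpow_add₀ hne]; simp
    rw [e3]
    field_simp
  · intro v hv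
    obtain ⟨i, h1, h2⟩ := hidx v hv
    refine ⟨-i + -i, -v - lam ^ i, by linarith, ?_⟩
    intro d hd0 hd
    have hz : 0 < lam ^ i := zpow_pos h0 _
    rw [hψ (v + d) i (by linarith) (by linarith) (by linarith), hψ v i hv h1 h2, zpow_add₀ hne]
    ring

end Pool.Agent.Helper157
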