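import Pool.Agent.Helper157.AbaDefs

set_option autoImplicit false

namespace Pool.Agent.Helper157

open Polynomial


namespace J265

theorem smulQ_nonneg {K : Type} [AddCommGroup K] [Module ℚ K] [LinearOrder K] [IsOrderedAddMonoid K]
    {q : ℚ} (hq : 0 ≤ q) {x : K} (hx : 0 ≤ x) : 0 ≤ q • x := by
  have h1 : (q.den : ℕ) • (q • x) = q.num.toNat • x := by
    have h2 : ((q.den : ℚ) * q) = (q.num.toNat : ℚ) := by
      have h3 : (q.num.toNat : ℤ) = q.num := Int.toNat_of_nonneg (Rat.num_nonneg.mpr hq)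
      rw [mul_comm, Rat.mul_den_eq_num]
      exact_mod_cast h3.symm
    rw [← Nat.cast_smul_eq_nsmul ℚ, ← Nat.cast_smul_eq_nsmul ℚ, smul_smul, h2]
  have h4 : 0 ≤ (q.den : ℕ) • (q • x) := by rw [h1]; exact nsmul_nonneg hx _
  exact (nsmul_nonneg_iff q.den_nz).mp h4

theorem abs_smulQ {K : Type} [AddCommGroup K] [Module ℚ K] [LinearOrder K] [IsOrderedAddMonoid K]
    (q : ℚ) (x : K) : |q • x| = |q| • |x| := by
  rcases le_total 0 q with hq | hq <;> rcases le_total 0 x with hx | hx
  · rw [abs_of_nonneg hq, abs_of_nonneg hx, abs_of_nonneg (smulQ_nonneg hq hx)]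
  · rw [abs_of_nonneg hq, abs_of_nonpos hx, smul_neg]
    have := smulQ_nonneg hq (neg_nonneg.mpr hx)
    rw [smul_neg] at this
    exact abs_of_nonpos (neg_nonneg.mp this)
  · rw [abs_of_nonpos hq, abs_of_nonneg hx, neg_smul]
    have := smulQ_nonneg (neg_nonneg.mpr hq) hx
    rw [neg_smul] at this
    exact abs_of_nonpos (neg_nonneg.mp this)
  · rw [abs_of_nonpos hq, abs_of_nonpos hx, neg_smul, smul_neg, neg_neg]
    have := smulQ_nonneg (neg_nonneg.mpr hq) (neg_nonneg.mpr hx)
    rw [neg_smul, smul_neg, neg_neg] at this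
    exact abs_of_nonneg this

/-- Convex subspace generated by `a`. -/
def Cv (K : Type) [AddCommGroup K] [Module ℚ K] [LinearOrder K] [IsOrderedAddMonoid K] (a : K) :
    Submodule ℚ K where
  carrier := {z | ∃ m : ℕ, |z| ≤ m • a}
  add_mem' := by
    rintro x y ⟨m, hm⟩ ⟨n, hn⟩
    exact ⟨m + n, (abs_add_le x y).trans (by rw [add_smul]; exact add_le_add hm hn)⟩
  zero_mem' := ⟨0, by simp⟩
  smul_mem' := by
    rintro q x ⟨m, hm⟩
    have ha : 0 ≤ m • a := (abs_nonneg x).trans hm
    obtain ⟨n, hn⟩ := exists_nat_ge |q|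
    refine ⟨n * m, ?_⟩
    rw [abs_smulQ, mul_smul, ← Nat.cast_smul_eq_nsmul ℚ n]
    have h1 : 0 ≤ |q| • (m • a - |x|) := smulQ_nonneg (abs_nonneg q) (sub_nonneg.mpr hm)
    have h2 : 0 ≤ ((n : ℚ) - |q|) • (m • a) := smulQ_nonneg (sub_nonneg.mpr hn) ha
    rw [smul_sub] at h1
    rw [sub_smul] at h2
    exact (sub_nonneg.mp h1).trans (sub_nonneg.mp h2)

theorem mem_Cv {K : Type} [AddCommGroup K] [Module ℚ K] [LinearOrder K] [IsOrderedAddMonoid K] {a z : K} :
    z ∈ Cv K a ↔ ∃ m : ℕ, |z| ≤ m • a := Iff.rfl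

section Fld

variable {K : Type} [Field K] [Algebra ℚ K] [FiniteDimensional ℚ K] [LinearOrder K] [IsOrderedAddMonoid K]
  {θ : K}

theorem abs_theta (hθ0 : θ ≠ 0) (hθ : ∀ x : K, 0 ≤ x → 0 ≤ θ * x) (x : K) : |θ * x| = θ * |x| := by
  rcases le_total 0 x with hx | hx
  · rw [abs_of_nonneg hx, abs_of_nonneg (hθ x hx)]
  · have h := hθ (-x) (neg_nonneg.mpr hx)
    rw [mul_neg] at h
    rw [abs_of_nonpos hx, abs_of_nonpos (neg_nonneg.mp h), mul_neg]

theorem theta_le (hθ0 : θ ≠ 0) (hθ : ∀ x : K, 0 ≤ x → 0 ≤ θ * x) {x y : K} : θ * x ≤ θ * y ↔ x ≤ y := by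
  constructor
  · intro h
    by_contra h1
    have h2 := hθ (x - y) (sub_nonneg.mpr (not_le.mp h1).le)
    rw [mul_sub] at h2
    have h3 : θ * x = θ * y := le_antisymm h (sub_nonneg.mp h2)
    exact h1 (mul_left_cancel₀ hθ0 h3).le
  · intro h
    have h2 := hθ (y - x) (sub_nonneg.mpr h)
    rw [mul_sub] at h2
    exact sub_nonneg.mp h2

theorem cv_stable (hθ0 : θ ≠ 0) (hθ : ∀ x : K, 0 ≤ x → 0 ≤ θ * x) {a : K} :
    ∀ z ∈ Cv K a, θ * z ∈ Cv K a := by
  by_cases hc : ∃ m : ℕ, θ * a ≤ m • a
  · obtain ⟨m, hm⟩ := hc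
    rintro z ⟨k, hk⟩
    refine ⟨k * m, ?_⟩
    rw [abs_theta hθ0 hθ, mul_smul]
    calc θ * |z| ≤ θ * (k • a) := (theta_le hθ0 hθ).mpr hk
      _ = k • (θ * a) := by rw [mul_smul_comm]
      _ ≤ k • (m • a) := nsmul_le_nsmul_right hm k
  · push Not at hc
    have h1 : a ≤ θ * a := by have := hc 1; rw [one_smul] at this; exact this.le
    let L : K →ₗ[ℚ] K := LinearMap.mulLeft ℚ θ
    have hL : Function.Injective L := fun x y h => mul_left_cancel₀ hθ0 h
    have h2 : Cv K a ≤ (Cv K a).map L := by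
      rintro z ⟨k, hk⟩
      refine ⟨θ⁻¹ * z, ⟨k, ?_⟩, ?_⟩
      · rw [← theta_le hθ0 hθ, ← abs_theta hθ0 hθ, mul_inv_cancel_left₀ hθ0, mul_smul_comm]
        exact hk.trans (nsmul_le_nsmul_right h1 k)
      · exact mul_inv_cancel_left₀ hθ0 z
    have h3 : Cv K a = (Cv K a).map L :=
      Submodule.eq_of_le_of_finrank_eq h2 (Submodule.equivMapOfInjective L hL (Cv K a)).finrank_eq
    intro z hz
    rw [h3]
    exact ⟨z, hz, rfl⟩

theorem cv_top (hθ0 : θ ≠ 0) (hθ : ∀ x : K, 0 ≤ x → 0 ≤ θ * x) (hgen : ∀ x : K, ∃ g : ℚ[X], x = aeval θ g)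
    {a : K} (ha : 0 < a) (x : K) : x ∈ Cv K a := by
  have h1 : ∀ g : ℚ[X], aeval θ g * a ∈ Cv K a := by
    intro g
    induction g using Polynomial.induction_on' with
    | add p q hp hq => rw [map_add, add_mul]; exact add_mem hp hq
    | monomial n c =>
      rw [aeval_monomial, mul_assoc, Algebra.algebraMap_eq_smul_one, smul_mul_assoc, one_mul]
      apply Submodule.smul_mem
      induction n with
      | zero => rw [pow_zero, one_mul]; exact ⟨1, by rw [abs_of_pos ha, one_smul]⟩
      | succ n ih => rw [pow_succ', mul_assoc]; exact cv_stable hθ0 hθ _ ih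
  obtain ⟨g, hg⟩ := hgen (x * a⁻¹)
  have h2 := h1 g
  rw [← hg, inv_mul_cancel_right₀ ha.ne'] at h2
  exact h2

theorem exists_phi (hθ0 : θ ≠ 0) (hθ : ∀ x : K, 0 ≤ x → 0 ≤ θ * x)
    (hgen : ∀ x : K, ∃ g : ℚ[X], x = aeval θ g) (h1 : (0 : K) < 1) :
    ∃ (c : ℝ) (φ : K →+ ℝ), (∀ x, 0 ≤ x ↔ 0 ≤ φ x) ∧ φ 1 = 1 ∧ ∀ g : ℚ[X], φ (aeval θ g) = aeval c g := by
  haveI : Archimedean K := ⟨fun x y hy => by
    obtain ⟨m, hm⟩ := cv_top hθ0 hθ hgen hy x
    exact ⟨m, (le_abs_self x).trans hm⟩⟩
  obtain ⟨f, hf⟩ := Archimedean.exists_orderAddMonoidHom_real_injective K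
  have hmono : Monotone f := f.monotone'
  have hstrict : StrictMono f := hmono.strictMono_of_injective hf
  have hf1 : 0 < f 1 := by
    have := hstrict h1
    rwa [map_zero] at this
  let φ : K →+ ℝ := (AddMonoidHom.mulRight (f 1)⁻¹).comp f.toAddMonoidHom
  have hφ : ∀ x, φ x = f x * (f 1)⁻¹ := fun x => rfl
  have hφ1 : φ 1 = 1 := by rw [hφ, mul_inv_cancel₀ hf1.ne']
  have hφs : StrictMono φ := fun x y h => by
    rw [hφ, hφ]
    exact mul_lt_mul_of_pos_right (hstrict h) (inv_pos.mpr hf1)
  have hφQ : ∀ (q : ℚ) (x : K), φ (q • x) = q * φ x := fun q x => by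
    rw [map_rat_smul, Rat.smul_def]
  have hθs : ∀ {x y : K}, x < y → θ * x < θ * y := fun {x y} h => by
    rw [lt_iff_not_ge, theta_le hθ0 hθ, ← lt_iff_not_ge]; exact h
  set c : ℝ := φ θ with hc
  have hc0 : 0 < c := by
    have h2 := hφs (hθs h1)
    rw [mul_zero, map_zero, mul_one] at h2
    exact h2
  have hle : ∀ x : K, c * φ x ≤ φ (θ * x) := by
    intro x
    have h3 : φ x ≤ φ (θ * x) / c := by
      apply le_of_forall_rat_lt_imp_le
      intro q hq
      rw [le_div_iff₀ hc0]
      have h4 : φ (q • 1) < φ x := by rw [hφQ, hφ1, mul_one]; exact hq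
      have h5 : q • 1 < x := hφs.lt_iff_lt.mp h4
      have h6 := hφs (hθs h5)
      rw [mul_smul_comm, mul_one, hφQ] at h6
      exact h6.le
    rw [le_div_iff₀ hc0] at h3
    linarith
  have heq : ∀ x : K, φ (θ * x) = c * φ x := by
    intro x
    apply le_antisymm _ (hle x)
    have h7 := hle (-x)
    rw [mul_neg, map_neg, map_neg] at h7
    linarith
  refine ⟨c, φ, ?_, hφ1, ?_⟩
  · intro x
    have := hφs.le_iff_le (a := 0) (b := x)
    rw [map_zero] at this
    exact this.symm
  · intro g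
    induction g using Polynomial.induction_on' with
    | add p q hp hq => rw [map_add, map_add, hp, hq, map_add]
    | monomial n r =>
      rw [aeval_monomial, aeval_monomial, Algebra.algebraMap_eq_smul_one, smul_mul_assoc, one_mul, hφQ]
      congr 1
      induction n with
      | zero => rw [pow_zero, pow_zero, hφ1]
      | succ n ih => rw [pow_succ', pow_succ', heq, ih]

end Fld

end J265

namespace J265

theorem pos_case {K : Type} [Field K] [Algebra ℚ K] [FiniteDimensional ℚ K] {θ : K} (hθ0 : θ ≠ 0)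
    (hgen : ∀ x : K, ∃ g : ℚ[X], x = aeval θ g) {Q : Set K} (hQ : TotAdd Q)
    (hθ : ∀ x ∈ Q, θ * x ∈ Q) (h1 : (1 : K) ∈ Q) :
    ∃ (c : ℝ) (φ : K →+ ℝ), (∀ x, x ∈ Q ↔ 0 ≤ φ x) ∧ φ 1 = 1 ∧ ∀ g : ℚ[X], φ (aeval θ g) = aeval c g := by
  classical
  letI : LinearOrder K :=
    { le := fun a b => b - a ∈ Q
      le_refl := fun a => by rw [sub_self]; exact hQ.zero
      le_trans := fun a b c hab hbc => by
        have := hQ.add _ hbc _ hab
        rwa [sub_add_sub_cancel] at this
      le_antisymm := fun a b hab hba => by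
        have := hQ.anti (b - a) hab (by rwa [neg_sub])
        exact (sub_eq_zero.mp this).symm
      le_total := fun a b => by
        have := hQ.total (b - a)
        rwa [neg_sub] at this
      toDecidableLE := Classical.decRel _ }
  have hle : ∀ a b : K, a ≤ b ↔ b - a ∈ Q := fun a b => Iff.rfl
  haveI : IsOrderedAddMonoid K :=
    { add_le_add_left := fun a b hab c => by
        rw [hle] at hab ⊢
        simpa using hab }
  have h0 : ∀ x : K, 0 ≤ x ↔ x ∈ Q := fun x => by rw [hle, sub_zero]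
  obtain ⟨c, φ, h2, h3, h4⟩ := exists_phi hθ0 (fun x hx => (h0 _).mpr (hθ x ((h0 x).mp hx))) hgen
    (lt_of_le_of_ne ((h0 1).mpr h1) zero_ne_one)
  exact ⟨c, φ, fun x => (h0 x).symm.trans (h2 x), h3, h4⟩

theorem neg_tot {K : Type} [AddCommGroup K] {Q : Set K} (hQ : TotAdd Q) : TotAdd {x | -x ∈ Q} where
  zero := by simpa using hQ.zero
  add x hx y hy := by
    have := hQ.add _ hx _ hy
    show -(x + y) ∈ Q
    rwa [neg_add]
  anti x hx hy := by
    have := hQ.anti (-x) hx hy
    exact neg_eq_zero.mp this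
  total x := by
    rcases hQ.total x with h | h
    · right; show - -x ∈ Q; rwa [neg_neg]
    · left; exact h

end J265

/-- There are exactly `2 n` total additive orders of the number field `ℚ[X]/(f)` that are invariant
under multiplication by the root `θ`, when `f` has `n = deg f` distinct positive real roots. -/
theorem ncard_cones (n : ℕ) (hn : 1 ≤ n) (f : ℚ[X]) (hf : Irreducible f) (hdeg : f.natDegree = n)
    (α : Fin n → ℝ) (hinj : Function.Injective α) (hpos : ∀ i, 0 < α i)
    (hroot : ∀ i, aeval (α i) f = 0) :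
    {Q : Set (AdjoinRoot f) | TotAdd Q ∧ ∀ x ∈ Q, AdjoinRoot.root f * x ∈ Q}.ncard = 2 * n := by
  classical
  haveI : Fact (Irreducible f) := ⟨hf⟩
  have hroot' : ∀ i, eval₂ (algebraMap ℚ ℝ) (α i) f = 0 := fun i => by rw [← aeval_def]; exact hroot i
  let σ : Fin n → (AdjoinRoot f →+* ℝ) := fun i => AdjoinRoot.lift (algebraMap ℚ ℝ) (α i) (hroot' i)
  have haev : ∀ g : ℚ[X], aeval (AdjoinRoot.root f) g = AdjoinRoot.mk f g := fun g => by
    rw [← AdjoinRoot.aeval_eq, aeval_def, aeval_def]
    congr 1 <;> exact Subsingleton.elim _ _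
  have hσmk : ∀ i g, σ i (AdjoinRoot.mk f g) = aeval (α i) g := fun i g => by
    rw [aeval_def]; exact AdjoinRoot.lift_mk _ _
  have hσr : ∀ i, σ i (AdjoinRoot.root f) = α i := fun i => by
    have := hσmk i X
    rwa [AdjoinRoot.mk_X, aeval_X] at this
  have hσi : ∀ i, Function.Injective (σ i) := fun i => (σ i).injective
  have hθ0 : AdjoinRoot.root f ≠ 0 := by
    intro h
    have h1 := hσr ⟨0, hn⟩
    rw [h, map_zero] at h1
    exact (hpos ⟨0, hn⟩).ne h1
  have hgen : ∀ x : AdjoinRoot f, ∃ g : ℚ[X], x = aeval (AdjoinRoot.root f) g := fun x => by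
    obtain ⟨g, rfl⟩ := AdjoinRoot.mk_surjective x
    exact ⟨g, (haev g).symm⟩
  haveI : FiniteDimensional ℚ (AdjoinRoot f) := (AdjoinRoot.powerBasis hf.ne_zero).finite
  -- the cones
  let cone : Bool × Fin n → Set (AdjoinRoot f) := fun p => {x | 0 ≤ (if p.1 then σ p.2 x else - σ p.2 x)}
  have hrange : {Q : Set (AdjoinRoot f) | TotAdd Q ∧ ∀ x ∈ Q, AdjoinRoot.root f * x ∈ Q} = Set.range cone := by
    ext Q
    constructor
    · rintro ⟨hQ, hθ⟩
      have key : ∀ Q : Set (AdjoinRoot f), TotAdd Q → (∀ x ∈ Q, AdjoinRoot.root f * x ∈ Q) →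
          (1 : AdjoinRoot f) ∈ Q → ∃ i, Q = {x | 0 ≤ σ i x} := by
        intro Q hQ hθ h1
        obtain ⟨c, φ, h2, h3, h4⟩ := J265.pos_case hθ0 hgen hQ hθ h1
        have h5 : aeval c f = 0 := by
          rw [← h4, haev, AdjoinRoot.mk_self, map_zero]
        have h6 : ∃ i, α i = c := by
          by_contra hno
          push Not at hno
          have hm0 : f.map (algebraMap ℚ ℝ) ≠ 0 := (Polynomial.map_ne_zero_iff (algebraMap ℚ ℝ).injective).mpr hf.ne_zero
          have h7 : insert c (Finset.univ.image α) ⊆ (f.map (algebraMap ℚ ℝ)).roots.toFinset := by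
            intro y hy
            rw [Multiset.mem_toFinset, mem_roots hm0, IsRoot.def, eval_map_algebraMap]
            rcases Finset.mem_insert.mp hy with h | h
            · rw [h]; exact h5
            · obtain ⟨i, _, rfl⟩ := Finset.mem_image.mp h
              exact hroot i
          have h8 := Finset.card_le_card h7
          rw [Finset.card_insert_of_notMem, Finset.card_image_of_injective _ hinj, Finset.card_univ,
            Fintype.card_fin] at h8
          · have h9 := Multiset.toFinset_card_le (f.map (algebraMap ℚ ℝ)).roots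
            have h10 := card_roots' (f.map (algebraMap ℚ ℝ))
            rw [natDegree_map, hdeg] at h10
            omega
          · intro h
            obtain ⟨i, _, hi⟩ := Finset.mem_image.mp h
            exact hno i hi
        obtain ⟨i, rfl⟩ := h6
        refine ⟨i, ?_⟩
        ext x
        obtain ⟨g, rfl⟩ := hgen x
        rw [h2, h4, Set.mem_setOf_eq, haev, hσmk]
      rcases hQ.total 1 with h1 | h1
      · obtain ⟨i, hi⟩ := key Q hQ hθ h1
        refine ⟨(true, i), ?_⟩
        rw [hi]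
        rfl
      · obtain ⟨i, hi⟩ := key {x | -x ∈ Q} (J265.neg_tot hQ) (fun x hx => by
          show -(AdjoinRoot.root f * x) ∈ Q
          rw [← mul_neg]; exact hθ _ hx) h1
        refine ⟨(false, i), ?_⟩
        ext x
        have h2 : -x ∈ {x | -x ∈ Q} ↔ -x ∈ {x | 0 ≤ σ i x} := by rw [hi]
        rw [Set.mem_setOf_eq, Set.mem_setOf_eq, neg_neg, map_neg] at h2
        exact h2.symm
    · rintro ⟨⟨s, i⟩, rfl⟩
      refine ⟨⟨?_, ?_, ?_, ?_⟩, ?_⟩
      · show 0 ≤ (if s then σ i 0 else - σ i 0)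
        simp
      · intro x hx y hy
        show 0 ≤ (if s then σ i (x + y) else - σ i (x + y))
        have hx' : 0 ≤ (if s then σ i x else - σ i x) := hx
        have hy' : 0 ≤ (if s then σ i y else - σ i y) := hy
        cases s
        · simp only [Bool.false_eq_true, if_false, map_add] at *; linarith
        · simp only [if_true, map_add] at *; linarith
      · intro x hx hy
        have hx' : 0 ≤ (if s then σ i x else - σ i x) := hx
        have hy' : 0 ≤ (if s then σ i (-x) else - σ i (-x)) := hy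
        have h3 : σ i x = 0 := by
          cases s
          · simp only [Bool.false_eq_true, if_false, map_neg] at *; linarith
          · simp only [if_true, map_neg] at *; linarith
        exact hσi i (h3.trans (map_zero _).symm)
      · intro x
        show 0 ≤ (if s then σ i x else - σ i x) ∨ 0 ≤ (if s then σ i (-x) else - σ i (-x))
        cases s
        · simp only [Bool.false_eq_true, if_false, map_neg]
          rcases le_total 0 (σ i x) with h | h
          · right; linarith
          · left; linarith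
        · simp only [if_true, map_neg]
          rcases le_total 0 (σ i x) with h | h
          · left; linarith
          · right; linarith
      · intro x hx
        have hx' : 0 ≤ (if s then σ i x else - σ i x) := hx
        show 0 ≤ (if s then σ i (AdjoinRoot.root f * x) else - σ i (AdjoinRoot.root f * x))
        rw [map_mul, hσr]
        cases s
        · simp only [Bool.false_eq_true, if_false] at *
          have := mul_nonneg (hpos i).le hx'
          linarith
        · simp only [if_true] at *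
          exact mul_nonneg (hpos i).le hx'
  have hinjc : Function.Injective cone := by
    rintro ⟨s, i⟩ ⟨t, j⟩ h
    have hmem : ∀ x, x ∈ cone (s, i) ↔ x ∈ cone (t, j) := fun x => by rw [h]
    have hst : s = t := by
      have h1 : 0 ≤ (if s then σ i 1 else - σ i 1) ↔ 0 ≤ (if t then σ j 1 else - σ j 1) := hmem 1
      cases s <;> cases t <;> simp at h1 ⊢
      · linarith
      · linarith
    subst hst
    have hlt : ∀ i j : Fin n, (∀ x, x ∈ cone (s, i) ↔ x ∈ cone (s, j)) → ¬ α i < α j := by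
      intro i j hmem hij
      obtain ⟨r, hr1, hr2⟩ := exists_rat_btwn hij
      have e1 : ∀ k, σ k (AdjoinRoot.mk f (X - C r)) = α k - r := fun k => by
        rw [hσmk, map_sub, aeval_X, aeval_C]; rfl
      have h1 : 0 ≤ (if s then σ i (AdjoinRoot.mk f (X - C r)) else - σ i (AdjoinRoot.mk f (X - C r))) ↔
        0 ≤ (if s then σ j (AdjoinRoot.mk f (X - C r)) else - σ j (AdjoinRoot.mk f (X - C r))) := hmem _
      rw [e1, e1] at h1
      cases s
      · simp only [Bool.false_eq_true, if_false] at h1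
        have := h1.mp (by linarith)
        linarith
      · simp only [if_true] at h1
        have := h1.mpr (by linarith)
        linarith
    have hij : i = j := by
      apply hinj
      apply le_antisymm
      · exact not_lt.mp (hlt j i fun x => (hmem x).symm)
      · exact not_lt.mp (hlt i j hmem)
    rw [hij]
  rw [hrange, Set.ncard_range_of_injective hinjc, Nat.card_prod, Nat.card_eq_fintype_card, Nat.card_eq_fintype_card,
    Fintype.card_bool, Fintype.card_fin]

end Pool.Agent.Helper157
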