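import Pool.Agent.Helper157.GS

set_option autoImplicit false

namespace Pool.Agent.Helper157

/-- `Q` is the positive cone of a total additive-group order on `K`. -/
structure TotAdd {K : Type} [AddCommGroup K] (Q : Set K) : Prop where
  zero : (0 : K) ∈ Q
  add : ∀ x ∈ Q, ∀ y ∈ Q, x + y ∈ Q
  anti : ∀ x, x ∈ Q → -x ∈ Q → x = 0
  total : ∀ x, x ∈ Q ∨ -x ∈ Q

/-- `Q` is the positive cone of a lattice order of the additive group `K`. -/
structure LatAdd {K : Type} [AddCommGroup K] (Q : Set K) : Prop where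
  zero : (0 : K) ∈ Q
  add : ∀ x ∈ Q, ∀ y ∈ Q, x + y ∈ Q
  anti : ∀ x, x ∈ Q → -x ∈ Q → x = 0
  join : ∀ x, ∃ s ∈ Q, s - x ∈ Q ∧ ∀ u ∈ Q, u - x ∈ Q → u - s ∈ Q

/-- The group of maps `x ↦ b + θ ^ j * x`. -/
@[ext] structure Aff (K : Type) [Field K] (θ : Kˣ) where
  b : K
  j : ℤ

instance Aff.instGroup (K : Type) [Field K] (θ : Kˣ) : Group (Aff K θ) where
  mul x y := ⟨x.b + (θ ^ x.j : Kˣ) * y.b, x.j + y.j⟩
  one := ⟨0, 0⟩
  inv x := ⟨-((θ ^ (-x.j) : Kˣ) * x.b), -x.j⟩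
  mul_assoc x y z := by
    apply Aff.ext
    · show (x.b + (θ ^ x.j : Kˣ) * y.b) + (θ ^ (x.j + y.j) : Kˣ) * z.b
        = x.b + (θ ^ x.j : Kˣ) * (y.b + (θ ^ y.j : Kˣ) * z.b)
      rw [zpow_add]; push_cast; ring
    · exact add_assoc _ _ _
  one_mul x := by
    apply Aff.ext
    · show (0 : K) + (θ ^ (0 : ℤ) : Kˣ) * x.b = x.b
      simp
    · exact zero_add _
  mul_one x := by
    apply Aff.ext
    · show x.b + (θ ^ x.j : Kˣ) * (0 : K) = x.b
      simp
    · exact add_zero _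
  inv_mul_cancel x := by
    apply Aff.ext
    · show -((θ ^ (-x.j) : Kˣ) * x.b) + (θ ^ (-x.j) : Kˣ) * x.b = (0 : K)
      simp
    · exact neg_add_cancel _

/-- `ψ` is an increasing bijection from the negative reals to the positive reals, compatible with
scaling by `lam`, which is affine to the right of each point with slope a power of `lam`. -/
structure Chart (lam : ℝ) (ψ : ℝ → ℝ) : Prop where
  pos : ∀ v < 0, 0 < ψ v
  mono : ∀ v w, v < w → w < 0 → ψ v < ψ w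
  surj : ∀ y > 0, ∃ v < 0, ψ v = y
  scale : ∀ v < 0, ψ (lam * v) = lam⁻¹ * ψ v
  slope : ∀ v < 0, ∃ i : ℤ, ∃ ε > 0, ∀ d, 0 ≤ d → d < ε → ψ (v + d) = ψ v + lam ^ i * d

end Pool.Agent.Helper157
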