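import Pool.Agent.Helper157.AbaDefs

set_option autoImplicit false

namespace Pool.Agent.Helper157

open Polynomial

namespace J266

section LG
variable {K : Type} [AddCommGroup K] [Lattice K] [IsOrderedAddMonoid K]

lemma inf_add_le' {a b c : K} (ha : 0 ≤ a) (hb : 0 ≤ b) (_hc : 0 ≤ c) :
    a ⊓ (b + c) ≤ a ⊓ b + a ⊓ c := by
  rw [add_inf]
  apply le_inf
  · have h1 : a ≤ a ⊓ b + a := by
      have : 0 ≤ a ⊓ b := le_inf ha hb
      simpa using add_le_add_left this a
    exact inf_le_left.trans h1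
  · rw [← sub_le_iff_le_add]
    apply le_inf
    · refine (sub_le_self _ _hc).trans inf_le_left
    · rw [sub_le_iff_le_add]
      exact inf_le_right

lemma disj_add {a b c : K} (ha : 0 ≤ a) (hb : 0 ≤ b) (hc : 0 ≤ c) (h1 : b ⊓ a = 0) (h2 : c ⊓ a = 0) :
    (b + c) ⊓ a = 0 := by
  apply le_antisymm
  · rw [inf_comm]
    refine (inf_add_le' ha hb hc).trans ?_
    rw [inf_comm a b, inf_comm a c, h1, h2, add_zero]
  · exact le_inf (add_nonneg hb hc) ha

omit [IsOrderedAddMonoid K] in
lemma disj_mono {a b c : K} (ha : 0 ≤ a) (hc : 0 ≤ c) (hcb : c ≤ b) (h1 : b ⊓ a = 0) : c ⊓ a = 0 := by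
  apply le_antisymm
  · rw [← h1]
    exact inf_le_inf_right a hcb
  · exact le_inf hc ha

lemma disj_nsmul {a b : K} (ha : 0 ≤ a) (hb : 0 ≤ b) (h1 : b ⊓ a = 0) (m : ℕ) : (m • b) ⊓ a = 0 := by
  induction m with
  | zero => rw [zero_nsmul]; exact inf_eq_left.2 ha
  | succ m ih => rw [succ_nsmul]; exact disj_add ha (nsmul_nonneg hb m) hb ih h1

lemma semiclosed {w : K} {m : ℕ} (hm : 1 ≤ m) (h : 0 ≤ m • w) : 0 ≤ w := by
  have h1 : w⁺ ⊓ w⁻ = 0 := posPart_inf_negPart_eq_zero w
  have h2 : (m • w⁺) ⊓ w⁻ = 0 := disj_nsmul (negPart_nonneg w) (posPart_nonneg w) h1 m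
  have h3 : (m • w⁻) ⊓ (m • w⁺) = 0 := by
    apply disj_nsmul (nsmul_nonneg (posPart_nonneg w) m) (negPart_nonneg w)
    rw [inf_comm]; exact h2
  have h4 : m • w⁻ ≤ m • w⁺ := by
    have h5 : m • w = m • w⁺ - m • w⁻ := by
      rw [← nsmul_sub, posPart_sub_negPart]
    rw [h5] at h
    exact sub_nonneg.1 h
  have h6 : m • w⁻ = 0 := by
    rw [← h3]; exact (inf_eq_left.2 h4).symm
  have h7 : w⁻ ≤ 0 := by
    rw [← h6]
    calc w⁻ = 1 • w⁻ := (one_nsmul _).symm
      _ ≤ m • w⁻ := nsmul_le_nsmul_left (negPart_nonneg w) hm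
  exact negPart_eq_zero.1 (le_antisymm h7 (negPart_nonneg w))

lemma abs_le_abs_nsmul (z : K) {m : ℕ} (hm : 1 ≤ m) : |z| ≤ |m • z| := by
  have h0 : |m • z| ≤ m • |m • z| := by
    calc |m • z| = 1 • |m • z| := (one_nsmul _).symm
      _ ≤ m • |m • z| := nsmul_le_nsmul_left (abs_nonneg _) hm
  have key : ∀ y : K, m • y ≤ |m • z| → y ≤ |m • z| := by
    intro y hy
    rw [← sub_nonneg]
    apply semiclosed hm
    rw [nsmul_sub]
    exact sub_nonneg.2 (hy.trans h0)
  apply sup_le
  · exact key z (le_abs_self _)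
  · apply key
    rw [smul_neg]
    exact neg_le_abs _

/-- the polar of a positive element -/
def polar [Module ℚ K] (x : K) (hx : 0 ≤ x) : Submodule ℚ K where
  carrier := {y | |y| ⊓ x = 0}
  add_mem' := by
    intro a b ha hb
    have ha' : |a| ⊓ x = 0 := ha
    have hb' : |b| ⊓ x = 0 := hb
    exact disj_mono hx (abs_nonneg _) (abs_add_le a b) (disj_add hx (abs_nonneg _) (abs_nonneg _) ha' hb')
  zero_mem' := by
    show |(0 : K)| ⊓ x = 0
    rw [abs_zero]; exact inf_eq_left.2 hx
  smul_mem' := by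
    intro r y hy
    have hy' : |y| ⊓ x = 0 := hy
    have hn : ∀ m : ℕ, ∀ y : K, |y| ⊓ x = 0 → |m • y| ⊓ x = 0 := by
      intro m y hy
      refine disj_mono hx (abs_nonneg _) ?_ (disj_nsmul hx (abs_nonneg _) hy m)
      apply sup_le
      · exact nsmul_le_nsmul_right (le_abs_self y) m
      · rw [← smul_neg]
        exact nsmul_le_nsmul_right (neg_le_abs y) m
    have hz : ∀ m : ℤ, |m • y| ⊓ x = 0 := by
      intro m
      rcases Int.natAbs_eq m with h | h
      · rw [h, natCast_zsmul]; exact hn _ _ hy'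
      · rw [h, neg_zsmul, natCast_zsmul, abs_neg]; exact hn _ _ hy'
    show |r • y| ⊓ x = 0
    have h1 : r.den • (r • y) = r.num • y := by
      rw [← Nat.cast_smul_eq_nsmul ℚ, ← Int.cast_smul_eq_zsmul ℚ, smul_smul]
      congr 1
      rw [mul_comm]; exact Rat.mul_den_eq_num r
    refine disj_mono hx (abs_nonneg _) (abs_le_abs_nsmul (r • y) (m := r.den) r.den_pos) ?_
    rw [h1]
    exact hz _

lemma mem_polar [Module ℚ K] {x : K} (hx : 0 ≤ x) {y : K} : y ∈ polar x hx ↔ |y| ⊓ x = 0 := Iff.rfl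

lemma polar_mono [Module ℚ K] {x x' : K} (hx : 0 ≤ x) (hx' : 0 ≤ x') (h : x' ≤ x) :
    polar x hx ≤ polar x' hx' := by
  intro y hy
  rw [mem_polar] at hy ⊢
  rw [inf_comm] at hy ⊢
  exact disj_mono (abs_nonneg y) hx' h hy

lemma self_notMem [Module ℚ K] {x : K} (hx : 0 < x) : x ∉ polar x hx.le := by
  intro h
  rw [mem_polar, abs_of_nonneg hx.le, inf_idem] at h
  exact hx.ne' h

lemma indep [Module ℚ K] {ι : Type} [Fintype ι] (x : ι → K) (hx : ∀ i, 0 < x i)
    (hd : ∀ i j, i ≠ j → x i ⊓ x j = 0) : LinearIndependent ℚ x := by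
  classical
  rw [Fintype.linearIndependent_iff]
  intro g hg j
  by_contra hj
  have h1 : ∑ i ∈ Finset.univ.erase j, g i • x i ∈ polar (x j) (hx j).le := by
    apply Submodule.sum_mem
    intro i hi
    apply Submodule.smul_mem
    rw [mem_polar, abs_of_nonneg (hx i).le]
    exact hd i j (Finset.ne_of_mem_erase hi)
  have h2 : g j • x j = - ∑ i ∈ Finset.univ.erase j, g i • x i := by
    rw [← Finset.add_sum_erase _ _ (Finset.mem_univ j)] at hg
    exact eq_neg_of_add_eq_zero_left hg
  have h3 : g j • x j ∈ polar (x j) (hx j).le := by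
    rw [h2]; exact Submodule.neg_mem _ h1
  have h4 : x j ∈ polar (x j) (hx j).le := by
    have := Submodule.smul_mem _ (g j)⁻¹ h3
    rwa [smul_smul, inv_mul_cancel₀ hj, one_smul] at this
  exact self_notMem (hx j) h4

end LG

theorem main {K : Type} [Field K] [Algebra ℚ K] [FiniteDimensional ℚ K] [Lattice K]
    [IsOrderedAddMonoid K] (θ : K) (hθ0 : θ ≠ 0) (hθ : ∀ x, 0 ≤ θ * x ↔ 0 ≤ x)
    (hgen : ∀ N : ℕ, 1 ≤ N → Algebra.adjoin ℚ {θ ^ N} = ⊤) : ∀ x : K, 0 ≤ x ∨ x ≤ 0 := by
  -- powers of theta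
  have hpow : ∀ (k : ℕ) (x : K), 0 ≤ θ ^ k * x ↔ 0 ≤ x := by
    intro k
    induction k with
    | zero => intro x; rw [pow_zero, one_mul]
    | succ k ih => intro x; rw [pow_succ', mul_assoc, hθ, ih]
  have hpos : ∀ (k : ℕ) (x : K), 0 < x → 0 < θ ^ k * x := by
    intro k x hx
    refine lt_of_le_of_ne ((hpow k x).2 hx.le) (Ne.symm (mul_ne_zero (pow_ne_zero _ hθ0) hx.ne'))
  let e : ℕ → (K ≃o K) := fun k =>
    { toEquiv := Equiv.mulLeft₀ (θ ^ k) (pow_ne_zero _ hθ0)
      map_rel_iff' := by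
        intro a b
        show θ ^ k * a ≤ θ ^ k * b ↔ a ≤ b
        rw [← sub_nonneg, ← mul_sub, hpow, sub_nonneg] }
  have he : ∀ k x, e k x = θ ^ k * x := fun k x => rfl
  have hmem : ∀ (k : ℕ) (x : K) (hx : 0 < x) (y : K),
      θ ^ k * y ∈ polar (θ ^ k * x) (hpos k x hx).le ↔ y ∈ polar x hx.le := by
    intro k x hx y
    rw [mem_polar, mem_polar]
    have h1 : |θ ^ k * y| = e k |y| := by
      show θ ^ k * y ⊔ -(θ ^ k * y) = e k (y ⊔ -y)
      rw [OrderIso.map_sup, he, he, mul_neg]
    have h2 : |θ ^ k * y| ⊓ θ ^ k * x = θ ^ k * (|y| ⊓ x) := by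
      rw [h1, ← he k x, ← OrderIso.map_inf, he]
    rw [h2, mul_eq_zero, or_iff_right (pow_ne_zero _ hθ0)]
  -- there is a positive element or the order is trivial
  by_cases hex : ∃ x : K, 0 < x
  swap
  · push Not at hex
    intro x
    left
    have h1 : x⁻ = 0 := by
      by_contra h
      exact hex _ (lt_of_le_of_ne (negPart_nonneg x) (Ne.symm h))
    exact negPart_eq_zero.1 h1
  -- maximal dimension
  let D : Set ℕ := {d | ∃ (x : K) (hx : 0 < x), Module.finrank ℚ (polar x hx.le) = d}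
  have hDne : D.Nonempty := by
    obtain ⟨x, hx⟩ := hex
    exact ⟨_, x, hx, rfl⟩
  have hDb : BddAbove D := by
    refine ⟨Module.finrank ℚ K, ?_⟩
    rintro d ⟨x, hx, rfl⟩
    exact Submodule.finrank_le _
  obtain ⟨x, hx, hxd⟩ := Nat.sSup_mem hDne hDb
  have hmax : ∀ (y : K) (hy : 0 < y), Module.finrank ℚ (polar y hy.le) ≤ Module.finrank ℚ (polar x hx.le) := by
    intro y hy
    rw [hxd]
    exact le_csSup hDb ⟨y, hy, rfl⟩
  have hdim : ∀ k : ℕ, Module.finrank ℚ (polar (θ ^ k * x) (hpos k x hx).le) =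
      Module.finrank ℚ (polar x hx.le) := by
    intro k
    let L : K ≃ₗ[ℚ] K := LinearEquiv.ofBijective (LinearMap.mulLeft ℚ (θ ^ k))
      ⟨mul_right_injective₀ (pow_ne_zero _ hθ0), fun y => ⟨(θ ^ k)⁻¹ * y, by
        show θ ^ k * ((θ ^ k)⁻¹ * y) = y
        rw [mul_inv_cancel_left₀ (pow_ne_zero _ hθ0)]⟩⟩
    have h1 : polar (θ ^ k * x) (hpos k x hx).le = (polar x hx.le).map (L : K →ₗ[ℚ] K) := by
      ext y
      rw [Submodule.mem_map]
      constructor
      · intro hy
        refine ⟨(θ ^ k)⁻¹ * y, ?_, ?_⟩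
        · rw [← hmem k x hx, mul_inv_cancel_left₀ (pow_ne_zero _ hθ0)]
          exact hy
        · show θ ^ k * ((θ ^ k)⁻¹ * y) = y
          rw [mul_inv_cancel_left₀ (pow_ne_zero _ hθ0)]
      · rintro ⟨z, hz, rfl⟩
        exact (hmem k x hx z).2 hz
    rw [h1]
    exact LinearEquiv.finrank_map_eq L _
  -- two members of the orbit are not disjoint
  have hnd : ∃ i j : Fin (Module.finrank ℚ K + 1), i < j ∧
      (θ ^ (i : ℕ) * x) ⊓ (θ ^ (j : ℕ) * x) ≠ 0 := by
    by_contra hcon
    push Not at hcon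
    have h1 : LinearIndependent ℚ (fun i : Fin (Module.finrank ℚ K + 1) => θ ^ (i : ℕ) * x) := by
      apply indep _ (fun i => hpos _ x hx)
      intro i j hij
      rcases lt_or_gt_of_ne hij with h | h
      · exact hcon i j h
      · rw [inf_comm]; exact hcon j i h
    have h2 := h1.fintype_card_le_finrank
    rw [Fintype.card_fin] at h2
    omega
  obtain ⟨i, j, hij, hne⟩ := hnd
  set z := (θ ^ (i : ℕ) * x) ⊓ (θ ^ (j : ℕ) * x) with hz
  have hz0 : 0 < z := lt_of_le_of_ne (le_inf (hpos _ x hx).le (hpos _ x hx).le) (Ne.symm hne)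
  have hPi : polar (θ ^ (i : ℕ) * x) (hpos _ x hx).le = polar z hz0.le := by
    apply Submodule.eq_of_le_of_finrank_le (polar_mono _ _ inf_le_left)
    rw [hdim]
    exact hmax z hz0
  have hPj : polar (θ ^ (j : ℕ) * x) (hpos _ x hx).le = polar z hz0.le := by
    apply Submodule.eq_of_le_of_finrank_le (polar_mono _ _ inf_le_right)
    rw [hdim]
    exact hmax z hz0
  have hinv : ∀ y ∈ polar x hx.le, θ ^ ((j : ℕ) - i) * y ∈ polar x hx.le := by
    intro y hy
    rw [← hmem i x hx, ← mul_assoc, ← pow_add]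
    have h1 : (i : ℕ) + ((j : ℕ) - i) = j := by
      have : (i : ℕ) < j := hij
      omega
    rw [h1, hPi, ← hPj]
    exact (hmem j x hx y).2 hy
  have hN : 1 ≤ (j : ℕ) - i := by
    have : (i : ℕ) < j := hij
    omega
  have hideal : ∀ a : K, ∀ y ∈ polar x hx.le, a * y ∈ polar x hx.le := by
    intro a
    have ha : a ∈ Algebra.adjoin ℚ {θ ^ ((j : ℕ) - i)} := by rw [hgen _ hN]; trivial
    induction ha using Algebra.adjoin_induction with
    | mem b hb => rw [Set.mem_singleton_iff.1 hb]; exact hinv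
    | algebraMap r =>
      intro y hy
      rw [← Algebra.smul_def]
      exact Submodule.smul_mem _ r hy
    | add a b _ _ iha ihb => intro y hy; rw [add_mul]; exact Submodule.add_mem _ (iha y hy) (ihb y hy)
    | mul a b _ _ iha ihb => intro y hy; rw [mul_assoc]; exact iha _ (ihb y hy)
  have hP0 : polar x hx.le = ⊥ := by
    rw [eq_bot_iff]
    intro y hy
    rw [Submodule.mem_bot]
    by_contra hy0
    apply self_notMem hx
    have := hideal (x * y⁻¹) y hy
    rwa [mul_assoc, inv_mul_cancel₀ hy0, mul_one] at this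
  have hall : ∀ (y : K) (hy : 0 < y), polar y hy.le = ⊥ := by
    intro y hy
    have h1 := hmax y hy
    rw [hP0, finrank_bot] at h1
    exact Submodule.finrank_eq_zero.1 (Nat.le_zero.1 h1)
  intro y
  by_cases hy : y⁺ = 0
  · right
    exact posPart_eq_zero.1 hy
  · left
    have hy' : 0 < y⁺ := lt_of_le_of_ne (posPart_nonneg y) (Ne.symm hy)
    have h1 : y⁻ ∈ polar y⁺ hy'.le := by
      rw [mem_polar, abs_of_nonneg (negPart_nonneg y), inf_comm]
      exact posPart_inf_negPart_eq_zero y
    rw [hall _ hy', Submodule.mem_bot] at h1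
    exact negPart_eq_zero.1 h1

end J266


namespace J266

/-- the partial order -/
@[reducible] def po {K : Type} [AddCommGroup K] {Q : Set K} (hQ : LatAdd Q) : PartialOrder K where
  le a b := b - a ∈ Q
  le_refl a := by rw [sub_self]; exact hQ.zero
  le_trans a b c hab hbc := by
    have := hQ.add _ hbc _ hab
    rwa [sub_add_sub_cancel] at this
  le_antisymm a b hab hba := by
    have := hQ.anti _ hab (by rwa [neg_sub])
    exact (sub_eq_zero.1 this).symm

/-- the lattice -/
@[reducible] noncomputable def lat {K : Type} [AddCommGroup K] {Q : Set K} (hQ : LatAdd Q) : Lattice K where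
  toPartialOrder := po hQ
  sup a b := a + (hQ.join (b - a)).choose
  inf a b := -(-a + (hQ.join (-b - -a)).choose)
  le_sup_left a b := by
    show a + _ - a ∈ Q
    rw [add_sub_cancel_left]
    exact (hQ.join (b - a)).choose_spec.1
  le_sup_right a b := by
    show a + _ - b ∈ Q
    have := (hQ.join (b - a)).choose_spec.2.1
    convert this using 1
    abel
  sup_le a b c hac hbc := by
    show c - (a + _) ∈ Q
    have := (hQ.join (b - a)).choose_spec.2.2 (c - a) hac (by
      have h : c - a - (b - a) = c - b := by abel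
      rw [h]; exact hbc)
    convert this using 1
    abel
  inf_le_left a b := by
    show a - -(-a + _) ∈ Q
    have := (hQ.join (-b - -a)).choose_spec.1
    convert this using 1
    abel
  inf_le_right a b := by
    show b - -(-a + _) ∈ Q
    have := (hQ.join (-b - -a)).choose_spec.2.1
    convert this using 1
    abel
  le_inf a b c hab hac := by
    show -(-b + _) - a ∈ Q
    have := (hQ.join (-c - -b)).choose_spec.2.2 (b - a) hab (by
      have h : b - a - (-c - -b) = c - a := by abel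
      rw [h]; exact hac)
    convert this using 1
    abel

end J266

/-- A lattice order of the additive group of the number field `ℚ[X]/(f)` which is invariant under
multiplication by the root `θ` and by `θ⁻¹` is total, when `f` has `deg f` distinct positive real
roots. -/
theorem latAdd_total (n : ℕ) (hn : 1 ≤ n) (f : ℚ[X]) (hf : Irreducible f) (hdeg : f.natDegree = n)
    (α : Fin n → ℝ) (hinj : Function.Injective α) (hpos : ∀ i, 0 < α i)
    (hroot : ∀ i, aeval (α i) f = 0) (Q : Set (AdjoinRoot f)) (hQ : LatAdd Q)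
    (hθ : ∀ x, AdjoinRoot.root f * x ∈ Q ↔ x ∈ Q) :
    ∀ x, x ∈ Q ∨ -x ∈ Q := by
  classical
  have : Fact (Irreducible f) := ⟨hf⟩
  have hf0 : f ≠ 0 := hf.ne_zero
  have hfd : FiniteDimensional ℚ (AdjoinRoot f) := PowerBasis.finite (AdjoinRoot.powerBasis hf0)
  have hfr : Module.finrank ℚ (AdjoinRoot f) = n := by
    rw [PowerBasis.finrank (AdjoinRoot.powerBasis hf0), AdjoinRoot.powerBasis_dim, hdeg]
  -- embeddings
  let σ : Fin n → (AdjoinRoot f →ₐ[ℚ] ℝ) := fun i => AdjoinRoot.liftAlgHom f (Algebra.ofId ℚ ℝ) (α i) (by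
    simpa [aeval_def] using hroot i)
  have hσ : ∀ i, σ i (AdjoinRoot.root f) = α i := by
    intro i
    exact AdjoinRoot.lift_root (h := by simpa [aeval_def] using hroot i)
  have hθ0 : AdjoinRoot.root f ≠ 0 := by
    intro h
    have h1 := hσ ⟨0, by omega⟩
    rw [h, map_zero] at h1
    exact (hpos _).ne h1
  have hgen : ∀ N : ℕ, 1 ≤ N → Algebra.adjoin ℚ {(AdjoinRoot.root f) ^ N} = ⊤ := by
    intro N hN
    set β := (AdjoinRoot.root f) ^ N with hβ
    have hint : IsIntegral ℚ β := IsIntegral.of_finite ℚ β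
    have hmin : n ≤ (minpoly ℚ β).natDegree := by
      let p : ℝ[X] := (minpoly ℚ β).map (algebraMap ℚ ℝ)
      have hp0 : p ≠ 0 := (Polynomial.map_ne_zero_iff (algebraMap ℚ ℝ).injective).2 (minpoly.ne_zero hint)
      have h1 : (Finset.univ.image (fun i => α i ^ N)) ⊆ p.roots.toFinset := by
        intro r hr
        obtain ⟨i, -, rfl⟩ := Finset.mem_image.1 hr
        rw [Multiset.mem_toFinset, Polynomial.mem_roots hp0, IsRoot.def, eval_map_algebraMap]
        have h2 : (α i) ^ N = σ i β := by rw [hβ, map_pow, hσ]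
        rw [h2, Polynomial.aeval_algHom_apply, minpoly.aeval, map_zero]
      have h2 : (Finset.univ.image (fun i => α i ^ N)).card = n := by
        rw [Finset.card_image_of_injective, Finset.card_univ, Fintype.card_fin]
        intro i j hij
        apply hinj
        exact (pow_left_inj₀ (hpos i).le (hpos j).le (by omega)).1 hij
      calc n = (Finset.univ.image (fun i => α i ^ N)).card := h2.symm
        _ ≤ p.roots.toFinset.card := Finset.card_le_card h1
        _ ≤ Multiset.card p.roots := Multiset.toFinset_card_le _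
        _ ≤ p.natDegree := Polynomial.card_roots' p
        _ = _ := Polynomial.natDegree_map _
    have h3 : (minpoly ℚ β).natDegree = Module.finrank ℚ (AdjoinRoot f) := by
      apply le_antisymm (minpoly.natDegree_le β)
      rw [hfr]; exact hmin
    have h4 := (Field.primitive_element_iff_minpoly_natDegree_eq ℚ β).2 h3
    rw [← IntermediateField.adjoin_simple_toSubalgebra_of_isAlgebraic hint.isAlgebraic, h4]
    rfl
  let _ : Lattice (AdjoinRoot f) := J266.lat hQ
  have : IsOrderedAddMonoid (AdjoinRoot f) := 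
    { add_le_add_left := by
        intro a b hab c
        show (_ + _) - (_ + _) ∈ Q
        have : b - a ∈ Q := hab
        convert this using 1
        abel
      add_le_add_right := by
        intro a b hab c
        show (_ + _) - (_ + _) ∈ Q
        have : b - a ∈ Q := hab
        convert this using 1
        abel }
  have hle : ∀ x : AdjoinRoot f, 0 ≤ x ↔ x ∈ Q := by
    intro x
    show x - 0 ∈ Q ↔ _
    rw [sub_zero]
  have hmain := J266.main (AdjoinRoot.root f) hθ0 (by
    intro x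
    rw [hle, hle]
    exact hθ x) hgen
  intro x
  rcases hmain x with h | h
  · left; exact (hle x).1 h
  · right
    have : (0 : AdjoinRoot f) - x ∈ Q := h
    rwa [zero_sub] at this

end Pool.Agent.Helper157
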