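import Pool.Agent.Helper157.AbaDefs

set_option autoImplicit false

namespace Pool.Agent.Helper157

namespace GermModel

section basic

variable {lam : ℝ} {ψ : ℝ → ℝ}

theorem Chart.inj (hψ : Chart lam ψ) {v w : ℝ} (hv : v < 0) (hw : w < 0) (h : ψ v = ψ w) :
    v = w := by
  rcases lt_trichotomy v w with h1 | h1 | h1
  · exact absurd h (hψ.mono v w h1 hw).ne
  · exact h1
  · exact absurd h (hψ.mono w v h1 hv).ne'

theorem Chart.lt_of_lt (hψ : Chart lam ψ) {v w : ℝ} (hv : v < 0) (hw : w < 0)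
    (h : ψ v < ψ w) : v < w := by
  by_contra hc
  rcases (not_lt.1 hc).lt_or_eq with h1 | h1
  · exact absurd (hψ.mono w v h1 hv) (by linarith [h])
  · rw [h1] at h; exact lt_irrefl _ h

theorem scale_nat (hψ : Chart lam ψ) (hlam : 1 < lam) (n : ℕ) {v : ℝ} (hv : v < 0) :
    ψ (lam ^ n * v) = (lam ^ n)⁻¹ * ψ v := by
  induction n with
  | zero => simp
  | succ n ih =>
    have h1 : lam ^ n * v < 0 := mul_neg_of_pos_of_neg (by positivity) hv
    rw [pow_succ', mul_assoc, hψ.scale _ h1, ih, mul_inv, mul_assoc]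

theorem scale_zpow (hψ : Chart lam ψ) (hlam : 1 < lam) (k : ℤ) {v : ℝ} (hv : v < 0) :
    ψ (lam ^ k * v) = (lam ^ k)⁻¹ * ψ v := by
  have hl : 0 < lam := by linarith
  obtain ⟨n, rfl | rfl⟩ := k.eq_nat_or_neg
  · rw [zpow_natCast]; exact scale_nat hψ hlam n hv
  · have h1 : (lam ^ (-(n : ℤ))) * v < 0 := mul_neg_of_pos_of_neg (by positivity) hv
    have h2 := scale_nat hψ hlam n h1
    have h3 : lam ^ n * (lam ^ (-(n : ℤ)) * v) = v := by
      rw [zpow_neg, zpow_natCast]; field_simp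
    rw [h3] at h2
    rw [h2, zpow_neg, zpow_natCast]
    have : (0 : ℝ) < lam ^ n := by positivity
    field_simp

theorem act_lt (hlam : 1 < lam) (k : ℤ) (b N : ℝ) : ∃ M < 0, ∀ v < M, lam ^ k * v + b < N := by
  have hl : 0 < lam := by linarith
  have hk : 0 < lam ^ k := zpow_pos hl k
  refine ⟨min (-1) ((N - b) / lam ^ k), by
    have := min_le_left (-1) ((N - b) / lam ^ k); linarith, fun v hv => ?_⟩
  have h1 : v < (N - b) / lam ^ k := hv.trans_le (min_le_right _ _)
  rw [lt_div_iff₀ hk] at h1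
  linarith

/-- the right germ of `f` at `x` in the chart is `v ↦ lam ^ k * v + b` -/
def HasGerm (lam : ℝ) (ψ : ℝ → ℝ) (f : ℝ → ℝ) (x : ℝ) (k : ℤ) (b : ℝ) : Prop :=
  ∃ M < 0, ∀ v < M, f (x + ψ v) = f x + ψ (lam ^ k * v + b)

theorem HasGerm.comp (hlam : 1 < lam) {f g : ℝ → ℝ} {x : ℝ} {k k' : ℤ} {b b' : ℝ}
    (hg : HasGerm lam ψ g x k b) (hf : HasGerm lam ψ f (g x) k' b') :
    HasGerm lam ψ (fun t => f (g t)) x (k' + k) (b' + lam ^ k' * b) := by
  obtain ⟨M1, hM1, h1⟩ := hg
  obtain ⟨M2, hM2, h2⟩ := hf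
  obtain ⟨M3, hM3, h3⟩ := act_lt hlam k b M2
  refine ⟨min M1 M3, by have := min_le_left M1 M3; linarith, fun v hv => ?_⟩
  have hv1 : v < M1 := hv.trans_le (min_le_left _ _)
  have hv3 : v < M3 := hv.trans_le (min_le_right _ _)
  simp only
  rw [h1 v hv1, h2 _ (h3 v hv3)]
  congr 2
  have hl : lam ≠ 0 := by linarith
  rw [zpow_add₀ hl]
  ring

theorem HasGerm.unique (hψ : Chart lam ψ) (hlam : 1 < lam) {f : ℝ → ℝ} {x : ℝ} {k k' : ℤ}
    {b b' : ℝ} (h : HasGerm lam ψ f x k b) (h' : HasGerm lam ψ f x k' b') :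
    k = k' ∧ b = b' := by
  obtain ⟨M1, hM1, h1⟩ := h
  obtain ⟨M2, hM2, h2⟩ := h'
  obtain ⟨M3, hM3, h3⟩ := act_lt hlam k b 0
  obtain ⟨M4, hM4, h4⟩ := act_lt hlam k' b' 0
  have key : ∀ v, v < min (min M1 M2) (min M3 M4) → lam ^ k * v + b = lam ^ k' * v + b' := by
    intro v hv
    have hv1 : v < M1 := hv.trans_le ((min_le_left _ _).trans (min_le_left _ _))
    have hv2 : v < M2 := hv.trans_le ((min_le_left _ _).trans (min_le_right _ _))
    have hv3 : v < M3 := hv.trans_le ((min_le_right _ _).trans (min_le_left _ _))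
    have hv4 : v < M4 := hv.trans_le ((min_le_right _ _).trans (min_le_right _ _))
    have h5 := h1 v hv1
    rw [h2 v hv2] at h5
    exact (Chart.inj hψ (h4 v hv4) (h3 v hv3) (by linarith)).symm
  set M := min (min M1 M2) (min M3 M4)
  have e1 := key (M - 1) (by linarith)
  have e2 := key (M - 2) (by linarith)
  have e3 : lam ^ k = lam ^ k' := by linarith
  refine ⟨zpow_right_injective₀ (by linarith) (by linarith) e3, ?_⟩
  rw [e3] at e1
  linarith

theorem HasGerm.congr (hψ : Chart lam ψ) {f g : ℝ → ℝ} {x y : ℝ} {k : ℤ} {b : ℝ} (hxy : x < y)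
    (h : ∀ t, x ≤ t → t < y → f t = g t) (hg : HasGerm lam ψ g x k b) :
    HasGerm lam ψ f x k b := by
  obtain ⟨M1, hM1, h1⟩ := hg
  obtain ⟨w, hw, hw'⟩ := hψ.surj (y - x) (by linarith)
  refine ⟨min M1 w, by have := min_le_left M1 w; linarith, fun v hv => ?_⟩
  have hv1 : v < M1 := hv.trans_le (min_le_left _ _)
  have hv2 : v < w := hv.trans_le (min_le_right _ _)
  have h3 : ψ v < y - x := by rw [← hw']; exact hψ.mono v w hv2 hw
  have h4 : 0 < ψ v := hψ.pos v (by linarith)
  rw [h (x + ψ v) (by linarith) (by linarith), h x le_rfl hxy, h1 v hv1]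

/-- right affine with slope a power of `lam` -/
def RA (lam : ℝ) (f : ℝ → ℝ) (t : ℝ) : Prop :=
  ∃ i : ℤ, ∃ ε > 0, ∀ d, 0 ≤ d → d < ε → f (t + d) = f t + lam ^ i * d

theorem RA.comp (hlam : 1 < lam) {f g : ℝ → ℝ} {t : ℝ} (hg : RA lam g t)
    (hf : RA lam f (g t)) : RA lam (fun s => f (g s)) t := by
  have hl : 0 < lam := by linarith
  obtain ⟨i, ε, hε, h1⟩ := hg
  obtain ⟨i', ε', hε', h2⟩ := hf
  have hi : 0 < lam ^ i := zpow_pos hl i
  refine ⟨i' + i, min ε (ε' / lam ^ i), lt_min hε (div_pos hε' hi), fun d hd0 hd => ?_⟩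
  have hd1 : d < ε := hd.trans_le (min_le_left _ _)
  have hd2 : d < ε' / lam ^ i := hd.trans_le (min_le_right _ _)
  rw [lt_div_iff₀ hi] at hd2
  simp only
  rw [h1 d hd0 hd1, h2 _ (by positivity) (by linarith), zpow_add₀ hl.ne']
  ring

theorem RA.congr {f g : ℝ → ℝ} {t y : ℝ} (hty : t < y)
    (h : ∀ s, t ≤ s → s < y → f s = g s) (hg : RA lam g t) : RA lam f t := by
  obtain ⟨i, ε, hε, h1⟩ := hg
  refine ⟨i, min ε (y - t), lt_min hε (by linarith), fun d hd0 hd => ?_⟩
  have hd1 : d < ε := hd.trans_le (min_le_left _ _)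
  have hd2 : d < y - t := hd.trans_le (min_le_right _ _)
  rw [h (t + d) (by linarith) (by linarith), h t le_rfl hty, h1 d hd0 hd1]

theorem RA.add_const {f : ℝ → ℝ} {t : ℝ} (c : ℝ) (hf : RA lam f t) :
    RA lam (fun s => c + f s) t := by
  obtain ⟨i, ε, hε, h1⟩ := hf
  exact ⟨i, ε, hε, fun d h0 h => by simp only; rw [h1 d h0 h]; ring⟩

theorem RA.shift (c t : ℝ) : RA lam (fun s => s + c) t :=
  ⟨0, 1, one_pos, fun d _ _ => by simp; ring⟩

theorem RA.affine (k : ℤ) (b t : ℝ) : RA lam (fun s => lam ^ k * s + b) t :=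
  ⟨k, 1, one_pos, fun d _ _ => by simp only; ring⟩

theorem RA.psi (hψ : Chart lam ψ) {v : ℝ} (hv : v < 0) : RA lam ψ v := hψ.slope v hv

theorem RA.hasGerm (hψ : Chart lam ψ) (hlam : 1 < lam) {f : ℝ → ℝ} {t : ℝ} (hf : RA lam f t) :
    ∃ k : ℤ, HasGerm lam ψ f t k 0 := by
  have hl : 0 < lam := by linarith
  obtain ⟨i, ε, hε, h1⟩ := hf
  obtain ⟨w, hw, hw'⟩ := hψ.surj ε hε
  refine ⟨-i, w, hw, fun v hv => ?_⟩
  have h3 : ψ v < ε := by rw [← hw']; exact hψ.mono v w hv hw
  have h4 : 0 < ψ v := hψ.pos v (by linarith)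
  rw [h1 _ h4.le h3, add_zero, scale_zpow hψ hlam (-i) (by linarith : v < 0), zpow_neg, inv_inv]

/-- inverse of `ψ` -/
noncomputable def chi (ψ : ℝ → ℝ) (s : ℝ) : ℝ := by
  classical
  exact if h : ∃ v < 0, ψ v = s then h.choose else 0

theorem chi_spec (hψ : Chart lam ψ) {s : ℝ} (hs : 0 < s) : chi ψ s < 0 ∧ ψ (chi ψ s) = s := by
  have h := hψ.surj s hs
  unfold chi
  rw [dif_pos h]
  exact ⟨h.choose_spec.1, h.choose_spec.2⟩

theorem chi_psi (hψ : Chart lam ψ) {v : ℝ} (hv : v < 0) : chi ψ (ψ v) = v := by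
  have h := chi_spec hψ (hψ.pos v hv)
  exact Chart.inj hψ h.1 hv h.2

theorem chi_lt (hψ : Chart lam ψ) {s s' : ℝ} (hs : 0 < s) (h : s < s') :
    chi ψ s < chi ψ s' := by
  have h1 := chi_spec hψ hs
  have h2 := chi_spec hψ (hs.trans h)
  exact Chart.lt_of_lt hψ h1.1 h2.1 (by rw [h1.2, h2.2]; exact h)

theorem RA.chi (hψ : Chart lam ψ) (hlam : 1 < lam) {s : ℝ} (hs : 0 < s) :
    RA lam (GermModel.chi ψ) s := by
  have hl : 0 < lam := by linarith
  obtain ⟨h1, h2⟩ := chi_spec hψ hs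
  obtain ⟨i, ε, hε, h3⟩ := hψ.slope _ h1
  have hi : 0 < lam ^ i := zpow_pos hl i
  refine ⟨-i, lam ^ i * min ε (-(GermModel.chi ψ s)), by
    have : 0 < min ε (-(GermModel.chi ψ s)) := lt_min hε (by linarith)
    positivity, fun d hd0 hd => ?_⟩
  have hd' : (lam ^ i)⁻¹ * d < min ε (-(GermModel.chi ψ s)) := by
    rw [inv_mul_lt_iff₀ hi]; exact hd
  have hd1 := hd'.trans_le (min_le_left _ _)
  have hd2 := hd'.trans_le (min_le_right _ _)
  have h4 := h3 _ (by positivity) hd1
  rw [h2, ← mul_assoc, mul_inv_cancel₀ hi.ne', one_mul] at h4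
  rw [← h4, chi_psi hψ (by linarith), zpow_neg]

end basic

section pieces

/-- `E` maps `[a, b)` onto `[a2, b2)` increasingly -/
structure Piece (E : ℝ → ℝ) (a b a2 b2 : ℝ) : Prop where
  maps : ∀ t, a ≤ t → t < b → a2 ≤ E t ∧ E t < b2
  mono : ∀ s t, a ≤ s → s < t → t < b → E s < E t
  surj : ∀ y, a2 ≤ y → y < b2 → ∃ t, a ≤ t ∧ t < b ∧ E t = y

theorem Piece.glue {E F : ℝ → ℝ} {a b c a2 b2 c2 : ℝ} (h1 : Piece E a b a2 b2)
    (h2 : Piece F b c b2 c2) (hab : a ≤ b) (hbc : b ≤ c) (hab2 : a2 ≤ b2) (hbc2 : b2 ≤ c2) :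
    Piece (fun t => if t < b then E t else F t) a c a2 c2 := by
  constructor
  · intro t ht1 ht2
    by_cases h : t < b
    · simp only [h, if_true]
      have := h1.maps t ht1 h
      exact ⟨this.1, this.2.trans_le hbc2⟩
    · simp only [h, if_false]
      have := h2.maps t (not_lt.1 h) ht2
      exact ⟨hab2.trans this.1, this.2⟩
  · intro s t hs hst ht
    by_cases h : t < b
    · simp only [h, hst.trans h, if_true]
      exact h1.mono s t hs hst h
    · by_cases h' : s < b
      · simp only [h, h', if_true, if_false]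
        exact (h1.maps s hs h').2.trans_le (h2.maps t (not_lt.1 h) ht).1
      · simp only [h, h', if_false]
        exact h2.mono s t (not_lt.1 h') hst ht
  · intro y hy1 hy2
    by_cases h : y < b2
    · obtain ⟨t, ht1, ht2, ht3⟩ := h1.surj y hy1 h
      exact ⟨t, ht1, ht2.trans_le hbc, by simp [ht2, ht3]⟩
    · obtain ⟨t, ht1, ht2, ht3⟩ := h2.surj y (not_lt.1 h) hy2
      exact ⟨t, hab.trans ht1, ht2, by simp [not_lt.2 ht1, ht3]⟩

variable {lam : ℝ} {ψ : ℝ → ℝ}

theorem interval_first (hψ : Chart lam ψ) (hlam : 1 < lam) (a a2 : ℝ) (k : ℤ) (β v0 : ℝ)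
    (hv0 : v0 < 0) (hw0 : lam ^ k * v0 + β < 0) :
    ∃ E : ℝ → ℝ, Piece E a (a + ψ v0) a2 (a2 + ψ (lam ^ k * v0 + β)) ∧ E a = a2 ∧
      HasGerm lam ψ E a k β ∧ ∀ t, a < t → t < a + ψ v0 → RA lam E t := by
  have hl : 0 < lam := by linarith
  have hk : 0 < lam ^ k := zpow_pos hl k
  set E : ℝ → ℝ := fun t => if t ≤ a then a2 else a2 + ψ (lam ^ k * chi ψ (t - a) + β) with hE
  have hEa : E a = a2 := by simp [hE]
  have hEgt : ∀ t, a < t → E t = a2 + ψ (lam ^ k * chi ψ (t - a) + β) := by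
    intro t ht
    simp [hE, not_le.2 ht]
  have hchi : ∀ t, a < t → t < a + ψ v0 → chi ψ (t - a) < v0 := by
    intro t ht1 ht2
    have h1 := chi_lt hψ (s := t - a) (s' := ψ v0) (by linarith) (by linarith)
    rwa [chi_psi hψ hv0] at h1
  have hneg : ∀ t, a < t → t < a + ψ v0 → lam ^ k * chi ψ (t - a) + β < lam ^ k * v0 + β := by
    intro t ht1 ht2
    have := mul_lt_mul_of_pos_left (hchi t ht1 ht2) hk
    linarith
  refine ⟨E, ⟨?_, ?_, ?_⟩, hEa, ?_, ?_⟩
  · intro t ht1 ht2
    rcases ht1.lt_or_eq with h | h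
    · rw [hEgt t h]
      have h1 := hneg t h ht2
      have h2 := hψ.pos _ (h1.trans hw0)
      have h3 := hψ.mono _ _ h1 hw0
      constructor <;> linarith
    · rw [← h, hEa]
      have h2 := hψ.pos _ hw0
      constructor <;> linarith
  · intro s t hs hst ht
    have hat : a < t := hs.trans_lt hst
    rcases hs.lt_or_eq with h | h
    · rw [hEgt t hat, hEgt s h]
      have h1 := chi_lt hψ (s := s - a) (s' := t - a) (by linarith) (by linarith)
      have h2 := mul_lt_mul_of_pos_left h1 hk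
      have h3 := hψ.mono (lam ^ k * chi ψ (s - a) + β) (lam ^ k * chi ψ (t - a) + β) (by linarith)
        ((hneg t hat ht).trans hw0)
      linarith
    · rw [← h, hEa, hEgt t hat]
      have h2 := hψ.pos _ ((hneg t hat ht).trans hw0)
      linarith
  · intro y hy1 hy2
    rcases hy1.lt_or_eq with h | h
    · obtain ⟨w, hw, hw'⟩ := hψ.surj (y - a2) (by linarith)
      have hw2 : w < lam ^ k * v0 + β := Chart.lt_of_lt hψ hw hw0 (by rw [hw']; linarith)
      set v := (w - β) / lam ^ k with hv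
      have hv1 : lam ^ k * v + β = w := by rw [hv]; field_simp; ring
      have hv2 : v < v0 := by
        rw [hv, div_lt_iff₀ hk]; linarith
      have hv3 : v < 0 := hv2.trans hv0
      refine ⟨a + ψ v, ?_, ?_, ?_⟩
      · linarith [hψ.pos v hv3]
      · linarith [hψ.mono v v0 hv2 hv0]
      · rw [hEgt _ (by linarith [hψ.pos v hv3]), add_sub_cancel_left, chi_psi hψ hv3, hv1, hw']
        ring
    · exact ⟨a, le_rfl, by linarith [hψ.pos v0 hv0], by rw [hEa, h]⟩
  · refine ⟨v0, hv0, fun v hv => ?_⟩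
    have hv3 : v < 0 := hv.trans hv0
    rw [hEgt _ (by linarith [hψ.pos v hv3]), hEa, add_sub_cancel_left, chi_psi hψ hv3]
  · intro t ht1 ht2
    refine RA.congr (y := t + 1) (by linarith) (fun s hs _ => hEgt s (by linarith)) ?_
    have h1 : RA lam (fun s => s + (-a)) t := RA.shift _ _
    have h2 : RA lam (GermModel.chi ψ) (t + (-a)) := RA.chi hψ hlam (by linarith)
    have h3 : RA lam (fun s => GermModel.chi ψ (s + -a)) t := RA.comp hlam h1 h2
    have h4 := RA.comp hlam h3 (RA.affine (lam := lam) k β _)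
    have h5 : RA lam ψ (lam ^ k * GermModel.chi ψ (t + -a) + β) := by
      apply RA.psi hψ
      rw [← sub_eq_add_neg]
      exact (hneg t ht1 ht2).trans hw0
    have h6 := (RA.comp hlam h4 h5).add_const a2
    simpa [sub_eq_add_neg] using h6

theorem interval_second (hψ : Chart lam ψ) (hlam : 1 < lam) {c b c2 b2 : ℝ} (hcb : c < b)
    (hcb2 : c2 < b2) :
    ∃ E : ℝ → ℝ, Piece E c b c2 b2 ∧ ∀ t, c ≤ t → t < b → RA lam E t := by
  set K := ψ (c2 - b2) - ψ (c - b) with hK
  have hpos : ∀ t, c ≤ t → t < b → ψ (c2 - b2) ≤ ψ (t - b) + K := by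
    intro t ht1 ht2
    rcases ht1.lt_or_eq with h | h
    · have := hψ.mono (c - b) (t - b) (by linarith) (by linarith)
      rw [hK]; linarith
    · rw [← h, hK]; linarith
  have hp2 : 0 < ψ (c2 - b2) := hψ.pos _ (by linarith)
  have hp1 : 0 < ψ (c - b) := hψ.pos _ (by linarith)
  refine ⟨fun t => b2 + chi ψ (ψ (t - b) + K), ⟨?_, ?_, ?_⟩, ?_⟩
  · intro t ht1 ht2
    have h1 := hpos t ht1 ht2
    have h2 := chi_spec hψ (hp2.trans_le h1)
    constructor
    · rcases h1.lt_or_eq with h | h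
      · have := chi_lt hψ hp2 h
        rw [chi_psi hψ (by linarith)] at this
        linarith
      · rw [← h, chi_psi hψ (by linarith)]; linarith
    · linarith [h2.1]
  · intro s t hs hst ht
    have h1 := hpos s hs (hst.trans ht)
    have h2 := hψ.mono (s - b) (t - b) (by linarith) (by linarith)
    have h3 := chi_lt hψ (s := ψ (s - b) + K) (s' := ψ (t - b) + K) (hp2.trans_le h1)
      (by linarith)
    linarith
  · intro y hy1 hy2
    have hy3 : 0 < ψ (y - b2) := hψ.pos _ (by linarith)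
    have hy4 : ψ (c2 - b2) ≤ ψ (y - b2) := by
      rcases hy1.lt_or_eq with h | h
      · exact (hψ.mono _ _ (by linarith) (by linarith)).le
      · rw [h]
    have hs : 0 < ψ (y - b2) - K := by rw [hK]; linarith
    obtain ⟨h1, h2⟩ := chi_spec hψ hs
    refine ⟨b + chi ψ (ψ (y - b2) - K), ?_, by linarith, ?_⟩
    · by_contra hc
      have h3 := hψ.mono (chi ψ (ψ (y - b2) - K)) (c - b) (by linarith [not_le.1 hc])
        (by linarith)
      rw [h2] at h3
      rw [hK] at h3
      linarith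
    · rw [add_sub_cancel_left, h2, sub_add_cancel, chi_psi hψ (by linarith)]
      ring
  · intro t ht1 ht2
    have h1 : RA lam (fun s => s + (-b)) t := RA.shift _ _
    have h2 : RA lam ψ (t + -b) := RA.psi hψ (by linarith)
    have h3 := RA.comp hlam h1 h2
    have h4 := RA.comp hlam h3 (RA.shift K _)
    have h5 : RA lam (GermModel.chi ψ) (ψ (t + -b) + K) := by
      apply RA.chi hψ hlam
      rw [← sub_eq_add_neg]
      exact hp2.trans_le (hpos t ht1 ht2)
    have h6 := (RA.comp hlam h4 h5).add_const b2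
    simpa [sub_eq_add_neg] using h6

theorem interval_lemma (hψ : Chart lam ψ) (hlam : 1 < lam) {a b a2 b2 : ℝ} (hab : a < b)
    (hab2 : a2 < b2) (k : ℤ) (β : ℝ) :
    ∃ E : ℝ → ℝ, Piece E a b a2 b2 ∧ E a = a2 ∧ HasGerm lam ψ E a k β ∧
      ∀ t, a < t → t < b → RA lam E t := by
  have hl : 0 < lam := by linarith
  obtain ⟨w1, hw1, hw1'⟩ := hψ.surj (b - a) (by linarith)
  obtain ⟨w2, hw2, hw2'⟩ := hψ.surj (b2 - a2) (by linarith)
  obtain ⟨M, hM, hM'⟩ := act_lt hlam k β w2
  set v0 := min w1 M - 1 with hv0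
  have hv1 : v0 < w1 := by have := min_le_left w1 M; linarith
  have hv2 : v0 < M := by have := min_le_right w1 M; linarith
  have hv3 : v0 < 0 := hv1.trans hw1
  have hv4 : lam ^ k * v0 + β < w2 := hM' v0 hv2
  have hv5 : lam ^ k * v0 + β < 0 := hv4.trans hw2
  have hc : a + ψ v0 < b := by linarith [hψ.mono v0 w1 hv1 hw1]
  have hc2 : a2 + ψ (lam ^ k * v0 + β) < b2 := by linarith [hψ.mono _ w2 hv4 hw2]
  have hp : 0 < ψ v0 := hψ.pos _ hv3
  have hp2 : 0 < ψ (lam ^ k * v0 + β) := hψ.pos _ hv5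
  obtain ⟨E1, h1p, h1a, h1g, h1r⟩ := interval_first hψ hlam a a2 k β v0 hv3 hv5
  obtain ⟨E2, h2p, h2r⟩ := interval_second hψ hlam hc hc2
  refine ⟨_, h1p.glue h2p (by linarith) hc.le (by linarith) hc2.le, ?_, ?_, ?_⟩
  · simp [hp, h1a]
  · refine HasGerm.congr hψ (y := a + ψ v0) (by linarith) (fun t _ ht => ?_) h1g
    simp [ht]
  · intro t ht1 ht2
    by_cases h : t < a + ψ v0
    · refine RA.congr h (fun s _ hs => ?_) (h1r t ht1 h)
      simp [hs]
    · refine RA.congr ht2 (fun s hs _ => ?_) (h2r t (not_lt.1 h) ht2)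
      have : ¬ s < a + ψ v0 := by linarith [not_lt.1 h]
      simp [this]

end pieces

end GermModel

open GermModel

/-- The concrete model. `Γ` is a group of affine maps `v ↦ lam ^ (j γ) * v + β γ` containing all
scalings by powers of `lam`. -/
theorem exists_germSys (Γ : Type) [Group Γ] (lam : ℝ) (hlam : 1 < lam) (ψ : ℝ → ℝ)
    (hψ : Chart lam ψ) (j : Γ → ℤ) (β : Γ → ℝ)
    (hj : ∀ γ δ, j (γ * δ) = j γ + j δ)
    (hβ : ∀ γ δ, β (γ * δ) = β γ + lam ^ (j γ) * β δ)
    (hfaith : ∀ γ, j γ = 0 → β γ = 0 → γ = 1)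
    (hsc : ∀ i : ℤ, ∃ γ, j γ = i ∧ β γ = 0) :
    ∃ G : Subgroup (ℝ ≃o ℝ), Nonempty (GermSys G Γ) := by
  classical
  have hl : 0 < lam := by linarith
  have hj1 : j 1 = 0 := by
    have := hj 1 1
    rw [mul_one] at this
    linarith
  have hβ1 : β 1 = 0 := by
    have := hβ 1 1
    rw [mul_one, hj1, zpow_zero, one_mul] at this
    linarith
  have hinj : ∀ γ δ, j γ = j δ → β γ = β δ → γ = δ := by
    intro γ δ h1 h2
    have h3 : j (δ * δ⁻¹) = 0 := by rw [mul_inv_cancel, hj1]
    have h4 : β (δ * δ⁻¹) = 0 := by rw [mul_inv_cancel, hβ1]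
    rw [hj] at h3
    rw [hβ] at h4
    have h5 : γ * δ⁻¹ = 1 := by
      apply hfaith
      · rw [hj, h1, h3]
      · rw [hβ, h1, h2, h4]
    exact mul_inv_eq_one.1 h5
  have hone : ∀ (f : ℝ → ℝ) (x : ℝ), RA lam f x → ∃ γ, HasGerm lam ψ f x (j γ) (β γ) := by
    intro f x hf
    obtain ⟨k, hk⟩ := RA.hasGerm hψ hlam hf
    obtain ⟨γ, h1, h2⟩ := hsc k
    exact ⟨γ, by rw [h1, h2]; exact hk⟩
  let G : Subgroup (ℝ ≃o ℝ) :=
    { carrier := {f | (∃ A B : ℝ, A < B ∧ ∀ t, t ≤ A ∨ B ≤ t → f t = t) ∧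
        ∀ x, ∃ γ, HasGerm lam ψ f x (j γ) (β γ)}
      mul_mem' := by
        rintro f g ⟨⟨A1, B1, hAB1, h1⟩, h1g⟩ ⟨⟨A2, B2, hAB2, h2⟩, h2g⟩
        refine ⟨⟨min A1 A2, max B1 B2, ?_, ?_⟩, ?_⟩
        · exact lt_of_le_of_lt (min_le_left _ _) (hAB1.trans_le (le_max_left _ _))
        · intro t ht
          have e1 : g t = t := h2 t (ht.imp (fun h => h.trans (min_le_right _ _))
            (fun h => (le_max_right _ _).trans h))
          have e2 : f t = t := h1 t (ht.imp (fun h => h.trans (min_le_left _ _))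
            (fun h => (le_max_left _ _).trans h))
          show f (g t) = t
          rw [e1, e2]
        · intro x
          obtain ⟨γ, hγ⟩ := h2g x
          obtain ⟨δ, hδ⟩ := h1g (g x)
          refine ⟨δ * γ, ?_⟩
          rw [hj, hβ]
          exact HasGerm.comp (f := fun t => f t) (g := fun t => g t) hlam hγ hδ
      one_mem' := by
        refine ⟨⟨0, 1, one_pos, fun t _ => rfl⟩, fun x => ⟨1, ?_⟩⟩
        rw [hj1, hβ1]
        exact ⟨-1, by norm_num, fun v _ => by simp⟩
      inv_mem' := by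
        rintro f ⟨⟨A, B, hAB, h⟩, hg⟩
        refine ⟨⟨A, B, hAB, fun t ht => ?_⟩, fun y => ?_⟩
        · show f.symm t = t
          rw [OrderIso.symm_apply_eq]
          exact (h t ht).symm
        · obtain ⟨γ, M, hM, hγ⟩ := hg (f.symm y)
          refine ⟨γ⁻¹, ?_⟩
          obtain ⟨M', hM', h'⟩ := act_lt hlam (j γ⁻¹) (β γ⁻¹) M
          refine ⟨M', hM', fun v hv => ?_⟩
          have h1 := hγ _ (h' v hv)
          have h2 : lam ^ (j γ) * (lam ^ (j γ⁻¹) * v + β γ⁻¹) + β γ = v := by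
            have e1 : j (γ * γ⁻¹) = 0 := by rw [mul_inv_cancel, hj1]
            have e2 : β (γ * γ⁻¹) = 0 := by rw [mul_inv_cancel, hβ1]
            rw [hj] at e1
            rw [hβ] at e2
            have e3 : lam ^ (j γ) * lam ^ (j γ⁻¹) = 1 := by
              rw [← zpow_add₀ hl.ne', e1, zpow_zero]
            calc lam ^ (j γ) * (lam ^ (j γ⁻¹) * v + β γ⁻¹) + β γ
                = (lam ^ (j γ) * lam ^ (j γ⁻¹)) * v + (β γ + lam ^ (j γ) * β γ⁻¹) := by ring
              _ = v := by rw [e3, e2]; ring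
          rw [h2, OrderIso.apply_symm_apply] at h1
          show f.symm (y + ψ v) = f.symm y + _
          rw [OrderIso.symm_apply_eq]
          exact h1.symm }
  have hmem : ∀ f : ℝ ≃o ℝ, f ∈ G ↔ (∃ A B : ℝ, A < B ∧ ∀ t, t ≤ A ∨ B ≤ t → f t = t) ∧
        ∀ x, ∃ γ, HasGerm lam ψ f x (j γ) (β γ) := fun f => Iff.rfl
  have hex : ∀ (f : G) (x : ℝ), ∃ γ, HasGerm lam ψ f.1 x (j γ) (β γ) := fun f x =>
    ((hmem f.1).1 f.2).2 x
  let germ : G → ℝ → Γ := fun f x => (hex f x).choose
  have hgerm : ∀ (f : G) (x : ℝ), HasGerm lam ψ f.1 x (j (germ f x)) (β (germ f x)) := fun f x =>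
    (hex f x).choose_spec
  have huniq : ∀ (f : G) (x : ℝ) (γ : Γ), HasGerm lam ψ f.1 x (j γ) (β γ) → germ f x = γ := by
    intro f x γ h
    obtain ⟨h1, h2⟩ := HasGerm.unique hψ hlam (hgerm f x) h
    exact hinj _ _ h1 h2
  refine ⟨G, ⟨⟨germ, ?_, ?_, ?_, ?_, ?_, ?_, ?_⟩⟩⟩
  · intro f
    exact ((hmem f.1).1 f.2).1
  · rintro h ⟨A, B, hAB⟩ hloc
    refine (hmem h).2 ⟨⟨min A B - 1, max A B + 1, ?_, ?_⟩, ?_⟩
    · have h1 := min_le_left A B
      have h2 := le_max_left A B
      linarith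
    · intro t ht
      apply hAB
      rcases ht with ht | ht
      · left; have := min_le_left A B; linarith
      · right; have := le_max_right A B; linarith
    · intro x
      obtain ⟨g, y, hxy, hg⟩ := hloc x
      exact ⟨germ g x, HasGerm.congr hψ hxy hg (hgerm g x)⟩
  · intro f g x
    apply huniq
    rw [hj, hβ]
    exact HasGerm.comp (f := fun t => f.1 t) (g := fun t => g.1 t) hlam (hgerm g x)
      (hgerm f (g.1 x))
  · intro f g x y hxy h
    apply huniq
    exact HasGerm.congr hψ hxy h (hgerm g x)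
  · intro f x hfx h1
    have h2 := hgerm f x
    rw [h1, hj1, hβ1] at h2
    obtain ⟨M, hM, hM'⟩ := h2
    refine ⟨x + ψ M, by linarith [hψ.pos M hM], fun t ht1 ht2 => ?_⟩
    rcases ht1.lt_or_eq with h | h
    · obtain ⟨v, hv, hv'⟩ := hψ.surj (t - x) (by linarith)
      have hvM : v < M := Chart.lt_of_lt hψ hv hM (by rw [hv']; linarith)
      have h3 := hM' v hvM
      rw [hv', hfx] at h3
      have e1 : x + (t - x) = t := by ring
      rw [e1] at h3
      rw [h3]
      simp [hv']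
    · rw [← h, hfx]
  · intro f x hfx
    obtain ⟨M, hM, hM'⟩ := hgerm f x
    set k := j (germ f x)
    set b := β (germ f x)
    have hk : 0 < lam ^ k := zpow_pos hl k
    obtain ⟨M0, hM0, hM0'⟩ := act_lt hlam k b 0
    have key : ∀ M1, M1 < 0 → ∀ t, x < t → t < x + ψ M1 → ∃ v, v < M1 ∧ t = x + ψ v := by
      intro M1 hM1 t ht1 ht2
      obtain ⟨v, hv, hv'⟩ := hψ.surj (t - x) (by linarith)
      exact ⟨v, Chart.lt_of_lt hψ hv hM1 (by rw [hv']; linarith), by linarith⟩
    have hev : ∃ M1 < 0, (∀ v < M1, lam ^ k * v + b = v) ∨ (∀ v < M1, v < lam ^ k * v + b) ∨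
        (∀ v < M1, lam ^ k * v + b < v) := by
      rcases lt_trichotomy (lam ^ k) 1 with h | h | h
      · refine ⟨min (-1) (b / (lam ^ k - 1) * (-1)), by
          have := min_le_left (-1) (b / (lam ^ k - 1) * (-1)); linarith, Or.inr (Or.inl ?_)⟩
        intro v hv
        have h1 : v < b / (lam ^ k - 1) * (-1) := hv.trans_le (min_le_right _ _)
        have h2 : lam ^ k - 1 < 0 := by linarith
        have h3 : (lam ^ k - 1) * (b / (lam ^ k - 1) * (-1)) < (lam ^ k - 1) * v :=
          mul_lt_mul_of_neg_left h1 h2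
        have h5 : lam ^ k - 1 ≠ 0 := by intro h6; linarith
        have h4 : (lam ^ k - 1) * (b / (lam ^ k - 1) * (-1)) = -b := by
          field_simp
        linarith
      · rcases lt_trichotomy b 0 with hb | hb | hb
        · exact ⟨-1, by norm_num, Or.inr (Or.inr fun v _ => by rw [h]; linarith)⟩
        · exact ⟨-1, by norm_num, Or.inl fun v _ => by rw [h]; linarith⟩
        · exact ⟨-1, by norm_num, Or.inr (Or.inl fun v _ => by rw [h]; linarith)⟩
      · refine ⟨min (-1) (b / (lam ^ k - 1) * (-1)), by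
          have := min_le_left (-1) (b / (lam ^ k - 1) * (-1)); linarith, Or.inr (Or.inr ?_)⟩
        intro v hv
        have h1 : v < b / (lam ^ k - 1) * (-1) := hv.trans_le (min_le_right _ _)
        have h2 : 0 < lam ^ k - 1 := by linarith
        have h3 : (lam ^ k - 1) * v < (lam ^ k - 1) * (b / (lam ^ k - 1) * (-1)) :=
          mul_lt_mul_of_pos_left h1 h2
        have h5 : lam ^ k - 1 ≠ 0 := by intro h6; linarith
        have h4 : (lam ^ k - 1) * (b / (lam ^ k - 1) * (-1)) = -b := by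
          field_simp
        linarith
    obtain ⟨M1, hM1, h1⟩ := hev
    set M2 := min (min M M0) M1 with hM2
    have hM20 : M2 < 0 := (min_le_right _ _).trans_lt hM1
    refine ⟨x + ψ M2, by linarith [hψ.pos M2 hM20], ?_⟩
    have hval : ∀ v < M2, f.1 (x + ψ v) = x + ψ (lam ^ k * v + b) ∧ lam ^ k * v + b < 0 ∧
        v < M1 ∧ v < 0 := by
      intro v hv
      have hv1 : v < M := hv.trans_le ((min_le_left _ _).trans (min_le_left _ _))
      have hv2 : v < M0 := hv.trans_le ((min_le_left _ _).trans (min_le_right _ _))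
      have hv3 : v < M1 := hv.trans_le (min_le_right _ _)
      exact ⟨by rw [hM' v hv1, hfx], hM0' v hv2, hv3, hv3.trans hM1⟩
    rcases h1 with h1 | h1 | h1
    · left
      intro t ht1 ht2
      obtain ⟨v, hv, rfl⟩ := key M2 hM20 t ht1 ht2
      obtain ⟨e1, e2, e3, e4⟩ := hval v hv
      rw [e1, h1 v e3]
    · right; left
      intro t ht1 ht2
      obtain ⟨v, hv, rfl⟩ := key M2 hM20 t ht1 ht2
      obtain ⟨e1, e2, e3, e4⟩ := hval v hv
      rw [e1]
      linarith [hψ.mono _ _ (h1 v e3) e2]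
    · right; right
      intro t ht1 ht2
      obtain ⟨v, hv, rfl⟩ := key M2 hM20 t ht1 ht2
      obtain ⟨e1, e2, e3, e4⟩ := hval v hv
      rw [e1]
      linarith [hψ.mono _ _ (h1 v e3) e4]
  · intro A x y B α δ hAx hxB hAy hyB
    obtain ⟨E1, p1, a1, g1, r1⟩ := interval_lemma hψ hlam hAx hAy (j α) (β α)
    obtain ⟨E2, p2, a2, g2, r2⟩ := interval_lemma hψ hlam hxB hyB (j δ) (β δ)
    have p := p1.glue p2 hAx.le hxB.le hAy.le hyB.le
    set E : ℝ → ℝ := fun t => if t < x then E1 t else E2 t with hE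
    set z : ℝ → ℝ := fun t => if t < A then t else if t < B then E t else t with hz
    have hzA : ∀ t, t < A → z t = t := fun t ht => by simp [hz, ht]
    have hzB : ∀ t, B ≤ t → z t = t := fun t ht => by
      have h1 : ¬ t < A := by linarith
      have h2 : ¬ t < B := by linarith
      simp [hz, h1, h2]
    have hzE : ∀ t, A ≤ t → t < B → z t = E t := fun t h1 h2 => by
      simp [hz, not_lt.2 h1, h2]
    have hEA : E A = A := by simp [hE, hAx, a1]
    have hEx : E x = y := by simp [hE, a2]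
    have hmono : StrictMono z := by
      intro s t hst
      by_cases hs : s < A
      · rw [hzA s hs]
        by_cases ht : t < A
        · rw [hzA t ht]; exact hst
        · by_cases ht' : t < B
          · rw [hzE t (not_lt.1 ht) ht']
            exact hs.trans_le (p.maps t (not_lt.1 ht) ht').1
          · rw [hzB t (not_lt.1 ht')]; exact hst
      · by_cases hs' : s < B
        · rw [hzE s (not_lt.1 hs) hs']
          by_cases ht' : t < B
          · rw [hzE t (by linarith [not_lt.1 hs]) ht']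
            exact p.mono s t (not_lt.1 hs) hst ht'
          · rw [hzB t (not_lt.1 ht')]
            exact (p.maps s (not_lt.1 hs) hs').2.trans_le (not_lt.1 ht')
        · rw [hzB s (not_lt.1 hs'), hzB t (by linarith [not_lt.1 hs'])]; exact hst
    have hsurj : Function.Surjective z := by
      intro w
      by_cases hw : w < A
      · exact ⟨w, hzA w hw⟩
      · by_cases hw' : w < B
        · obtain ⟨t, h1, h2, h3⟩ := p.surj w (not_lt.1 hw) hw'
          exact ⟨t, by rw [hzE t h1 h2, h3]⟩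
        · exact ⟨w, hzB w (not_lt.1 hw')⟩
    let Z : ℝ ≃o ℝ := StrictMono.orderIsoOfSurjective z hmono hsurj
    have hZ : ∀ t, Z t = z t := fun t => rfl
    have hZout : ∀ t, t ≤ A ∨ B ≤ t → Z t = t := by
      intro t ht
      rw [hZ]
      rcases ht with ht | ht
      · rcases ht.lt_or_eq with h | h
        · exact hzA t h
        · rw [h, hzE A le_rfl (by linarith), hEA]
      · exact hzB t ht
    have hga : HasGerm lam ψ Z A (j α) (β α) := by
      refine HasGerm.congr hψ hAx (fun t h1 h2 => ?_) g1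
      rw [hZ, hzE t h1 (by linarith)]
      simp [hE, h2]
    have hgx : HasGerm lam ψ Z x (j δ) (β δ) := by
      refine HasGerm.congr hψ hxB (fun t h1 h2 => ?_) g2
      rw [hZ, hzE t (by linarith) h2]
      simp [hE, not_lt.2 h1]
    have hZG : Z ∈ G := by
      refine (hmem Z).2 ⟨⟨A, B, by linarith, hZout⟩, fun s => ?_⟩
      by_cases hs1 : s < A
      · apply hone
        refine RA.congr hs1 (fun t _ ht => ?_) (RA.shift 0 s)
        rw [hZ, hzA t ht, add_zero]
      · rcases (not_lt.1 hs1).lt_or_eq with hs1' | hs1'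
        · by_cases hs2 : s < x
          · apply hone
            refine RA.congr hs2 (fun t h1 ht => ?_) (r1 s hs1' hs2)
            rw [hZ, hzE t (by linarith) (by linarith)]
            simp [hE, ht]
          · rcases (not_lt.1 hs2).lt_or_eq with hs2' | hs2'
            · by_cases hs3 : s < B
              · apply hone
                refine RA.congr hs3 (fun t h1 ht => ?_) (r2 s hs2' hs3)
                rw [hZ, hzE t (by linarith) ht]
                have : ¬ t < x := by linarith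
                simp [hE, this]
              · apply hone
                refine RA.congr (y := s + 1) (by linarith) (fun t h1 _ => ?_) (RA.shift 0 s)
                rw [hZ, hzB t (by linarith [not_lt.1 hs3]), add_zero]
            · exact ⟨δ, by rw [← hs2']; exact hgx⟩
        · exact ⟨α, by rw [← hs1']; exact hga⟩
    refine ⟨⟨Z, hZG⟩, hZout, ?_, huniq _ _ _ hga, huniq _ _ _ hgx⟩
    show Z x = y
    rw [hZ, hzE x hAx.le hxB, hEx]

end Pool.Agent.Helper157
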