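import Pool.Agent.Helper157.AbaDefs

set_option autoImplicit false

namespace Pool.Agent.Helper157

open Polynomial

namespace Job264

lemma sgn_aux (i : ℕ) : ∀ n, i ≤ n →
    (2:ℝ)^n ≤ (-1:ℝ)^(n-i) * ∏ j ∈ Finset.range n, ((4*(i:ℝ)+2) - 4*((j:ℝ)+1)) := by
  intro n hn
  induction n, hn using Nat.le_induction with
  | base =>
    have h : ∏ j ∈ Finset.range i, (2:ℝ) ≤ ∏ j ∈ Finset.range i, ((4*(i:ℝ)+2) - 4*((j:ℝ)+1)) := by
      apply Finset.prod_le_prod
      · intro j _; norm_num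
      · intro j hj
        have hj' : j + 1 ≤ i := Finset.mem_range.1 hj
        have : (j:ℝ) + 1 ≤ i := by exact_mod_cast hj'
        linarith
    simpa using h
  | succ n hn ih =>
    rw [Finset.prod_range_succ, Nat.succ_sub hn, pow_succ, pow_succ]
    have h1 : (i:ℝ) ≤ n := by exact_mod_cast hn
    have h2 : (2:ℝ) ≤ 4*((n:ℝ)+1) - (4*(i:ℝ)+2) := by linarith
    have h3 : (0:ℝ) < 2^n := by positivity
    nlinarith [mul_le_mul ih h2 (by norm_num) (le_trans h3.le ih)]

noncomputable def F (n : ℕ) (x : ℝ) : ℝ := ∏ j ∈ Finset.range n, (x - 4*((j:ℝ)+1)) + 2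

lemma F_cont (n : ℕ) : Continuous (F n) := by
  unfold F
  fun_prop

lemma sgnF (n i : ℕ) (hn : 2 ≤ n) (hi : i ≤ n) : 0 < (-1:ℝ)^(n-i) * F n (4*(i:ℝ)+2) := by
  have h := sgn_aux i n hi
  have h4 : (4:ℝ) ≤ 2^n := by
    calc (4:ℝ) = 2^2 := by norm_num
      _ ≤ 2^n := pow_le_pow_right₀ (by norm_num) hn
  have h5 : (-1:ℝ)^(n-i) = 1 ∨ (-1:ℝ)^(n-i) = -1 := neg_one_pow_eq_or ℝ (n-i)
  unfold F
  rw [mul_add]
  rcases h5 with h5 | h5 <;> rw [h5] at h ⊢ <;> linarith

lemma root_ex (n : ℕ) (hn : 2 ≤ n) (i : ℕ) (hi : i < n) :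
    ∃ x : ℝ, 4*(i:ℝ)+2 < x ∧ x < 4*(i:ℝ)+6 ∧ F n x = 0 := by
  have ha := sgnF n i hn hi.le
  have hb := sgnF n (i+1) hn hi
  have hs : (-1:ℝ)^(n-i) = - (-1:ℝ)^(n-(i+1)) := by
    have : n - i = (n-(i+1)) + 1 := by omega
    rw [this, pow_succ]; ring
  have hb' : (-1:ℝ)^(n-i) * F n (4*(i:ℝ)+6) < 0 := by
    rw [hs]
    have e : 4*((i+1 : ℕ):ℝ)+2 = 4*(i:ℝ)+6 := by push_cast; ring
    rw [e] at hb
    linarith
  have hc : ContinuousOn (fun x => (-1:ℝ)^(n-i) * F n x) (Set.Icc (4*(i:ℝ)+2) (4*(i:ℝ)+6)) :=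
    (continuous_const.mul (F_cont n)).continuousOn
  have := intermediate_value_Ioo' (by linarith : 4*(i:ℝ)+2 ≤ 4*(i:ℝ)+6) hc
  obtain ⟨x, hx, hx0⟩ := this ⟨hb', ha⟩
  refine ⟨x, hx.1, hx.2, ?_⟩
  have hne : (-1:ℝ)^(n-i) ≠ 0 := pow_ne_zero _ (by norm_num)
  exact (mul_eq_zero.1 hx0).resolve_left hne

noncomputable def g (n : ℕ) : ℤ[X] := ∏ j ∈ Finset.range n, (X - C (4*((j:ℤ)+1))) + C 2

lemma prod_monic (n : ℕ) : (∏ j ∈ Finset.range n, (X - C (4*((j:ℤ)+1)))).Monic :=
  monic_prod_of_monic _ _ (fun j _ => monic_X_sub_C _)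

lemma prod_natDegree (n : ℕ) : (∏ j ∈ Finset.range n, (X - C (4*((j:ℤ)+1)))).natDegree = n := by
  rw [natDegree_prod_of_monic _ _ (fun j _ => monic_X_sub_C _)]
  simp only [natDegree_X_sub_C]
  simp

lemma g_monic (n : ℕ) (hn : 1 ≤ n) : (g n).Monic := by
  unfold g
  apply (prod_monic n).add_of_left
  rw [degree_eq_natDegree (prod_monic n).ne_zero, prod_natDegree]
  refine lt_of_le_of_lt degree_C_le ?_
  exact_mod_cast hn

lemma g_natDegree (n : ℕ) : (g n).natDegree = n := by
  unfold g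
  rw [natDegree_add_C, prod_natDegree]

lemma g_irred (n : ℕ) (hn : 1 ≤ n) : Irreducible (g n) := by
  have hdeg : (g n).degree = n := by
    rw [degree_eq_natDegree (g_monic n hn).ne_zero, g_natDegree]
  apply irreducible_of_eisenstein_criterion (P := Ideal.span {(2:ℤ)})
  · rw [Ideal.span_singleton_prime (by norm_num)]
    exact Int.prime_two
  · rw [(g_monic n hn).leadingCoeff, Ideal.mem_span_singleton]
    norm_num
  · intro k hk
    rw [hdeg] at hk
    have hk' : k < n := by exact_mod_cast hk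
    rw [Ideal.mem_span_singleton]
    have hm : (g n).map (Int.castRingHom (ZMod 2)) = X^n := by
      unfold g
      rw [Polynomial.map_add, Polynomial.map_prod]
      have h2 : (C (2:ℤ)).map (Int.castRingHom (ZMod 2)) = 0 := by
        rw [Polynomial.map_C]
        have : (Int.castRingHom (ZMod 2)) 2 = 0 := by decide
        rw [this, C_0]
      have h4 : ∀ j ∈ Finset.range n, (X - C (4*((j:ℤ)+1))).map (Int.castRingHom (ZMod 2)) = X := by
        intro j _
        rw [Polynomial.map_sub, Polynomial.map_X, Polynomial.map_C]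
        have : (Int.castRingHom (ZMod 2)) (4*((j:ℤ)+1)) = 0 := by
          rw [map_mul]
          have : (Int.castRingHom (ZMod 2)) 4 = 0 := by decide
          rw [this, zero_mul]
        rw [this, C_0, sub_zero]
      rw [h2, Finset.prod_congr rfl h4]
      simp
    have hc : ((g n).map (Int.castRingHom (ZMod 2))).coeff k = 0 := by
      rw [hm, coeff_X_pow, if_neg hk'.ne]
    rw [coeff_map] at hc
    have hc2 : (((g n).coeff k : ℤ) : ZMod 2) = 0 := by simpa using hc
    exact_mod_cast (ZMod.intCast_zmod_eq_zero_iff_dvd _ 2).1 hc2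
  · rw [hdeg]; exact_mod_cast hn
  · rw [coeff_zero_eq_eval_zero, Ideal.span_singleton_pow, Ideal.mem_span_singleton]
    unfold g
    rw [eval_add, eval_C, eval_prod]
    intro h
    obtain ⟨m, rfl⟩ : ∃ m, n = m + 1 := ⟨n-1, by omega⟩
    rw [Finset.prod_range_succ] at h
    have h4 : (4:ℤ) ∣ (∏ j ∈ Finset.range m, eval 0 (X - C (4*((j:ℤ)+1)))) * eval 0 (X - C (4*((m:ℤ)+1))) := by
      apply Dvd.dvd.mul_left
      simp
    have h5 : (4:ℤ) ∣ 2 := by
      have h6 : (2:ℤ)^2 = 4 := by norm_num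
      rw [h6] at h
      exact (dvd_add_right h4).1 h
    norm_num at h5
  · exact (g_monic n hn).isPrimitive

end Job264

/-- For every `n ≥ 1` there is a monic irreducible rational polynomial of degree `n` with `n` distinct
real roots, all larger than `1`. -/
theorem exists_poly (n : ℕ) (hn : 1 ≤ n) :
    ∃ f : ℚ[X], Irreducible f ∧ f.Monic ∧ f.natDegree = n ∧
      ∃ α : Fin n → ℝ, Function.Injective α ∧ (∀ i, 1 < α i) ∧ ∀ i, aeval (α i) f = 0 := by
  refine ⟨(Job264.g n).map (Int.castRingHom ℚ), ?_, (Job264.g_monic n hn).map _, ?_, ?_⟩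
  · exact ((Job264.g_monic n hn).irreducible_iff_irreducible_map_fraction_map (K := ℚ)).1 (Job264.g_irred n hn)
  · rw [(Job264.g_monic n hn).natDegree_map, Job264.g_natDegree]
  · have hae : ∀ x : ℝ, aeval x ((Job264.g n).map (Int.castRingHom ℚ)) = Job264.F n x := by
      intro x
      have : (Int.castRingHom ℚ) = algebraMap ℤ ℚ := rfl
      rw [this, aeval_map_algebraMap]
      unfold Job264.g Job264.F
      rw [map_add, map_prod]
      congr 1
      · apply Finset.prod_congr rfl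
        intro j _
        rw [map_sub, aeval_X, aeval_C]
        simp
      · rw [aeval_C]; simp
    simp only [hae]
    rcases Nat.lt_or_ge n 2 with h | h
    · obtain rfl : n = 1 := by omega
      refine ⟨fun _ => 2, ?_, ?_, ?_⟩
      · intro a b _; exact Subsingleton.elim a b
      · intro _; norm_num
      · intro _; simp [Job264.F]; norm_num
    · choose α h1 h2 h3 using fun i : Fin n => Job264.root_ex n h i.1 i.2
      refine ⟨α, ?_, ?_, h3⟩
      · intro a b hab
        by_contra hne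
        have key : ∀ c d : Fin n, c.1 < d.1 → α c < α d := by
          intro c d hcd
          have h5 := h2 c
          have h6 := h1 d
          have : ((c.1:ℕ):ℝ) + 1 ≤ d.1 := by exact_mod_cast hcd
          linarith
        rcases lt_or_gt_of_ne (fun h => hne (Fin.ext h) : a.1 ≠ b.1) with h7 | h7
        · exact absurd hab (key a b h7).ne
        · exact absurd hab (key b a h7).ne'
      · intro i
        have := h1 i
        have h0 : (0:ℝ) ≤ (i.1:ℝ) := Nat.cast_nonneg _
        linarith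

end Pool.Agent.Helper157
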