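import Pool.Agent.Helper157.GS6
import Pool.Agent.Helper157.AbaPoly
import Pool.Agent.Helper157.AbaCones
import Pool.Agent.Helper157.AbaLat
import Pool.Agent.Helper157.AbaChart
import Pool.Agent.Helper157.AbaModel
import Pool.Agent.Helper157.AbaAff

set_option autoImplicit false

namespace Pool.Agent.Helper157

open Polynomial

/-- a lattice cone of the multiplicative group of an additive group is a lattice cone -/
lemma lcone_mul_iff {K : Type} [AddCommGroup K] (Q : Set K) :
    LCone (Multiplicative.toAdd ⁻¹' Q : Set (Multiplicative K)) ↔ LatAdd Q := by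
  constructor
  · intro h
    refine ⟨h.one, ?_, ?_, ?_⟩
    · intro x hx y hy
      exact h.mul (Multiplicative.ofAdd x) hx (Multiplicative.ofAdd y) hy
    · intro x hx hx'
      have := h.anti (Multiplicative.ofAdd x) hx hx'
      exact Multiplicative.ofAdd.injective this
    · intro x
      obtain ⟨s, h1, h2, h3⟩ := h.join (Multiplicative.ofAdd x)
      refine ⟨Multiplicative.toAdd s, h1, ?_, ?_⟩
      · have : -x + Multiplicative.toAdd s ∈ Q := h2
        rwa [neg_add_eq_sub] at this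
      · intro u hu hux
        have := h3 (Multiplicative.ofAdd u) hu (by
          show -x + u ∈ Q
          rwa [neg_add_eq_sub])
        have h4 : -Multiplicative.toAdd s + u ∈ Q := this
        rwa [neg_add_eq_sub] at h4
  · intro h
    refine ⟨h.zero, ?_, ?_, ?_, ?_⟩
    · intro x hx y hy
      exact h.add (Multiplicative.toAdd x) hx (Multiplicative.toAdd y) hy
    · intro x hx hx'
      exact Multiplicative.toAdd.injective (h.anti (Multiplicative.toAdd x) hx hx')
    · intro g p hp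
      have : g * p * g⁻¹ = p := by rw [mul_comm g p, mul_assoc, mul_inv_cancel, mul_one]
      rw [this]; exact hp
    · intro x
      obtain ⟨s, h1, h2, h3⟩ := h.join (Multiplicative.toAdd x)
      refine ⟨Multiplicative.ofAdd s, h1, ?_, ?_⟩
      · show -Multiplicative.toAdd x + s ∈ Q
        rwa [neg_add_eq_sub]
      · intro u hu hux
        have hux' : -Multiplicative.toAdd x + Multiplicative.toAdd u ∈ Q := hux
        rw [neg_add_eq_sub] at hux'
        have := h3 (Multiplicative.toAdd u) hu hux'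
        show -s + Multiplicative.toAdd u ∈ Q
        rwa [neg_add_eq_sub]

lemma TotAdd.latAdd {K : Type} [AddCommGroup K] {Q : Set K} (h : TotAdd Q) : LatAdd Q where
  zero := h.zero
  add := h.add
  anti := h.anti
  join x := by
    rcases h.total x with hx | hx
    · exact ⟨x, hx, by simpa using h.zero, fun u _ hu => hu⟩
    · exact ⟨0, h.zero, by simpa using hx, fun u hu _ => by simpa using hu⟩

/-- case `k = 2` -/
theorem case_two : ∃ (G : Type) (_ : Group G), (LOrd G).ncard = 2 := by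
  set f : ℚ[X] := X - C 1 with hf
  have hirr : Irreducible f := irreducible_X_sub_C 1
  have hdeg : f.natDegree = 1 := natDegree_X_sub_C 1
  have hroot : ∀ i : Fin 1, aeval ((fun _ => (1 : ℝ)) i) f = 0 := by
    intro i
    simp [hf]
  have hinj : Function.Injective (fun _ : Fin 1 => (1 : ℝ)) := fun i j _ => Subsingleton.elim _ _
  have hr1 : AdjoinRoot.root f = 1 := by
    have : AdjoinRoot.mk f (X - C 1) = 0 := AdjoinRoot.mk_self
    rw [map_sub, AdjoinRoot.mk_X, AdjoinRoot.mk_C, map_one, sub_eq_zero] at this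
    exact this
  have h1 := ncard_cones 1 le_rfl f hirr hdeg (fun _ => (1 : ℝ)) hinj (fun _ => one_pos) hroot
  have h2 := latAdd_total 1 le_rfl f hirr hdeg (fun _ => (1 : ℝ)) hinj (fun _ => one_pos) hroot
  refine ⟨Multiplicative (AdjoinRoot f), inferInstance, ?_⟩
  rw [ncard_lord]
  have h3 : {P : Set (Multiplicative (AdjoinRoot f)) | LCone P} =
      (fun Q : Set (AdjoinRoot f) => (Multiplicative.toAdd ⁻¹' Q : Set (Multiplicative (AdjoinRoot f))))
        '' {Q : Set (AdjoinRoot f) | TotAdd Q ∧ ∀ x ∈ Q, AdjoinRoot.root f * x ∈ Q} := by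
    ext P
    constructor
    · intro hP
      have hP' : LCone (Multiplicative.toAdd ⁻¹' (Multiplicative.ofAdd ⁻¹' P) :
        Set (Multiplicative (AdjoinRoot f))) := hP
      have hL := (lcone_mul_iff _).1 hP'
      refine ⟨Multiplicative.ofAdd ⁻¹' P, ⟨⟨hL.zero, hL.add, hL.anti, ?_⟩, ?_⟩, rfl⟩
      · exact h2 _ hL (fun x => by rw [hr1, one_mul])
      · intro x hx
        rwa [hr1, one_mul]
    · rintro ⟨Q, ⟨hQ, -⟩, rfl⟩
      exact (lcone_mul_iff Q).2 hQ.latAdd
  rw [h3, Set.InjOn.ncard_image, h1]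
  intro Q _ Q' _ h
  ext x
  have := Set.ext_iff.1 h (Multiplicative.ofAdd x)
  exact this

/-- the number field data -/
theorem exists_aff (n : ℕ) (hn : 1 ≤ n) : ∃ (K : Type) (_ : Field K) (θ : Kˣ) (σ : K →+* ℝ),
    1 < σ θ ∧ (∀ P : Set (Aff K θ), LCone P → ∀ x, x ∈ P ∨ x⁻¹ ∈ P) ∧
    {P : Set (Aff K θ) | LCone P}.ncard = 4 * n := by
  obtain ⟨f, hirr, hmon, hdeg, α, hinj, hα, hroot⟩ := exists_poly n hn
  have hfact : Fact (Irreducible f) := ⟨hirr⟩
  have hpos : ∀ i, 0 < α i := fun i => lt_trans one_pos (hα i)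
  have h1 := ncard_cones n hn f hirr hdeg α hinj hpos hroot
  have h2 := latAdd_total n hn f hirr hdeg α hinj hpos hroot
  let i0 : Fin n := ⟨0, hn⟩
  have hroot' : eval₂ (algebraMap ℚ ℝ) (α i0) f = 0 := by
    rw [← aeval_def]; exact hroot i0
  let σ : AdjoinRoot f →+* ℝ := AdjoinRoot.lift (algebraMap ℚ ℝ) (α i0) hroot'
  have hσ : σ (AdjoinRoot.root f) = α i0 := AdjoinRoot.lift_root hroot'
  have hr0 : AdjoinRoot.root f ≠ 0 := by
    intro h
    rw [h, map_zero] at hσ
    linarith [hpos i0]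
  let θ : (AdjoinRoot f)ˣ := Units.mk0 (AdjoinRoot.root f) hr0
  have hσθ : σ θ = α i0 := hσ
  have hθ : ∀ m : ℤ, m ≠ 0 → θ ^ m ≠ 1 := by
    intro m hm h
    have h3 : σ ((θ ^ m : (AdjoinRoot f)ˣ) : AdjoinRoot f) = 1 := by rw [h]; simp
    rw [Units.val_zpow_eq_zpow_val, map_zpow₀, hσθ] at h3
    exact hm ((zpow_eq_one_iff_right₀ (hpos i0).le (hα i0).ne').1 h3)
  have h4 := lcone_aff (AdjoinRoot f) θ hθ (fun Q hQ hQθ => h2 Q hQ hQθ) (2 * n) h1 (by omega)
  refine ⟨AdjoinRoot f, inferInstance, θ, σ, ?_, h4.1, ?_⟩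
  · rw [hσθ]; exact hα i0
  · rw [h4.2]; ring

theorem case_four (n : ℕ) (hn : 1 ≤ n) : ∃ (G : Type) (_ : Group G), (LOrd G).ncard = 4 * n := by
  obtain ⟨K, hK, θ, σ, h1, h2, h3⟩ := exists_aff n hn
  exact ⟨Aff K θ, inferInstance, by rw [ncard_lord]; exact h3⟩

theorem case_four_two (n : ℕ) (hn : 1 ≤ n) :
    ∃ (G : Type) (_ : Group G), (LOrd G).ncard = 4 * n + 2 := by
  obtain ⟨K, hK, θ, σ, h1, h2, h3⟩ := exists_aff n hn
  obtain ⟨ψ, hψ⟩ := exists_chart (σ θ) h1
  have hTC : {Q : Set (Aff K θ) | TCone Q} = {P : Set (Aff K θ) | LCone P} := by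
    ext Q
    exact ⟨fun h => TCone.lcone h, fun h => LCone.tcone h (h2 Q h)⟩
  obtain ⟨G, ⟨S⟩⟩ := exists_germSys (Aff K θ) (σ θ) h1 ψ hψ (fun γ => γ.j) (fun γ => σ γ.b)
    (fun γ δ => rfl)
    (fun γ δ => by
      show σ (γ.b + (θ ^ γ.j : Kˣ) * δ.b) = σ γ.b + (σ θ) ^ γ.j * σ δ.b
      rw [map_add, map_mul, Units.val_zpow_eq_zpow_val, map_zpow₀])
    (fun γ hj hb => by
      apply Aff.ext
      · exact (map_eq_zero σ).1 hb
      · exact hj)
    (fun i => ⟨⟨0, i⟩, rfl, map_zero σ⟩)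
  refine ⟨G, inferInstance, ?_⟩
  have hfin : {Q : Set (Aff K θ) | TCone Q}.Finite := by
    rw [hTC]
    apply Set.finite_of_ncard_ne_zero
    rw [h3]; omega
  rw [ncard_lord, S.ncard_lcone hfin, hTC, h3]

theorem main (k : ℕ) (hk : 0 < k) (he : Even k) : ∃ (G : Type) (_ : Group G), (LOrd G).ncard = k := by
  obtain ⟨m, rfl⟩ := he
  rcases Nat.even_or_odd' m with ⟨n, rfl | rfl⟩
  · have := case_four n (by omega)
    have e : 2 * n + 2 * n = 4 * n := by ring
    rw [e]; exact this
  · rcases Nat.eq_zero_or_pos n with rfl | hn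
    · exact case_two
    · have := case_four_two n hn
      have e : 2 * n + 1 + (2 * n + 1) = 4 * n + 2 := by ring
      rw [e]; exact this

end Pool.Agent.Helper157
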