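import Pool.Agent.Helper157.LC

set_option autoImplicit false

namespace Pool.Agent.Helper157

/-- A group `G` of homeomorphisms of the line with right germs in the group `Γ`. -/
structure GermSys (G : Subgroup (ℝ ≃o ℝ)) (Γ : Type) [Group Γ] where
  germ : G → ℝ → Γ
  bdd : ∀ f : G, ∃ A B : ℝ, A < B ∧ ∀ t, t ≤ A ∨ B ≤ t → f.1 t = t
  glue : ∀ h : ℝ ≃o ℝ, (∃ A B : ℝ, ∀ t, t ≤ A ∨ B ≤ t → h t = t) →
    (∀ x, ∃ g : G, ∃ y > x, ∀ t, x ≤ t → t < y → h t = g.1 t) → h ∈ G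
  germ_mul : ∀ (f g : G) (x : ℝ), germ (f * g) x = germ f (g.1 x) * germ g x
  germ_congr : ∀ (f g : G) (x y : ℝ), x < y → (∀ t, x ≤ t → t < y → f.1 t = g.1 t) →
    germ f x = germ g x
  germ_one : ∀ (f : G) (x : ℝ), f.1 x = x → germ f x = 1 →
    ∃ y > x, ∀ t, x ≤ t → t < y → f.1 t = t
  osc : ∀ (f : G) (x : ℝ), f.1 x = x → ∃ y > x,
    (∀ t, x < t → t < y → f.1 t = t) ∨ (∀ t, x < t → t < y → t < f.1 t) ∨
    (∀ t, x < t → t < y → f.1 t < t)
  move : ∀ (A x y B : ℝ) (α δ : Γ), A < x → x < B → A < y → y < B →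
    ∃ z : G, (∀ t, t ≤ A ∨ B ≤ t → z.1 t = t) ∧ z.1 x = y ∧ germ z A = α ∧ germ z x = δ

section basic
variable {G : Subgroup (ℝ ≃o ℝ)}

lemma mul_ap (f g : G) (t : ℝ) : (f * g).1 t = f.1 (g.1 t) := rfl
lemma one_ap (t : ℝ) : (1 : G).1 t = t := rfl
lemma inv_ap (f : G) (t : ℝ) : (f⁻¹).1 (f.1 t) = t := f.1.symm_apply_apply t
lemma ap_inv (f : G) (t : ℝ) : f.1 ((f⁻¹).1 t) = t := f.1.apply_symm_apply t
lemma ap_lt (f : G) {s t : ℝ} : f.1 s < f.1 t ↔ s < t := f.1.lt_iff_lt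
lemma ap_le (f : G) {s t : ℝ} : f.1 s ≤ f.1 t ↔ s ≤ t := f.1.le_iff_le
lemma ap_inj (f : G) {s t : ℝ} : f.1 s = f.1 t ↔ s = t := f.1.injective.eq_iff
lemma g_ext {f g : G} (h : ∀ t, f.1 t = g.1 t) : f = g := Subtype.ext (RelIso.ext h)
lemma inv_eq_of {f : G} {s t : ℝ} (h : f.1 s = t) : (f⁻¹).1 t = s := by rw [← h, inv_ap]
lemma inv_fix {f : G} {t : ℝ} (h : f.1 t = t) : (f⁻¹).1 t = t := inv_eq_of h
lemma inv_fix_iff {f : G} {t : ℝ} : (f⁻¹).1 t = t ↔ f.1 t = t := by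
  constructor
  · intro h
    have := inv_fix h
    rwa [inv_inv] at this
  · exact inv_fix
lemma lt_inv_ap (f : G) {s t : ℝ} : s < (f⁻¹).1 t ↔ f.1 s < t := by
  rw [← ap_lt f, ap_inv]
lemma inv_ap_lt (f : G) {s t : ℝ} : (f⁻¹).1 s < t ↔ s < f.1 t := by
  rw [← ap_lt f, ap_inv]
lemma le_inv_ap (f : G) {s t : ℝ} : s ≤ (f⁻¹).1 t ↔ f.1 s ≤ t := by
  rw [← ap_le f, ap_inv]
lemma inv_ap_le (f : G) {s t : ℝ} : (f⁻¹).1 s ≤ t ↔ s ≤ f.1 t := by
  rw [← ap_le f, ap_inv]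

/-- `f` is the identity outside `(a,b)`. -/
def SuppIn (f : G) (a b : ℝ) : Prop := ∀ t, t ≤ a ∨ b ≤ t → f.1 t = t

lemma SuppIn.mono {f : G} {a b a' b' : ℝ} (h : SuppIn f a b) (h1 : a' ≤ a) (h2 : b ≤ b') :
    SuppIn f a' b' := by
  intro t ht
  apply h
  rcases ht with ht | ht
  · left; linarith
  · right; linarith

lemma SuppIn.inv {f : G} {a b : ℝ} (h : SuppIn f a b) : SuppIn f⁻¹ a b :=
  fun t ht => inv_fix (h t ht)

lemma SuppIn.mul {f g : G} {a b : ℝ} (h : SuppIn f a b) (h' : SuppIn g a b) :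
    SuppIn (f * g) a b := by
  intro t ht
  rw [mul_ap, h' t ht, h t ht]

lemma SuppIn.conj {f : G} {a b : ℝ} (h : SuppIn f a b) (g : G) :
    SuppIn (g * f * g⁻¹) (g.1 a) (g.1 b) := by
  intro t ht
  rw [mul_ap, mul_ap, h _ ?_, ap_inv]
  rcases ht with ht | ht
  · left; rwa [inv_ap_le]
  · right; rwa [le_inv_ap]

lemma SuppIn.lt {f : G} {a b : ℝ} (h : SuppIn f a b) {t : ℝ} (ht : t < b) : f.1 t < b := by
  have := (ap_lt f).2 ht
  rwa [h b (Or.inr le_rfl)] at this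

lemma SuppIn.gt {f : G} {a b : ℝ} (h : SuppIn f a b) {t : ℝ} (ht : a < t) : a < f.1 t := by
  have := (ap_lt f).2 ht
  rwa [h a (Or.inl le_rfl)] at this

lemma SuppIn.mem {f : G} {a b : ℝ} (h : SuppIn f a b) {t : ℝ} (ht : f.1 t ≠ t) :
    a < t ∧ t < b := by
  by_contra hc
  apply ht
  apply h
  by_contra hc2
  push Not at hc2
  exact hc ⟨hc2.1, hc2.2⟩

/-- `f` moves all points of `(a,b)` up and fixes `a`, `b`. -/
structure Up (f : G) (a b : ℝ) : Prop where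
  lt : a < b
  left : f.1 a = a
  right : f.1 b = b
  up : ∀ t, a < t → t < b → t < f.1 t

lemma Up.map_lt {f : G} {a b : ℝ} (h : Up f a b) {t : ℝ} (ht : t < b) : f.1 t < b := by
  have := (ap_lt f).2 ht
  rwa [h.right] at this

lemma Up.map_gt {f : G} {a b : ℝ} (h : Up f a b) {t : ℝ} (ht : a < t) : a < f.1 t := by
  have := (ap_lt f).2 ht
  rwa [h.left] at this

lemma Up.inv_lt {f : G} {a b : ℝ} (h : Up f a b) {t : ℝ} (ht : t < b) : (f⁻¹).1 t < b := by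
  rw [inv_ap_lt, h.right]; exact ht

lemma Up.inv_gt {f : G} {a b : ℝ} (h : Up f a b) {t : ℝ} (ht : a < t) : a < (f⁻¹).1 t := by
  rw [lt_inv_ap, h.left]; exact ht

lemma Up.inv_down {f : G} {a b : ℝ} (h : Up f a b) {t : ℝ} (ha : a < t) (ht : t < b) :
    (f⁻¹).1 t < t := by
  rw [inv_ap_lt]; exact h.up t ha ht

lemma Up.conj {f : G} {a b : ℝ} (h : Up f a b) (g : G) :
    Up (g * f * g⁻¹) (g.1 a) (g.1 b) := by
  refine ⟨(ap_lt g).2 h.lt, ?_, ?_, ?_⟩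
  · rw [mul_ap, mul_ap, inv_ap, h.left]
  · rw [mul_ap, mul_ap, inv_ap, h.right]
  · intro t h1 h2
    rw [mul_ap, mul_ap, ← inv_ap_lt]
    exact h.up _ (by rwa [lt_inv_ap]) (by rwa [inv_ap_lt])

lemma pow_fix {f : G} {a : ℝ} (h : f.1 a = a) (n : ℕ) : (f ^ n).1 a = a := by
  induction n with
  | zero => rw [pow_zero, one_ap]
  | succ n ih => rw [pow_succ, mul_ap, h, ih]

/-- existence of iterates below any level -/
lemma Up.exists_pow {f : G} {a b c x : ℝ} (h : Up f a b) (hc : a < c) (hx : a < x) (hxb : x < b) :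
    ∃ n : ℕ, ((f ^ n)⁻¹).1 x < c := by
  by_contra hcon
  push Not at hcon
  set T : Set ℝ := {y | ∃ n : ℕ, y = ((f ^ n)⁻¹).1 x} with hT
  have hne : T.Nonempty := ⟨_, 0, rfl⟩
  have hbd : BddBelow T := ⟨c, by rintro _ ⟨n, rfl⟩; exact hcon n⟩
  set s := sInf T with hs
  have hcs : c ≤ s := le_csInf hne (by rintro _ ⟨n, rfl⟩; exact hcon n)
  have hsx : s ≤ x := csInf_le hbd ⟨0, by simp [one_ap]⟩
  have hfs : s < f.1 s := h.up s (by linarith) (by linarith)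
  obtain ⟨y, ⟨n, rfl⟩, hy⟩ := exists_lt_of_csInf_lt hne hfs
  have h1 : ((f ^ (n + 1))⁻¹).1 x < s := by
    rw [pow_succ, mul_inv_rev, mul_ap, inv_ap_lt]
    exact hy
  have h2 : s ≤ ((f ^ (n + 1))⁻¹).1 x := csInf_le hbd ⟨n + 1, rfl⟩
  linarith

end basic

namespace GermSys
variable {G : Subgroup (ℝ ≃o ℝ)} {Γ : Type} [Group Γ] (S : GermSys G Γ)

include S in
lemma mkG (h h' : ℝ → ℝ) (hmono : StrictMono h) (hinv : ∀ x, h (h' x) = x)
    (hb : ∃ A B : ℝ, ∀ t, t ≤ A ∨ B ≤ t → h t = t)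
    (hl : ∀ x, ∃ g : G, ∃ y > x, ∀ t, x ≤ t → t < y → h t = g.1 t) :
    ∃ g : G, ∀ t, g.1 t = h t := by
  let e : ℝ ≃o ℝ := hmono.orderIsoOfRightInverse h h' hinv
  exact ⟨⟨e, S.glue e hb hl⟩, fun t => rfl⟩

section CL
variable {f f' : G} {a b c : ℝ}

/-- the approximants -/
def apx (f f' : G) (n : ℕ) : G := f' ^ n * (f ^ n)⁻¹

lemma apx_inv (f f' : G) (n : ℕ) : (apx f f' n)⁻¹ = apx f' f n := by
  simp [apx]

lemma apx_mem (hf : Up f a b) (hf' : Up f' a b) (n : ℕ) {t : ℝ} (h1 : a < t) (h2 : t < b) :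
    a < (apx f f' n).1 t ∧ (apx f f' n).1 t < b := by
  have ha : (apx f f' n).1 a = a := by
    rw [apx, mul_ap, inv_fix (pow_fix hf.left n), pow_fix hf'.left]
  have hb : (apx f f' n).1 b = b := by
    rw [apx, mul_ap, inv_fix (pow_fix hf.right n), pow_fix hf'.right]
  constructor
  · have := (ap_lt (apx f f' n)).2 h1
    rwa [ha] at this
  · have := (ap_lt (apx f f' n)).2 h2
    rwa [hb] at this

lemma apx_succ (hf : Up f a b) (hag : ∀ t, a ≤ t → t < c → f.1 t = f'.1 t) {x : ℝ}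
    (h1 : a < x) (h2 : x < b) {n : ℕ} (hn : ((f ^ n)⁻¹).1 x < c) :
    ((f ^ (n + 1))⁻¹).1 x < c ∧ (apx f f' (n + 1)).1 x = (apx f f' n).1 x := by
  set y := ((f ^ n)⁻¹).1 x with hy
  have hya : a < y := by
    rw [hy, lt_inv_ap, pow_fix hf.left]; exact h1
  have hyb : y < b := by
    rw [hy, inv_ap_lt, pow_fix hf.right]; exact h2
  have e1 : ((f ^ (n + 1))⁻¹).1 x = (f⁻¹).1 y := by
    rw [pow_succ, mul_inv_rev, mul_ap]
  have e2 : (f⁻¹).1 y < y := hf.inv_down hya hyb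
  refine ⟨by rw [e1]; linarith, ?_⟩
  rw [apx, mul_ap, e1, pow_succ, mul_ap, ← hag _ (hf.inv_gt hya).le (by linarith), ap_inv]
  rfl

lemma apx_ge (hf : Up f a b) (hag : ∀ t, a ≤ t → t < c → f.1 t = f'.1 t) {x : ℝ}
    (h1 : a < x) (h2 : x < b) {n : ℕ} (hn : ((f ^ n)⁻¹).1 x < c) (m : ℕ) :
    ((f ^ (n + m))⁻¹).1 x < c ∧ (apx f f' (n + m)).1 x = (apx f f' n).1 x := by
  induction m with
  | zero => exact ⟨hn, rfl⟩
  | succ m ih =>
    have := apx_succ hf hag h1 h2 ih.1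
    exact ⟨this.1, this.2.trans ih.2⟩

lemma apx_eq (hf : Up f a b) (hag : ∀ t, a ≤ t → t < c → f.1 t = f'.1 t) {x : ℝ}
    (h1 : a < x) (h2 : x < b) {n m : ℕ} (hn : ((f ^ n)⁻¹).1 x < c) (hm : ((f ^ m)⁻¹).1 x < c) :
    (apx f f' n).1 x = (apx f f' m).1 x := by
  have e1 := (apx_ge hf hag h1 h2 hn m).2
  have e2 := (apx_ge hf hag h1 h2 hm n).2
  rw [← e1, ← e2, add_comm]

open Classical in
/-- the conjugating map -/
noncomputable def lim (f f' : G) (a b c : ℝ) (x : ℝ) : ℝ :=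
  if h : ∃ n : ℕ, a < x ∧ x < b ∧ ((f ^ n)⁻¹).1 x < c then (apx f f' h.choose).1 x else x

lemma lim_eq (hf : Up f a b) (hag : ∀ t, a ≤ t → t < c → f.1 t = f'.1 t) {x : ℝ}
    (h1 : a < x) (h2 : x < b) {n : ℕ} (hn : ((f ^ n)⁻¹).1 x < c) :
    lim f f' a b c x = (apx f f' n).1 x := by
  have h : ∃ n : ℕ, a < x ∧ x < b ∧ ((f ^ n)⁻¹).1 x < c := ⟨n, h1, h2, hn⟩
  rw [lim, dif_pos h]
  exact apx_eq hf hag h1 h2 h.choose_spec.2.2 hn

lemma lim_out {x : ℝ} (h : x ≤ a ∨ b ≤ x) : lim f f' a b c x = x := by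
  rw [lim, dif_neg]
  rintro ⟨n, h1, h2, -⟩
  rcases h with h | h <;> linarith

lemma lim_inv (hc : a < c) (hf : Up f a b) (hf' : Up f' a b)
    (hag : ∀ t, a ≤ t → t < c → f.1 t = f'.1 t) (x : ℝ) :
    lim f f' a b c (lim f' f a b c x) = x := by
  by_cases hx : x ≤ a ∨ b ≤ x
  · rw [lim_out hx, lim_out hx]
  · push Not at hx
    obtain ⟨h1, h2⟩ := hx
    have hag' : ∀ t, a ≤ t → t < c → f'.1 t = f.1 t := fun t ht ht' => (hag t ht ht').symm
    obtain ⟨n, hn⟩ := hf'.exists_pow hc h1 h2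
    have e1 := lim_eq (f' := f) hf' hag' h1 h2 hn
    have hmem := apx_mem hf' hf n h1 h2
    set y := (apx f' f n).1 x with hy
    obtain ⟨m, hm⟩ := hf.exists_pow hc hmem.1 hmem.2
    rw [e1, lim_eq hf hag hmem.1 hmem.2 (apx_ge hf hag hmem.1 hmem.2 hm n).1]
    have e3 : y = (apx f' f (m + n)).1 x := by
      rw [hy, add_comm]
      exact ((apx_ge hf' hag' h1 h2 hn m).2).symm
    rw [e3, ← apx_inv f' f]
    exact inv_ap _ _

lemma lim_mono (hc : a < c) (hf : Up f a b) (hf' : Up f' a b)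
    (hag : ∀ t, a ≤ t → t < c → f.1 t = f'.1 t) : StrictMono (lim f f' a b c) := by
  have hin : ∀ x, a < x → x < b → a < lim f f' a b c x ∧ lim f f' a b c x < b := by
    intro x h1 h2
    obtain ⟨n, hn⟩ := hf.exists_pow hc h1 h2
    rw [lim_eq hf hag h1 h2 hn]
    exact apx_mem hf hf' n h1 h2
  intro x y hxy
  by_cases hx : x ≤ a
  · rw [lim_out (Or.inl hx)]
    by_cases hy : y ≤ a
    · rw [lim_out (Or.inl hy)]; exact hxy
    · by_cases hy2 : b ≤ y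
      · rw [lim_out (Or.inr hy2)]; exact hxy
      · push Not at hy hy2
        linarith [(hin y hy hy2).1]
  · push Not at hx
    by_cases hx2 : b ≤ x
    · rw [lim_out (Or.inr hx2), lim_out (Or.inr (by linarith))]; exact hxy
    · push Not at hx2
      by_cases hy2 : b ≤ y
      · rw [lim_out (Or.inr hy2)]
        linarith [(hin x hx hx2).2]
      · push Not at hy2
        have hy : a < y := by linarith
        obtain ⟨n, hn⟩ := hf.exists_pow hc hy hy2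
        have hn' : ((f ^ n)⁻¹).1 x < c := lt_trans ((ap_lt _).2 hxy) hn
        rw [lim_eq hf hag hy hy2 hn, lim_eq hf hag hx hx2 hn']
        exact (ap_lt _).2 hxy

include S in
lemma conj_up (hc : a < c) (hf : Up f a b) (hf' : Up f' a b)
    (hag : ∀ t, a ≤ t → t < c → f.1 t = f'.1 t) :
    ∃ h : G, SuppIn h a b ∧ (∀ t, a ≤ t → t < c → t < b → h.1 t = t) ∧
      ∀ t, a ≤ t → t ≤ b → h.1 (f.1 t) = f'.1 (h.1 t) := by
  obtain ⟨h, hh⟩ := S.mkG (lim f f' a b c) (lim f' f a b c) (lim_mono hc hf hf' hag)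
    (lim_inv hc hf hf' hag) ⟨a, b, fun t ht => lim_out ht⟩ (by
      intro x
      by_cases hx : x < a
      · exact ⟨1, a, hx, fun t _ ht => lim_out (Or.inl ht.le)⟩
      · push Not at hx
        by_cases hx2 : b ≤ x
        · exact ⟨1, x + 1, by linarith, fun t ht _ => lim_out (Or.inr (by linarith))⟩
        · push Not at hx2
          rcases hx.eq_or_lt with hx | hx
          · subst hx
            refine ⟨1, min b c, lt_min hx2 hc, ?_⟩
            intro t h1 h2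
            rcases h1.eq_or_lt with h1 | h1
            · subst h1; exact lim_out (Or.inl le_rfl)
            · have := lt_min_iff.1 h2
              rw [lim_eq hf hag h1 this.1 (n := 0) (by simpa [one_ap] using this.2)]
              rfl
          · obtain ⟨n, hn⟩ := hf.exists_pow (x := (x + b) / 2) hc (by linarith) (by linarith)
            refine ⟨apx f f' n, (x + b) / 2, by linarith, ?_⟩
            intro t h1 h2
            exact lim_eq hf hag (by linarith) (by linarith) (lt_trans ((ap_lt _).2 h2) hn))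
  have hid : ∀ t, a ≤ t → t < c → t < b → h.1 t = t := by
    intro t h1 h2 h3
    rw [hh]
    rcases h1.eq_or_lt with h1 | h1
    · subst h1; exact lim_out (Or.inl le_rfl)
    · rw [lim_eq hf hag h1 h3 (n := 0) (by simpa [one_ap] using h2)]
      rfl
  have hout : SuppIn h a b := fun t ht => (hh t).trans (lim_out ht)
  refine ⟨h, hout, hid, ?_⟩
  intro t h1 h2
  rcases h1.eq_or_lt with h1 | h1
  · subst h1
    rw [hf.left, hout _ (Or.inl le_rfl), hf'.left]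
  rcases h2.eq_or_lt with h2 | h2
  · subst h2
    rw [hf.right, hout _ (Or.inr le_rfl), hf'.right]
  obtain ⟨m, hm⟩ := hf.exists_pow (x := f.1 t) hc (hf.map_gt h1) (hf.map_lt h2)
  have hm' : ((f ^ m)⁻¹).1 t < c := lt_trans ((ap_lt _).2 (hf.up t h1 h2)) hm
  rw [hh, hh, lim_eq hf hag h1 h2 hm', lim_eq hf hag (hf.map_gt h1) (hf.map_lt h2)
    (apx_succ hf hag (hf.map_gt h1) (hf.map_lt h2) hm).1]
  rw [apx, apx, mul_ap, mul_ap]
  rw [pow_succ' f' m, pow_succ' f m]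
  rw [mul_inv_rev, mul_ap, mul_ap]
  have : (f⁻¹).1 (f.1 t) = t := inv_ap f t
  have e : ((f ^ m)⁻¹).1 ((f⁻¹).1 (f.1 t)) = ((f ^ m)⁻¹).1 t := by rw [this]
  rw [e]

end CL

end GermSys
end Pool.Agent.Helper157
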