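import Pool.Agent.Helper157.GS

set_option autoImplicit false

namespace Pool.Agent.Helper157

section basic2
variable {G : Subgroup (ℝ ≃o ℝ)}

/-- If `h` conjugates `f` to `f'` on `[a,b]` and everything agrees outside, then it does globally. -/
lemma conj_global {f f' h : G} {a b : ℝ} (hfa : f.1 a = a) (hfb : f.1 b = b)
    (hout : ∀ t, t ≤ a ∨ b ≤ t → f.1 t = f'.1 t) (hh : SuppIn h a b)
    (hc : ∀ t, a ≤ t → t ≤ b → h.1 (f.1 t) = f'.1 (h.1 t)) : h * f * h⁻¹ = f' := by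
  rw [mul_inv_eq_iff_eq_mul]
  apply g_ext
  intro t
  rw [mul_ap, mul_ap]
  by_cases h1 : t ≤ a
  · have e1 : f.1 t ≤ a := by
      have := (ap_le f).2 h1
      rwa [hfa] at this
    rw [hh t (Or.inl h1), hh _ (Or.inl e1), hout t (Or.inl h1)]
  · by_cases h2 : b ≤ t
    · have e1 : b ≤ f.1 t := by
        have := (ap_le f).2 h2
        rwa [hfb] at this
      rw [hh t (Or.inr h2), hh _ (Or.inr e1), hout t (Or.inr h2)]
    · push Not at h1 h2
      exact hc t h1.le h2.le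

lemma exists_left {f : G} {z : ℝ} (hz : z < f.1 z) (hb : ∃ A, A ≤ z ∧ f.1 A ≤ A) :
    ∃ a, a < z ∧ f.1 a = a ∧ ∀ t, a < t → t ≤ z → t < f.1 t := by
  set T : Set ℝ := {t | t ≤ z ∧ f.1 t ≤ t} with hT
  obtain ⟨A, hA1, hA2⟩ := hb
  have hne : T.Nonempty := ⟨A, hA1, hA2⟩
  have hbd : BddAbove T := ⟨z, fun t ht => ht.1⟩
  set a := sSup T with ha
  have haz : a ≤ z := csSup_le hne fun t ht => ht.1
  have h1 : f.1 a ≤ a := by
    by_contra hcon
    push Not at hcon
    have : (f⁻¹).1 a < a := by rw [inv_ap_lt]; exact hcon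
    obtain ⟨t, ht, hat⟩ := exists_lt_of_lt_csSup hne this
    rw [inv_ap_lt] at hat
    have : t ≤ a := le_csSup hbd ht
    linarith [ht.2]
  have haz' : a < z := lt_of_le_of_ne haz (by rintro h; rw [h] at h1; linarith)
  have h2 : ∀ t, a < t → t ≤ z → t < f.1 t := by
    intro t h3 h4
    by_contra hcon
    push Not at hcon
    have : t ≤ a := le_csSup hbd ⟨h4, hcon⟩
    linarith
  refine ⟨a, haz', le_antisymm h1 ?_, h2⟩
  by_contra hcon
  push Not at hcon
  have h3 : a < (f⁻¹).1 a := by rw [lt_inv_ap]; exact hcon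
  set m := min ((f⁻¹).1 a) z with hm
  have h4 : a < m := lt_min h3 haz'
  have h5 := h2 m h4 (min_le_right _ _)
  have h6 : f.1 m ≤ a := by rw [← le_inv_ap]; exact min_le_left _ _
  linarith

lemma exists_right {f : G} {z : ℝ} (hz : z < f.1 z) (hb : ∃ A, z ≤ A ∧ f.1 A ≤ A) :
    ∃ a, z < a ∧ f.1 a = a ∧ ∀ t, z ≤ t → t < a → t < f.1 t := by
  set T : Set ℝ := {t | z ≤ t ∧ f.1 t ≤ t} with hT
  obtain ⟨A, hA1, hA2⟩ := hb
  have hne : T.Nonempty := ⟨A, hA1, hA2⟩
  have hbd : BddBelow T := ⟨z, fun t ht => ht.1⟩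
  set a := sInf T with ha
  have haz : z ≤ a := le_csInf hne fun t ht => ht.1
  have h1 : f.1 a ≤ a := by
    by_contra hcon
    push Not at hcon
    obtain ⟨t, ht, hat⟩ := exists_lt_of_csInf_lt hne hcon
    have h3 : a ≤ t := csInf_le hbd ht
    have h4 := (ap_le f).2 h3
    linarith [ht.2]
  have haz' : z < a := lt_of_le_of_ne haz (by rintro h; rw [← h] at h1; linarith)
  have h2 : ∀ t, z ≤ t → t < a → t < f.1 t := by
    intro t h3 h4
    by_contra hcon
    push Not at hcon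
    have : a ≤ t := csInf_le hbd ⟨h3, hcon⟩
    linarith
  refine ⟨a, haz', le_antisymm h1 ?_, h2⟩
  by_contra hcon
  push Not at hcon
  set m := max (f.1 a) z with hm
  have h4 : m < a := max_lt hcon haz'
  have h5 := h2 m (le_max_right _ _) h4
  have h7 : m < (f⁻¹).1 m → False := by
    intro h8
    rw [lt_inv_ap] at h8
    linarith
  have h8 : f.1 m < f.1 a := (ap_lt f).2 h4
  have h9 : f.1 a ≤ m := le_max_left _ _
  linarith

end basic2

namespace GermSys
variable {G : Subgroup (ℝ ≃o ℝ)} {Γ : Type} [Group Γ] (S : GermSys G Γ)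

include S in
lemma exists_up {f : G} {z : ℝ} (hz : z < f.1 z) : ∃ a b, a < z ∧ z < b ∧ Up f a b := by
  obtain ⟨A, B, hAB, h⟩ := S.bdd f
  have h1 : ¬ (z ≤ A ∨ B ≤ z) := fun hc => by rw [h z hc] at hz; exact lt_irrefl _ hz
  push Not at h1
  obtain ⟨a, ha, hfa, hua⟩ := exists_left hz ⟨A, h1.1.le, (h A (Or.inl le_rfl)).le⟩
  obtain ⟨b, hb, hfb, hub⟩ := exists_right hz ⟨B, h1.2.le, (h B (Or.inr le_rfl)).le⟩
  refine ⟨a, b, ha, hb, by linarith, hfa, hfb, ?_⟩
  intro t h2 h3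
  rcases le_total t z with h4 | h4
  · exact hua t h2 h4
  · exact hub t h4 h3

include S in
lemma exists_comp {f : G} {z : ℝ} (hz : f.1 z ≠ z) :
    ∃ a b, a < z ∧ z < b ∧ (Up f a b ∨ Up f⁻¹ a b) := by
  rcases lt_or_gt_of_ne hz with h | h
  · have : z < (f⁻¹).1 z := by rw [lt_inv_ap]; exact h
    obtain ⟨a, b, h1, h2, h3⟩ := S.exists_up this
    exact ⟨a, b, h1, h2, Or.inr h3⟩
  · obtain ⟨a, b, h1, h2, h3⟩ := S.exists_up h
    exact ⟨a, b, h1, h2, Or.inl h3⟩

include S in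
/-- two bumps with the same germ at the left end point are conjugate -/
lemma conj_bump {f f' : G} {a b c : ℝ} (hc : a < c) (hf : Up f a b) (hf' : Up f' a b)
    (hag : ∀ t, a ≤ t → t < c → f.1 t = f'.1 t)
    (hout : ∀ t, t ≤ a ∨ b ≤ t → f.1 t = f'.1 t) :
    ∃ h : G, SuppIn h a b ∧ h * f * h⁻¹ = f' := by
  obtain ⟨h, h1, -, h2⟩ := S.conj_up hc hf hf' hag
  exact ⟨h, h1, conj_global hf.left hf.right hout h1 h2⟩

include S in
lemma exists_moving {p q : ℝ} (hpq : p < q) : ∃ w : G, SuppIn w p q ∧ w ≠ 1 := by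
  obtain ⟨z, h1, h2, -, -⟩ := S.move p (p + (q - p) / 3) (p + 2 * (q - p) / 3) q 1 1
    (by linarith) (by linarith) (by linarith) (by linarith)
  refine ⟨z, h1, ?_⟩
  rintro rfl
  rw [one_ap] at h2
  linarith

include S in
lemma step {A x y : ℝ} (hx : A < x) (hy : A < y) : ∃ g : G, (∀ t, t ≤ A → g.1 t = t) ∧ g.1 x = y := by
  obtain ⟨z, h1, h2, -, -⟩ := S.move A x y (max x y + 1) 1 1 hx
    (by linarith [le_max_left x y]) hy (by linarith [le_max_right x y])
  exact ⟨z, fun t ht => h1 t (Or.inl ht), h2⟩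

include S in
lemma trans4 {x1 x2 x3 x4 y1 y2 y3 y4 : ℝ} (h1 : x1 < x2) (h2 : x2 < x3) (h3 : x3 < x4)
    (k1 : y1 < y2) (k2 : y2 < y3) (k3 : y3 < y4) :
    ∃ g : G, g.1 x1 = y1 ∧ g.1 x2 = y2 ∧ g.1 x3 = y3 ∧ g.1 x4 = y4 := by
  obtain ⟨g1, -, e1⟩ := S.step (A := min x1 y1 - 1) (x := x1) (y := y1)
    (by linarith [min_le_left x1 y1]) (by linarith [min_le_right x1 y1])
  have l1 : y1 < g1.1 x2 := by rw [← e1]; exact (ap_lt _).2 h1
  obtain ⟨g2, f2, e2⟩ := S.step (A := y1) (x := g1.1 x2) (y := y2) l1 k1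
  have l2 : y2 < g2.1 (g1.1 x3) := by rw [← e2]; exact (ap_lt _).2 ((ap_lt _).2 h2)
  obtain ⟨g3, f3, e3⟩ := S.step (A := y2) (x := g2.1 (g1.1 x3)) (y := y3) l2 k2
  have l3 : y3 < g3.1 (g2.1 (g1.1 x4)) := by
    rw [← e3]; exact (ap_lt _).2 ((ap_lt _).2 ((ap_lt _).2 h3))
  obtain ⟨g4, f4, e4⟩ := S.step (A := y3) (x := g3.1 (g2.1 (g1.1 x4))) (y := y4) l3 k3
  refine ⟨g4 * (g3 * (g2 * g1)), ?_, ?_, ?_, ?_⟩
  · rw [mul_ap, mul_ap, mul_ap, e1, f2 _ le_rfl, f3 _ k1.le, f4 _ (by linarith)]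
  · rw [mul_ap, mul_ap, mul_ap, e2, f3 _ le_rfl, f4 _ (by linarith)]
  · rw [mul_ap, mul_ap, mul_ap, e3, f4 _ le_rfl]
  · rw [mul_ap, mul_ap, mul_ap, e4]

section order
variable [Lattice G] [MulLeftMono G] [MulRightMono G]

omit [MulRightMono G] in
lemma le_of_one_le {f w : G} (h : 1 ≤ w⁻¹ * f) : w ≤ f := by
  have := mul_le_mul_right h w
  simpa using this

lemma one_le_conj {f : G} (g : G) (h : 1 ≤ f) : 1 ≤ g * f * g⁻¹ := by
  have h1 := mul_le_mul_left (mul_le_mul_right h g) g⁻¹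
  simpa using h1

lemma conj_le_conj {f f' : G} (g : G) (h : f ≤ f') : g * f * g⁻¹ ≤ g * f' * g⁻¹ :=
  mul_le_mul_left (mul_le_mul_right h g) g⁻¹

include S in
lemma le_up {f w : G} {a b c : ℝ} (hf1 : 1 ≤ f) (hf : Up f a b) (hc : a < c) (hw : SuppIn w c b)
    (hlt : ∀ t, a < t → t < b → w.1 t < f.1 t) : w ≤ f := by
  apply le_of_one_le
  have hf' : Up (w⁻¹ * f) a b := by
    refine ⟨hf.lt, ?_, ?_, ?_⟩
    · rw [mul_ap, hf.left, inv_fix (hw a (Or.inl hc.le))]
    · rw [mul_ap, hf.right, inv_fix (hw b (Or.inr le_rfl))]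
    · intro t h1 h2
      rw [mul_ap, lt_inv_ap]
      exact hlt t h1 h2
  obtain ⟨h, -, h2⟩ := S.conj_bump (f := f) (f' := w⁻¹ * f) (c := (f⁻¹).1 c) (hf.inv_gt hc) hf hf'
    (fun t h1 h2 => by
      rw [lt_inv_ap] at h2
      rw [mul_ap, inv_fix (hw _ (Or.inl h2.le))])
    (fun t ht => by
      have : f.1 t ≤ a ∨ b ≤ f.1 t := by
        rcases ht with ht | ht
        · left
          have := (ap_le f).2 ht
          rwa [hf.left] at this
        · right
          have := (ap_le f).2 ht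
          rwa [hf.right] at this
      rw [mul_ap, inv_fix (hw _ (this.imp (fun h => h.trans hc.le) id))])
  rw [← h2]
  exact one_le_conj h hf1

include S in
lemma le_down {f w : G} {a b c : ℝ} (hf1 : 1 ≤ f) (hf : Up f⁻¹ a b) (hc : a < c)
    (hw : SuppIn w c b) (hlt : ∀ t, a < t → t < b → f.1 t < w.1 t) : w ≤ f := by
  apply le_of_one_le
  have hwa : w.1 a = a := hw a (Or.inl hc.le)
  have hwb : w.1 b = b := hw b (Or.inr le_rfl)
  have hf' : Up (f⁻¹ * w) a b := by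
    refine ⟨hf.lt, ?_, ?_, ?_⟩
    · rw [mul_ap, hwa, hf.left]
    · rw [mul_ap, hwb, hf.right]
    · intro t h1 h2
      rw [mul_ap, lt_inv_ap]
      exact hlt t h1 h2
  obtain ⟨h, -, h2⟩ := S.conj_bump (f := f⁻¹) (f' := f⁻¹ * w) (c := c) hc hf hf'
    (fun t h1 h2 => by rw [mul_ap, hw _ (Or.inl h2.le)])
    (fun t ht => by
      rw [mul_ap, hw _ (ht.imp (fun h => h.trans hc.le) id)])
  have h3 : w⁻¹ * f = h * f * h⁻¹ := by
    have := congrArg (fun x => x⁻¹) h2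
    simp only [mul_inv_rev, inv_inv] at this
    rw [← this, mul_assoc]
  rw [h3]
  exact one_le_conj h hf1

include S in
/-- the domination lemma -/
lemma dom {s w : G} {z z2 : ℝ} (hs : 1 ≤ s) (hz : z < z2) (hsz : s.1 z = z2 ∨ s.1 z2 = z)
    (hw : SuppIn w z z2) : w ≤ s := by
  rcases hsz with hsz | hsz
  · obtain ⟨a, b, ha, hb, hup⟩ := S.exists_up (f := s) (z := z) (by rw [hsz]; exact hz)
    have hb2 : z2 < b := by rw [← hsz]; exact hup.map_lt hb
    refine S.le_up hs hup ha (hw.mono le_rfl hb2.le) ?_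
    intro t h1 h2
    rcases le_or_gt t z with h3 | h3
    · rw [hw t (Or.inl h3)]; exact hup.up t h1 h2
    · rcases lt_or_ge t z2 with h4 | h4
      · have h5 := hw.lt h4
        have h6 := (ap_lt s).2 h3
        rw [hsz] at h6
        linarith
      · rw [hw t (Or.inr h4)]; exact hup.up t h1 h2
  · have hz' : (s⁻¹).1 z = z2 := inv_eq_of hsz
    obtain ⟨a, b, ha, hb, hup⟩ := S.exists_up (f := s⁻¹) (z := z) (by rw [hz']; exact hz)
    have hb2 : z2 < b := by rw [← hz']; exact hup.map_lt hb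
    refine S.le_down hs hup ha (hw.mono le_rfl hb2.le) ?_
    have hdn : ∀ t, a < t → t < b → s.1 t < t := by
      intro t h1 h2
      have := hup.up t h1 h2
      rwa [lt_inv_ap] at this
    intro t h1 h2
    rcases le_or_gt t z with h3 | h3
    · rw [hw t (Or.inl h3)]; exact hdn t h1 h2
    · rcases lt_or_ge t z2 with h4 | h4
      · have h5 := hw.gt h3
        have h6 := (ap_lt s).2 h4
        rw [hsz] at h6
        linarith
      · rw [hw t (Or.inr h4)]; exact hdn t h1 h2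

include S in
lemma small {x : G} {z : ℝ} (hx : 1 ≤ x) (hz : x.1 z ≠ z) :
    ∃ p q, p < z ∧ z < q ∧ ∀ w : G, SuppIn w p q → w ≤ x := by
  rcases lt_or_gt_of_ne hz with h | h
  · have h1 : z < (x⁻¹).1 z := by rw [lt_inv_ap]; exact h
    set q := (z + (x⁻¹).1 z) / 2 with hq
    have h2 : z < q := by rw [hq]; linarith
    have h3 : q < (x⁻¹).1 z := by rw [hq]; linarith
    have h4 : x.1 q < z := by rwa [lt_inv_ap] at h3
    exact ⟨x.1 q, q, h4, h2, fun w hw => S.dom hx (by linarith) (Or.inr rfl) hw⟩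
  · have h1 : (x⁻¹).1 z < z := by rw [inv_ap_lt]; exact h
    set p := (z + (x⁻¹).1 z) / 2 with hp
    have h2 : p < z := by rw [hp]; linarith
    have h3 : (x⁻¹).1 z < p := by rw [hp]; linarith
    have h4 : z < x.1 p := by rwa [inv_ap_lt] at h3
    exact ⟨p, x.1 p, h2, h4, fun w hw => S.dom hx (by linarith) (Or.inl rfl) hw⟩

include S in
/-- disjoint positive elements have disjoint supports -/
lemma disj {u v : G} (hu : 1 ≤ u) (hv : 1 ≤ v) (h : u ⊓ v = 1) (z : ℝ) : u.1 z = z ∨ v.1 z = z := by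
  by_contra hcon
  push Not at hcon
  obtain ⟨p, q, h1, h2, h3⟩ := S.small hu hcon.1
  obtain ⟨p', q', h1', h2', h3'⟩ := S.small hv hcon.2
  obtain ⟨w, hw, hw1⟩ := S.exists_moving (p := max p p') (q := min q q')
    (lt_trans (max_lt h1 h1') (lt_min h2 h2'))
  have key : ∀ w : G, SuppIn w (max p p') (min q q') → w ≤ 1 := by
    intro w hw
    rw [← h]
    exact le_inf (h3 w (hw.mono (le_max_left _ _) (min_le_left _ _)))
      (h3' w (hw.mono (le_max_right _ _) (min_le_right _ _)))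
  apply hw1
  apply le_antisymm (key w hw)
  have h5 := key w⁻¹ hw.inv
  have := mul_le_mul_right h5 w
  simpa using this

end order
end GermSys
end Pool.Agent.Helper157
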