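import Pool.Agent.Helper157.GS2

set_option autoImplicit false

namespace Pool.Agent.Helper157
namespace GermSys
variable {G : Subgroup (ℝ ≃o ℝ)} {Γ : Type} [Group Γ] (S : GermSys G Γ)

/-- elements to the right of a moved point are dominated -/
def LDom (G : Subgroup (ℝ ≃o ℝ)) [Lattice G] : Prop :=
  ∀ x : G, 1 ≤ x → ∀ z, x.1 z ≠ z → ∀ (w : G) (A B : ℝ), z < A → SuppIn w A B → w ≤ x

/-- elements to the left of a moved point are dominated -/
def RDom (G : Subgroup (ℝ ≃o ℝ)) [Lattice G] : Prop :=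
  ∀ x : G, 1 ≤ x → ∀ z, x.1 z ≠ z → ∀ (w : G) (A B : ℝ), B < z → SuppIn w A B → w ≤ x

include S in
lemma restr {f : G} {a b : ℝ} (hab : a < b) (ha : f.1 a = a) (hb : f.1 b = b) :
    ∃ r : G, (∀ t, a ≤ t → t ≤ b → r.1 t = f.1 t) ∧ SuppIn r a b := by
  classical
  have ha' := inv_fix ha
  have hb' := inv_fix hb
  have hmem : ∀ (k : G), k.1 a = a → k.1 b = b → ∀ t, a ≤ t → t ≤ b → a ≤ k.1 t ∧ k.1 t ≤ b := by
    intro k h1 h2 t h3 h4
    have e1 := (ap_le k).2 h3
    have e2 := (ap_le k).2 h4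
    rw [h1] at e1; rw [h2] at e2
    exact ⟨e1, e2⟩
  let F : G → ℝ → ℝ := fun k t => if a ≤ t ∧ t ≤ b then k.1 t else t
  have hF : ∀ (k : G) (t : ℝ), a ≤ t → t ≤ b → F k t = k.1 t := fun k t h1 h2 => if_pos ⟨h1, h2⟩
  have hF' : ∀ (k : G) (t : ℝ), ¬ (a ≤ t ∧ t ≤ b) → F k t = t := fun k t h1 => if_neg h1
  obtain ⟨r, hr⟩ := S.mkG (F f) (F f⁻¹) (by
      intro x y hxy
      by_cases hx : a ≤ x ∧ x ≤ b
      · rw [hF f x hx.1 hx.2]
        by_cases hy : a ≤ y ∧ y ≤ b
        · rw [hF f y hy.1 hy.2]; exact (ap_lt f).2 hxy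
        · rw [hF' f y hy]
          have := (hmem f ha hb x hx.1 hx.2).2
          have h3 : b < y := by
            by_contra hc
            push Not at hc
            exact hy ⟨by linarith, hc⟩
          linarith
      · rw [hF' f x hx]
        by_cases hy : a ≤ y ∧ y ≤ b
        · rw [hF f y hy.1 hy.2]
          have := (hmem f ha hb y hy.1 hy.2).1
          have h3 : x < a := by
            by_contra hc
            push Not at hc
            exact hx ⟨hc, by linarith⟩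
          linarith
        · rw [hF' f y hy]; exact hxy)
    (by
      intro x
      by_cases hx : a ≤ x ∧ x ≤ b
      · rw [hF _ x hx.1 hx.2]
        have := hmem f⁻¹ ha' hb' x hx.1 hx.2
        rw [hF _ _ this.1 this.2, ap_inv]
      · rw [hF' _ x hx, hF' _ x hx])
    ⟨a, b, by
      rintro t (ht | ht)
      · by_cases h : a ≤ t ∧ t ≤ b
        · have : t = a := le_antisymm ht h.1
          subst this
          rw [hF _ _ h.1 h.2, ha]
        · exact hF' _ _ h
      · by_cases h : a ≤ t ∧ t ≤ b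
        · have : t = b := le_antisymm h.2 ht
          subst this
          rw [hF _ _ h.1 h.2, hb]
        · exact hF' _ _ h⟩
    (by
      intro x
      by_cases hx : x < a
      · exact ⟨1, a, hx, fun t _ ht => hF' _ _ (fun h => by linarith [h.1])⟩
      · push Not at hx
        by_cases hx2 : b ≤ x
        · refine ⟨1, x + 1, by linarith, fun t ht _ => ?_⟩
          rw [one_ap]
          by_cases h : a ≤ t ∧ t ≤ b
          · have : t = b := le_antisymm h.2 (by linarith)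
            subst this
            rw [hF _ _ h.1 h.2, hb]
          · exact hF' _ _ h
        · push Not at hx2
          exact ⟨f, b, hx2, fun t h1 h2 => hF _ _ (by linarith) h2.le⟩)
  refine ⟨r, fun t h1 h2 => by rw [hr, hF _ _ h1 h2], ?_⟩
  rintro t (ht | ht)
  · rw [hr]
    by_cases h : a ≤ t ∧ t ≤ b
    · have : t = a := le_antisymm ht h.1
      subst this
      rw [hF _ _ h.1 h.2, ha]
    · exact hF' _ _ h
  · rw [hr]
    by_cases h : a ≤ t ∧ t ≤ b
    · have : t = b := le_antisymm h.2 ht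
      subst this
      rw [hF _ _ h.1 h.2, hb]
    · exact hF' _ _ h

include S in
lemma exists_upbump : ∃ (u : G) (a b : ℝ), Up u a b ∧ SuppIn u a b := by
  obtain ⟨w, -, hw⟩ := S.exists_moving (p := 0) (q := 1) one_pos
  have : ∃ z, w.1 z ≠ z := by
    by_contra hc
    push Not at hc
    exact hw (g_ext hc)
  obtain ⟨z, hz⟩ := this
  obtain ⟨a, b, h1, h2, h | h⟩ := S.exists_comp hz
  · obtain ⟨r, hr, hr2⟩ := S.restr h.lt h.left h.right
    refine ⟨r, a, b, ⟨h.lt, hr2 a (Or.inl le_rfl), hr2 b (Or.inr le_rfl), ?_⟩, hr2⟩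
    intro t h3 h4
    rw [hr t h3.le h4.le]
    exact h.up t h3 h4
  · obtain ⟨r, hr, hr2⟩ := S.restr h.lt h.left h.right
    refine ⟨r, a, b, ⟨h.lt, hr2 a (Or.inl le_rfl), hr2 b (Or.inr le_rfl), ?_⟩, hr2⟩
    intro t h3 h4
    rw [hr t h3.le h4.le]
    exact h.up t h3 h4

lemma exists_moved {w : G} (hw : w ≠ 1) : ∃ z, w.1 z ≠ z := by
  by_contra hc
  push Not at hc
  exact hw (g_ext hc)

lemma ne_one_of_moved {w : G} {z : ℝ} (h : w.1 z ≠ z) : w ≠ 1 := by
  rintro rfl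
  exact h rfl

lemma exists_pair_right {s : G} {z : ℝ} (h : s.1 z ≠ z) :
    ∃ x4, z < x4 ∧ (s.1 z = x4 ∨ s.1 x4 = z) := by
  rcases lt_or_gt_of_ne h with h | h
  · exact ⟨(s⁻¹).1 z, by rwa [lt_inv_ap], Or.inr (ap_inv _ _)⟩
  · exact ⟨s.1 z, h, Or.inl rfl⟩

lemma exists_pair_left {s : G} {z : ℝ} (h : s.1 z ≠ z) :
    ∃ x1, x1 < z ∧ (s.1 x1 = z ∨ s.1 z = x1) := by
  rcases lt_or_gt_of_ne h with h | h
  · exact ⟨s.1 z, h, Or.inr rfl⟩
  · exact ⟨(s⁻¹).1 z, by rwa [inv_ap_lt], Or.inl (ap_inv _ _)⟩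

lemma conj_ap {s g : G} {x y x' y' : ℝ} (h : s.1 x = y) (hx : g.1 x = x') (hy : g.1 y = y') :
    (g * s * g⁻¹).1 x' = y' := by
  rw [mul_ap, mul_ap, inv_eq_of hx, h, hy]

section order
variable [Lattice G] [MulLeftMono G] [MulRightMono G]

include S in
lemma ldom_of {k s : G} {a b z : ℝ} (hs : 1 ≤ s) (hsk : s ≤ k) (hab : a < b)
    (hk : SuppIn k a b) (hz : b < z) (hsz : s.1 z ≠ z) : LDom G := by
  intro x hx z' hz' w A B hA hw
  obtain ⟨x4, h4, hp⟩ := exists_pair_right hsz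
  obtain ⟨p, q, hp1, hq1, hsm⟩ := S.small hx hz'
  have hq' : z' < min q ((z' + A) / 2) := lt_min hq1 (by linarith)
  have hqA : min q ((z' + A) / 2) < A := lt_of_le_of_lt (min_le_right _ _) (by linarith)
  obtain ⟨g, e1, e2, e3, e4⟩ := S.trans4 (x1 := a) (x2 := b) (x3 := z) (x4 := x4)
    (y1 := p) (y2 := min q ((z' + A) / 2)) (y3 := A) (y4 := max B (A + 1)) hab hz h4
    (by linarith) hqA (lt_of_lt_of_le (by linarith) (le_max_right _ _))
  have hlt : A < max B (A + 1) := lt_of_lt_of_le (by linarith) (le_max_right _ _)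
  have h1 : w ≤ g * s * g⁻¹ := by
    refine S.dom (one_le_conj g hs) hlt ?_ (hw.mono le_rfl (le_max_left _ _))
    rcases hp with hp | hp
    · exact Or.inl (conj_ap hp e3 e4)
    · exact Or.inr (conj_ap hp e4 e3)
  have h2 : g * s * g⁻¹ ≤ g * k * g⁻¹ := conj_le_conj g hsk
  have h3 : g * k * g⁻¹ ≤ x := by
    apply hsm
    have := hk.conj g
    rw [e1, e2] at this
    exact this.mono le_rfl (min_le_left _ _)
  exact h1.trans (h2.trans h3)

include S in
lemma rdom_of {k s : G} {a b z : ℝ} (hs : 1 ≤ s) (hsk : s ≤ k) (hab : a < b)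
    (hk : SuppIn k a b) (hz : z < a) (hsz : s.1 z ≠ z) : RDom G := by
  intro x hx z' hz' w A B hB hw
  obtain ⟨x1, h1, hp⟩ := exists_pair_left hsz
  obtain ⟨p, q, hp1, hq1, hsm⟩ := S.small hx hz'
  have hp' : max p ((z' + B) / 2) < z' := max_lt hp1 (by linarith)
  have hpB : B < max p ((z' + B) / 2) := lt_of_lt_of_le (by linarith) (le_max_right _ _)
  have hlt : min A (B - 1) < B := lt_of_le_of_lt (min_le_right _ _) (by linarith)
  obtain ⟨g, e1, e2, e3, e4⟩ := S.trans4 (x1 := x1) (x2 := z) (x3 := a) (x4 := b)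
    (y1 := min A (B - 1)) (y2 := B) (y3 := max p ((z' + B) / 2)) (y4 := q) h1 hz hab
    hlt hpB (by linarith)
  have h1 : w ≤ g * s * g⁻¹ := by
    refine S.dom (one_le_conj g hs) hlt ?_ (hw.mono (min_le_left _ _) le_rfl)
    rcases hp with hp | hp
    · exact Or.inl (conj_ap hp e1 e2)
    · exact Or.inr (conj_ap hp e2 e1)
  have h2 : g * s * g⁻¹ ≤ g * k * g⁻¹ := conj_le_conj g hsk
  have h3 : g * k * g⁻¹ ≤ x := by
    apply hsm
    have := hk.conj g
    rw [e3, e4] at this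
    exact this.mono (le_max_left _ _) le_rfl
  exact h1.trans (h2.trans h3)

include S in
/-- if no domination holds then separated positive elements are disjoint -/
lemma sep (hL : ¬ LDom G) (hR : ¬ RDom G) {k l : G} {a b c d : ℝ} (hk : 1 ≤ k) (hl : 1 ≤ l)
    (hab : a < b) (hbc : b ≤ c) (hcd : c < d) (hks : SuppIn k a b) (hls : SuppIn l c d) :
    k ⊓ l = 1 := by
  by_contra hne
  have hv : 1 ≤ k ⊓ l := le_inf hk hl
  obtain ⟨z, hz⟩ := exists_moved hne
  rcases lt_or_ge z a with h1 | h1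
  · exact hR (S.rdom_of hv inf_le_left hab hks h1 hz)
  rcases lt_or_ge b z with h2 | h2
  · exact hL (S.ldom_of hv inf_le_left hab hks h2 hz)
  rcases lt_or_ge z c with h3 | h3
  · exact hR (S.rdom_of hv inf_le_right hcd hls h3 hz)
  · obtain ⟨α, β, h4, h5, h6⟩ := S.exists_comp hz
    have h7 : (k ⊓ l).1 ((z + β) / 2) ≠ (z + β) / 2 := by
      rcases h6 with h6 | h6
      · exact (h6.up _ (by linarith) (by linarith)).ne'
      · intro h8
        exact (h6.up _ (by linarith) (by linarith)).ne' (inv_fix h8)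
    exact hL (S.ldom_of hv inf_le_left hab hks (z := (z + β) / 2) (by linarith) h7)

omit [MulRightMono G] in
lemma exists_pos (h : ∃ w : G, w ≠ 1) : ∃ y : G, 1 ≤ y ∧ y ≠ 1 := by
  obtain ⟨w, hw⟩ := h
  by_cases h1 : w ⊔ 1 = 1
  · have h2 : w ≤ 1 := by rw [← h1]; exact le_sup_left
    refine ⟨w⁻¹, ?_, by simpa using hw⟩
    have := mul_le_mul_right h2 w⁻¹
    simpa using this
  · exact ⟨w ⊔ 1, le_sup_right, h1⟩

include S in
lemma pos_in {p q : ℝ} (hpq : p < q) : ∃ y : G, 1 ≤ y ∧ y ≠ 1 ∧ SuppIn y p q := by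
  obtain ⟨w, -, hw⟩ := S.exists_moving hpq
  obtain ⟨y, hy, hy1⟩ := exists_pos ⟨w, hw⟩
  obtain ⟨A, B, hAB, hs⟩ := S.bdd y
  obtain ⟨g, e1, e2, -, -⟩ := S.trans4 (x1 := A) (x2 := B) (x3 := B + 1) (x4 := B + 2)
    (y1 := p) (y2 := q) (y3 := q + 1) (y4 := q + 2) hAB (by linarith) (by linarith) hpq
    (by linarith) (by linarith)
  refine ⟨g * y * g⁻¹, one_le_conj g hy, ?_, ?_⟩
  · intro h
    exact hy1 (conj_eq_one_iff.1 h)
  · have := SuppIn.conj (f := y) (a := A) (b := B) hs g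
    rwa [e1, e2] at this

include S in
/-- covering of an interval by a positive element -/
lemma cover {A0 A a a1 : ℝ} (h0 : A0 < A) (h1 : A < a) (h2 : a < a1) :
    ∃ u : G, 1 ≤ u ∧ SuppIn u A0 a1 ∧ ∀ w : G, SuppIn w A a → w ≤ u := by
  obtain ⟨w, -, hw⟩ := S.exists_moving h1
  obtain ⟨y, hy, hy1⟩ := exists_pos ⟨w, hw⟩
  obtain ⟨z, hz⟩ := exists_moved hy1
  obtain ⟨A', B', hAB, hs⟩ := S.bdd y
  have hsupp : SuppIn y A' B' := hs
  obtain ⟨x4, h4, hp⟩ := exists_pair_right hz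
  have hz' := hsupp.mem hz
  have hx4 : x4 < B' := by
    rcases hp with hp | hp
    · rw [← hp]; exact hsupp.lt hz'.2
    · have : (y⁻¹).1 z = x4 := inv_eq_of hp
      rw [← this]; exact hsupp.inv.lt hz'.2
  obtain ⟨g, e1, e2, e3, e4⟩ := S.trans4 (x1 := A') (x2 := z) (x3 := x4) (x4 := B')
    (y1 := A0) (y2 := A) (y3 := a) (y4 := a1) hz'.1 h4 hx4 h0 h1 h2
  refine ⟨g * y * g⁻¹, one_le_conj g hy, ?_, ?_⟩
  · have := hsupp.conj g
    rwa [e1, e4] at this
  · intro w hw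
    refine S.dom (one_le_conj g hy) h1 ?_ hw
    rcases hp with hp | hp
    · exact Or.inl (conj_ap hp e2 e3)
    · exact Or.inr (conj_ap hp e3 e2)

include S in
lemma total_of_dom (h : LDom G ∨ RDom G) (f : G) : 1 ≤ f ∨ f ≤ 1 := by
  obtain ⟨p, n, hp, hn, hpn, hf⟩ := exists_decomp f
  by_cases hp1 : p = 1
  · right
    rw [hf, hp1, one_mul]
    exact Left.inv_le_one_iff.2 hn
  by_cases hn1 : n = 1
  · left
    rw [hf, hn1, inv_one, mul_one]
    exact hp
  exfalso
  obtain ⟨z1, hz1⟩ := exists_moved hp1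
  obtain ⟨z2, hz2⟩ := exists_moved hn1
  -- symmetric statement
  have key : ∀ (p n : G) (z1 z2 : ℝ), 1 ≤ p → 1 ≤ n → p ⊓ n = 1 → p.1 z1 ≠ z1 → n.1 z2 ≠ z2 →
      z1 < z2 → False := by
    intro p n z1 z2 hp hn hpn h1 h2 h12
    rcases h with h | h
    · obtain ⟨a, b, ha, hb, hs⟩ := S.small hn h2
      obtain ⟨y, hy, hy1, hys⟩ := S.pos_in (p := max a ((z1 + z2) / 2)) (q := b)
        (max_lt (by linarith) (by linarith))
      have e1 : y ≤ n := hs y (hys.mono (le_max_left _ _) le_rfl)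
      have e2 : y ≤ p := h p hp z1 h1 y _ _
        (lt_of_lt_of_le (by linarith) (le_max_right _ _)) hys
      exact hy1 (le_antisymm (by rw [← hpn]; exact le_inf e2 e1) hy)
    · obtain ⟨a, b, ha, hb, hs⟩ := S.small hp h1
      obtain ⟨y, hy, hy1, hys⟩ := S.pos_in (p := a) (q := min b ((z1 + z2) / 2))
        (lt_min (by linarith) (by linarith))
      have e1 : y ≤ p := hs y (hys.mono le_rfl (min_le_left _ _))
      have e2 : y ≤ n := h n hn z2 h2 y _ _
        (lt_of_le_of_lt (min_le_right _ _) (by linarith)) hys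
      exact hy1 (le_antisymm (by rw [← hpn]; exact le_inf e1 e2) hy)
  rcases lt_trichotomy z1 z2 with h1 | h1 | h1
  · exact key p n z1 z2 hp hn hpn hz1 hz2 h1
  · subst h1
    rcases S.disj hp hn hpn z1 with h | h
    · exact hz1 h
    · exact hz2 h
  · exact key n p z2 z1 hn hp (by rw [inf_comm]; exact hpn) hz2 hz1 h1

end order
end GermSys
end Pool.Agent.Helper157
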