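import Pool.Agent.Helper157.GS3

set_option autoImplicit false

namespace Pool.Agent.Helper157
namespace GermSys
variable {G : Subgroup (ℝ ≃o ℝ)} {Γ : Type} [Group Γ] (S : GermSys G Γ)

section order
variable [Lattice G] [MulLeftMono G] [MulRightMono G]

include S in
lemma not_rdom : ¬ RDom G := by
  intro hR
  obtain ⟨u, a, b, hu, hus⟩ := S.exists_upbump
  obtain ⟨c, hac, hcb⟩ := exists_between hu.lt
  have hcu : c < u.1 c := hu.up c hac hcb
  obtain ⟨y, hy, hy1, hys⟩ := S.pos_in hcu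
  have hub : u.1 c < b := hu.map_lt hcb
  -- the two bumps
  have hf : Up (u * u) a b := by
    refine ⟨hu.lt, by rw [mul_ap, hu.left, hu.left], by rw [mul_ap, hu.right, hu.right], ?_⟩
    intro t h1 h2
    have h3 := hu.up t h1 h2
    have h4 := hu.up _ (hu.map_gt h1) (hu.map_lt h2)
    rw [mul_ap]
    exact h3.trans h4
  have hf' : Up (y * (u * u)) a b := by
    refine ⟨hu.lt, ?_, ?_, ?_⟩
    · rw [mul_ap, hf.left, hys a (Or.inl hac.le)]
    · rw [mul_ap, hf.right, hys b (Or.inr hub.le)]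
    · intro t h1 h2
      have h3 := hu.up t h1 h2
      have h5 := hf.up t h1 h2
      rw [mul_ap]
      rcases le_or_gt ((u * u).1 t) c with h6 | h6
      · rw [hys _ (Or.inl h6)]; exact h5
      · rcases lt_or_ge ((u * u).1 t) (u.1 c) with h7 | h7
        · have h8 := hys.gt h6
          rw [mul_ap, ap_lt] at h7
          linarith
        · rw [hys _ (Or.inr h7)]; exact h5
  have hag : ∀ t, a ≤ t → t < ((u * u)⁻¹).1 c → (u * u).1 t = (y * (u * u)).1 t := by
    intro t _ h2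
    rw [lt_inv_ap] at h2
    rw [mul_ap y, hys _ (Or.inl h2.le)]
  obtain ⟨h, hh1, hh2, hh3⟩ := S.conj_up (c := ((u * u)⁻¹).1 c) (hf.inv_gt hac) hf hf' hag
  have hconj : h * (u * u) * h⁻¹ = y * (u * u) := by
    refine conj_global hf.left hf.right ?_ hh1 hh3
    intro t ht
    have ht' : (u * u).1 t = t := (hus.mul hus) t ht
    rw [mul_ap y, ht']
    rw [hys t (ht.imp (fun h => by linarith) (fun h => by linarith))]
  have hinvb : ∀ t, t < b → ((u * u)⁻¹).1 t < b := fun t ht => hf.inv_lt ht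
  have hinva : ∀ t, a < t → a < ((u * u)⁻¹).1 t := fun t ht => hf.inv_gt ht
  have hinvlt : ∀ t, a < t → t < b → ((u * u)⁻¹).1 t < t := fun t h1 h2 => hf.inv_down h1 h2
  -- value of h on (a, u (u c))
  have hval : ∀ t, a < t → t < (u * u).1 c → t < b → h.1 t = y.1 t := by
    have step1 : ∀ t, a < t → t < c → h.1 t = t := by
      intro t h1 h2
      have e1 : t = (u * u).1 (((u * u)⁻¹).1 t) := (ap_inv _ _).symm
      have hs1 : ((u * u)⁻¹).1 t < ((u * u)⁻¹).1 c := (ap_lt _).2 h2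
      have e2 := hh3 (((u * u)⁻¹).1 t) (hinva t h1).le (hinvb t (by linarith)).le
      rw [hh2 _ (hinva t h1).le hs1 (hinvb t (by linarith)), mul_ap y, ap_inv,
        hys t (Or.inl h2.le)] at e2
      exact e2
    intro t h1 h2 h3
    have hs1 : ((u * u)⁻¹).1 t < c := by rw [inv_ap_lt]; exact h2
    have e2 := hh3 (((u * u)⁻¹).1 t) (hinva t h1).le (hinvb t h3).le
    rw [step1 _ (hinva t h1) hs1, mul_ap y, ap_inv] at e2
    exact e2
  obtain ⟨z0, hz0⟩ := exists_moved hy1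
  have hz0m := hys.mem hz0
  set T : G := h * u * h⁻¹ * u⁻¹ with hT
  set F : G := u * T * u⁻¹ with hF
  have hTF : T * F = y := by
    have : T * F = h * (u * u) * h⁻¹ * (u * u)⁻¹ := by
      rw [hF, hT]; group
    rw [this, hconj]
    group
  have hT1 : 1 ≤ T := by
    rcases S.total_of_dom (Or.inr hR) T with h1 | h1
    · exact h1
    · exfalso
      have h2 : F ≤ 1 := by
        have := conj_le_conj u h1
        rw [mul_one, mul_inv_cancel] at this
        exact this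
      have h3 : y ≤ 1 := by
        rw [← hTF]
        exact mul_le_one' h1 h2
      exact hy1 (le_antisymm h3 hy)
  have hF1 : 1 ≤ F := one_le_conj u hT1
  have hFy : F ≤ y := by
    rw [← hTF]
    exact le_mul_of_one_le_left' hT1
  -- F moves u z0
  have hz0' : z0 < b := by linarith
  have hFz : F.1 (u.1 z0) = u.1 (y.1 z0) := by
    rw [hF, mul_ap, mul_ap, inv_ap, hT, mul_ap, mul_ap, mul_ap]
    have hlt : (u⁻¹).1 z0 < c := by rw [inv_ap_lt]; exact hz0m.2
    have hgt : a < (u⁻¹).1 z0 := hu.inv_gt (by linarith)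
    have e1 : h.1 ((u⁻¹).1 z0) = (u⁻¹).1 z0 := by
      rw [hval _ hgt (lt_trans hlt (hf.up c hac hcb)) (hlt.trans hcb), hys _ (Or.inl hlt.le)]
    rw [inv_fix e1, ap_inv]
    have h5 : z0 < (u * u).1 c := by
      rw [mul_ap]
      exact hz0m.2.trans (hu.up _ (hu.map_gt hac) hub)
    rw [hval z0 (by linarith) h5 hz0']
  have hmoved : F.1 (u.1 z0) ≠ u.1 z0 := by
    rw [hFz]
    intro h1
    exact hz0 ((ap_inj u).1 h1)
  have hyF : y ≤ F := hR F hF1 (u.1 z0) hmoved y c (u.1 c) ((ap_lt u).2 hz0m.1) hys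
  have hFe : F = y := le_antisymm hFy hyF
  apply hmoved
  rw [hFe]
  exact hys _ (Or.inr ((ap_lt u).2 hz0m.1).le)

end order

section start

lemma germ_one_eq (x : ℝ) : S.germ 1 x = 1 := by
  have := S.germ_mul 1 1 x
  rw [mul_one, one_ap] at this
  exact (mul_eq_left.1 this.symm)

lemma germ_inv (f : G) (x : ℝ) : S.germ f⁻¹ (f.1 x) = (S.germ f x)⁻¹ := by
  have := S.germ_mul f⁻¹ f x
  rw [inv_mul_cancel, S.germ_one_eq] at this
  exact (eq_inv_of_mul_eq_one_left this.symm)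

lemma germ_id {f : G} {x y : ℝ} (hxy : x < y) (h : ∀ t, x ≤ t → t < y → f.1 t = t) :
    S.germ f x = 1 := by
  rw [S.germ_congr f 1 x y hxy (fun t h1 h2 => h t h1 h2), S.germ_one_eq]

lemma germ_conj (f g : G) (x : ℝ) (hx : f.1 x = x) :
    S.germ (g * f * g⁻¹) (g.1 x) = S.germ g x * S.germ f x * (S.germ g x)⁻¹ := by
  rw [S.germ_mul, S.germ_mul, S.germ_inv, inv_ap, hx]

/-- `s` is the start point of `f`. -/
def Start (f : G) (s : ℝ) : Prop := (∀ t, t ≤ s → f.1 t = t) ∧ S.germ f s ≠ 1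

lemma exists_start {f : G} (hf : f ≠ 1) : ∃ s, S.Start f s := by
  set T : Set ℝ := {t | f.1 t ≠ t} with hT
  obtain ⟨A, B, hAB, h⟩ := S.bdd f
  obtain ⟨z, hz⟩ := exists_moved hf
  have hne : T.Nonempty := ⟨z, hz⟩
  have hbd : BddBelow T := by
    refine ⟨A, fun t ht => ?_⟩
    by_contra hc
    push Not at hc
    exact ht (h t (Or.inl hc.le))
  set s := sInf T with hs
  have h1 : ∀ t, t < s → f.1 t = t := by
    intro t ht
    by_contra hc
    have : s ≤ t := csInf_le hbd hc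
    linarith
  have h2 : f.1 s = s := by
    by_contra hc
    obtain ⟨a, b, ha, hb, hab⟩ := S.exists_comp hc
    obtain ⟨t, ht1, ht2⟩ := exists_between ha
    have := h1 t ht2
    rcases hab with hab | hab
    · exact (hab.up t ht1 (by linarith)).ne' this
    · exact (hab.up t ht1 (by linarith)).ne' (inv_fix this)
  refine ⟨s, ?_, ?_⟩
  · intro t ht
    rcases ht.eq_or_lt with ht | ht
    · rw [ht]; exact h2
    · exact h1 t ht
  · intro hg
    obtain ⟨y, hy, hy2⟩ := S.germ_one f s h2 hg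
    obtain ⟨t, ht, hty⟩ := exists_lt_of_csInf_lt hne hy
    exact ht (hy2 t (csInf_le hbd ht) hty)

lemma Start.ne_one {f : G} {s : ℝ} (h : S.Start f s) : f ≠ 1 := by
  rintro rfl
  exact h.2 (S.germ_one_eq s)

lemma Start.unique {f : G} {s s' : ℝ} (h : S.Start f s) (h' : S.Start f s') : s = s' := by
  have key : ∀ s s' : ℝ, S.Start f s → S.Start f s' → ¬ s < s' := by
    intro s s' h h' hlt
    exact h.2 (S.germ_id hlt fun t _ h2 => h'.1 t h2.le)
  exact le_antisymm (not_lt.1 (key _ _ h' h)) (not_lt.1 (key _ _ h h'))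

lemma Start.inv {f : G} {s : ℝ} (h : S.Start f s) : S.Start f⁻¹ s := by
  refine ⟨fun t ht => inv_fix (h.1 t ht), ?_⟩
  have := S.germ_inv f s
  rw [h.1 s le_rfl] at this
  rw [this]
  simpa using h.2

lemma germ_inv_fix {f : G} {s : ℝ} (h : f.1 s = s) : S.germ f⁻¹ s = (S.germ f s)⁻¹ := by
  have := S.germ_inv f s
  rwa [h] at this

lemma Start.conj {f : G} {s : ℝ} (h : S.Start f s) (g : G) : S.Start (g * f * g⁻¹) (g.1 s) := by
  constructor
  · intro t ht
    rw [mul_ap, mul_ap, h.1 _ (by rwa [inv_ap_le]), ap_inv]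
  · rw [S.germ_conj f g s (h.1 s le_rfl)]
    intro h1
    exact h.2 (conj_eq_one_iff.1 h1)

lemma exists_germ (s : ℝ) (γ : Γ) : ∃ f : G, (∀ t, t ≤ s → f.1 t = t) ∧ S.germ f s = γ := by
  obtain ⟨z, h1, -, h3, -⟩ := S.move s (s + 1) (s + 1) (s + 2) γ 1 (by linarith) (by linarith)
    (by linarith) (by linarith)
  exact ⟨z, fun t ht => h1 t (Or.inl ht), h3⟩

lemma exists_trans (s s' : ℝ) (γ : Γ) : ∃ g : G, g.1 s = s' ∧ S.germ g s = γ := by
  obtain ⟨z, -, h2, -, h4⟩ := S.move (min s s' - 1) s s' (max s s' + 1) 1 γ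
    (by linarith [min_le_left s s']) (by linarith [le_max_left s s'])
    (by linarith [min_le_right s s']) (by linarith [le_max_right s s'])
  exact ⟨z, h2, h4⟩

/-- The total cone of `G` given by a total cone of the germ group. -/
def PQ (Q : Set Γ) : Set G := {f | f = 1 ∨ ∃ s, S.Start f s ∧ S.germ f s ∈ Q}

lemma mem_PQ_of_start {Q : Set Γ} {f : G} {s : ℝ} (h : S.Start f s) :
    f ∈ S.PQ Q ↔ S.germ f s ∈ Q := by
  constructor
  · rintro (h1 | ⟨s', h1, h2⟩)
    · exact absurd h1 (h.ne_one)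
    · rwa [h.unique S h1]
  · intro h1
    exact Or.inr ⟨s, h, h1⟩

lemma tcone_PQ {Q : Set Γ} (hQ : TCone Q) : TCone (S.PQ Q) where
  one := Or.inl rfl
  total f := by
    by_cases hf : f = 1
    · left; exact Or.inl hf
    · obtain ⟨s, hs⟩ := S.exists_start hf
      rw [S.mem_PQ_of_start hs, S.mem_PQ_of_start (hs.inv), S.germ_inv_fix (hs.1 s le_rfl)]
      exact hQ.total _
  anti f h1 h2 := by
    by_contra hf
    obtain ⟨s, hs⟩ := S.exists_start hf
    rw [S.mem_PQ_of_start hs] at h1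
    rw [S.mem_PQ_of_start (hs.inv), S.germ_inv_fix (hs.1 s le_rfl)] at h2
    exact hs.2 (hQ.anti _ h1 h2)
  conj g f hf := by
    rcases hf with hf | ⟨s, hs, hf⟩
    · subst hf; left; simp
    · right
      refine ⟨g.1 s, hs.conj S g, ?_⟩
      rw [S.germ_conj f g s (hs.1 s le_rfl)]
      exact hQ.conj _ _ hf
  mul f hf g hg := by
    rcases hf with hf | ⟨s, hs, hf⟩
    · subst hf; rwa [one_mul]
    rcases hg with hg | ⟨s', hs', hg⟩
    · subst hg; rw [mul_one]; exact Or.inr ⟨s, hs, hf⟩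
    right
    rcases lt_trichotomy s s' with h | h | h
    · have e : S.germ (f * g) s = S.germ f s := by
        rw [S.germ_mul, S.germ_id h (fun t _ h2 => hs'.1 t h2.le), hs'.1 s h.le, mul_one]
      refine ⟨s, ⟨?_, ?_⟩, ?_⟩
      · intro t ht
        rw [mul_ap, hs'.1 t (by linarith), hs.1 t ht]
      · rw [e]; exact hs.2
      · rw [e]; exact hf
    · subst h
      have e : S.germ (f * g) s = S.germ f s * S.germ g s := by
        rw [S.germ_mul, hs'.1 s le_rfl]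
      refine ⟨s, ⟨?_, ?_⟩, ?_⟩
      · intro t ht
        rw [mul_ap, hs'.1 t ht, hs.1 t ht]
      · rw [e]
        intro h1
        have h2 : S.germ g s = (S.germ f s)⁻¹ := (inv_eq_of_mul_eq_one_right h1).symm
        rw [h2] at hg
        exact hs.2 (hQ.anti _ hf hg)
      · rw [e]; exact hQ.mul _ hf _ hg
    · have e : S.germ (f * g) s' = S.germ g s' := by
        rw [S.germ_mul, hs'.1 s' le_rfl, S.germ_id h (fun t _ h2 => hs.1 t h2.le), one_mul]
      refine ⟨s', ⟨?_, ?_⟩, ?_⟩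
      · intro t ht
        rw [mul_ap, hs'.1 t ht, hs.1 t (by linarith)]
      · rw [e]; exact hs'.2
      · rw [e]; exact hg

lemma PQ_inj {Q Q' : Set Γ} (hQ : TCone Q) (hQ' : TCone Q') (h : S.PQ Q = S.PQ Q') : Q = Q' := by
  ext γ
  by_cases hγ : γ = 1
  · subst hγ
    exact ⟨fun _ => hQ'.one, fun _ => hQ.one⟩
  · obtain ⟨f, hf1, hf2⟩ := S.exists_germ 0 γ
    have hs : S.Start f 0 := ⟨hf1, by rw [hf2]; exact hγ⟩
    rw [← hf2, ← S.mem_PQ_of_start hs, ← S.mem_PQ_of_start hs, h]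

end start

section LD
variable [Lattice G] [MulLeftMono G] [MulRightMono G]

lemma sign_ld (hL : LDom G) {f f' : G} {s s' : ℝ} (hs : S.Start f s) (hs' : S.Start f' s')
    (hg : S.germ f s = S.germ f' s') (hf : 1 ≤ f) : 1 ≤ f' := by
  obtain ⟨h, e1, e2⟩ := S.exists_trans s s' 1
  set f2 := h * f * h⁻¹ with hf2
  have hs2 : S.Start f2 s' := by
    have := hs.conj S h
    rwa [e1] at this
  have hg2 : S.germ f2 s' = S.germ f' s' := by
    have := S.germ_conj f h s (hs.1 s le_rfl)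
    rw [e1, e2] at this
    rw [hf2, this, ← hg]; group
  have hf2' : 1 ≤ f2 := one_le_conj h hf
  have hw1 : (f2⁻¹ * f').1 s' = s' := by
    rw [mul_ap, hs'.1 s' le_rfl, inv_fix (hs2.1 s' le_rfl)]
  have hw2 : S.germ (f2⁻¹ * f') s' = 1 := by
    rw [S.germ_mul, hs'.1 s' le_rfl, S.germ_inv_fix (hs2.1 s' le_rfl), hg2, inv_mul_cancel]
  obtain ⟨y, hy, hy2⟩ := S.germ_one _ _ hw1 hw2
  -- f2 moves a point close to s'
  have hmv : ∃ z, s' < z ∧ z < (s' + y) / 2 ∧ f2.1 z ≠ z := by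
    by_contra hc
    push Not at hc
    apply hs2.2
    apply S.germ_id (y := (s' + y) / 2) (by linarith)
    intro t h1 h2
    rcases h1.eq_or_lt with h1 | h1
    · subst h1; exact hs2.1 _ le_rfl
    · exact hc t h1 h2
  obtain ⟨z, hz1, hz2, hz3⟩ := hmv
  obtain ⟨A, B, hAB, hB⟩ := S.bdd (f2⁻¹ * f')
  have hsupp : SuppIn (f2⁻¹ * f') ((s' + y) / 2) B := by
    rintro t (ht | ht)
    · rcases le_or_gt t s' with h1 | h1
      · rw [mul_ap, hs'.1 t h1, inv_fix (hs2.1 t h1)]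
      · exact hy2 t h1.le (by linarith)
    · exact hB t (Or.inr ht)
  have h3 := hL f2 hf2' z hz3 (f2⁻¹ * f')⁻¹ _ _ hz2 hsupp.inv
  have h4 := mul_le_mul_left h3 (f2⁻¹ * f')
  rw [inv_mul_cancel] at h4
  simpa using h4

theorem class_ld (hL : LDom G) : ∃ Q : Set Γ, TCone Q ∧ {f : G | 1 ≤ f} = S.PQ Q := by
  set Q : Set Γ := {γ | ∃ (f : G) (s : ℝ), 1 ≤ f ∧ (∀ t, t ≤ s → f.1 t = t) ∧ S.germ f s = γ}
    with hQdef
  -- transport
  have trans : ∀ γ ∈ Q, ∀ (s : ℝ) (δ : Γ),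
      ∃ f : G, 1 ≤ f ∧ (∀ t, t ≤ s → f.1 t = t) ∧ S.germ f s = δ * γ * δ⁻¹ := by
    rintro γ ⟨f, s0, h1, h2, h3⟩ s δ
    obtain ⟨h, e1, e2⟩ := S.exists_trans s0 s δ
    refine ⟨h * f * h⁻¹, one_le_conj h h1, ?_, ?_⟩
    · intro t ht
      rw [mul_ap, mul_ap, h2 _ (by rwa [inv_ap_le, e1]), ap_inv]
    · rw [← e1, S.germ_conj f h s0 (h2 _ le_rfl), e2, h3]
  have trans1 : ∀ γ ∈ Q, ∀ (s : ℝ), ∃ f : G, 1 ≤ f ∧ (∀ t, t ≤ s → f.1 t = t) ∧ S.germ f s = γ := by
    intro γ hγ s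
    obtain ⟨f, h1, h2, h3⟩ := trans γ hγ s 1
    exact ⟨f, h1, h2, by rw [h3]; group⟩
  have hT : TCone Q := by
    refine ⟨?_, ?_, ?_, ?_, ?_⟩
    · exact ⟨1, 0, le_rfl, fun _ _ => rfl, S.germ_one_eq 0⟩
    · intro γ hγ δ hδ
      obtain ⟨f, h1, h2, h3⟩ := trans1 γ hγ 0
      obtain ⟨g, k1, k2, k3⟩ := trans1 δ hδ 0
      refine ⟨f * g, 0, one_le_mul h1 k1, fun t ht => by rw [mul_ap, k2 t ht, h2 t ht], ?_⟩
      rw [S.germ_mul, k2 0 le_rfl, h3, k3]
    · intro γ hγ hγ'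
      by_contra hne
      obtain ⟨f, h1, h2, h3⟩ := trans1 γ hγ 0
      obtain ⟨g, k1, k2, k3⟩ := trans1 _ hγ' 0
      have hf : S.Start f 0 := ⟨h2, by rw [h3]; exact hne⟩
      have hg : S.Start g 0 := ⟨k2, by rw [k3]; simpa using hne⟩
      have h5 : 1 ≤ g⁻¹ := by
        refine S.sign_ld hL hf (hg.inv) ?_ h1
        rw [S.germ_inv_fix (k2 0 le_rfl), h3, k3, inv_inv]
      have h6 : g = 1 := le_antisymm (Left.one_le_inv_iff.1 h5) k1
      exact hg.ne_one S h6
    · intro δ γ hγ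
      obtain ⟨f, h1, h2, h3⟩ := trans γ hγ 0 δ
      exact ⟨f, 0, h1, h2, h3⟩
    · intro γ
      obtain ⟨f, h1, h2⟩ := S.exists_germ 0 γ
      rcases S.total_of_dom (Or.inl hL) f with h3 | h3
      · left; exact ⟨f, 0, h3, h1, h2⟩
      · right
        exact ⟨f⁻¹, 0, Left.one_le_inv_iff.2 h3, fun t ht => inv_fix (h1 t ht), by
          rw [S.germ_inv_fix (h1 0 le_rfl), h2]⟩
  refine ⟨Q, hT, ?_⟩
  ext f
  constructor
  · intro hf
    have hf' : 1 ≤ f := hf
    by_cases h1 : f = 1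
    · exact Or.inl h1
    · obtain ⟨s, hs⟩ := S.exists_start h1
      exact Or.inr ⟨s, hs, f, s, hf', hs.1, rfl⟩
  · rintro (h1 | ⟨s, hs, g, s', h1, h2, h3⟩)
    · subst h1; exact (le_refl (1 : G))
    · have hg : S.Start g s' := ⟨h2, by rw [h3]; exact hs.2⟩
      exact S.sign_ld hL hg hs h3 h1

end LD
end GermSys
end Pool.Agent.Helper157
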