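import Pool.Agent.Helper157.GS4

set_option autoImplicit false

namespace Pool.Agent.Helper157
namespace GermSys
variable {G : Subgroup (ℝ ≃o ℝ)} {Γ : Type} [Group Γ] (S : GermSys G Γ)

/-- elements moving no point down -/
def Ppw (G : Subgroup (ℝ ≃o ℝ)) : Set G := {f | ∀ t, t ≤ f.1 t}

/-- elements moving no point up -/
def Npw (G : Subgroup (ℝ ≃o ℝ)) : Set G := {f | ∀ t, f.1 t ≤ t}

section D
variable [Lattice G] [MulLeftMono G] [MulRightMono G]

include S in
lemma comp_pos (hL : ¬ LDom G) {f β : G} {a b : ℝ} (hf : 1 ≤ f) (hab : a < b) (ha : f.1 a = a)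
    (hb : f.1 b = b) (hβ : ∀ t, a ≤ t → t ≤ b → β.1 t = f.1 t) (hβs : SuppIn β a b) : 1 ≤ β := by
  obtain ⟨p, n, hp, hn, hpn, hd⟩ := exists_decomp β
  by_cases hn1 : n = 1
  · rw [hd, hn1, inv_one, mul_one]; exact hp
  exfalso
  obtain ⟨z, hz⟩ := exists_moved hn1
  -- support of n
  have hns : SuppIn n a b := by
    intro t ht
    by_contra hc
    have h1 : p.1 t = t := (S.disj hp hn hpn t).resolve_right hc
    have h2 : β.1 t = t := hβs t ht
    have h3 : (β⁻¹).1 t = t := inv_fix h2
    rw [hd, mul_inv_rev, inv_inv, mul_ap, inv_fix h1] at h3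
    exact hc h3
  have hzm := hns.mem hz
  obtain ⟨p1, q1, hp1, hq1, hsm⟩ := S.small hn hz
  obtain ⟨a', ha1, ha2⟩ := exists_between (max_lt hp1 hzm.1)
  obtain ⟨b', hb1, hb2⟩ := exists_between (lt_min hq1 hzm.2)
  have ha3 : p1 < a' := lt_of_le_of_lt (le_max_left _ _) ha1
  have ha4 : a < a' := lt_of_le_of_lt (le_max_right _ _) ha1
  have hb3 : b' < q1 := lt_of_lt_of_le hb2 (min_le_left _ _)
  have hb4 : b' < b := lt_of_lt_of_le hb2 (min_le_right _ _)
  obtain ⟨v, hv, hv1, hvs⟩ := S.pos_in (p := a') (q := b') (by linarith)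
  have hvn : v ≤ n := hsm v (hvs.mono ha3.le hb3.le)
  -- outside part
  obtain ⟨w, hw⟩ : ∃ w : G, w = β⁻¹ * f := ⟨_, rfl⟩
  have hw1 : ∀ t, a ≤ t → t ≤ b → w.1 t = t := by
    intro t h1 h2
    rw [hw, mul_ap, ← hβ t h1 h2, inv_ap]
  have hcomm : n⁻¹ * w = w * n⁻¹ := by
    apply g_ext
    intro t
    rw [mul_ap, mul_ap]
    by_cases h : a < t ∧ t < b
    · have h1 := hns.inv.gt h.1
      have h2 := hns.inv.lt h.2
      rw [hw1 t h.1.le h.2.le, hw1 _ h1.le h2.le]
    · have h' : t ≤ a ∨ b ≤ t := by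
        by_contra hc
        push Not at hc
        exact h hc
      rw [hns.inv t h']
      have h2 : w.1 t ≤ a ∨ b ≤ w.1 t := by
        rcases h' with h' | h'
        · left
          have := (ap_le w).2 h'
          rwa [hw1 a le_rfl hab.le] at this
        · right
          have := (ap_le w).2 h'
          rwa [hw1 b hab.le le_rfl] at this
      rw [hns.inv _ h2]
  have hfe : f = p * w * n⁻¹ := by
    have : f = β * w := by rw [hw]; group
    rw [this]
    nth_rewrite 1 [hd]
    rw [mul_assoc, hcomm, mul_assoc]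
  have hnw : n ≤ p * w := by
    have := mul_le_mul_left hf n
    rw [one_mul, hfe] at this
    simpa using this
  -- split the outside part
  obtain ⟨A, B, hAB, hwAB⟩ := S.bdd w
  have hwA : w.1 (min A a - 1) = min A a - 1 := hwAB _ (Or.inl (by linarith [min_le_left A a]))
  have hwB : w.1 (max B b + 1) = max B b + 1 := hwAB _ (Or.inr (by linarith [le_max_left B b]))
  obtain ⟨w1, hw1a, hw1s⟩ := S.restr (f := w) (a := min A a - 1) (b := a)
    (by linarith [min_le_right A a]) hwA (hw1 a le_rfl hab.le)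
  obtain ⟨w2, hw2a, hw2s⟩ := S.restr (f := w) (a := b) (b := max B b + 1)
    (by linarith [le_max_right B b]) (hw1 b hab.le le_rfl) hwB
  have hww : w = w1 * w2 := by
    apply g_ext
    intro t
    rw [mul_ap]
    rcases le_or_gt t b with h1 | h1
    · rw [hw2s t (Or.inl h1)]
      rcases le_or_gt t a with h2 | h2
      · rcases le_or_gt t (min A a - 1) with h3 | h3
        · rw [hw1s t (Or.inl h3)]
          exact hwAB t (Or.inl (by linarith [min_le_left A a]))
        · exact (hw1a t h3.le h2).symm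
      · rw [hw1s t (Or.inr h2.le)]
        exact hw1 t h2.le h1
    · have h4 : b < w2.1 t := hw2s.gt h1
      rw [hw1s _ (Or.inr (by linarith))]
      rcases le_or_gt t (max B b + 1) with h3 | h3
      · exact (hw2a t h1.le h3).symm
      · rw [hw2s t (Or.inr h3.le)]
        exact hwAB t (Or.inr (by linarith [le_max_left B b]))
  obtain ⟨u1, hu1, hu1s, hu1c⟩ := S.cover (A0 := min A a - 2) (A := min A a - 1) (a := a) (a1 := a')
    (by linarith) (by linarith [min_le_right A a]) ha4
  obtain ⟨u2, hu2, hu2s, hu2c⟩ := S.cover (A0 := b') (A := b) (a := max B b + 1)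
    (a1 := max B b + 2) hb4 (by linarith [le_max_right B b]) (by linarith)
  have hvle : v ≤ p * (u1 * u2) := by
    refine hvn.trans (hnw.trans ?_)
    rw [hww]
    exact mul_le_mul_right (mul_le_mul' (hu1c w1 hw1s) (hu2c w2 hw2s)) p
  have o1 : v ⊓ p = 1 := by
    apply le_antisymm
    · rw [← hpn, inf_comm p n]
      exact inf_le_inf_right p hvn
    · exact le_inf hv hp
  have o2 : v ⊓ u1 = 1 := by
    rw [inf_comm]
    exact S.sep hL S.not_rdom hu1 hv (by linarith [min_le_right A a]) le_rfl (by linarith) hu1s hvs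
  have o3 : v ⊓ u2 = 1 :=
    S.sep hL S.not_rdom hv hu2 (by linarith) le_rfl (by linarith [le_max_right B b]) hvs hu2s
  have o4 : v ⊓ (p * (u1 * u2)) = 1 :=
    orth_mul hv hp (one_le_mul hu1 hu2) o1 (orth_mul hv hu1 hu2 o2 o3)
  apply hv1
  rw [← o4]
  exact (inf_eq_left.2 hvle).symm

include S in
lemma exists_restr_up (hL : ¬ LDom G) {f : G} {a b : ℝ} (hf : 1 ≤ f) (hup : Up f a b) :
    ∃ β : G, 1 ≤ β ∧ Up β a b ∧ SuppIn β a b ∧ ∀ t, a ≤ t → t ≤ b → β.1 t = f.1 t := by
  obtain ⟨β, h1, h2⟩ := S.restr hup.lt hup.left hup.right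
  refine ⟨β, S.comp_pos hL hf hup.lt hup.left hup.right h1 h2, ⟨hup.lt, h2 a (Or.inl le_rfl),
    h2 b (Or.inr le_rfl), ?_⟩, h2, h1⟩
  intro t h3 h4
  rw [h1 t h3.le h4.le]
  exact hup.up t h3 h4

include S in
/-- positive elements cannot move some points up and others down -/
lemma no_mix (hL : ¬ LDom G) {f g : G} {z z' : ℝ} (hf : 1 ≤ f) (hg : 1 ≤ g) (hz : z < f.1 z)
    (hz' : g.1 z' < z') : False := by
  -- a positive down bump
  have hz2 : z' < (g⁻¹).1 z' := by rwa [lt_inv_ap]
  obtain ⟨a, b, ha, hb, hup⟩ := S.exists_up hz2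
  obtain ⟨d, hd1, hd2⟩ := S.restr (f := g) hup.lt (inv_fix_iff.1 hup.left) (inv_fix_iff.1 hup.right)
  have hdpos : 1 ≤ d := S.comp_pos hL hg hup.lt (inv_fix_iff.1 hup.left) (inv_fix_iff.1 hup.right)
    hd1 hd2
  have hgdown : ∀ t, a < t → t < b → g.1 t < t := by
    intro t h1 h2
    have := hup.up t h1 h2
    rwa [lt_inv_ap] at this
  set e : G := d⁻¹ with he
  have hes : SuppIn e a b := hd2.inv
  have heup : Up e a b := by
    refine ⟨hup.lt, hes a (Or.inl le_rfl), hes b (Or.inr le_rfl), ?_⟩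
    intro t h1 h2
    rw [he, lt_inv_ap, hd1 t h1.le h2.le]
    exact hgdown t h1 h2
  -- conjugate f so that it maps q = g p back to p
  set p := z' with hp
  set q := g.1 p with hq
  have hqp : q < p := hz'
  obtain ⟨k, e1, e2, -, -⟩ := S.trans4 (x1 := z) (x2 := f.1 z) (x3 := f.1 z + 1) (x4 := f.1 z + 2)
    (y1 := q) (y2 := p) (y3 := p + 1) (y4 := p + 2) hz (by linarith) (by linarith) hqp
    (by linarith) (by linarith)
  set f1 : G := k * f * k⁻¹ with hf1
  have hf1pos : 1 ≤ f1 := one_le_conj k hf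
  have hf1q : f1.1 q = p := conj_ap rfl e1 e2
  -- adjust the germ
  obtain ⟨m, hm1, -, hm3, -⟩ := S.move q (q + (p - q) / 4) (q + (p - q) / 4) (q + (p - q) / 2)
    ((S.germ f1 q)⁻¹ * S.germ e a * (S.germ g p)⁻¹) 1 (by linarith) (by linarith) (by linarith)
    (by linarith)
  have hms : SuppIn m q p := fun t ht => hm1 t (ht.imp id (fun h => by linarith))
  have hmq : m.1 q = q := hms q (Or.inl le_rfl)
  have hm4 : m⁻¹ ≤ f1 := S.dom hf1pos hqp (Or.inl hf1q) hms.inv
  have hfm : 1 ≤ f1 * m := by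
    have := mul_le_mul_left hm4 m
    rwa [inv_mul_cancel] at this
  set F : G := f1 * m * g with hF
  have hFpos : 1 ≤ F := one_le_mul hfm hg
  have hFp : F.1 p = p := by rw [hF, mul_ap, mul_ap, ← hq, hmq, hf1q]
  have hFg : S.germ F p = S.germ e a := by
    rw [hF, S.germ_mul, S.germ_mul, ← hq, hmq, hm3]
    group
  -- transport to the point a
  obtain ⟨h1, k1, k2⟩ := S.exists_trans p a 1
  set F1 : G := h1 * F * h1⁻¹ with hF1
  have hF1pos : 1 ≤ F1 := one_le_conj h1 hFpos
  have hF1a : F1.1 a = a := conj_ap hFp k1 k1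
  have hF1g : S.germ F1 a = S.germ e a := by
    have := S.germ_conj F h1 p hFp
    rw [k1, k2, hFg] at this
    rw [hF1, this]; group
  have hw1 : (e⁻¹ * F1).1 a = a := by
    rw [mul_ap, hF1a, inv_fix heup.left]
  have hw2 : S.germ (e⁻¹ * F1) a = 1 := by
    rw [S.germ_mul, hF1a, S.germ_inv_fix heup.left, hF1g, inv_mul_cancel]
  obtain ⟨y, hy, hy2⟩ := S.germ_one _ _ hw1 hw2
  have hF1e : ∀ t, a ≤ t → t < y → F1.1 t = e.1 t := by
    intro t h3 h4
    have := hy2 t h3 h4
    rw [mul_ap] at this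
    rw [← ap_inv e (F1.1 t), this]
  -- the component of F1 starting at a
  have hab : a < b := heup.lt
  obtain ⟨x, hx1, hx2⟩ := exists_between (lt_min hy hab)
  have hxy : x < y := lt_of_lt_of_le hx2 (min_le_left _ _)
  have hxb : x < b := lt_of_lt_of_le hx2 (min_le_right _ _)
  have hxup : x < F1.1 x := by
    rw [hF1e x hx1.le hxy]
    exact heup.up x hx1 hxb
  obtain ⟨α, β, hα, hβ, hc⟩ := S.exists_up hxup
  have hαa : α = a := by
    rcases lt_trichotomy α a with h | h | h
    · exact absurd hF1a (hc.up a h (by linarith)).ne'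
    · exact h
    · exfalso
      have h3 := hc.left
      rw [hF1e α h.le (by linarith)] at h3
      exact (heup.up α h (by linarith)).ne' h3
  subst hαa
  obtain ⟨F2, hF2pos, hF2up, hF2s, hF2e⟩ := S.exists_restr_up hL hF1pos hc
  -- move the right end point
  obtain ⟨c, hc1, hc2⟩ := exists_between (lt_min (lt_min hy hab) (lt_min hc.lt (heup.map_gt hα)))
  have hcy : c < y := lt_of_lt_of_le hc2 ((min_le_left _ _).trans (min_le_left _ _))
  have hcb : c < b := lt_of_lt_of_le hc2 ((min_le_left _ _).trans (min_le_right _ _))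
  have hcβ : c < β := lt_of_lt_of_le hc2 ((min_le_right _ _).trans (min_le_left _ _))
  obtain ⟨h2, l1, l2⟩ := S.step (A := c) (x := β) (y := b) hcβ hcb
  set F3 : G := h2 * F2 * h2⁻¹ with hF3
  have hF3pos : 1 ≤ F3 := one_le_conj h2 hF2pos
  have hh2a : h2.1 α = α := l1 α hc1.le
  have hF3up : Up F3 α b := by
    have := hF2up.conj h2
    rwa [hh2a, l2] at this
  have hF3s : SuppIn F3 α b := by
    have := hF2s.conj h2
    rwa [hh2a, l2] at this
  have hF3e : ∀ t, α ≤ t → t < (e⁻¹).1 c → F3.1 t = e.1 t := by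
    intro t h3 h4
    have h5 : e.1 t < c := by rwa [lt_inv_ap] at h4
    have h6 : t < c := by
      rcases h3.eq_or_lt with h3 | h3
      · rw [← h3]; exact hc1
      · have h7 : (e⁻¹).1 c < c := heup.inv_down hc1 hcb
        linarith
    have e3 : (h2⁻¹).1 t = t := inv_fix (l1 t h6.le)
    rw [hF3, mul_ap, mul_ap, e3, hF2e t h3 (by linarith), hF1e t h3 (by linarith), l1 _ h5.le]
  obtain ⟨h3, -, h4⟩ := S.conj_bump (f := F3) (f' := e) (c := (e⁻¹).1 c)
    (heup.inv_gt hc1) hF3up heup hF3e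
    (fun t ht => by rw [hF3s t ht, hes t ht])
  have hepos : 1 ≤ e := by
    rw [← h4]
    exact one_le_conj h3 hF3pos
  have he1 : e = 1 := le_antisymm (Left.inv_le_one_iff.2 hdpos) hepos
  have := heup.up x hx1 hxb
  rw [he1, one_ap] at this
  exact lt_irrefl _ this

include S in
theorem class_d (hL : ¬ LDom G) : {f : G | 1 ≤ f} = Ppw G ∨ {f : G | 1 ≤ f} = Npw G := by
  by_cases h : ∃ f : G, 1 ≤ f ∧ ∃ z, z < f.1 z
  · left
    obtain ⟨f0, hf0, z0, hz0⟩ := h
    have hsub : ∀ f : G, 1 ≤ f → ∀ t, t ≤ f.1 t := by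
      intro f hf t
      by_contra hc
      push Not at hc
      exact S.no_mix hL hf0 hf hz0 hc
    ext f
    constructor
    · exact fun hf => hsub f hf
    · intro hf
      show 1 ≤ f
      obtain ⟨p, n, hp, hn, hpn, hd⟩ := exists_decomp f
      have hn1 : n = 1 := by
        by_contra hne
        obtain ⟨z, hz⟩ := exists_moved hne
        have h1 : p.1 z = z := (S.disj hp hn hpn z).resolve_right hz
        have h2 : z < n.1 z := lt_of_le_of_ne (hsub n hn z) (Ne.symm hz)
        have h3 : (f⁻¹).1 z = n.1 z := by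
          rw [hd, mul_inv_rev, inv_inv, mul_ap, inv_fix h1]
        have h4 : (f⁻¹).1 z ≤ z := by rw [inv_ap_le]; exact hf z
        linarith
      rw [hd, hn1, inv_one, mul_one]
      exact hp
  · right
    push Not at h
    ext f
    constructor
    · exact fun hf => h f hf
    · intro hf
      show 1 ≤ f
      obtain ⟨p, n, hp, hn, hpn, hd⟩ := exists_decomp f
      have hn1 : n = 1 := by
        by_contra hne
        obtain ⟨z, hz⟩ := exists_moved hne
        have h1 : p.1 z = z := (S.disj hp hn hpn z).resolve_right hz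
        have h2 : n.1 z < z := lt_of_le_of_ne (h n hn z) hz
        have h3 : (f⁻¹).1 z = n.1 z := by
          rw [hd, mul_inv_rev, inv_inv, mul_ap, inv_fix h1]
        have h4 : z ≤ (f⁻¹).1 z := by rw [le_inv_ap]; exact hf z
        linarith
      rw [hd, hn1, inv_one, mul_one]
      exact hp

/-- classification of the lattice orders of `G` -/
theorem class_all : {f : G | 1 ≤ f} = Ppw G ∨ {f : G | 1 ≤ f} = Npw G ∨
    ∃ Q : Set Γ, TCone Q ∧ {f : G | 1 ≤ f} = S.PQ Q := by
  by_cases hL : LDom G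
  · exact Or.inr (Or.inr (S.class_ld hL))
  · rcases S.class_d hL with h | h
    · exact Or.inl h
    · exact Or.inr (Or.inl h)

end D
end GermSys
end Pool.Agent.Helper157
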