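import Pool.Agent.Helper157.GS5

set_option autoImplicit false

namespace Pool.Agent.Helper157

lemma LCone.rev {H : Type} [Group H] {P : Set H} (hP : LCone P) : LCone {g : H | g⁻¹ ∈ P} where
  one := by simpa using hP.one
  mul x hx y hy := by
    show (x * y)⁻¹ ∈ P
    rw [mul_inv_rev]
    exact hP.mul _ hy _ hx
  anti x hx hx' := by
    have h1 : x⁻¹ ∈ P := hx
    have h2 : x⁻¹⁻¹ ∈ P := hx'
    rw [inv_inv] at h2
    exact hP.anti x h2 h1
  conj g p hp := by
    have h1 : p⁻¹ ∈ P := hp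
    show (g * p * g⁻¹)⁻¹ ∈ P
    have := hP.conj g _ h1
    simpa [mul_assoc] using this
  join f := by
    obtain ⟨t, h1, h2, h3⟩ := (lord_of_lcone hP).2.2.2.2.2 f 1
    refine ⟨t, ?_, ?_, ?_⟩
    · show t⁻¹ ∈ P
      simpa using h2
    · show (f⁻¹ * t)⁻¹ ∈ P
      simpa using h1
    · intro u hu hfu
      have hu' : u⁻¹ ∈ P := hu
      have hfu' : (f⁻¹ * u)⁻¹ ∈ P := hfu
      show (t⁻¹ * u)⁻¹ ∈ P
      have := h3 u (by simpa using hfu') (by simpa using hu')
      simpa using this

namespace GermSys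
variable {G : Subgroup (ℝ ≃o ℝ)} {Γ : Type} [Group Γ] (S : GermSys G Γ)

include S in
lemma exists_max (f : G) : ∃ s : G, ∀ t, s.1 t = max (f.1 t) t := by
  refine S.mkG (fun t => max (f.1 t) t) (fun t => min ((f⁻¹).1 t) t) ?_ ?_ ?_ ?_
  · intro x y hxy
    exact max_lt_max ((ap_lt f).2 hxy) hxy
  · intro x
    rcases le_total ((f⁻¹).1 x) x with h | h
    · rw [min_eq_left h]
      show max (f.1 ((f⁻¹).1 x)) ((f⁻¹).1 x) = x
      rw [ap_inv, max_eq_left h]
    · rw [min_eq_right h]
      show max (f.1 x) x = x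
      rw [le_inv_ap] at h
      exact max_eq_right h
  · obtain ⟨A, B, -, h⟩ := S.bdd f
    refine ⟨A, B, fun t ht => ?_⟩
    show max (f.1 t) t = t
    rw [h t ht, max_self]
  · intro x
    rcases lt_trichotomy (f.1 x) x with h | h | h
    · refine ⟨1, (f⁻¹).1 x, by rw [gt_iff_lt, lt_inv_ap]; exact h, ?_⟩
      intro t h1 h2
      rw [lt_inv_ap] at h2
      exact max_eq_right (by linarith)
    · obtain ⟨y, hy, h1 | h1 | h1⟩ := S.osc f x h
      · refine ⟨1, y, hy, fun t h2 h3 => ?_⟩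
        rcases h2.eq_or_lt with h2 | h2
        · subst h2; exact max_eq_right h.le
        · exact max_eq_right (h1 t h2 h3).le
      · refine ⟨f, y, hy, fun t h2 h3 => ?_⟩
        rcases h2.eq_or_lt with h2 | h2
        · subst h2; exact max_eq_left h.ge
        · exact max_eq_left (h1 t h2 h3).le
      · refine ⟨1, y, hy, fun t h2 h3 => ?_⟩
        rcases h2.eq_or_lt with h2 | h2
        · subst h2; exact max_eq_right h.le
        · exact max_eq_right (h1 t h2 h3).le
    · refine ⟨f, f.1 x, h, ?_⟩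
      intro t h1 h2
      have := (ap_le f).2 h1
      exact max_eq_left (by linarith)

include S in
lemma lcone_Ppw : LCone (Ppw G) where
  one := fun t => le_rfl
  mul f hf g hg := fun t => (hg t).trans (hf _)
  anti f hf hf' := by
    apply g_ext
    intro t
    have := hf' t
    rw [le_inv_ap] at this
    exact le_antisymm this (hf t)
  conj g p hp := by
    intro t
    rw [mul_ap, mul_ap, ← inv_ap_le]
    exact hp _
  join f := by
    obtain ⟨s, hs⟩ := S.exists_max f
    refine ⟨s, fun t => ?_, fun t => ?_, ?_⟩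
    · rw [hs]; exact le_max_right _ _
    · rw [mul_ap, le_inv_ap, hs]; exact le_max_left _ _
    · intro u hu hfu t
      rw [mul_ap, le_inv_ap, hs]
      refine max_le ?_ (hu t)
      have := hfu t
      rwa [mul_ap, le_inv_ap] at this

omit [Group Γ] in
lemma Npw_eq : Npw G = {g : G | g⁻¹ ∈ Ppw G} := by
  ext f
  constructor
  · intro h t
    rw [le_inv_ap]; exact h t
  · intro h t
    have := h t
    rwa [le_inv_ap] at this

include S in
lemma lcone_Npw : LCone (Npw G) := by
  rw [Npw_eq]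
  exact S.lcone_Ppw.rev

include S in
lemma Ppw_ne_Npw : Ppw G ≠ Npw G := by
  intro h
  obtain ⟨u, a, b, hu, -⟩ := S.exists_upbump
  obtain ⟨s, hs⟩ := S.exists_max u
  have h1 : s ∈ Ppw G := fun t => by rw [hs]; exact le_max_right _ _
  rw [h] at h1
  obtain ⟨c, hc1, hc2⟩ := exists_between hu.lt
  have h2 := h1 c
  rw [hs] at h2
  have h3 := hu.up c hc1 hc2
  have h4 := (le_max_left (u.1 c) c).trans h2
  linarith

include S in
/-- an element moving some point up and some other down -/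
lemma exists_mixed : ∃ f : G, (∃ z, z < f.1 z) ∧ ∃ z, f.1 z < z := by
  obtain ⟨u, a, b, hu, hus⟩ := S.exists_upbump
  obtain ⟨g, e1, e2, -, -⟩ := S.trans4 (x1 := a) (x2 := b) (x3 := b + 1) (x4 := b + 2)
    (y1 := b) (y2 := b + 1) (y3 := b + 2) (y4 := b + 3) hu.lt (by linarith) (by linarith)
    (by linarith) (by linarith) (by linarith)
  have hc : SuppIn (g * u⁻¹ * g⁻¹) b (b + 1) := by
    have := hus.inv.conj g
    rwa [e1, e2] at this
  obtain ⟨c, hc1, hc2⟩ := exists_between hu.lt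
  refine ⟨u * (g * u⁻¹ * g⁻¹), ⟨c, ?_⟩, ⟨g.1 c, ?_⟩⟩
  · rw [mul_ap u, hc c (Or.inl hc2.le)]
    exact hu.up c hc1 hc2
  · have h1 : b < g.1 c := by rw [← e1]; exact (ap_lt g).2 hc1
    have h2 : (g * u⁻¹ * g⁻¹).1 (g.1 c) = g.1 ((u⁻¹).1 c) := by
      rw [mul_ap, mul_ap, inv_ap]
    have h3 : b < (g * u⁻¹ * g⁻¹).1 (g.1 c) := hc.gt h1
    rw [mul_ap u, hus _ (Or.inr h3.le), h2, ap_lt]
    exact hu.inv_down hc1 hc2

theorem lcone_iff (P : Set G) : LCone P ↔ P = Ppw G ∨ P = Npw G ∨
    ∃ Q : Set Γ, TCone Q ∧ S.PQ Q = P := by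
  constructor
  · intro hP
    let _ := hP.lattice
    have _ := hP.mulLeftMono
    have _ := hP.mulRightMono
    have hPe : {f : G | 1 ≤ f} = P := by
      ext f
      exact hP.one_le_iff f
    rcases S.class_all with h | h | ⟨Q, hQ, h⟩
    · left; rw [← hPe]; exact h
    · right; left; rw [← hPe]; exact h
    · right; right; exact ⟨Q, hQ, by rw [← hPe]; exact h.symm⟩
  · rintro (h | h | ⟨Q, hQ, h⟩)
    · rw [h]; exact S.lcone_Ppw
    · rw [h]; exact S.lcone_Npw
    · rw [← h]; exact (S.tcone_PQ hQ).lcone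

include S in
/-- The number of lattice orders of `G`. -/
theorem ncard_lcone (hfin : {Q : Set Γ | TCone Q}.Finite) :
    {P : Set G | LCone P}.ncard = {Q : Set Γ | TCone Q}.ncard + 2 := by
  have h1 : {P : Set G | LCone P} = insert (Ppw G) (insert (Npw G) (S.PQ '' {Q : Set Γ | TCone Q})) := by
    ext P
    rw [Set.mem_insert_iff, Set.mem_insert_iff]
    exact S.lcone_iff P
  have hfin' : (S.PQ '' {Q : Set Γ | TCone Q}).Finite := hfin.image _
  obtain ⟨f, ⟨z, hz⟩, z', hz'⟩ := S.exists_mixed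
  have h2 : Npw G ∉ S.PQ '' {Q : Set Γ | TCone Q} := by
    rintro ⟨Q, hQ, h⟩
    rcases (S.tcone_PQ hQ).total f with h3 | h3
    · rw [h] at h3
      have := h3 z
      linarith
    · rw [h] at h3
      have := h3 z'
      rw [inv_ap_le] at this
      linarith
  have h3 : Ppw G ∉ insert (Npw G) (S.PQ '' {Q : Set Γ | TCone Q}) := by
    rw [Set.mem_insert_iff]
    rintro (h | ⟨Q, hQ, h⟩)
    · exact S.Ppw_ne_Npw h
    · rcases (S.tcone_PQ hQ).total f with h3 | h3
      · rw [h] at h3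
        have := h3 z'
        linarith
      · rw [h] at h3
        have := h3 z
        rw [le_inv_ap] at this
        linarith
  rw [h1, Set.ncard_insert_of_notMem h3 (hfin'.insert _), Set.ncard_insert_of_notMem h2 hfin',
    Set.InjOn.ncard_image]
  intro Q hQ Q' hQ' h
  exact S.PQ_inj hQ hQ' h

end GermSys
end Pool.Agent.Helper157
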