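import Mathlib

set_option autoImplicit false

namespace Pool.Agent.Helper157

/-- `P` is the positive cone of a (two-sided invariant) lattice order of the group `H`. -/
structure LCone {H : Type} [Group H] (P : Set H) : Prop where
  one : (1 : H) ∈ P
  mul : ∀ x ∈ P, ∀ y ∈ P, x * y ∈ P
  anti : ∀ x, x ∈ P → x⁻¹ ∈ P → x = 1
  conj : ∀ g, ∀ p ∈ P, g * p * g⁻¹ ∈ P
  join : ∀ f, ∃ s ∈ P, f⁻¹ * s ∈ P ∧ ∀ u ∈ P, f⁻¹ * u ∈ P → s⁻¹ * u ∈ P

/-- `Q` is the positive cone of a (two-sided invariant) total order of the group `H`. -/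
structure TCone {H : Type} [Group H] (Q : Set H) : Prop where
  one : (1 : H) ∈ Q
  mul : ∀ x ∈ Q, ∀ y ∈ Q, x * y ∈ Q
  anti : ∀ x, x ∈ Q → x⁻¹ ∈ Q → x = 1
  conj : ∀ g, ∀ p ∈ Q, g * p * g⁻¹ ∈ Q
  total : ∀ x, x ∈ Q ∨ x⁻¹ ∈ Q

/-- The lattice orders of the group `H`. -/
def LOrd (H : Type) [Group H] : Set (H → H → Prop) :=
  {r : H → H → Prop |
    (∀ a, r a a) ∧
    (∀ a b c, r a b → r b c → r a c) ∧
    (∀ a b, r a b → r b a → a = b) ∧
    (∀ a b c d, r a b → r (c * a * d) (c * b * d)) ∧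
    (∀ a b, ∃ s, r a s ∧ r b s ∧ ∀ u, r a u → r b u → r s u) ∧
    (∀ a b, ∃ t, r t a ∧ r t b ∧ ∀ u, r u a → r u b → r u t)}

section conv
variable {H : Type} [Group H]

lemma lord_iff {r : H → H → Prop} (hr : ∀ a b c d, r a b → r (c * a * d) (c * b * d)) (a b : H) :
    r a b ↔ r 1 (a⁻¹ * b) := by
  constructor
  · intro h
    have := hr a b a⁻¹ 1 h
    simpa using this
  · intro h
    have := hr 1 (a⁻¹ * b) a 1 h
    simpa using this

lemma lcone_of_lord {r : H → H → Prop} (h : r ∈ LOrd H) : LCone {g : H | r 1 g} := by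
  obtain ⟨h1, h2, h3, h4, h5, h6⟩ := h
  have key := lord_iff h4
  refine ⟨h1 1, ?_, ?_, ?_, ?_⟩
  · intro x hx y hy
    have hx' : r 1 x := hx
    have hy' : r 1 y := hy
    refine h2 1 x (x * y) hx' ?_
    rw [key]; simpa using hy'
  · intro x hx hx2
    have hx' : r 1 x := hx
    have hy' : r 1 x⁻¹ := hx2
    refine h3 _ _ ?_ hx'
    rw [key]; simpa using hy'
  · intro g p hp
    have := h4 1 p g g⁻¹ hp
    show r 1 _
    simpa using this
  · intro f
    obtain ⟨s, hs1, hs2, hs3⟩ := h5 1 f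
    refine ⟨s, hs1, (key _ _).1 hs2, ?_⟩
    intro u hu hfu
    exact (key _ _).1 (hs3 u hu ((key _ _).2 hfu))

lemma LCone.inv_mul_mem_conj {P : Set H} (hP : LCone P) {x y : H} (h : x * y ∈ P) : y * x ∈ P := by
  have := hP.conj y (x * y) h
  simpa [mul_assoc] using this

lemma lord_of_lcone {P : Set H} (hP : LCone P) : (fun a b : H => a⁻¹ * b ∈ P) ∈ LOrd H := by
  have hjoin : ∀ a b : H, ∃ s, a⁻¹ * s ∈ P ∧ b⁻¹ * s ∈ P ∧
      ∀ u, a⁻¹ * u ∈ P → b⁻¹ * u ∈ P → s⁻¹ * u ∈ P := by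
    intro a b
    obtain ⟨s, hs1, hs2, hs3⟩ := hP.join (a⁻¹ * b)
    refine ⟨a * s, by simpa using hs1, by simpa [mul_assoc] using hs2, ?_⟩
    intro u hu1 hu2
    have := hs3 (a⁻¹ * u) hu1 (by simpa [mul_assoc] using hu2)
    simpa [mul_assoc] using this
  refine ⟨?_, ?_, ?_, ?_, hjoin, ?_⟩
  · intro a; simpa using hP.one
  · intro a b c hab hbc
    have := hP.mul _ hab _ hbc
    simpa [mul_assoc] using this
  · intro a b hab hba
    have := hP.anti _ hab (by simpa using hba)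
    exact inv_mul_eq_one.1 this
  · intro a b c d hab
    have := hP.conj d⁻¹ _ hab
    simpa [mul_assoc] using this
  · intro a b
    obtain ⟨s, hs1, hs2, hs3⟩ := hjoin a⁻¹ b⁻¹
    refine ⟨s⁻¹, ?_, ?_, ?_⟩
    · apply hP.inv_mul_mem_conj; simpa using hs1
    · apply hP.inv_mul_mem_conj; simpa using hs2
    · intro u hu1 hu2
      have := hs3 u⁻¹ (by apply hP.inv_mul_mem_conj; simpa using hu1)
        (by apply hP.inv_mul_mem_conj; simpa using hu2)
      exact hP.inv_mul_mem_conj this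

theorem ncard_lord : (LOrd H).ncard = {P : Set H | LCone P}.ncard := by
  have himg : (fun r : H → H → Prop => {g : H | r 1 g}) '' (LOrd H) = {P : Set H | LCone P} := by
    ext P
    constructor
    · rintro ⟨r, hr, rfl⟩
      exact lcone_of_lord hr
    · intro hP
      refine ⟨_, lord_of_lcone hP, ?_⟩
      ext g
      simp
  rw [← himg, Set.InjOn.ncard_image]
  intro r hr r' hr' h
  have h' : ∀ g, r 1 g ↔ r' 1 g := fun g => Set.ext_iff.1 h g
  funext a b
  have e1 := lord_iff hr.2.2.2.1 a b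
  have e2 := lord_iff hr'.2.2.2.1 a b
  exact propext (e1.trans ((h' _).trans e2.symm))

/-- The lattice structure given by a lattice cone. -/
@[reducible] noncomputable def LCone.lattice {P : Set H} (hP : LCone P) : Lattice H where
  le a b := a⁻¹ * b ∈ P
  le_refl a := (lord_of_lcone hP).1 a
  le_trans a b c := (lord_of_lcone hP).2.1 a b c
  le_antisymm a b := (lord_of_lcone hP).2.2.1 a b
  sup a b := Classical.choose ((lord_of_lcone hP).2.2.2.2.1 a b)
  inf a b := Classical.choose ((lord_of_lcone hP).2.2.2.2.2 a b)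
  le_sup_left a b := (Classical.choose_spec ((lord_of_lcone hP).2.2.2.2.1 a b)).1
  le_sup_right a b := (Classical.choose_spec ((lord_of_lcone hP).2.2.2.2.1 a b)).2.1
  sup_le a b c h1 h2 := (Classical.choose_spec ((lord_of_lcone hP).2.2.2.2.1 a b)).2.2 c h1 h2
  inf_le_left a b := (Classical.choose_spec ((lord_of_lcone hP).2.2.2.2.2 a b)).1
  inf_le_right a b := (Classical.choose_spec ((lord_of_lcone hP).2.2.2.2.2 a b)).2.1
  le_inf a b c h1 h2 := (Classical.choose_spec ((lord_of_lcone hP).2.2.2.2.2 b c)).2.2 a h1 h2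

lemma LCone.mulLeftMono {P : Set H} (hP : LCone P) :
    @MulLeftMono H _ hP.lattice.toLE := by
  let _ := hP.lattice
  constructor
  intro a b c h
  have h' : b⁻¹ * c ∈ P := h
  show (a * b)⁻¹ * (a * c) ∈ P
  simpa [mul_assoc] using h'

lemma LCone.mulRightMono {P : Set H} (hP : LCone P) :
    @MulRightMono H _ hP.lattice.toLE := by
  let _ := hP.lattice
  constructor
  intro a b c h
  have h' : b⁻¹ * c ∈ P := h
  show (b * a)⁻¹ * (c * a) ∈ P
  have := hP.conj a⁻¹ _ h'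
  simpa [mul_assoc] using this

lemma LCone.one_le_iff {P : Set H} (hP : LCone P) (g : H) :
    (@LE.le H hP.lattice.toLE 1 g) ↔ g ∈ P := by
  show (1 : H)⁻¹ * g ∈ P ↔ g ∈ P
  simp

/-- A total cone is a lattice cone. -/
lemma TCone.lcone {P : Set H} (hP : TCone P) : LCone P where
  one := hP.one
  mul := hP.mul
  anti := hP.anti
  conj := hP.conj
  join f := by
    rcases hP.total f with h | h
    · exact ⟨f, h, by simpa using hP.one, fun u _ hu => hu⟩
    · exact ⟨1, hP.one, by simpa using h, fun u hu _ => by simpa using hu⟩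

lemma LCone.tcone {P : Set H} (hP : LCone P) (ht : ∀ x, x ∈ P ∨ x⁻¹ ∈ P) : TCone P :=
  ⟨hP.one, hP.mul, hP.anti, hP.conj, ht⟩

end conv

section lgroup
variable {H : Type} [Group H] [Lattice H] [MulLeftMono H] [MulRightMono H]

lemma inf_mul_le {a b c : H} (ha : 1 ≤ a) (hb : 1 ≤ b) (hc : 1 ≤ c) :
    a ⊓ (b * c) ≤ (a ⊓ b) * (a ⊓ c) := by
  rw [mul_inf]
  refine le_inf ?_ ?_
  · rw [inf_mul]
    refine le_inf ?_ ?_
    · exact inf_le_left.trans (le_mul_of_one_le_left' ha)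
    · exact inf_le_left.trans (le_mul_of_one_le_left' hb)
  · rw [inf_mul]
    refine le_inf ?_ ?_
    · exact inf_le_left.trans (le_mul_of_one_le_right' hc)
    · exact inf_le_right

lemma orth_mul {a b c : H} (ha : 1 ≤ a) (hb : 1 ≤ b) (hc : 1 ≤ c) (h1 : a ⊓ b = 1)
    (h2 : a ⊓ c = 1) : a ⊓ (b * c) = 1 := by
  apply le_antisymm
  · calc a ⊓ (b * c) ≤ (a ⊓ b) * (a ⊓ c) := inf_mul_le ha hb hc
      _ = 1 := by rw [h1, h2, one_mul]
  · exact le_inf ha (one_le_mul hb hc)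

/-- decomposition of an element as a quotient of disjoint positive elements -/
lemma exists_decomp (f : H) : ∃ p n : H, 1 ≤ p ∧ 1 ≤ n ∧ p ⊓ n = 1 ∧ f = p * n⁻¹ := by
  refine ⟨f⁺ᵐ, f⁻ᵐ, one_le_oneLePart f, one_le_leOnePart f, oneLePart_inf_leOnePart_eq_one f, ?_⟩
  exact (oneLePart_div_leOnePart f).symm.trans (div_eq_mul_inv _ _)

end lgroup

end Pool.Agent.Helper157
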