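import Pool.Agent.Helper157.MSMDefs

set_option autoImplicit false

namespace Pool.Agent.Helper157.MSM

open MeasureTheory

/-! ### General facts about runs -/

section run
variable {n s : ℕ} (A : Alg n s)

lemma run_append (f : Finset (Edge n) → ℝ) (l1 l2 : List (Edge n)) :
    ∀ (σ : A.State) (arr : Finset (Edge n)),
      A.run f σ arr (l1 ++ l2) = A.run f (A.run f σ arr l1) (arr ∪ l1.toFinset) l2 := by
  induction l1 with
  | nil => intro σ arr; simp [Alg.run]
  | cons e l ih =>
    intro σ arr
    simp only [List.cons_append, Alg.run, List.toFinset_cons]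
    rw [ih]
    congr 1
    ext x
    simp only [Finset.mem_union, Finset.mem_insert]
    tauto

lemma held_run (f : Finset (Edge n) → ℝ) (l : List (Edge n)) :
    ∀ (σ : A.State) (arr : Finset (Edge n)),
      A.held (A.run f σ arr l) ⊆ A.held σ ∪ l.toFinset := by
  induction l with
  | nil => intro σ arr; simp [Alg.run]
  | cons e l ih =>
    intro σ arr
    simp only [Alg.run, List.toFinset_cons]
    refine (ih _ _).trans ?_
    intro x hx
    rcases Finset.mem_union.1 hx with hx | hx
    · have := A.held_step _ _ _ hx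
      simp only [Finset.mem_insert, Finset.mem_union] at this ⊢
      tauto
    · simp only [Finset.mem_insert, Finset.mem_union]
      tauto

lemma run_congr (f f' : Finset (Edge n) → ℝ) (l : List (Edge n)) :
    ∀ (σ : A.State) (arr : Finset (Edge n)),
      (∀ T, T ⊆ arr ∪ l.toFinset → f T = f' T) → A.run f σ arr l = A.run f' σ arr l := by
  induction l with
  | nil => intro σ arr _; rfl
  | cons e l ih =>
    intro σ arr h
    simp only [Alg.run]
    have e1 : oracle f (insert e arr) = oracle f' (insert e arr) := by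
      funext T
      simp only [oracle]
      split_ifs with hT
      · rw [h T (hT.trans ?_)]
        intro x hx
        simp only [Finset.mem_insert, List.toFinset_cons, Finset.mem_union] at hx ⊢
        tauto
      · rfl
    rw [e1]
    apply ih
    intro T hT
    apply h
    refine hT.trans ?_
    intro x hx
    simp only [Finset.mem_insert, List.toFinset_cons, Finset.mem_union] at hx ⊢
    tauto

end run

/-! ### The abstract hard function -/

section hard
variable {k : ℕ} {X : Type} [AddCommGroup X] [Fintype X] [DecidableEq X]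

/-- the factor of a non special element of level `i` -/
noncomputable def wt (k : ℕ) (i : Fin k) : ℝ := ((k : ℝ) - 1 - i) / (k - i)

lemma wt_den (i : Fin k) : 0 < (k : ℝ) - i := by
  have : (i : ℕ) < k := i.2
  have : ((i : ℕ) : ℝ) < k := by exact_mod_cast this
  linarith

lemma wt_num (i : Fin k) : 0 ≤ (k : ℝ) - 1 - i := by
  have : (i : ℕ) + 1 ≤ k := i.2
  have : ((i : ℕ) : ℝ) + 1 ≤ k := by exact_mod_cast this
  linarith

lemma wt_nonneg (i : Fin k) : 0 ≤ wt k i := div_nonneg (wt_num i) (wt_den i).le

lemma wt_le_one (i : Fin k) : wt k i ≤ 1 := by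
  rw [wt, div_le_one (wt_den i)]; linarith

lemma wt_mul (i : Fin k) : wt k i * ((k : ℝ) - i) = (k : ℝ) - 1 - i := by
  rw [wt, div_mul_cancel₀ _ (wt_den i).ne']

/-- the factor of the element `t = (i, g', x)` in the atom `(g, l)` -/
noncomputable def fac (b : Fin k → X) (g : X) (l : Fin k) (t : Fin k × X × X) : ℝ :=
  if t.2.1 = g ∧ t.1 ≤ l then
    (if t.2.2 = g + b t.1 then (if t.1 = l then 0 else 1) else wt k t.1)
  else 1

lemma fac_nonneg (b : Fin k → X) (g : X) (l : Fin k) (t : Fin k × X × X) : 0 ≤ fac b g l t := by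
  unfold fac
  split_ifs
  · exact le_rfl
  · exact zero_le_one
  · exact wt_nonneg _
  · exact zero_le_one

lemma fac_le_one (b : Fin k → X) (g : X) (l : Fin k) (t : Fin k × X × X) : fac b g l t ≤ 1 := by
  unfold fac
  split_ifs
  · exact zero_le_one
  · exact le_rfl
  · exact wt_le_one _
  · exact le_rfl

/-- the uncovered part of the atom `(g,l)` -/
noncomputable def unc (b : Fin k → X) (g : X) (l : Fin k) (S : Finset (Fin k × X × X)) : ℝ :=
  ∏ t ∈ S, fac b g l t

/-- the hard function -/
noncomputable def hardF (b : Fin k → X) (S : Finset (Fin k × X × X)) : ℝ :=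
  ∑ g : X, ∑ l : Fin k, (1 / (k : ℝ)) * (1 - unc b g l S)

lemma unc_nonneg (b : Fin k → X) (g : X) (l : Fin k) (S : Finset (Fin k × X × X)) :
    0 ≤ unc b g l S := Finset.prod_nonneg fun t _ => fac_nonneg b g l t

lemma unc_le_one (b : Fin k → X) (g : X) (l : Fin k) (S : Finset (Fin k × X × X)) :
    unc b g l S ≤ 1 := Finset.prod_le_one (fun t _ => fac_nonneg b g l t) fun t _ => fac_le_one b g l t

lemma unc_anti (b : Fin k → X) (g : X) (l : Fin k) {S T : Finset (Fin k × X × X)} (h : S ⊆ T) :
    unc b g l T ≤ unc b g l S := by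
  have : unc b g l T = unc b g l (T \ S) * unc b g l S :=
    (Finset.prod_sdiff h).symm
  rw [this]
  exact mul_le_of_le_one_left (unc_nonneg _ _ _ _) (unc_le_one _ _ _ _)

lemma unc_super (b : Fin k → X) (g : X) (l : Fin k) (S T : Finset (Fin k × X × X)) :
    unc b g l S + unc b g l T ≤ unc b g l (S ∪ T) + unc b g l (S ∩ T) := by
  have h1 : unc b g l S = unc b g l (S \ T) * unc b g l (S ∩ T) := by
    have := (Finset.prod_sdiff (f := fac b g l) (Finset.inter_subset_left (s₁ := S) (s₂ := T))).symm
    rwa [Finset.sdiff_inter_self_left] at this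
  have h2 : unc b g l T = unc b g l (T \ S) * unc b g l (S ∩ T) := by
    have := (Finset.prod_sdiff (f := fac b g l) (Finset.inter_subset_right (s₁ := S) (s₂ := T))).symm
    rwa [Finset.sdiff_inter_self_right] at this
  have h3 : unc b g l (S ∪ T) = unc b g l (S \ T) * unc b g l T := by
    have : S ∪ T = (S \ T) ∪ T := by simp
    rw [this, unc, Finset.prod_union Finset.sdiff_disjoint]
    rfl
  rw [h3, h1, h2]
  nlinarith [mul_nonneg (unc_nonneg b g l (S ∩ T)) (mul_nonneg
    (sub_nonneg.2 (unc_le_one b g l (S \ T))) (sub_nonneg.2 (unc_le_one b g l (T \ S))))]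

lemma hardF_empty (b : Fin k → X) : hardF b ∅ = 0 := by
  simp [hardF, unc]

lemma hardF_mono (b : Fin k → X) {S T : Finset (Fin k × X × X)} (h : S ⊆ T) :
    hardF b S ≤ hardF b T := by
  apply Finset.sum_le_sum; intro g _
  apply Finset.sum_le_sum; intro l _
  apply mul_le_mul_of_nonneg_left _ (by positivity)
  linarith [unc_anti b g l h]

lemma hardF_submod (b : Fin k → X) (S T : Finset (Fin k × X × X)) :
    hardF b (S ∪ T) + hardF b (S ∩ T) ≤ hardF b S + hardF b T := by
  unfold hardF
  rw [← Finset.sum_add_distrib, ← Finset.sum_add_distrib]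
  apply Finset.sum_le_sum; intro g _
  rw [← Finset.sum_add_distrib, ← Finset.sum_add_distrib]
  apply Finset.sum_le_sum; intro l _
  rw [← mul_add, ← mul_add]
  apply mul_le_mul_of_nonneg_left _ (by positivity)
  linarith [unc_super b g l S T]

/-- the factor of `t` for all atoms of later levels -/
noncomputable def rfac (b : Fin k → X) (g : X) (t : Fin k × X × X) : ℝ :=
  if t.2.1 = g ∧ t.2.2 ≠ g + b t.1 then wt k t.1 else 1

lemma card_Ici (i : Fin k) : ((Finset.univ.filter fun l : Fin k => i < l).card : ℝ) = k - 1 - i := by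
  have h : (Finset.univ.filter fun l : Fin k => i < l) = Finset.Ioi i := by
    ext l; simp
  rw [h, Fin.card_Ioi]
  have : (i : ℕ) + 1 ≤ k := i.2
  rw [Nat.sub_sub, Nat.cast_sub (by omega)]
  push_cast
  ring

/-- the sum of the uncovered parts of the levels `≥ i` does not depend on the special elements of
level `i` -/
lemma sum_unc (b : Fin k → X) (g : X) (i : Fin k) (S : Finset (Fin k × X × X))
    (hS : ∀ t ∈ S, t.1 ≤ i) :
    ∑ l ∈ Finset.univ.filter (fun l : Fin k => i ≤ l), unc b g l S =
      (∏ t ∈ S.filter (fun t => t.1 < i), rfac b g t) *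
        wt k i ^ (S.filter (fun t => t.1 = i ∧ t.2.1 = g)).card * (k - i) := by
  classical
  set P := S.filter (fun t => t.1 < i) with hP
  set Q := S.filter (fun t => t.1 = i ∧ t.2.1 = g) with hQ
  -- splitting
  have hsplit : ∀ l : Fin k, i ≤ l → unc b g l S = (∏ t ∈ P, rfac b g t) * ∏ t ∈ Q, fac b g l t := by
    intro l hl
    rw [unc, ← Finset.prod_filter_mul_prod_filter_not S (fun t => t.1 < i)]
    congr 1
    · apply Finset.prod_congr rfl
      intro t ht
      have ht' : t.1 < i := (Finset.mem_filter.1 ht).2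
      have h1 : t.1 ≤ l := ht'.le.trans hl
      have h2 : t.1 ≠ l := (lt_of_lt_of_le ht' hl).ne
      unfold fac rfac
      by_cases h3 : t.2.1 = g <;> by_cases h4 : t.2.2 = g + b t.1 <;> simp [h1, h2, h3, h4]
    · rw [hQ]
      have : S.filter (fun t => t.1 = i ∧ t.2.1 = g) =
          (S.filter (fun t => ¬ t.1 < i)).filter (fun t => t.2.1 = g) := by
        ext t
        simp only [Finset.mem_filter]
        constructor
        · rintro ⟨h1, h2, h3⟩
          exact ⟨⟨h1, by rw [h2]; exact lt_irrefl i⟩, h3⟩
        · rintro ⟨⟨h1, h2⟩, h3⟩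
          exact ⟨h1, le_antisymm (hS t h1) (not_lt.1 h2), h3⟩
      rw [this]
      symm
      apply Finset.prod_subset (Finset.filter_subset _ _)
      intro t ht hn
      have : t.2.1 ≠ g := fun h => hn (Finset.mem_filter.2 ⟨ht, h⟩)
      simp [fac, this]
  have hsum : ∑ l ∈ Finset.univ.filter (fun l : Fin k => i ≤ l), unc b g l S =
      (∏ t ∈ P, rfac b g t) *
        ∑ l ∈ Finset.univ.filter (fun l : Fin k => i ≤ l), ∏ t ∈ Q, fac b g l t := by
    rw [Finset.mul_sum]
    apply Finset.sum_congr rfl
    intro l hl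
    exact hsplit l (Finset.mem_filter.1 hl).2
  rw [hsum, mul_assoc]
  congr 1
  -- the level `i`
  set z : Fin k × X × X := (i, g, g + b i) with hz
  have hQmem : ∀ t ∈ Q, t.1 = i ∧ t.2.1 = g := fun t ht => (Finset.mem_filter.1 ht).2
  have hns : ∀ t ∈ Q, t ≠ z → ∀ l, i ≤ l → fac b g l t = wt k i := by
    intro t ht hne l hl
    obtain ⟨h1, h2⟩ := hQmem t ht
    have h3 : t.2.2 ≠ g + b t.1 := by
      intro h
      apply hne
      rw [hz]
      exact Prod.ext h1 (Prod.ext h2 (by rw [h, h1]))
    unfold fac
    rw [if_pos ⟨h2, by rw [h1]; exact hl⟩, if_neg h3, h1]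
  have hset : Finset.univ.filter (fun l : Fin k => i ≤ l) =
      insert i (Finset.univ.filter (fun l : Fin k => i < l)) := by
    ext l
    simp only [Finset.mem_filter, Finset.mem_univ, true_and, Finset.mem_insert]
    constructor
    · intro h
      rcases h.eq_or_lt with h | h
      · left; exact h.symm
      · right; exact h
    · rintro (h | h)
      · rw [h]
      · exact h.le
  have hni : i ∉ Finset.univ.filter (fun l : Fin k => i < l) := by simp
  by_cases hzQ : z ∈ Q
  · have hprod : ∀ l, i ≤ l → ∏ t ∈ Q, fac b g l t = fac b g l z * wt k i ^ (Q.card - 1) := by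
      intro l hl
      rw [← Finset.mul_prod_erase Q _ hzQ]
      congr 1
      rw [Finset.prod_congr rfl (g := fun _ => wt k i), Finset.prod_const,
        Finset.card_erase_of_mem hzQ]
      intro t ht
      exact hns t (Finset.mem_of_mem_erase ht) (Finset.ne_of_mem_erase ht) l hl
    have hzi : fac b g i z = 0 := by simp [fac, hz]
    have hzl : ∀ l, i < l → fac b g l z = 1 := by
      intro l hl
      simp [fac, hz, hl.le, hl.ne]
    rw [hset, Finset.sum_insert hni, hprod i le_rfl, hzi, zero_mul, zero_add]
    rw [Finset.sum_congr rfl (g := fun _ => wt k i ^ (Q.card - 1))]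
    · rw [Finset.sum_const, nsmul_eq_mul, card_Ici, ← wt_mul i]
      have hc : Q.card = (Q.card - 1) + 1 := by
        have : 0 < Q.card := Finset.card_pos.2 ⟨z, hzQ⟩
        omega
      conv_rhs => rw [hc, pow_succ]
      ring
    · intro l hl
      have hl' : i < l := (Finset.mem_filter.1 hl).2
      rw [hprod l hl'.le, hzl l hl', one_mul]
  · have hprod : ∀ l, i ≤ l → ∏ t ∈ Q, fac b g l t = wt k i ^ Q.card := by
      intro l hl
      rw [Finset.prod_congr rfl (g := fun _ => wt k i), Finset.prod_const]
      intro t ht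
      exact hns t ht (fun h => hzQ (h ▸ ht)) l hl
    rw [hset, Finset.sum_insert hni, hprod i le_rfl,
      Finset.sum_congr rfl (g := fun _ => wt k i ^ Q.card)]
    · rw [Finset.sum_const, nsmul_eq_mul, card_Ici]
      ring
    · intro l hl
      exact hprod l (Finset.mem_filter.1 hl).2.le

/-- the function restricted to the levels `≤ i` does not depend on `b j`, `j ≥ i` -/
lemma hardF_congr (b b' : Fin k → X) (i : Fin k) (hb : ∀ j, j < i → b j = b' j)
    (S : Finset (Fin k × X × X)) (hS : ∀ t ∈ S, t.1 ≤ i) : hardF b S = hardF b' S := by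
  classical
  unfold hardF
  apply Finset.sum_congr rfl
  intro g _
  rw [← Finset.mul_sum, ← Finset.mul_sum]
  congr 1
  rw [Finset.sum_sub_distrib, Finset.sum_sub_distrib]
  congr 1
  rw [← Finset.sum_filter_add_sum_filter_not Finset.univ (fun l : Fin k => i ≤ l),
    ← Finset.sum_filter_add_sum_filter_not Finset.univ (fun l : Fin k => i ≤ l) (fun l => unc b' g l S)]
  congr 1
  · rw [sum_unc b g i S hS, sum_unc b' g i S hS]
    congr 2
    apply Finset.prod_congr rfl
    intro t ht
    have ht' : t.1 < i := (Finset.mem_filter.1 ht).2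
    unfold rfac
    rw [hb t.1 ht']
  · apply Finset.sum_congr rfl
    intro l hl
    have hl' : l < i := not_le.1 (Finset.mem_filter.1 hl).2
    unfold unc
    apply Finset.prod_congr rfl
    intro t _
    unfold fac
    by_cases h1 : t.2.1 = g ∧ t.1 ≤ l
    · rw [if_pos h1, if_pos h1, hb t.1 (lt_of_le_of_lt h1.2 hl')]
    · rw [if_neg h1, if_neg h1]

/-- value of the special transversal -/
lemma hardF_opt (hk : 0 < k) (b : Fin k → X) (S : Finset (Fin k × X × X))
    (hS : ∀ i g, (i, g, g + b i) ∈ S) : hardF b S = Fintype.card X := by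
  have h : ∀ g l, unc b g l S = 0 := by
    intro g l
    apply Finset.prod_eq_zero (hS l g)
    simp [fac]
  unfold hardF
  simp only [h, sub_zero, mul_one, Finset.sum_const, nsmul_eq_mul, Finset.card_univ, Fintype.card_fin]
  have : (k : ℝ) ≠ 0 := by positivity
  field_simp

lemma prod_wt (l : Fin k) :
    ∏ j ∈ Finset.univ.filter (fun j : Fin k => j ≤ l), wt k j = ((k : ℝ) - 1 - l) / k := by
  obtain ⟨l, hl⟩ := l
  induction l with
  | zero =>
    have : Finset.univ.filter (fun j : Fin k => j ≤ ⟨0, hl⟩) = {⟨0, hl⟩} := by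
      ext j
      simp only [Finset.mem_filter, Finset.mem_univ, true_and, Finset.mem_singleton]
      constructor
      · intro h
        exact le_antisymm h (Fin.mk_le_of_le_val (Nat.zero_le _))
      · intro h; rw [h]
    rw [this, Finset.prod_singleton]
    simp [wt]
  | succ l ih =>
    have hl' : l < k := by omega
    have : Finset.univ.filter (fun j : Fin k => j ≤ ⟨l + 1, hl⟩) =
        insert ⟨l + 1, hl⟩ (Finset.univ.filter (fun j : Fin k => j ≤ ⟨l, hl'⟩)) := by
      ext ⟨j, hj⟩
      simp only [Finset.mem_filter, Finset.mem_univ, true_and, Finset.mem_insert, Fin.mk_le_mk,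
        Fin.mk.injEq]
      omega
    rw [this, Finset.prod_insert (by simp), ih hl', wt]
    have h1 : (0 : ℝ) < k - l := wt_den ⟨l, hl'⟩
    have h2 : (0 : ℝ) < k - ((l + 1 : ℕ) : ℝ) := wt_den ⟨l + 1, hl⟩
    have h3 : (0 : ℝ) < k := by
      have : 0 < k := by omega
      exact_mod_cast this
    push_cast at h2 ⊢
    field_simp
    ring

omit [AddCommGroup X] [Fintype X] [DecidableEq X] in
lemma sum_succ (k : ℕ) : ∑ i ∈ Finset.range k, ((i : ℝ) + 1) = (k : ℝ) * (k + 1) / 2 := by
  induction k with
  | zero => simp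
  | succ k ih => rw [Finset.sum_range_succ, ih]; push_cast; ring

/-- upper bound on a transversal which catches few special elements -/
lemma hardF_le (hk : 0 < k) (b : Fin k → X) (S : Finset (Fin k × X × X))
    (hS : ∀ i g x y, (i, g, x) ∈ S → (i, g, y) ∈ S → x = y) :
    hardF b S ≤ Fintype.card X * (((k : ℝ) + 1) / (2 * k)) +
      ((Finset.univ.filter fun p : Fin k × X => (p.1, p.2, p.2 + b p.1) ∈ S).card : ℝ) / k := by
  classical
  have hk' : (0 : ℝ) < k := by exact_mod_cast hk
  have key : ∀ g l, 1 - unc b g l S ≤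
      (if (l, g, g + b l) ∈ S then 1 else 0) + ((l : ℝ) + 1) / k := by
    intro g l
    by_cases hl : (l, g, g + b l) ∈ S
    · rw [if_pos hl]
      have := unc_nonneg b g l S
      have : (0 : ℝ) ≤ ((l : ℝ) + 1) / k := by positivity
      linarith
    · rw [if_neg hl, zero_add]
      have h1 : ((k : ℝ) - 1 - l) / k ≤ unc b g l S := by
        rw [← prod_wt l]
        set T := S.filter (fun t => t.2.1 = g ∧ t.1 ≤ l) with hT
        have e1 : unc b g l S = ∏ t ∈ T, fac b g l t := by
          rw [unc, hT]
          symm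
          apply Finset.prod_subset (Finset.filter_subset _ _)
          intro t ht hn
          have : ¬ (t.2.1 = g ∧ t.1 ≤ l) := fun h => hn (Finset.mem_filter.2 ⟨ht, h⟩)
          simp [fac, this]
        have e2 : ∏ t ∈ T, wt k t.1 ≤ ∏ t ∈ T, fac b g l t := by
          apply Finset.prod_le_prod (fun t _ => wt_nonneg _)
          intro t ht
          have ht' := (Finset.mem_filter.1 ht)
          unfold fac
          rw [if_pos ht'.2]
          split_ifs with h2 h3
          · exfalso
            apply hl
            have : t = (l, g, g + b l) := by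
              refine Prod.ext h3 (Prod.ext ht'.2.1 ?_)
              rw [h2, h3]
            rw [← this]; exact ht'.1
          · exact wt_le_one _
          · exact le_rfl
        have e3 : ∏ t ∈ T, wt k t.1 = ∏ j ∈ T.image (fun t => t.1), wt k j := by
          rw [Finset.prod_image]
          intro t ht t' ht' h
          have h1 := Finset.mem_filter.1 ht
          have h2 := Finset.mem_filter.1 ht'
          obtain ⟨i, g1, x⟩ := t
          obtain ⟨i', g2, y⟩ := t'
          simp only at h h1 h2
          obtain ⟨h11, h12, h13⟩ := h1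
          obtain ⟨h21, h22, h23⟩ := h2
          subst h; subst h12; subst h22
          have := hS i g2 x y h11 h21
          rw [this]
        have e4 : ∏ j ∈ Finset.univ.filter (fun j : Fin k => j ≤ l), wt k j ≤
            ∏ j ∈ T.image (fun t => t.1), wt k j := by
          have hsub : T.image (fun t => t.1) ⊆ Finset.univ.filter (fun j : Fin k => j ≤ l) := by
            intro j hj
            obtain ⟨t, ht, rfl⟩ := Finset.mem_image.1 hj
            exact Finset.mem_filter.2 ⟨Finset.mem_univ _, (Finset.mem_filter.1 ht).2.2⟩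
          rw [← Finset.prod_sdiff hsub]
          exact mul_le_of_le_one_left (Finset.prod_nonneg fun j _ => wt_nonneg j)
            (Finset.prod_le_one (fun j _ => wt_nonneg j) fun j _ => wt_le_one j)
        rw [e1]
        exact e4.trans (e3 ▸ e2)
      have h2 : 1 - ((k : ℝ) - 1 - l) / k = ((l : ℝ) + 1) / k := by
        field_simp
        ring
      linarith
  have h1 : hardF b S ≤ ∑ g : X, ∑ l : Fin k, (1 / (k : ℝ)) *
      ((if (l, g, g + b l) ∈ S then 1 else 0) + ((l : ℝ) + 1) / k) := by
    apply Finset.sum_le_sum; intro g _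
    apply Finset.sum_le_sum; intro l _
    exact mul_le_mul_of_nonneg_left (key g l) (by positivity)
  refine h1.trans (le_of_eq ?_)
  have h2 : ∑ l : Fin k, ((l : ℝ) + 1) = (k : ℝ) * (k + 1) / 2 := by
    rw [Fin.sum_univ_eq_sum_range (fun i : ℕ => (i : ℝ) + 1) k]
    exact sum_succ k
  have h3 : ((Finset.univ.filter fun p : Fin k × X => (p.1, p.2, p.2 + b p.1) ∈ S).card : ℝ) =
      ∑ g : X, ∑ l : Fin k, (if (l, g, g + b l) ∈ S then (1 : ℝ) else 0) := by
    rw [Finset.card_filter, Nat.cast_sum, Fintype.sum_prod_type, Finset.sum_comm]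
    apply Finset.sum_congr rfl; intro g _
    apply Finset.sum_congr rfl; intro l _
    split_ifs <;> simp
  have h4 : ∀ g : X, ∑ l : Fin k, (1 / (k : ℝ)) *
      ((if (l, g, g + b l) ∈ S then 1 else 0) + ((l : ℝ) + 1) / k) =
      (1 / (k : ℝ)) * (∑ l : Fin k, (if (l, g, g + b l) ∈ S then (1 : ℝ) else 0)) +
        ((k : ℝ) + 1) / (2 * k) := by
    intro g
    rw [← Finset.mul_sum, Finset.sum_add_distrib, ← Finset.sum_div, h2]
    field_simp
  rw [Finset.sum_congr rfl (fun g _ => h4 g), Finset.sum_add_distrib, ← Finset.mul_sum, ← h3,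
    Finset.sum_const, nsmul_eq_mul, Finset.card_univ]
  ring

end hard

end Pool.Agent.Helper157.MSM
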