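import Pool.Agent.Helper157.MSM

set_option autoImplicit false

namespace Pool.Agent.Helper157.MSM

open MeasureTheory

section inst
variable {k n : ℕ} {X : Type} [AddCommGroup X] [Fintype X] [DecidableEq X]
  (V : (Fin k × X) ⊕ ((Fin k × X) × Bool) ↪ Fin n) (ε : Fin k × X × X → Bool)

/-- the edges of the hard graph -/
def edg (t : Fin k × X × X) : Edge n :=
  s(V (Sum.inl (t.1, t.2.1)), V (Sum.inr ((t.1, t.2.2), ε t)))

omit [AddCommGroup X] [Fintype X] [DecidableEq X] in
lemma edg_eq {ε ε' : Fin k × X × X → Bool} {t t' : Fin k × X × X}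
    (h : edg V ε t = edg V ε' t') : t = t' ∧ ε t = ε' t' := by
  obtain ⟨i, g, x⟩ := t
  obtain ⟨i', g', x'⟩ := t'
  simp only [edg, Sym2.eq_iff, V.injective.eq_iff, Sum.inl.injEq, Sum.inr.injEq, Prod.mk.injEq,
    reduceCtorEq, and_false, or_false] at h
  obtain ⟨⟨h1, h2⟩, ⟨-, h3⟩, h4⟩ := h
  subst h1; subst h2; subst h3
  exact ⟨rfl, h4⟩

omit [AddCommGroup X] [Fintype X] [DecidableEq X] in
lemma edg_inj : Function.Injective (edg V ε) := fun _ _ h => (edg_eq V h).1

/-- the hard graph -/
def grf : SimpleGraph (Fin n) := SimpleGraph.fromEdgeSet (Set.range (edg V ε))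

omit [AddCommGroup X] [Fintype X] [DecidableEq X] in
lemma mem_grf (e : Edge n) : e ∈ (grf V ε).edgeSet ↔ ∃ t, edg V ε t = e := by
  rw [grf, SimpleGraph.edgeSet_fromEdgeSet]
  constructor
  · rintro ⟨h, -⟩
    exact h
  · rintro ⟨t, rfl⟩
    refine ⟨⟨t, rfl⟩, ?_⟩
    intro h
    rw [Sym2.mem_diagSet, edg, Sym2.mk_isDiag_iff] at h
    have := V.injective h
    cases this

/-- the edges of level `i` -/
noncomputable def lvl (i : Fin k) : List (Edge n) :=
  ((Finset.univ : Finset (X × X)).toList).map fun p => edg V ε (i, p)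

/-- the edges of the levels `< j` -/
noncomputable def strm : ℕ → List (Edge n)
  | 0 => []
  | j + 1 => strm j ++ (if h : j < k then lvl V ε ⟨j, h⟩ else [])

omit [AddCommGroup X] [DecidableEq X] in
lemma mem_lvl (i : Fin k) (e : Edge n) : e ∈ lvl V ε i ↔ ∃ t, t.1 = i ∧ edg V ε t = e := by
  simp only [lvl, List.mem_map, Finset.mem_toList, Finset.mem_univ, true_and]
  constructor
  · rintro ⟨p, rfl⟩
    exact ⟨(i, p), rfl, rfl⟩
  · rintro ⟨⟨i', p⟩, rfl, rfl⟩
    exact ⟨p, rfl⟩

omit [AddCommGroup X] [DecidableEq X] in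
lemma mem_strm (j : ℕ) (e : Edge n) : e ∈ strm V ε j ↔ ∃ t, (t.1 : ℕ) < j ∧ edg V ε t = e := by
  induction j with
  | zero => simp [strm]
  | succ j ih =>
    rw [strm, List.mem_append, ih]
    constructor
    · rintro (⟨t, h1, h2⟩ | h)
      · exact ⟨t, by omega, h2⟩
      · split_ifs at h with hj
        · obtain ⟨t, h1, h2⟩ := (mem_lvl V ε _ e).1 h
          exact ⟨t, by rw [h1]; simp, h2⟩
        · simp at h
    · rintro ⟨t, h1, h2⟩
      rcases Nat.lt_succ_iff_lt_or_eq.1 h1 with h3 | h3
      · exact Or.inl ⟨t, h3, h2⟩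
      · right
        have hj : j < k := by rw [← h3]; exact t.1.2
        rw [dif_pos hj, mem_lvl]
        exact ⟨t, Fin.ext h3, h2⟩

omit [AddCommGroup X] [DecidableEq X] in
lemma nodup_strm (j : ℕ) : (strm V ε j).Nodup := by
  induction j with
  | zero => simp [strm]
  | succ j ih =>
    rw [strm]
    refine List.Nodup.append ih ?_ ?_
    · split_ifs with hj
      · refine (Finset.nodup_toList _).map ?_
        intro p q h
        have := edg_inj V ε h
        simpa using this
      · exact List.nodup_nil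
    · intro e h1 h2
      split_ifs at h2 with hj
      · obtain ⟨t, h3, h4⟩ := (mem_strm V ε j e).1 h1
        obtain ⟨t', h5, h6⟩ := (mem_lvl V ε _ e).1 h2
        have : t = t' := edg_inj V ε (h4.trans h6.symm)
        rw [this, h5] at h3
        simp at h3
      · simp at h2

omit [AddCommGroup X] [DecidableEq X] in
lemma isStream_strm : IsStream (grf V ε) (strm V ε k) := by
  refine ⟨nodup_strm V ε k, fun e => ?_⟩
  rw [mem_strm, mem_grf]
  constructor
  · rintro ⟨t, -, h⟩; exact ⟨t, h⟩
  · rintro ⟨t, h⟩; exact ⟨t, t.1.2, h⟩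

omit [AddCommGroup X] [DecidableEq X] in
lemma strm_split {j m : ℕ} (h : j ≤ m) :
    ∃ rest : List (Edge n), strm V ε m = strm V ε j ++ rest ∧
      ∀ e ∈ rest, ∃ t, j ≤ (t.1 : ℕ) ∧ edg V ε t = e := by
  induction m, h using Nat.le_induction with
  | base => exact ⟨[], by simp, by simp⟩
  | succ m hm ih =>
    obtain ⟨rest, h1, h2⟩ := ih
    refine ⟨rest ++ (if h : m < k then lvl V ε ⟨m, h⟩ else []), ?_, ?_⟩
    · rw [strm, h1, List.append_assoc]
    · intro e he
      rcases List.mem_append.1 he with he | he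
      · exact h2 e he
      · split_ifs at he with hj
        · obtain ⟨t, h3, h4⟩ := (mem_lvl V ε _ e).1 he
          exact ⟨t, by rw [h3]; exact hm, h4⟩
        · simp at he

/-- index set of a set of edges -/
def idx (S : Finset (Edge n)) : Finset (Fin k × X × X) :=
  Finset.univ.filter fun t => edg V ε t ∈ S

/-- the hard function on sets of edges -/
noncomputable def hf (b : Fin k → X) (S : Finset (Edge n)) : ℝ := hardF b (idx V ε S)

omit [AddCommGroup X] [DecidableEq X] in
lemma mem_idx (S : Finset (Edge n)) (t : Fin k × X × X) : t ∈ idx V ε S ↔ edg V ε t ∈ S := by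
  simp [idx]

lemma monoSubmod_hf (b : Fin k → X) : MonoSubmod (hf V ε b) := by
  refine ⟨?_, ?_, ?_⟩
  · have : idx V ε (∅ : Finset (Edge n)) = ∅ := by
      ext t; simp [mem_idx]
    rw [hf, this, hardF_empty]
  · intro S T h
    apply hardF_mono
    intro t ht
    rw [mem_idx] at ht ⊢
    exact h ht
  · intro S T
    have h1 : idx V ε (S ∪ T) = idx V ε S ∪ idx V ε T := by
      ext t; simp [mem_idx]
    have h2 : idx V ε (S ∩ T) = idx V ε S ∩ idx V ε T := by
      ext t; simp [mem_idx]
    rw [hf, hf, h1, h2]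
    exact hardF_submod b _ _

/-- number of special edges in a set -/
def caught (b : Fin k → X) (M : Finset (Edge n)) : ℕ :=
  (Finset.univ.filter fun p : Fin k × X => edg V ε (p.1, p.2, p.2 + b p.1) ∈ M).card

lemma hf_le (hk : 0 < k) (b : Fin k → X) {M : Finset (Edge n)} (hM : IsMatching (grf V ε) M) :
    hf V ε b M ≤ Fintype.card X * (((k : ℝ) + 1) / (2 * k)) + (caught V ε b M : ℝ) / k := by
  have h := hardF_le hk b (idx V ε M) (by
    intro i g x y hx hy
    rw [mem_idx] at hx hy
    by_contra hne
    have hne' : edg V ε (i, g, x) ≠ edg V ε (i, g, y) := by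
      intro h
      have := edg_inj V ε h
      simp only [Prod.mk.injEq, true_and] at this
      exact hne this
    exact hM.2 _ hx _ hy hne' (V (Sum.inl (i, g))) (Sym2.mem_mk_left _ _) (Sym2.mem_mk_left _ _))
  have e : (Finset.univ.filter fun p : Fin k × X => (p.1, p.2, p.2 + b p.1) ∈ idx V ε M) =
      (Finset.univ.filter fun p : Fin k × X => edg V ε (p.1, p.2, p.2 + b p.1) ∈ M) := by
    ext p
    simp [mem_idx]
  rw [e] at h
  exact h

/-- the special matching -/
def opt (b : Fin k → X) : Finset (Edge n) :=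
  Finset.univ.image fun p : Fin k × X => edg V ε (p.1, p.2, p.2 + b p.1)

lemma opt_matching (b : Fin k → X) : IsMatching (grf V ε) (opt V ε b) := by
  constructor
  · intro e he
    obtain ⟨p, -, rfl⟩ := Finset.mem_image.1 he
    rw [mem_grf]
    exact ⟨_, rfl⟩
  · intro e he e' he' hne v hv hv'
    obtain ⟨⟨i, g⟩, -, rfl⟩ := Finset.mem_image.1 he
    obtain ⟨⟨i', g'⟩, -, rfl⟩ := Finset.mem_image.1 he'
    simp only [edg, Sym2.mem_iff] at hv hv'
    apply hne
    rcases hv with hv | hv <;> rcases hv' with hv' | hv'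
    · have := V.injective (hv.symm.trans hv')
      simp only [Sum.inl.injEq, Prod.mk.injEq] at this
      obtain ⟨h1, h2⟩ := this
      subst h1; subst h2; rfl
    · have := V.injective (hv.symm.trans hv')
      cases this
    · have := V.injective (hv.symm.trans hv')
      cases this
    · have := V.injective (hv.symm.trans hv')
      simp only [Sum.inr.injEq, Prod.mk.injEq] at this
      obtain ⟨⟨h1, h2⟩, -⟩ := this
      subst h1
      have h3 := add_right_cancel h2
      subst h3; rfl

lemma hf_opt (hk : 0 < k) (b : Fin k → X) : hf V ε b (opt V ε b) = Fintype.card X := by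
  apply hardF_opt hk
  intro i g
  rw [mem_idx]
  exact Finset.mem_image.2 ⟨(i, g), Finset.mem_univ _, rfl⟩

/-- an `α`-approximation catches many special edges -/
lemma caught_of_success {s : ℕ} (A : Alg n s) (hk : 0 < k) {α : ℝ} (hα : 0 < α) (b : Fin k → X)
    (h : Success A α (grf V ε) (strm V ε k) (hf V ε b)) :
    (Fintype.card X : ℝ) * (k / α - (k + 1) / 2) ≤ caught V ε b (A.output (hf V ε b) (strm V ε k)) := by
  have h1 := h.2 _ (opt_matching V ε b)
  rw [hf_opt V ε hk b] at h1
  have h2 := hf_le V ε hk b h.1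
  have hk' : (0 : ℝ) < k := by exact_mod_cast hk
  set N : ℝ := (Fintype.card X : ℝ) with hN
  set c : ℝ := (caught V ε b (A.output (hf V ε b) (strm V ε k)) : ℝ) with hc
  have h3 : N ≤ α * (N * (((k : ℝ) + 1) / (2 * k)) + c / k) :=
    h1.trans (mul_le_mul_of_nonneg_left h2 hα.le)
  have h4 : N * k / α ≤ N * ((k : ℝ) + 1) / 2 + c := by
    rw [div_le_iff₀ hα]
    have : α * (N * (((k : ℝ) + 1) / (2 * k)) + c / k) * k = (N * ((k : ℝ) + 1) / 2 + c) * α := by
      field_simp
    calc N * k ≤ α * (N * (((k : ℝ) + 1) / (2 * k)) + c / k) * k :=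
          mul_le_mul_of_nonneg_right h3 hk'.le
      _ = _ := this
  have h5 : N * (k / α - (k + 1) / 2) = N * k / α - N * ((k : ℝ) + 1) / 2 := by ring
  rw [h5]
  linarith

lemma count_aux (i : Fin k) (c : X) (H : Finset (Edge n)) :
    ∑ y : X, (Finset.univ.filter fun g : X => edg V ε (i, g, g + (c + y)) ∈ H).card ≤ H.card := by
  have e4 : ∑ y : X, (Finset.univ.filter fun g : X => edg V ε (i, g, g + (c + y)) ∈ H).card =
      (Finset.univ.filter fun p : X × X => edg V ε (i, p.2, p.2 + (c + p.1)) ∈ H).card := by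
    rw [Finset.card_filter, Fintype.sum_prod_type]
    apply Finset.sum_congr rfl
    intro y _
    rw [Finset.card_filter]
  rw [e4]
  apply Finset.card_le_card_of_injOn (fun p : X × X => edg V ε (i, p.2, p.2 + (c + p.1)))
  · intro p hp
    exact (Finset.mem_filter.1 hp).2
  · intro p _ q _ h
    have := edg_inj V ε h
    simp only [Prod.mk.injEq, true_and] at this
    obtain ⟨h1, h2⟩ := this
    rw [h1] at h2
    have h3 := add_left_cancel (add_left_cancel h2)
    exact Prod.ext h3 h1

/-- held edges after the levels `≤ i` -/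
noncomputable def hset {s : ℕ} (A : Alg n s) (i : Fin k) (b : Fin k → X) : Finset (Edge n) :=
  A.held (A.run (hf V ε b) A.start ∅ (strm V ε (i + 1)))

lemma hset_sub {s : ℕ} (A : Alg n s) (i : Fin k) (b : Fin k → X) :
    hset V ε A i b ⊆ Finset.univ.image (edg V ε) := by
  intro e he
  have := held_run A (hf V ε b) (strm V ε (i + 1)) A.start ∅ he
  rw [A.held_start, Finset.empty_union, List.mem_toFinset, mem_strm] at this
  obtain ⟨t, -, h⟩ := this
  exact Finset.mem_image.2 ⟨t, Finset.mem_univ _, h⟩

lemma hset_congr {s : ℕ} (A : Alg n s) (i : Fin k) (b b' : Fin k → X)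
    (hb : ∀ j, j < i → b j = b' j) : hset V ε A i b = hset V ε A i b' := by
  unfold hset
  rw [run_congr A (hf V ε b) (hf V ε b') (strm V ε (i + 1)) A.start ∅]
  intro T hT
  apply hardF_congr b b' i hb
  intro t ht
  rw [mem_idx] at ht
  have := hT ht
  rw [Finset.mem_union, List.mem_toFinset, mem_strm] at this
  rcases this with h | ⟨t', h1, h2⟩
  · simp at h
  · have h3 : t' = t := edg_inj V ε h2
    rw [h3] at h1
    exact Fin.le_def.2 (by omega)

lemma mem_hset {s : ℕ} (A : Alg n s) (i : Fin k) (b : Fin k → X) (t : Fin k × X × X)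
    (hti : t.1 = i) (ht : edg V ε t ∈ A.output (hf V ε b) (strm V ε k)) :
    edg V ε t ∈ hset V ε A i b := by
  have h1 := A.out_held _ _ ht
  obtain ⟨rest, h2, h3⟩ := strm_split V ε (j := (i : ℕ) + 1) (m := k) i.2
  rw [h2, run_append] at h1
  have h4 := held_run A (hf V ε b) rest _ _ h1
  rcases Finset.mem_union.1 h4 with h5 | h5
  · exact h5
  · exfalso
    rw [List.mem_toFinset] at h5
    obtain ⟨t', h6, h7⟩ := h3 _ h5
    have h8 : t' = t := edg_inj V ε h7
    rw [h8, hti] at h6
    omega

/-- number of special edges of level `i` held after the levels `≤ i`, set to `0` if more than `m`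
edges are held -/
noncomputable def phi {s : ℕ} (A : Alg n s) (m : ℕ) (i : Fin k) (b : Fin k → X) : ℕ :=
  if (hset V ε A i b).card ≤ m then
    (Finset.univ.filter fun g : X => edg V ε (i, g, g + b i) ∈ hset V ε A i b).card
  else 0

lemma caught_le_phi {s : ℕ} (A : Alg n s) (m : ℕ) (b : Fin k → X)
    (hm : ∀ i, (hset V ε A i b).card ≤ m) :
    caught V ε b (A.output (hf V ε b) (strm V ε k)) ≤ ∑ i, phi V ε A m i b := by
  rw [caught, Finset.card_filter, Fintype.sum_prod_type]
  apply Finset.sum_le_sum
  intro i _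
  rw [phi, if_pos (hm i), Finset.card_filter]
  apply Finset.sum_le_sum
  intro g _
  by_cases h1 : edg V ε (i, g, g + b i) ∈ A.output (hf V ε b) (strm V ε k)
  · have h2 := mem_hset V ε A i b (i, g, g + b i) rfl h1
    rw [if_pos h1, if_pos h2]
  · rw [if_neg h1]
    exact Nat.zero_le _

lemma phi_shift {s : ℕ} (A : Alg n s) (m : ℕ) (i : Fin k) (b : Fin k → X) (y : X) :
    phi V ε A m i (b + Pi.single i y) = if (hset V ε A i b).card ≤ m then
      (Finset.univ.filter fun g : X => edg V ε (i, g, g + (b i + y)) ∈ hset V ε A i b).card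
      else 0 := by
  have e : hset V ε A i (b + (Pi.single i y : Fin k → X)) = hset V ε A i b := by
    apply hset_congr
    intro j hj
    rw [Pi.add_apply, Pi.single_eq_of_ne hj.ne, add_zero]
  have e2 : (b + (Pi.single i y : Fin k → X)) i = b i + y := by
    rw [Pi.add_apply, Pi.single_eq_same]
  rw [phi, e, e2]

lemma sum_phi {s : ℕ} (A : Alg n s) (m : ℕ) (i : Fin k) :
    Fintype.card X * ∑ b : Fin k → X, phi V ε A m i b ≤ m * Fintype.card (Fin k → X) := by
  have e1 : ∀ y : X, ∑ b : Fin k → X, phi V ε A m i (b + Pi.single i y) =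
      ∑ b : Fin k → X, phi V ε A m i b := by
    intro y
    exact Equiv.sum_comp (Equiv.addRight (Pi.single i y : Fin k → X)) (phi V ε A m i)
  have e2 : ∑ y : X, ∑ b : Fin k → X, phi V ε A m i (b + Pi.single i y) =
      Fintype.card X * ∑ b : Fin k → X, phi V ε A m i b := by
    rw [Finset.sum_congr rfl (fun y _ => e1 y), Finset.sum_const, smul_eq_mul, Finset.card_univ]
  rw [← e2, Finset.sum_comm]
  have e3 : ∀ b ∈ (Finset.univ : Finset (Fin k → X)),
      ∑ y : X, phi V ε A m i (b + Pi.single i y) ≤ m := by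
    intro b _
    rw [Finset.sum_congr rfl (fun y _ => phi_shift V ε A m i b y)]
    by_cases h : (hset V ε A i b).card ≤ m
    · simp only [if_pos h]
      exact (count_aux V ε i (b i) (hset V ε A i b)).trans h
    · simp only [if_neg h, Finset.sum_const_zero]
      exact Nat.zero_le _
  refine (Finset.sum_le_sum e3).trans (le_of_eq ?_)
  rw [Finset.sum_const, smul_eq_mul, Finset.card_univ, mul_comm]

/-- a set of edges is contained in few of the hard graphs -/
lemma count_eps (H : Finset (Edge n)) (m : ℕ) (hm : m ≤ H.card) :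
    (Finset.univ.filter fun ε : Fin k × X × X → Bool => H ⊆ Finset.univ.image (edg V ε)).card
      * 2 ^ m ≤ 2 ^ Fintype.card (Fin k × X × X) := by
  classical
  by_cases hne : ∃ ε0 : Fin k × X × X → Bool, H ⊆ Finset.univ.image (edg V ε0)
  · obtain ⟨ε0, h0⟩ := hne
    set U : Finset (Fin k × X × X) := Finset.univ.filter fun t => edg V ε0 t ∈ H with hU
    have hUcard : U.card = H.card := by
      have : U.image (edg V ε0) = H := by
        ext e
        constructor
        · intro he
          obtain ⟨t, ht, rfl⟩ := Finset.mem_image.1 he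
          exact (Finset.mem_filter.1 ht).2
        · intro he
          obtain ⟨t, -, rfl⟩ := Finset.mem_image.1 (h0 he)
          exact Finset.mem_image.2 ⟨t, Finset.mem_filter.2 ⟨Finset.mem_univ _, he⟩, rfl⟩
      rw [← this, Finset.card_image_of_injective _ (edg_inj V ε0)]
    have hsub : (Finset.univ.filter fun ε : Fin k × X × X → Bool =>
        H ⊆ Finset.univ.image (edg V ε)) ⊆
        Fintype.piFinset fun t => if t ∈ U then {ε0 t} else Finset.univ := by
      intro ε hε
      rw [Fintype.mem_piFinset]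
      intro t
      split_ifs with ht
      · rw [Finset.mem_singleton]
        have h1 := (Finset.mem_filter.1 hε).2 ((Finset.mem_filter.1 ht).2)
        obtain ⟨t', -, h2⟩ := Finset.mem_image.1 h1
        obtain ⟨h3, h4⟩ := edg_eq V h2
        rw [← h4, h3]
      · exact Finset.mem_univ _
    have hcard : (Fintype.piFinset fun t => if t ∈ U then {ε0 t} else Finset.univ).card =
        2 ^ (Fintype.card (Fin k × X × X) - U.card) := by
      rw [Fintype.card_piFinset]
      have : ∀ t : Fin k × X × X, (if t ∈ U then {ε0 t} else (Finset.univ : Finset Bool)).card =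
          if t ∈ U then 1 else 2 := by
        intro t
        split_ifs
        · exact Finset.card_singleton _
        · rfl
      rw [Finset.prod_congr rfl (fun t _ => this t), Finset.prod_ite, Finset.prod_const_one,
        Finset.prod_const, one_mul]
      congr 1
      have h1 : Finset.univ.filter (fun t => t ∉ U) = Uᶜ := by
        ext t; simp
      rw [h1, Finset.card_compl]
    have hUle : U.card ≤ Fintype.card (Fin k × X × X) := Finset.card_le_univ _
    calc (Finset.univ.filter fun ε : Fin k × X × X → Bool =>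
        H ⊆ Finset.univ.image (edg V ε)).card * 2 ^ m
        ≤ 2 ^ (Fintype.card (Fin k × X × X) - U.card) * 2 ^ U.card := by
          apply Nat.mul_le_mul
          · rw [← hcard]
            exact Finset.card_le_card hsub
          · exact Nat.pow_le_pow_right (by norm_num) (by omega)
      _ = 2 ^ Fintype.card (Fin k × X × X) := by
          rw [← pow_add]
          congr 1
          omega
  · have : (Finset.univ.filter fun ε : Fin k × X × X → Bool =>
        H ⊆ Finset.univ.image (edg V ε)) = ∅ := by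
      apply Finset.filter_eq_empty_iff.2
      intro ε _ h
      exact hne ⟨ε, h⟩
    rw [this]
    simp

/-- for most of the hard graphs few edges are held -/
lemma count_big {s : ℕ} (A : Alg n s) (i : Fin k) (b : Fin k → X) (m : ℕ) :
    (Finset.univ.filter fun ε : Fin k × X × X → Bool => m ≤ (hset V ε A i b).card).card * 2 ^ m ≤
      2 ^ s * 2 ^ Fintype.card (Fin k × X × X) := by
  classical
  have := A.finite_state
  let _ : Fintype A.State := Fintype.ofFinite _
  set F : Finset (Fin k × X × X → Bool) :=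
    Finset.univ.filter fun ε => m ≤ (hset V ε A i b).card with hF
  let st : (Fin k × X × X → Bool) → A.State := fun ε =>
    A.run (hf V ε b) A.start ∅ (strm V ε (i + 1))
  have hst : ∀ ε, hset V ε A i b = A.held (st ε) := fun ε => rfl
  rw [Finset.card_eq_sum_card_image st F, Finset.sum_mul]
  calc ∑ σ ∈ F.image st, (F.filter fun ε => st ε = σ).card * 2 ^ m
      ≤ ∑ σ ∈ F.image st, 2 ^ Fintype.card (Fin k × X × X) := by
        apply Finset.sum_le_sum
        intro σ hσ
        obtain ⟨ε0, h1, rfl⟩ := Finset.mem_image.1 hσ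
        have h2 : m ≤ (A.held (st ε0)).card := (Finset.mem_filter.1 h1).2
        refine le_trans (Nat.mul_le_mul_right _ (Finset.card_le_card ?_))
          (count_eps V (A.held (st ε0)) m h2)
        intro ε hε
        have h3 : st ε = st ε0 := (Finset.mem_filter.1 hε).2
        refine Finset.mem_filter.2 ⟨Finset.mem_univ _, ?_⟩
        rw [← h3, ← hst]
        exact hset_sub V ε A i b
    _ = (F.image st).card * 2 ^ Fintype.card (Fin k × X × X) := by
        rw [Finset.sum_const, smul_eq_mul]
    _ ≤ 2 ^ s * 2 ^ Fintype.card (Fin k × X × X) := by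
        apply Nat.mul_le_mul_right
        refine (Finset.card_le_univ _).trans ?_
        rw [← Nat.card_eq_fintype_card]
        exact A.card_state

/-- a deterministic algorithm succeeds on few hard instances -/
lemma card_success {s : ℕ} (A : Alg n s) (hk : 0 < k) {α : ℝ} (hα : 0 < α)
    (hγ : (1 : ℝ) / 2 ≤ k / α - (k + 1) / 2) (hX : 0 < Fintype.card X)
    (hs : 8 * k * (s + k + 2) ≤ Fintype.card X ^ 2)
    (P : (Fin k × X × X → Bool) × (Fin k → X) → Prop) [DecidablePred P]
    (hP : ∀ p, P p → Success A α (grf V p.1) (strm V p.1 k) (hf V p.1 p.2)) :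
    ((Finset.univ.filter P).card : ℝ) ≤
      Fintype.card ((Fin k × X × X → Bool) × (Fin k → X)) / 2 := by
  classical
  set m := s + k + 2 with hm
  set D := Fintype.card (Fin k × X × X) with hD
  set B := Fintype.card (Fin k → X) with hB
  set N := Fintype.card X with hN
  have hcardE : Fintype.card (Fin k × X × X → Bool) = 2 ^ D := by
    rw [Fintype.card_fun, Fintype.card_bool]
  have htot : Fintype.card ((Fin k × X × X → Bool) × (Fin k → X)) = 2 ^ D * B := by
    rw [Fintype.card_prod, hcardE]
  -- bad instances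
  let bad : Finset ((Fin k × X × X → Bool) × (Fin k → X)) :=
    Finset.univ.filter fun p => ∃ i, m + 1 ≤ (hset V p.1 A i p.2).card
  have hbad : bad.card * 2 ^ (m + 1) ≤ k * B * (2 ^ s * 2 ^ D) := by
    have h1 : bad ⊆ (Finset.univ : Finset (Fin k)).biUnion fun i =>
        Finset.univ.filter fun p => m + 1 ≤ (hset V p.1 A i p.2).card := by
      intro p hp
      obtain ⟨i, hi⟩ := (Finset.mem_filter.1 hp).2
      exact Finset.mem_biUnion.2 ⟨i, Finset.mem_univ _, Finset.mem_filter.2 ⟨Finset.mem_univ _, hi⟩⟩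
    have h2 : ∀ i : Fin k, (Finset.univ.filter fun p : (Fin k × X × X → Bool) × (Fin k → X) =>
        m + 1 ≤ (hset V p.1 A i p.2).card).card * 2 ^ (m + 1) ≤ B * (2 ^ s * 2 ^ D) := by
      intro i
      have e1 : (Finset.univ.filter fun p : (Fin k × X × X → Bool) × (Fin k → X) =>
          m + 1 ≤ (hset V p.1 A i p.2).card).card =
          ∑ b : Fin k → X, (Finset.univ.filter fun ε : Fin k × X × X → Bool =>
            m + 1 ≤ (hset V ε A i b).card).card := by
        rw [Finset.card_filter, Fintype.sum_prod_type, Finset.sum_comm]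
        apply Finset.sum_congr rfl
        intro b _
        rw [Finset.card_filter]
      rw [e1, Finset.sum_mul]
      refine (Finset.sum_le_sum fun b _ => count_big V A i b (m + 1)).trans (le_of_eq ?_)
      rw [Finset.sum_const, smul_eq_mul, Finset.card_univ]
    calc bad.card * 2 ^ (m + 1) ≤ (∑ i : Fin k, (Finset.univ.filter fun
            p : (Fin k × X × X → Bool) × (Fin k → X) =>
              m + 1 ≤ (hset V p.1 A i p.2).card).card) * 2 ^ (m + 1) :=
          Nat.mul_le_mul_right _ ((Finset.card_le_card h1).trans Finset.card_biUnion_le)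
      _ ≤ ∑ i : Fin k, B * (2 ^ s * 2 ^ D) := by
          rw [Finset.sum_mul]
          exact Finset.sum_le_sum fun i _ => h2 i
      _ = k * B * (2 ^ s * 2 ^ D) := by
          rw [Finset.sum_const, smul_eq_mul, Finset.card_univ, Fintype.card_fin, mul_assoc]
  have hbad' : (bad.card : ℝ) ≤ (2 : ℝ) ^ D * B / 8 := by
    have h1 : (bad.card : ℝ) * 2 ^ (m + 1) ≤ k * B * (2 ^ s * 2 ^ D) := by exact_mod_cast hbad
    have h2 : (k : ℝ) ≤ 2 ^ k := by exact_mod_cast (Nat.lt_two_pow_self (n := k)).le
    have h3 : (2 : ℝ) ^ (m + 1) = 2 ^ s * 2 ^ k * 8 := by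
      rw [hm, show s + k + 2 + 1 = s + k + 3 by ring, pow_add, pow_add]; norm_num
    rw [h3] at h1
    have h4 : (0 : ℝ) < 2 ^ s := by positivity
    have h5 : (0 : ℝ) < 2 ^ k := by positivity
    have h6 : (k : ℝ) * B * (2 ^ s * 2 ^ D) ≤ 2 ^ k * B * (2 ^ s * 2 ^ D) := by
      apply mul_le_mul_of_nonneg_right _ (by positivity)
      exact mul_le_mul_of_nonneg_right h2 (by positivity)
    have h7 : (bad.card : ℝ) * (2 ^ s * 2 ^ k * 8) ≤ ((2 : ℝ) ^ D * B / 8) * (2 ^ s * 2 ^ k * 8) := by
      refine (h1.trans h6).trans (le_of_eq ?_)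
      ring
    exact le_of_mul_le_mul_right h7 (by positivity)
  -- good successes
  let good : Finset ((Fin k × X × X → Bool) × (Fin k → X)) :=
    Finset.univ.filter fun p => P p ∧ ∀ i, (hset V p.1 A i p.2).card ≤ m
  have hsub : Finset.univ.filter P ⊆ bad ∪ good := by
    intro p hp
    have hp' := (Finset.mem_filter.1 hp).2
    by_cases h : ∀ i, (hset V p.1 A i p.2).card ≤ m
    · exact Finset.mem_union_right _ (Finset.mem_filter.2 ⟨Finset.mem_univ _, hp', h⟩)
    · push Not at h
      exact Finset.mem_union_left _ (Finset.mem_filter.2 ⟨Finset.mem_univ _, h⟩)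
  have hgood : (good.card : ℝ) * ((N : ℝ) / 2) * N ≤ k * m * (2 ^ D * B) := by
    have h1 : (good.card : ℝ) * ((N : ℝ) / 2) ≤
        ∑ ε : Fin k × X × X → Bool, ∑ b : Fin k → X, ∑ i : Fin k, (phi V ε A m i b : ℝ) := by
      rw [← Fintype.sum_prod_type', ← nsmul_eq_mul, ← Finset.sum_const]
      refine le_trans ?_ (Finset.sum_le_sum_of_subset_of_nonneg (Finset.subset_univ good)
        (fun p _ _ => Finset.sum_nonneg fun i _ => Nat.cast_nonneg _))
      apply Finset.sum_le_sum
      intro p hp
      obtain ⟨h2, h3⟩ := (Finset.mem_filter.1 hp).2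
      have h4 := caught_of_success V p.1 A hk hα p.2 (hP p h2)
      have h5 := caught_le_phi V p.1 A m p.2 h3
      have h6 : (caught V p.1 p.2 (A.output (hf V p.1 p.2) (strm V p.1 k)) : ℝ) ≤
          ∑ i : Fin k, (phi V p.1 A m i p.2 : ℝ) := by exact_mod_cast h5
      refine le_trans ?_ (h4.trans h6)
      have : (0 : ℝ) ≤ N := Nat.cast_nonneg _
      nlinarith
    have h2 : (∑ ε : Fin k × X × X → Bool, ∑ b : Fin k → X, ∑ i : Fin k, (phi V ε A m i b : ℝ)) * N
        ≤ k * m * (2 ^ D * B) := by
      have h3 : ∀ ε : Fin k × X × X → Bool,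
          N * ∑ b : Fin k → X, ∑ i : Fin k, phi V ε A m i b ≤ k * (m * B) := by
        intro ε
        rw [Finset.sum_comm, Finset.mul_sum]
        refine (Finset.sum_le_sum fun i _ => sum_phi V ε A m i).trans (le_of_eq ?_)
        rw [Finset.sum_const, smul_eq_mul, Finset.card_univ, Fintype.card_fin]
      have h4 : N * ∑ ε : Fin k × X × X → Bool, ∑ b : Fin k → X, ∑ i : Fin k, phi V ε A m i b ≤
          2 ^ D * (k * (m * B)) := by
        rw [Finset.mul_sum]
        refine (Finset.sum_le_sum fun ε _ => h3 ε).trans (le_of_eq ?_)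
        rw [Finset.sum_const, smul_eq_mul, Finset.card_univ, hcardE]
      have h5 : (N : ℝ) * ∑ ε : Fin k × X × X → Bool, ∑ b : Fin k → X, ∑ i : Fin k,
          (phi V ε A m i b : ℝ) ≤ 2 ^ D * (k * (m * B)) := by exact_mod_cast h4
      rw [mul_comm]
      refine h5.trans (le_of_eq ?_)
      ring
    refine le_trans (mul_le_mul_of_nonneg_right h1 (Nat.cast_nonneg _)) h2
  have hNpos : (0 : ℝ) < N := by exact_mod_cast hX
  have hgood' : (good.card : ℝ) ≤ (2 : ℝ) ^ D * B / 4 := by
    have h1 : 8 * (k : ℝ) * m ≤ (N : ℝ) ^ 2 := by exact_mod_cast hs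
    have h2 : (good.card : ℝ) * (N : ℝ) ^ 2 ≤ ((2 : ℝ) ^ D * B / 4) * (N : ℝ) ^ 2 := by
      have h3 : (good.card : ℝ) * (N : ℝ) ^ 2 = 2 * ((good.card : ℝ) * ((N : ℝ) / 2) * N) := by ring
      rw [h3]
      have h4 : (0 : ℝ) ≤ 2 ^ D * B := by positivity
      nlinarith
    exact le_of_mul_le_mul_right h2 (by positivity)
  have hfin : ((Finset.univ.filter P).card : ℝ) ≤ bad.card + good.card := by
    exact_mod_cast (Finset.card_le_card hsub).trans (Finset.card_union_le _ _)
  rw [htot]
  push_cast
  have h4 : (0 : ℝ) ≤ 2 ^ D * B := by positivity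
  linarith

end inst

end Pool.Agent.Helper157.MSM
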