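import Pool.Agent.Helper157.MSM2

set_option autoImplicit false

namespace Pool.Agent.Helper157.MSM

open MeasureTheory

lemma success_mono {n s : ℕ} {A : Alg n s} {α α' : ℝ} {G : SimpleGraph (Fin n)}
    {l : List (Edge n)} {f : Finset (Edge n) → ℝ} (hf : MonoSubmod f) (h : α ≤ α')
    (hs : Success A α G l f) : Success A α' G l f := by
  refine ⟨hs.1, fun M hM => (hs.2 M hM).trans ?_⟩
  apply mul_le_mul_of_nonneg_right h
  rw [← hf.1]
  exact hf.2.1 _ _ (Finset.empty_subset _)

theorem quad (α : ℝ) (hα : α < 2) : ∃ c : ℝ, 0 < c ∧ ∃ n₀ : ℕ, ∀ n ≥ n₀, ∀ s : ℕ,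
    (s : ℝ) ≤ c * (n : ℝ) ^ 2 → ∀ (Ω : Type) [MeasurableSpace Ω] (μ : Measure Ω)
    [IsProbabilityMeasure μ] (A : Ω → Alg n s), ¬ Approx μ A α := by
  classical
  set α' := max α 1 with hα'
  have h1 : 1 ≤ α' := le_max_right _ _
  have h2 : α' < 2 := max_lt hα (by norm_num)
  have h0 : 0 < α' := by linarith
  have h3 : 0 < 1 / α' - 1 / 2 := by
    have : 1 / 2 < 1 / α' := one_div_lt_one_div_of_lt h0 h2
    linarith
  obtain ⟨k, hk⟩ := exists_nat_ge (1 / (1 / α' - 1 / 2))
  have hkpos' : (0 : ℝ) < k := lt_of_lt_of_le (by positivity) hk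
  have hkpos : 0 < k := by exact_mod_cast hkpos'
  have hk1 : (1 : ℝ) ≤ k := by exact_mod_cast hkpos
  have hγ : (1 : ℝ) / 2 ≤ k / α' - (k + 1) / 2 := by
    rw [div_le_iff₀ h3] at hk
    have : (k : ℝ) / α' - (k + 1) / 2 = k * (1 / α' - 1 / 2) - 1 / 2 := by ring
    rw [this]
    linarith
  refine ⟨1 / (1000 * (k : ℝ) ^ 3), by positivity, 40 * k ^ 2, ?_⟩
  intro n hn s hs Ω _ μ _ A hA
  set N := n / (3 * k) with hN
  have hn' : (40 : ℝ) * k ^ 2 ≤ n := by exact_mod_cast hn
  have hn6 : (6 : ℝ) * k ≤ n := by nlinarith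
  have hnpos : (0 : ℝ) < n := by linarith
  have hNreal : (n : ℝ) / (6 * k) ≤ N := by
    have e1 : n < (N + 1) * (3 * k) := by
      rw [hN]
      have := Nat.lt_div_mul_add (a := n) (b := 3 * k) (by positivity)
      nlinarith
    have e2 : (n : ℝ) < (N + 1) * (3 * k) := by exact_mod_cast e1
    rw [div_le_iff₀ (by positivity)]
    nlinarith
  have hNpos' : (0 : ℝ) < N := lt_of_lt_of_le (by positivity) hNreal
  have hNpos : 0 < N := by exact_mod_cast hNpos'
  have : NeZero N := ⟨hNpos.ne'⟩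
  have hcard : Fintype.card ((Fin k × ZMod N) ⊕ ((Fin k × ZMod N) × Bool)) ≤
      Fintype.card (Fin n) := by
    simp only [Fintype.card_sum, Fintype.card_prod, Fintype.card_fin, ZMod.card, Fintype.card_bool]
    have := Nat.div_mul_le_self n (3 * k)
    rw [← hN] at this
    nlinarith
  obtain ⟨V⟩ := Function.Embedding.nonempty_of_card_le hcard
  have hb : ∀ p : (Fin k × ZMod N × ZMod N → Bool) × (Fin k → ZMod N),
      MeasurableSet {ω | Success (A ω) α (grf V p.1) (strm V p.1 k) (hf V p.1 p.2)} ∧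
        2 / 3 ≤ μ {ω | Success (A ω) α (grf V p.1) (strm V p.1 k) (hf V p.1 p.2)} :=
    fun p => hA (grf V p.1) (strm V p.1 k) (hf V p.1 p.2) (isStream_strm V p.1)
      (monoSubmod_hf V p.1 p.2)
  set T : ℝ := (Fintype.card ((Fin k × ZMod N × ZMod N → Bool) × (Fin k → ZMod N)) : ℝ) with hT
  have hTpos : 0 < T := by
    rw [hT]
    exact_mod_cast Fintype.card_pos
  have hspace : 8 * k * (s + k + 2) ≤ Fintype.card (ZMod N) ^ 2 := by
    rw [ZMod.card]
    have e3 : (n : ℝ) ^ 2 / (36 * (k : ℝ) ^ 2) ≤ (N : ℝ) ^ 2 := by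
      have := pow_le_pow_left₀ (by positivity) hNreal 2
      have e4 : ((n : ℝ) / (6 * k)) ^ 2 = (n : ℝ) ^ 2 / (36 * (k : ℝ) ^ 2) := by
        rw [div_pow]; ring
      rwa [e4] at this
    have e5 : 8 * (k : ℝ) * s ≤ (n : ℝ) ^ 2 / (125 * (k : ℝ) ^ 2) := by
      calc 8 * (k : ℝ) * s ≤ 8 * (k : ℝ) * (1 / (1000 * (k : ℝ) ^ 3) * (n : ℝ) ^ 2) :=
            mul_le_mul_of_nonneg_left hs (by positivity)
        _ = (n : ℝ) ^ 2 / (125 * (k : ℝ) ^ 2) := by field_simp; norm_num
    have e6 : 8 * (k : ℝ) * (k + 2) ≤ (n : ℝ) ^ 2 / (60 * (k : ℝ) ^ 2) := by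
      rw [le_div_iff₀ (by positivity)]
      have e7 : (40 * (k : ℝ) ^ 2) ^ 2 ≤ (n : ℝ) ^ 2 := pow_le_pow_left₀ (by positivity) hn' 2
      have e8 : 8 * (k : ℝ) * (k + 2) * (60 * (k : ℝ) ^ 2) ≤ (40 * (k : ℝ) ^ 2) ^ 2 := by
        have e9 : (k : ℝ) + 2 ≤ 3 * k := by linarith
        have e10 : 8 * (k : ℝ) * (k + 2) ≤ 24 * (k : ℝ) ^ 2 := by nlinarith
        calc 8 * (k : ℝ) * (k + 2) * (60 * (k : ℝ) ^ 2) ≤ 24 * (k : ℝ) ^ 2 * (60 * (k : ℝ) ^ 2) :=
              mul_le_mul_of_nonneg_right e10 (by positivity)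
          _ ≤ (40 * (k : ℝ) ^ 2) ^ 2 := by nlinarith [sq_nonneg ((k : ℝ) ^ 2)]
      linarith
    have e11 : (n : ℝ) ^ 2 / (125 * (k : ℝ) ^ 2) + (n : ℝ) ^ 2 / (60 * (k : ℝ) ^ 2) ≤
        (n : ℝ) ^ 2 / (36 * (k : ℝ) ^ 2) := by
      have e12 : (n : ℝ) ^ 2 / (125 * (k : ℝ) ^ 2) = (n : ℝ) ^ 2 / (k : ℝ) ^ 2 * (1 / 125) := by
        field_simp
      have e13 : (n : ℝ) ^ 2 / (60 * (k : ℝ) ^ 2) = (n : ℝ) ^ 2 / (k : ℝ) ^ 2 * (1 / 60) := by
        field_simp
      have e14 : (n : ℝ) ^ 2 / (36 * (k : ℝ) ^ 2) = (n : ℝ) ^ 2 / (k : ℝ) ^ 2 * (1 / 36) := by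
        field_simp
      rw [e12, e13, e14]
      have : 0 ≤ (n : ℝ) ^ 2 / (k : ℝ) ^ 2 := by positivity
      nlinarith
    have e15 : (8 : ℝ) * k * (s + k + 2) ≤ (N : ℝ) ^ 2 := by
      have : (8 : ℝ) * k * (s + k + 2) = 8 * (k : ℝ) * s + 8 * (k : ℝ) * (k + 2) := by ring
      rw [this]
      linarith
    exact_mod_cast e15
  -- pointwise bound
  have hpt : ∀ ω, ((Finset.univ.filter fun p : (Fin k × ZMod N × ZMod N → Bool) × (Fin k → ZMod N) =>
      Success (A ω) α (grf V p.1) (strm V p.1 k) (hf V p.1 p.2)).card : ℝ) ≤ T / 2 := by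
    intro ω
    exact card_success V (A ω) hkpos h0 hγ (by rw [ZMod.card]; exact hNpos) hspace
      (fun p => Success (A ω) α (grf V p.1) (strm V p.1 k) (hf V p.1 p.2))
      (fun p h => success_mono (monoSubmod_hf V p.1 p.2) (le_max_left _ _) h)
  -- averaging
  have hsum : ∑ p : (Fin k × ZMod N × ZMod N → Bool) × (Fin k → ZMod N),
      μ {ω | Success (A ω) α (grf V p.1) (strm V p.1 k) (hf V p.1 p.2)} ≤
      ENNReal.ofReal (T / 2) := by
    have e1 : ∀ p : (Fin k × ZMod N × ZMod N → Bool) × (Fin k → ZMod N),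
        μ {ω | Success (A ω) α (grf V p.1) (strm V p.1 k) (hf V p.1 p.2)} =
        ∫⁻ ω, ({ω | Success (A ω) α (grf V p.1) (strm V p.1 k) (hf V p.1 p.2)}.indicator 1 ω) ∂μ := by
      intro p
      rw [lintegral_indicator_one (hb p).1]
    rw [Finset.sum_congr rfl (fun p _ => e1 p), ← lintegral_finsetSum]
    · calc ∫⁻ ω, ∑ p : (Fin k × ZMod N × ZMod N → Bool) × (Fin k → ZMod N),
            ({ω | Success (A ω) α (grf V p.1) (strm V p.1 k) (hf V p.1 p.2)}.indicator 1 ω) ∂μ
          ≤ ∫⁻ _, ENNReal.ofReal (T / 2) ∂μ := by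
            apply lintegral_mono
            intro ω
            have e2 : ∑ p : (Fin k × ZMod N × ZMod N → Bool) × (Fin k → ZMod N),
                ({ω | Success (A ω) α (grf V p.1) (strm V p.1 k) (hf V p.1 p.2)}.indicator
                  (1 : Ω → ENNReal) ω) =
                ((Finset.univ.filter fun p : (Fin k × ZMod N × ZMod N → Bool) × (Fin k → ZMod N) =>
                  Success (A ω) α (grf V p.1) (strm V p.1 k) (hf V p.1 p.2)).card : ENNReal) := by
              rw [Finset.card_filter, Nat.cast_sum]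
              apply Finset.sum_congr rfl
              intro p _
              by_cases h : Success (A ω) α (grf V p.1) (strm V p.1 k) (hf V p.1 p.2)
              · rw [Set.indicator_of_mem (by exact h), if_pos h]; simp
              · rw [Set.indicator_of_notMem (by exact h), if_neg h]; simp
            show ∑ p : (Fin k × ZMod N × ZMod N → Bool) × (Fin k → ZMod N),
                ({ω | Success (A ω) α (grf V p.1) (strm V p.1 k) (hf V p.1 p.2)}.indicator
                  (1 : Ω → ENNReal) ω) ≤ _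
            rw [e2, ← ENNReal.ofReal_natCast]
            exact ENNReal.ofReal_le_ofReal (hpt ω)
        _ = ENNReal.ofReal (T / 2) := by
            rw [lintegral_const, measure_univ, mul_one]
    · intro p _
      exact measurable_one.indicator (hb p).1
  have hlow : ENNReal.ofReal (2 / 3 * T) ≤
      ∑ p : (Fin k × ZMod N × ZMod N → Bool) × (Fin k → ZMod N),
        μ {ω | Success (A ω) α (grf V p.1) (strm V p.1 k) (hf V p.1 p.2)} := by
    have e1 : ∑ _p : (Fin k × ZMod N × ZMod N → Bool) × (Fin k → ZMod N), (2 / 3 : ENNReal) =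
        ENNReal.ofReal (2 / 3 * T) := by
      rw [Finset.sum_const, nsmul_eq_mul, Finset.card_univ, mul_comm,
        ENNReal.ofReal_mul (by norm_num), hT, ENNReal.ofReal_natCast]
      congr 1
      rw [ENNReal.ofReal_div_of_pos (by norm_num)]
      simp
    rw [← e1]
    exact Finset.sum_le_sum fun p _ => (hb p).2
  have hfin := hlow.trans hsum
  rw [ENNReal.ofReal_le_ofReal_iff (by positivity)] at hfin
  linarith

theorem polylog (α : ℝ) (hα : α < 2) (C : ℝ) (d : ℕ) : ∃ n₀ : ℕ, ∀ n ≥ n₀, ∀ s : ℕ,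
    (s : ℝ) ≤ C * n * (Real.log n) ^ d → ∀ (Ω : Type) [MeasurableSpace Ω] (μ : Measure Ω)
    [IsProbabilityMeasure μ] (A : Ω → Alg n s), ¬ Approx μ A α := by
  obtain ⟨c, hc, n₀, h⟩ := quad α hα
  have h1 : (fun x : ℝ => Real.log x ^ d) =o[Filter.atTop] (id : ℝ → ℝ) :=
    Real.isLittleO_pow_log_id_atTop
  have h2 := h1.def (c := c / (|C| + 1)) (by positivity)
  obtain ⟨x₀, hx₀⟩ := Filter.eventually_atTop.1 h2
  refine ⟨max n₀ (max (Nat.ceil x₀) 1), ?_⟩
  intro n hn s hs
  apply h n (le_trans (le_max_left _ _) hn)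
  refine hs.trans ?_
  have hn1 : 1 ≤ n := le_trans (le_trans (le_max_right _ _) (le_max_right _ _)) hn
  have hn2 : x₀ ≤ (n : ℝ) := by
    have : Nat.ceil x₀ ≤ n := le_trans (le_trans (le_max_left _ _) (le_max_right _ _)) hn
    exact (Nat.le_ceil x₀).trans (by exact_mod_cast this)
  have h3 := hx₀ n hn2
  have hn1' : (1 : ℝ) ≤ n := by exact_mod_cast hn1
  have hlog : 0 ≤ Real.log n := Real.log_nonneg hn1'
  rw [Real.norm_of_nonneg (by positivity), id, Real.norm_of_nonneg (by linarith)] at h3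
  have h4 : C * (Real.log n) ^ d ≤ c * n := by
    have hC : C ≤ |C| + 1 := by linarith [le_abs_self C]
    calc C * (Real.log n) ^ d ≤ (|C| + 1) * (Real.log n) ^ d :=
          mul_le_mul_of_nonneg_right hC (by positivity)
      _ ≤ (|C| + 1) * (c / (|C| + 1) * n) := mul_le_mul_of_nonneg_left h3 (by positivity)
      _ = c * n := by field_simp
  calc C * n * (Real.log n) ^ d = n * (C * (Real.log n) ^ d) := by ring
    _ ≤ n * (c * n) := mul_le_mul_of_nonneg_left h4 (by linarith)
    _ = c * (n : ℝ) ^ 2 := by ring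

/-- With one bit per possible edge the problem is solved exactly: store everything. -/
theorem exact_alg (n : ℕ) : ∃ A : Alg n (Fintype.card (Edge n)),
    ∀ (G : SimpleGraph (Fin n)) (l : List (Edge n)) (f : Finset (Edge n) → ℝ),
      IsStream G l → MonoSubmod f → Success A 1 G l f := by
  classical
  let Dj : Finset (Edge n) → Prop := fun M =>
    ∀ e ∈ M, ∀ e' ∈ M, e ≠ e' → ∀ v, v ∈ e → v ∉ e'
  have hex : ∀ (σ : Finset (Edge n)) (O : Finset (Edge n) → Option ℝ),
      ∃ M ∈ σ.powerset.filter Dj, ∀ M' ∈ σ.powerset.filter Dj, (O M').getD 0 ≤ (O M).getD 0 := by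
    intro σ O
    exact Finset.exists_max_image _ (fun M => (O M).getD 0)
      ⟨∅, Finset.mem_filter.2 ⟨Finset.empty_mem_powerset _, fun e he => absurd he (by simp)⟩⟩
  choose out hout1 hout2 using hex
  let A : Alg n (Fintype.card (Edge n)) :=
    { State := Finset (Edge n)
      finite_state := inferInstance
      card_state := by rw [Nat.card_eq_fintype_card, Fintype.card_finset]
      start := ∅
      step := fun σ e _ => insert e σ
      held := id
      held_start := rfl
      held_step := fun σ e O => Finset.Subset.refl _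
      out := out
      out_held := fun σ O => Finset.mem_powerset.1 (Finset.mem_filter.1 (hout1 σ O)).1 }
  refine ⟨A, ?_⟩
  intro G l f hl hf
  have hrun : ∀ (l : List (Edge n)) (σ arr : Finset (Edge n)),
      A.run f σ arr l = σ ∪ l.toFinset := by
    intro l
    induction l with
    | nil => intro σ arr; simp [Alg.run]
    | cons e l ih =>
      intro σ arr
      simp only [Alg.run]
      rw [ih]
      show insert e σ ∪ l.toFinset = σ ∪ (e :: l).toFinset
      ext x
      simp only [Finset.mem_union, Finset.mem_insert, List.toFinset_cons]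
      tauto
  have hfinal : A.run f A.start ∅ l = l.toFinset := by
    rw [hrun]
    show ∅ ∪ l.toFinset = l.toFinset
    simp
  have ho : A.output f l = out l.toFinset (oracle f l.toFinset) := by
    unfold Alg.output
    rw [hfinal]
  have hmem := Finset.mem_filter.1 (hout1 l.toFinset (oracle f l.toFinset))
  have hor : ∀ M, M ⊆ l.toFinset → (oracle f l.toFinset M).getD 0 = f M := by
    intro M hM
    simp [oracle, hM]
  rw [Success, ho]
  refine ⟨⟨?_, hmem.2⟩, ?_⟩
  · intro e he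
    have := Finset.mem_powerset.1 hmem.1 he
    rw [List.mem_toFinset] at this
    exact (hl.2 e).1 this
  · intro M hM
    have hsub : M ⊆ l.toFinset := by
      intro e he
      rw [List.mem_toFinset]
      exact (hl.2 e).2 (hM.1 e he)
    have := hout2 l.toFinset (oracle f l.toFinset) M
      (Finset.mem_filter.2 ⟨Finset.mem_powerset.2 hsub, hM.2⟩)
    rw [hor M hsub, hor _ (Finset.mem_powerset.1 hmem.1)] at this
    rw [one_mul]
    exact this

end Pool.Agent.Helper157.MSM
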