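import Mathlib

set_option autoImplicit false

/-!
One-pass streaming model for maximum submodular matching, and the hard instances.
-/

namespace Pool.Agent.Helper157.MSM

open MeasureTheory

/-- Possible edges on the vertex set `Fin n` (unordered pairs). -/
abbrev Edge (n : ℕ) := Sym2 (Fin n)

open Classical in
/-- The value oracle for `f` at a moment when exactly the edges in `arr` have arrived: it reveals
`f T` for every set `T` of arrived edges, and nothing about other sets. -/
noncomputable def oracle {n : ℕ} (f : Finset (Edge n) → ℝ) (arr : Finset (Edge n)) :
    Finset (Edge n) → Option ℝ :=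
  fun T => if T ⊆ arr then some (f T) else none

/-- A deterministic one-pass streaming algorithm for graphs on `Fin n` with `s` bits of memory:
it has at most `2 ^ s` memory states. `held σ` is the set of edges held in memory state `σ`: nothing
is held at the start, and an edge can enter the memory only when it arrives. No other restriction is
made on how held edges are represented. The update and the output may depend in an arbitrary way on
the memory state and on all answers of the value oracle. The output consists of held edges. -/
structure Alg (n s : ℕ) where
  State : Type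
  finite_state : Finite State
  card_state : Nat.card State ≤ 2 ^ s
  start : State
  step : State → Edge n → (Finset (Edge n) → Option ℝ) → State
  held : State → Finset (Edge n)
  held_start : held start = ∅
  held_step : ∀ σ e O, held (step σ e O) ⊆ insert e (held σ)
  out : State → (Finset (Edge n) → Option ℝ) → Finset (Edge n)
  out_held : ∀ σ O, out σ O ⊆ held σ

/-- The memory state after the edges of the list have arrived, starting in state `σ` when the
edges in `arr` have already arrived. -/
noncomputable def Alg.run {n s : ℕ} (A : Alg n s) (f : Finset (Edge n) → ℝ) :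
    A.State → Finset (Edge n) → List (Edge n) → A.State
  | σ, _, [] => σ
  | σ, arr, e :: l => A.run f (A.step σ e (oracle f (insert e arr))) (insert e arr) l

/-- The output of the algorithm on the stream `l`. -/
noncomputable def Alg.output {n s : ℕ} (A : Alg n s) (f : Finset (Edge n) → ℝ)
    (l : List (Edge n)) : Finset (Edge n) :=
  A.out (A.run f A.start ∅ l) (oracle f l.toFinset)

/-- `l` lists the edges of `G` in some order, each exactly once. -/
def IsStream {n : ℕ} (G : SimpleGraph (Fin n)) (l : List (Edge n)) : Prop :=
  l.Nodup ∧ ∀ e, e ∈ l ↔ e ∈ G.edgeSet

/-- `M` is a matching of `G`: a set of edges of `G`, no two of which share a vertex. -/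
def IsMatching {n : ℕ} (G : SimpleGraph (Fin n)) (M : Finset (Edge n)) : Prop :=
  (∀ e ∈ M, e ∈ G.edgeSet) ∧ ∀ e ∈ M, ∀ e' ∈ M, e ≠ e' → ∀ v, v ∈ e → v ∉ e'

/-- `f` is normalised, monotone and submodular. -/
def MonoSubmod {n : ℕ} (f : Finset (Edge n) → ℝ) : Prop :=
  f ∅ = 0 ∧ (∀ S T, S ⊆ T → f S ≤ f T) ∧ ∀ S T, f (S ∪ T) + f (S ∩ T) ≤ f S + f T

/-- The run of `A` on the stream `l` of `G` is an `α`-approximation: the output is a matching `M`
with `f M ≥ (1/α) f M'` for all matchings `M'`. -/
def Success {n s : ℕ} (A : Alg n s) (α : ℝ) (G : SimpleGraph (Fin n)) (l : List (Edge n))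
    (f : Finset (Edge n) → ℝ) : Prop :=
  IsMatching G (A.output f l) ∧ ∀ M, IsMatching G M → f M ≤ α * f (A.output f l)

/-- The randomised algorithm `A` (a random deterministic algorithm) is an `α`-approximation for
maximum submodular matching on graphs with `n` vertices: for every graph, every order of arrival and
every monotone submodular function it succeeds with probability at least `2/3`. -/
def Approx {Ω : Type} [MeasurableSpace Ω] (μ : Measure Ω) {n s : ℕ} (A : Ω → Alg n s) (α : ℝ) :
    Prop :=
  ∀ (G : SimpleGraph (Fin n)) (l : List (Edge n)) (f : Finset (Edge n) → ℝ),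
    IsStream G l → MonoSubmod f →
      MeasurableSet {ω | Success (A ω) α G l f} ∧ 2 / 3 ≤ μ {ω | Success (A ω) α G l f}

end Pool.Agent.Helper157.MSM
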