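import Mathlib

namespace Pool.Agent.Helper157.OddCover

open Finset Filter Topology Matrix

/-- The set `E(A,B)` of edges `{x,y}` of the complete graph on `Fin n` with `x ∈ A`, `y ∈ B`. -/
def bicliqueEdges {n : ℕ} (A B : Finset (Fin n)) : Set (Sym2 (Fin n)) :=
  {e | ∃ x ∈ A, ∃ y ∈ B, e = s(x, y)}

/-- A product of complete bipartite graphs: a set of pairs of edges of the form
`E(A,B) × E(C,D)` with `A, B` disjoint nonempty and `C, D` disjoint nonempty. -/
def IsProduct {n : ℕ} (P : Set (Sym2 (Fin n) × Sym2 (Fin n))) : Prop :=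
  ∃ A B C D : Finset (Fin n), A.Nonempty ∧ B.Nonempty ∧ C.Nonempty ∧ D.Nonempty ∧
    Disjoint A B ∧ Disjoint C D ∧ P = bicliqueEdges A B ×ˢ bicliqueEdges C D

/-- There is an odd cover of `E(K_n) × E(K_n)` with `m` members: a family of `m` products such
that every pair of edges of `K_n` lies in an odd number of members. -/
def HasOddCover (n m : ℕ) : Prop :=
  ∃ P : Fin m → Set (Sym2 (Fin n) × Sym2 (Fin n)), (∀ i, IsProduct (P i)) ∧
    ∀ e ∈ (⊤ : SimpleGraph (Fin n)).edgeSet, ∀ f ∈ (⊤ : SimpleGraph (Fin n)).edgeSet,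
      Odd (Nat.card {i : Fin m // (e, f) ∈ P i})

/-- `gTilde n` is the least number of members of an odd cover of `E(K_n) × E(K_n)`. -/
noncomputable def gTilde (n : ℕ) : ℕ := sInf {m | HasOddCover n m}

/-! ### Upper bound -/

/-- a tournament on four vertices all of whose in-degrees are odd -/
def e4 : Fin 4 → Fin 4 → ZMod 2
  | 0, 1 => 1 | 1, 0 => 0
  | 1, 2 => 1 | 2, 1 => 0
  | 2, 0 => 1 | 0, 2 => 0
  | 0, 3 => 1 | 3, 0 => 0
  | 1, 3 => 1 | 3, 1 => 0
  | 2, 3 => 1 | 3, 2 => 0
  | _, _ => 0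

def ee {k : ℕ} (i j : Fin k × Fin 4) : ZMod 2 :=
  if i.1 < j.1 then 1 else if i.1 = j.1 then e4 i.2 j.2 else 0

/-- the indicator that the vertices `u, v` are separated by the `i`-th biclique -/
def sep {k : ℕ} (i : Fin k × Fin 4) (u v : (Fin k × Fin 4) × ZMod 2) : ZMod 2 :=
  if i = u.1 ∨ i = v.1 then 0 else ee i u.1 + u.2 + (ee i v.1 + v.2)

lemma sum_sep {k : ℕ} (u v : (Fin k × Fin 4) × ZMod 2) (huv : u ≠ v) :
    ∑ i, sep i u v = 1 := by
  obtain ⟨⟨a, s⟩, β⟩ := u
  obtain ⟨⟨b, t⟩, γ⟩ := v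
  rw [Fintype.sum_prod_type]
  have key0 : ∀ c : Fin k, c ≠ a → c ≠ b →
      ∑ r : Fin 4, sep (c, r) ((a, s), β) ((b, t), γ) = 0 := by
    intro c hca hcb
    have : ∀ r : Fin 4, sep (c, r) ((a, s), β) ((b, t), γ)
        = (if c < a then 1 else 0) + β + ((if c < b then 1 else 0) + γ) := by
      intro r
      simp [sep, ee, hca, hcb]
    rw [Finset.sum_congr rfl (fun r _ => this r)]
    simp only [Finset.sum_const, Finset.card_univ, Fintype.card_fin, nsmul_eq_mul]
    have : ((4 : ℕ) : ZMod 2) = 0 := by decide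
    rw [this, zero_mul]
  by_cases hab : a = b
  · subst hab
    rw [Finset.sum_eq_single a (fun c _ hc => key0 c hc hc) (by simp)]
    have h2 : ∀ r : Fin 4, sep (a, r) ((a, s), β) ((a, t), γ)
        = if r = s ∨ r = t then 0 else e4 r s + β + (e4 r t + γ) := by
      intro r
      simp [sep, ee]
    rw [Finset.sum_congr rfl (fun r _ => h2 r)]
    have h3 : (s, β) ≠ (t, γ) := by
      intro h
      apply huv
      rw [Prod.mk.injEq] at h
      rw [h.1, h.2]
    clear huv key0 h2
    revert h3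
    revert s β t γ
    decide
  · rw [Finset.sum_eq_add a b hab (fun c _ hc => key0 c hc.1 hc.2) (by simp) (by simp)]
    have h2 : ∀ r : Fin 4, sep (a, r) ((a, s), β) ((b, t), γ)
        = if r = s then 0 else e4 r s + β + ((if a < b then 1 else 0) + γ) := by
      intro r
      simp [sep, ee, hab]
    have h3 : ∀ r : Fin 4, sep (b, r) ((a, s), β) ((b, t), γ)
        = if r = t then 0 else (if b < a then 1 else 0) + β + (e4 r t + γ) := by
      intro r
      have : ¬ b = a := fun h => hab h.symm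
      simp [sep, ee, this]
    rw [Finset.sum_congr rfl (fun r _ => h2 r), Finset.sum_congr rfl (fun r _ => h3 r)]
    rcases lt_or_gt_of_ne hab with h | h
    · have h' : ¬ b < a := not_lt.mpr h.le
      simp only [h, h', if_true, if_false]
      clear huv key0 h2 h3
      revert s β t γ
      decide
    · have h' : ¬ a < b := not_lt.mpr h.le
      simp only [h, h', if_true, if_false]
      clear huv key0 h2 h3
      revert s β t γ
      decide


/-- side function of the `i`-th biclique: `0` means first part, `1` second part -/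
def side {k : ℕ} (i : Fin k × Fin 4) (u : (Fin k × Fin 4) × ZMod 2) : ZMod 2 := ee i u.1 + u.2

def partA {n k : ℕ} (φ : Fin n → (Fin k × Fin 4) × ZMod 2) (i : Fin k × Fin 4) :
    Finset (Fin n) := univ.filter fun x => i ≠ (φ x).1 ∧ side i (φ x) = 0

def partB {n k : ℕ} (φ : Fin n → (Fin k × Fin 4) × ZMod 2) (i : Fin k × Fin 4) :
    Finset (Fin n) := univ.filter fun x => i ≠ (φ x).1 ∧ side i (φ x) = 1

lemma disjoint_parts {n k : ℕ} (φ : Fin n → (Fin k × Fin 4) × ZMod 2) (i : Fin k × Fin 4) :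
    Disjoint (partA φ i) (partB φ i) := by
  rw [Finset.disjoint_left]
  intro x hx hy
  simp only [partA, partB, mem_filter, mem_univ, true_and] at hx hy
  rw [hx.2] at hy
  exact absurd hy.2 (by decide)

lemma mem_biclique {n : ℕ} (A B : Finset (Fin n)) (x y : Fin n) :
    s(x, y) ∈ bicliqueEdges A B ↔ (x ∈ A ∧ y ∈ B) ∨ (x ∈ B ∧ y ∈ A) := by
  constructor
  · rintro ⟨a, ha, b, hb, h⟩
    rw [Sym2.eq_iff] at h
    rcases h with ⟨rfl, rfl⟩ | ⟨rfl, rfl⟩
    · exact Or.inl ⟨ha, hb⟩
    · exact Or.inr ⟨hb, ha⟩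
  · rintro (⟨h1, h2⟩ | ⟨h1, h2⟩)
    · exact ⟨x, h1, y, h2, rfl⟩
    · exact ⟨y, h2, x, h1, Sym2.eq_swap⟩

lemma zmod2_cases (a : ZMod 2) : a = 0 ∨ a = 1 := by
  revert a; decide

lemma sep_eq {n k : ℕ} (φ : Fin n → (Fin k × Fin 4) × ZMod 2) (i : Fin k × Fin 4)
    (x y : Fin n) :
    sep i (φ x) (φ y) =
      @ite _ (s(x, y) ∈ bicliqueEdges (partA φ i) (partB φ i)) (Classical.dec _) 1 0 := by
  classical
  unfold sep
  by_cases hx : i = (φ x).1
  · have : ¬ s(x, y) ∈ bicliqueEdges (partA φ i) (partB φ i) := by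
      rw [mem_biclique]; simp [partA, partB, ← hx]
    rw [if_neg this, if_pos (Or.inl hx)]
  by_cases hy : i = (φ y).1
  · have : ¬ s(x, y) ∈ bicliqueEdges (partA φ i) (partB φ i) := by
      rw [mem_biclique]; simp [partA, partB, ← hy]
    rw [if_neg this, if_pos (Or.inr hy)]
  rw [if_neg (by tauto)]
  have hm : s(x, y) ∈ bicliqueEdges (partA φ i) (partB φ i) ↔
      ((side i (φ x) = 0 ∧ side i (φ y) = 1) ∨ (side i (φ x) = 1 ∧ side i (φ y) = 0)) := by
    rw [mem_biclique]; simp [partA, partB, hx, hy]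
  show side i (φ x) + side i (φ y) = _
  rcases zmod2_cases (side i (φ x)) with h1 | h1 <;>
    rcases zmod2_cases (side i (φ y)) with h2 | h2
  · rw [if_neg (by rw [hm, h1, h2]; decide), h1, h2]; decide
  · rw [if_pos (by rw [hm, h1, h2]; decide), h1, h2]; decide
  · rw [if_pos (by rw [hm, h1, h2]; decide), h1, h2]; decide
  · rw [if_neg (by rw [hm, h1, h2]; decide), h1, h2]; decide

lemma odd_card_iff {ι : Type*} [Fintype ι] (p : ι → Prop) [DecidablePred p] :
    Odd (Nat.card {i // p i}) ↔ ∑ i, (if p i then (1 : ZMod 2) else 0) = 1 := by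
  rw [Finset.sum_boole, Nat.card_eq_fintype_card, Fintype.card_subtype]
  rw [ZMod.natCast_eq_one_iff_odd]

lemma odd_single {n k : ℕ} (φ : Fin n → (Fin k × Fin 4) × ZMod 2) (hφ : Function.Injective φ)
    (e : Sym2 (Fin n)) (he : e ∈ (⊤ : SimpleGraph (Fin n)).edgeSet) :
    Odd (Nat.card {i : Fin k × Fin 4 // e ∈ bicliqueEdges (partA φ i) (partB φ i)}) := by
  classical
  induction e using Sym2.ind with
  | _ x y =>
    rw [SimpleGraph.mem_edgeSet, SimpleGraph.top_adj] at he
    rw [odd_card_iff]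
    refine Eq.trans (Finset.sum_congr rfl ?_) (sum_sep (φ x) (φ y) (fun h => he (hφ h)))
    intro i _
    rw [sep_eq φ i x y]

/-- A weak odd cover (empty parts allowed) gives an odd cover with at most as many members. -/
lemma exists_cover_of_weak {n : ℕ} {ι : Type} [Fintype ι]
    (A B C D : ι → Finset (Fin n)) (hAB : ∀ i, Disjoint (A i) (B i))
    (hCD : ∀ i, Disjoint (C i) (D i))
    (h : ∀ e ∈ (⊤ : SimpleGraph (Fin n)).edgeSet, ∀ f ∈ (⊤ : SimpleGraph (Fin n)).edgeSet,
      Odd (Nat.card {i : ι // (e, f) ∈ bicliqueEdges (A i) (B i) ×ˢ bicliqueEdges (C i) (D i)})) :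
    ∃ m ≤ Fintype.card ι, HasOddCover n m := by
  classical
  let good : ι → Prop := fun i => (A i).Nonempty ∧ (B i).Nonempty ∧ (C i).Nonempty ∧ (D i).Nonempty
  let eqv := Fintype.equivFin {i // good i}
  refine ⟨Fintype.card {i // good i}, Fintype.card_subtype_le _, ?_⟩
  refine ⟨fun j => bicliqueEdges (A (eqv.symm j).1) (B (eqv.symm j).1) ×ˢ
    bicliqueEdges (C (eqv.symm j).1) (D (eqv.symm j).1), ?_, ?_⟩
  · intro j
    obtain ⟨h1, h2, h3, h4⟩ := (eqv.symm j).2
    exact ⟨_, _, _, _, h1, h2, h3, h4, hAB _, hCD _, rfl⟩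
  · intro e he f hf
    have := h e he f hf
    have hc : Nat.card {j : Fin (Fintype.card {i // good i}) //
        (e, f) ∈ bicliqueEdges (A (eqv.symm j).1) (B (eqv.symm j).1) ×ˢ
          bicliqueEdges (C (eqv.symm j).1) (D (eqv.symm j).1)} =
        Nat.card {i : ι // (e, f) ∈ bicliqueEdges (A i) (B i) ×ˢ bicliqueEdges (C i) (D i)} := by
      apply Nat.card_congr
      refine Equiv.ofBijective
        (fun j => ⟨(eqv.symm j.1).1, j.2⟩) ⟨?_, ?_⟩
      · intro a b hab
        have h1 := congrArg (fun z => z.1) hab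
        apply Subtype.ext
        apply eqv.symm.injective
        exact Subtype.ext h1
      · rintro ⟨i, hi⟩
        have hg : good i := by
          obtain ⟨⟨a, ha, b, hb, _⟩, ⟨c, hc, d, hd, _⟩⟩ := hi
          exact ⟨⟨a, ha⟩, ⟨b, hb⟩, ⟨c, hc⟩, ⟨d, hd⟩⟩
        refine ⟨⟨eqv ⟨i, hg⟩, ?_⟩, ?_⟩
        · simpa using hi
        · apply Subtype.ext
          simp
    rw [hc]
    exact this

lemma exists_cover {n k : ℕ} (hn : n ≤ 8 * k) : ∃ m ≤ 16 * k ^ 2, HasOddCover n m := by
  classical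
  have hcard : Fintype.card (Fin n) ≤ Fintype.card ((Fin k × Fin 4) × ZMod 2) := by
    simp only [Fintype.card_prod, Fintype.card_fin, ZMod.card]
    omega
  obtain ⟨φ⟩ := Function.Embedding.nonempty_of_card_le hcard
  obtain ⟨m, hm, hc⟩ := exists_cover_of_weak (n := n)
    (ι := (Fin k × Fin 4) × (Fin k × Fin 4))
    (fun p => partA φ p.1) (fun p => partB φ p.1) (fun p => partA φ p.2) (fun p => partB φ p.2)
    (fun p => disjoint_parts φ p.1) (fun p => disjoint_parts φ p.2) (by
      intro e he f hf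
      have h1 := odd_single φ φ.injective e he
      have h2 := odd_single φ φ.injective f hf
      have h3 := h1.mul h2
      rw [← Nat.card_prod] at h3
      convert h3 using 1
      apply Nat.card_congr
      refine ⟨fun p => (⟨p.1.1, p.2.1⟩, ⟨p.1.2, p.2.2⟩), fun q => ⟨(q.1.1, q.2.1), q.1.2, q.2.2⟩,
        ?_, ?_⟩
      · rintro ⟨⟨a, b⟩, h⟩; rfl
      · rintro ⟨⟨a, ha⟩, ⟨b, hb⟩⟩; rfl)
  refine ⟨m, hm.trans (le_of_eq ?_), hc⟩
  simp only [Fintype.card_prod, Fintype.card_fin]
  ring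

lemma gTilde_le {n k : ℕ} (hn : n ≤ 8 * k) : gTilde n ≤ 16 * k ^ 2 := by
  obtain ⟨m, hm, hc⟩ := exists_cover hn
  exact (Nat.sInf_le hc).trans hm

lemma hasOddCover_gTilde (n : ℕ) : HasOddCover n (gTilde n) := by
  obtain ⟨m, _, hc⟩ := exists_cover (n := n) (k := n) (by omega)
  exact Nat.sInf_mem (⟨m, hc⟩ : ({m | HasOddCover n m}).Nonempty)


/-! ### Lower bound -/

open Classical in
/-- indicator vector -/
noncomputable def chi {n : ℕ} (A : Finset (Fin n)) (x : Fin n) : ZMod 2 := if x ∈ A then 1 else 0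

open Classical in
lemma chi_biclique {n : ℕ} {A B : Finset (Fin n)} (h : Disjoint A B) (x y : Fin n) :
    (if s(x, y) ∈ bicliqueEdges A B then (1 : ZMod 2) else 0) =
      chi A x * chi B y + chi B x * chi A y := by
  have hx : ¬ (x ∈ A ∧ x ∈ B) := fun h' => (Finset.disjoint_left.mp h) h'.1 h'.2
  have hy : ¬ (y ∈ A ∧ y ∈ B) := fun h' => (Finset.disjoint_left.mp h) h'.1 h'.2
  have hm := mem_biclique A B x y
  unfold chi
  by_cases h1 : x ∈ A <;> by_cases h2 : x ∈ B <;> by_cases h3 : y ∈ A <;> by_cases h4 : y ∈ B <;>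
    simp_all

lemma two_zmod2 (a : ZMod 2) : a + a = 0 := by revert a; decide

/-- the adjacency matrix over `ZMod 2` of the complete graph -/
def KM (ι : Type*) [DecidableEq ι] : Matrix ι ι (ZMod 2) := fun i j => if i = j then 0 else 1

lemma KM_mul_KM {ι : Type*} [Fintype ι] [DecidableEq ι] (h : Even (Fintype.card ι)) :
    KM ι * KM ι = 1 := by
  have hK : KM ι = Matrix.of (fun _ _ => (1 : ZMod 2)) + 1 := by
    ext i j
    by_cases hij : i = j
    · subst hij; simp [KM, two_zmod2]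
    · simp [KM, hij]
  have hJ : (Matrix.of (fun _ _ => (1 : ZMod 2)) : Matrix ι ι (ZMod 2)) *
      Matrix.of (fun _ _ => (1 : ZMod 2)) = 0 := by
    ext i j
    simp only [Matrix.mul_apply, Matrix.of_apply, mul_one, Finset.sum_const, Finset.card_univ,
      nsmul_eq_mul, Matrix.zero_apply]
    rw [(ZMod.natCast_eq_zero_iff_even).mpr h]
  rw [hK, add_mul, mul_add, hJ, one_mul, mul_one, zero_add]
  ext i j
  simp only [Matrix.add_apply, Matrix.of_apply]
  rw [← add_assoc, two_zmod2, zero_add]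

lemma card_sq_le {n m : ℕ} (h : HasOddCover n m) {ι : Type} [Fintype ι] [DecidableEq ι]
    (f : ι → Fin n) (hf : Function.Injective f) (hev : Even (Fintype.card ι)) :
    Fintype.card ι ^ 2 ≤ 4 * m := by
  classical
  obtain ⟨P, hP, hodd⟩ := h
  choose A B C D hA hB hC hD hAB hCD hPe using hP
  let S : Matrix (ι × ι) (Fin m × Fin 4) (ZMod 2) := fun p q =>
    match q.2 with
    | 0 => chi (A q.1) (f p.1) * chi (C q.1) (f p.2)
    | 1 => chi (A q.1) (f p.1) * chi (D q.1) (f p.2)
    | 2 => chi (B q.1) (f p.1) * chi (C q.1) (f p.2)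
    | 3 => chi (B q.1) (f p.1) * chi (D q.1) (f p.2)
  let T : Matrix (Fin m × Fin 4) (ι × ι) (ZMod 2) := fun q p =>
    match q.2 with
    | 0 => chi (B q.1) (f p.1) * chi (D q.1) (f p.2)
    | 1 => chi (B q.1) (f p.1) * chi (C q.1) (f p.2)
    | 2 => chi (A q.1) (f p.1) * chi (D q.1) (f p.2)
    | 3 => chi (A q.1) (f p.1) * chi (C q.1) (f p.2)
  have hST : S * T = Matrix.kroneckerMap (· * ·) (KM ι) (KM ι) := by
    ext ⟨x, z⟩ ⟨y, w⟩
    rw [Matrix.mul_apply, Fintype.sum_prod_type]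
    have h1 : ∀ i : Fin m, ∑ s : Fin 4, S (x, z) (i, s) * T (i, s) (y, w) =
        (chi (A i) (f x) * chi (B i) (f y) + chi (B i) (f x) * chi (A i) (f y)) *
        (chi (C i) (f z) * chi (D i) (f w) + chi (D i) (f z) * chi (C i) (f w)) := by
      intro i
      simp only [Fin.sum_univ_four, S, T]
      ring
    rw [Finset.sum_congr rfl (fun i _ => h1 i)]
    rw [Matrix.kroneckerMap_apply]
    by_cases hxy : x = y
    · subst hxy
      have : ∀ i : Fin m, (chi (A i) (f x) * chi (B i) (f x) + chi (B i) (f x) * chi (A i) (f x)) *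
          (chi (C i) (f z) * chi (D i) (f w) + chi (D i) (f z) * chi (C i) (f w)) = 0 := by
        intro i
        rw [mul_comm (chi (B i) (f x)), two_zmod2, zero_mul]
      rw [Finset.sum_congr rfl (fun i _ => this i)]
      simp [KM]
    by_cases hzw : z = w
    · subst hzw
      have : ∀ i : Fin m, (chi (A i) (f x) * chi (B i) (f y) + chi (B i) (f x) * chi (A i) (f y)) *
          (chi (C i) (f z) * chi (D i) (f z) + chi (D i) (f z) * chi (C i) (f z)) = 0 := by
        intro i
        rw [mul_comm (chi (D i) (f z)), two_zmod2, mul_zero]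
      rw [Finset.sum_congr rfl (fun i _ => this i)]
      simp [KM]
    have he : s(f x, f y) ∈ (⊤ : SimpleGraph (Fin n)).edgeSet := by
      rw [SimpleGraph.mem_edgeSet, SimpleGraph.top_adj]
      exact fun h => hxy (hf h)
    have hg : s(f z, f w) ∈ (⊤ : SimpleGraph (Fin n)).edgeSet := by
      rw [SimpleGraph.mem_edgeSet, SimpleGraph.top_adj]
      exact fun h => hzw (hf h)
    have := hodd _ he _ hg
    rw [odd_card_iff] at this
    simp only [KM, hxy, hzw, if_false, mul_one]
    rw [← this]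
    apply Finset.sum_congr rfl
    intro i _
    rw [← chi_biclique (hAB i), ← chi_biclique (hCD i)]
    have hmem : (s(f x, f y), s(f z, f w)) ∈ P i ↔
        s(f x, f y) ∈ bicliqueEdges (A i) (B i) ∧ s(f z, f w) ∈ bicliqueEdges (C i) (D i) := by
      rw [hPe i, Set.mem_prod]
    by_cases h1 : s(f x, f y) ∈ bicliqueEdges (A i) (B i) <;>
      by_cases h2 : s(f z, f w) ∈ bicliqueEdges (C i) (D i) <;> simp [hmem, h1, h2]
  have hone : (Matrix.kroneckerMap (· * ·) (KM ι) (KM ι)) *
      (Matrix.kroneckerMap (· * ·) (KM ι) (KM ι)) = 1 := by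
    have := Matrix.mul_kronecker_mul (KM ι) (KM ι) (KM ι) (KM ι)
    rw [KM_mul_KM hev] at this
    rw [← this]
    exact Matrix.one_kronecker_one
  have hrank : Matrix.rank (S * (T * Matrix.kroneckerMap (· * ·) (KM ι) (KM ι))) =
      Fintype.card (ι × ι) := by
    rw [← Matrix.mul_assoc, hST, hone, Matrix.rank_one]
  have h2 : Matrix.rank (S * (T * Matrix.kroneckerMap (· * ·) (KM ι) (KM ι))) ≤
      Fintype.card (Fin m × Fin 4) :=
    (Matrix.rank_mul_le_left _ _).trans (Matrix.rank_le_card_width _)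
  rw [hrank] at h2
  simp only [Fintype.card_prod, Fintype.card_fin] at h2
  nlinarith [h2]

lemma sq_le_of_even {n : ℕ} (hn : Even n) : n ^ 2 ≤ 4 * gTilde n := by
  have := card_sq_le (hasOddCover_gTilde n) (ι := Fin n) id Function.injective_id (by simpa using hn)
  simpa using this

lemma sq_le_of_odd {n : ℕ} (hn : Odd n) : (n - 1) ^ 2 ≤ 4 * gTilde n := by
  have h1 : n - 1 ≤ n := Nat.sub_le _ _
  have := card_sq_le (hasOddCover_gTilde n) (ι := Fin (n - 1)) (Fin.castLE h1)
    (Fin.castLE_injective h1) (by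
      rw [Fintype.card_fin]; exact Nat.Odd.sub_odd hn odd_one)
  simpa using this

end Pool.Agent.Helper157.OddCover
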