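import Pool.Agent.Helper157.StarK

set_option autoImplicit false

open Filter Topology Set

namespace Pool.Agent.Helper157.Star

open Pool.Agent.Helper157.StarPoly

noncomputable section

variable {n r E X G l : ℝ × ℝ → ℝ}

lemma Sys.two_sub (h : Sys n r E X G l) {p : ℝ × ℝ} (hp : 0 < p.2) (hp1 : 0 < p.1) :
    0 < 2 - zf n r E X p - 3 * G p := by
  have hr0 := h.rpos p hp
  have hn0 := h.npos p hp hp1
  have hH := h.Hpos p hp hp1
  have e : 2 * n p - E p * X p / r p - 3 * n p * G p = n p * (2 - zf n r E X p - 3 * G p) := by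
    unfold zf; field_simp
  rw [e] at hH
  exact (pos_iff_pos_of_mul_pos hH).mp hn0

lemma Sys.zgt (h : Sys n r E X G l) {p : ℝ × ℝ} (hp : 0 < p.2) (hp1 : 0 < p.1) :
    2 * X p < zf n r E X p := by
  have hr0 := h.rpos p hp
  have hn0 := h.npos p hp hp1
  have hX0 := (h.Xpos p hp hp1).1
  have hb := h.bd p hp hp1.le
  unfold zf
  rw [lt_div_iff₀ (by positivity)]
  have : 2 * n p * r p < E p := by rw [h.hE]; nlinarith
  nlinarith

/-- `n (z - G - e s)` as a smooth function -/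
def Wf (n r E X G : ℝ × ℝ → ℝ) (el : ℝ) (p : ℝ × ℝ) : ℝ :=
  E p * X p / r p - n p * G p - el * (n p * X p ^ 2)

lemma Sys.dW (h : Sys n r E X G l) (el : ℝ) {ξ η : ℝ} (hη : 0 < η) :
    HasDerivAt (fun t => Wf n r E X G el (t, η))
      (4 * r (ξ, η) * n (ξ, η) * X (ξ, η) + n (ξ, η) * (2 * n (ξ, η) - E (ξ, η) * X (ξ, η) / r (ξ, η) - 3 * n (ξ, η) * G (ξ, η))
        - el * (E (ξ, η) * X (ξ, η) ^ 2 + 2 * n (ξ, η) * r (ξ, η) * X (ξ, η) * G (ξ, η))) ξ := by
  have hr0 := h.rpos (ξ, η) hη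
  have dn := comp_line (h.dn (ξ, η) hη)
  have dr := comp_line (h.dr (ξ, η) hη)
  have dX := comp_line (h.dX (ξ, η) hη)
  have dG := comp_line (h.dG (ξ, η) hη)
  have dE := comp_line (h.dE (p := (ξ, η)) hη)
  have d := (((dE.mul dX).div dr hr0.ne').sub (dn.mul dG)).sub ((dn.mul (dX.pow 2)).const_mul el)
  refine (d.congr_deriv ?_)
  simp only [Pi.mul_apply, Pi.pow_apply]
  generalize n (ξ, η) = N at *
  generalize r (ξ, η) = R at *
  generalize X (ξ, η) = Y at *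
  generalize E (ξ, η) = e at *
  generalize G (ξ, η) = g at *
  push_cast
  field_simp
  ring

lemma Sys.W0 (h : Sys n r E X G l) (el : ℝ) {η : ℝ} (hη : 0 < η) : Wf n r E X G el (0, η) = 0 := by
  unfold Wf
  rw [h.n0 η hη, h.X0 η hη]; simp

/-- positivity of `W` from positivity of its derivative -/
lemma Sys.Wpos (h : Sys n r E X G l) {el ξ η : ℝ} (hη : 0 < η) (hξ : 0 < ξ)
    (hP : ∀ t, 0 < t → t < ξ → 0 < 4 - el * zf n r E X (t, η) + mf n r X (t, η) *
      (2 - zf n r E X (t, η) - 3 * G (t, η)) - 2 * el * G (t, η)) :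
    G (ξ, η) + el * X (ξ, η) ^ 2 < zf n r E X (ξ, η) := by
  have hcont : ContinuousOn (fun t => Wf n r E X G el (t, η)) (Icc 0 ξ) := fun t _ =>
    (h.dW el hη).continuousAt.continuousWithinAt
  have hmono : StrictMonoOn (fun t => Wf n r E X G el (t, η)) (Icc 0 ξ) := by
    apply strictMonoOn_of_deriv_pos (convex_Icc _ _) hcont
    intro t ht
    rw [interior_Icc] at ht
    rw [(h.dW el hη).deriv]
    have hr0 := h.rpos (t, η) hη
    have hn0 := h.npos (t, η) hη ht.1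
    have hX0 := (h.Xpos (t, η) hη ht.1).1
    have := hP t ht.1 ht.2
    have e : 4 * r (t, η) * n (t, η) * X (t, η) + n (t, η) * (2 * n (t, η) - E (t, η) * X (t, η) / r (t, η) - 3 * n (t, η) * G (t, η))
        - el * (E (t, η) * X (t, η) ^ 2 + 2 * n (t, η) * r (t, η) * X (t, η) * G (t, η)) =
        n (t, η) * r (t, η) * X (t, η) * (4 - el * zf n r E X (t, η) + mf n r X (t, η) *
      (2 - zf n r E X (t, η) - 3 * G (t, η)) - 2 * el * G (t, η)) := by
      unfold zf mf; field_simp; ring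
    rw [e]
    positivity
  have h1 := hmono (left_mem_Icc.mpr hξ.le) (right_mem_Icc.mpr hξ.le) hξ
  simp only at h1
  rw [h.W0 el hη] at h1
  have hr0 := h.rpos (ξ, η) hη
  have hn0 := h.npos (ξ, η) hη hξ
  have e : Wf n r E X G el (ξ, η) = n (ξ, η) * (zf n r E X (ξ, η) - (G (ξ, η) + el * X (ξ, η) ^ 2)) := by
    unfold Wf zf; field_simp; ring
  rw [e] at h1
  have := (pos_iff_pos_of_mul_pos h1).mp hn0
  linarith

/-- `e > 2` -/
theorem Sys.e_gt (h : Sys n r E X G l) {p : ℝ × ℝ} (hp : 0 < p.2) (hp1 : 0 < p.1) :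
    G p + 2 * X p ^ 2 < zf n r E X p := by
  obtain ⟨ξ, η⟩ := p
  apply h.Wpos hp hp1
  intro t ht _
  have h1 := h.two_sub (p := (t, η)) hp ht
  have hr0 := h.rpos (t, η) hp
  have hn0 := h.npos (t, η) hp ht
  have hX0 := (h.Xpos (t, η) hp ht).1
  have hg0 := (h.Gpos (t, η) hp).1
  have hm : 0 < mf n r X (t, η) := by unfold mf; positivity
  nlinarith [mul_pos hm h1]

/-- the limit of `X / n` on the axis `ξ = 0` -/
theorem Sys.lim0 (h : Sys n r E X G l) {η0 : ℝ} (h0 : 0 < η0) :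
    Tendsto (fun p => X p / n p) (𝓝[{p : ℝ × ℝ | 0 < p.1}] ((0 : ℝ), η0))
      (𝓝 (r (0, η0) * G (0, η0) / E (0, η0))) := by
  have hE0 := h.Epos (p := (0, η0)) h0 le_rfl
  have hcE : ContinuousAt E (0, η0) := (h.dE (p := (0, η0)) h0).continuousAt
  have hcr : ContinuousAt r (0, η0) := (h.dr (0, η0) h0).continuousAt
  have hcG : ContinuousAt G (0, η0) := (h.dG (0, η0) h0).continuousAt
  have hc : ContinuousAt (fun p => r p * G p / E p) (0, η0) := (hcr.mul hcG).div hcE hE0.ne'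
  rw [Metric.tendsto_nhdsWithin_nhds]
  intro ε hε
  obtain ⟨δ, hδ, hδ2⟩ := Metric.continuousAt_iff.mp hc ε hε
  refine ⟨min δ η0, lt_min hδ h0, ?_⟩
  rintro ⟨ξ, η⟩ hp hd
  simp only [mem_ofPred_eq] at hp
  rw [Prod.dist_eq, max_lt_iff] at hd
  simp only at hd
  have hη : 0 < η := by
    have := (hd.2.trans_le (min_le_right _ _))
    rw [Real.dist_eq, abs_lt] at this; linarith
  obtain ⟨t, ht, he⟩ := exists_ratio_hasDerivAt_eq_ratio_slope (fun t => X (t, η)) (fun t => r (t, η) * G (t, η)) hp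
    (fun t _ => (comp_line (h.dX (t, η) hη)).continuousAt.continuousWithinAt) (fun t _ => comp_line (h.dX (t, η) hη))
    (fun t => n (t, η)) (fun t => E (t, η))
    (fun t _ => (comp_line (h.dn (t, η) hη)).continuousAt.continuousWithinAt) (fun t _ => comp_line (h.dn (t, η) hη))
  rw [h.n0 η hη, h.X0 η hη, sub_zero, sub_zero] at he
  have hEt := h.Epos (p := (t, η)) hη ht.1.le
  have hn := h.npos (ξ, η) hη hp
  have e : X (ξ, η) / n (ξ, η) = r (t, η) * G (t, η) / E (t, η) := by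
    rw [div_eq_div_iff hn.ne' hEt.ne']
    linarith
  rw [e]
  apply hδ2
  rw [Prod.dist_eq, max_lt_iff]
  refine ⟨?_, (hd.2.trans_le (min_le_left _ _))⟩
  have := (hd.1.trans_le (min_le_left _ _))
  simp only
  rw [Real.dist_eq, sub_zero, abs_of_pos hp] at this
  rw [Real.dist_eq, sub_zero, abs_of_pos ht.1]
  linarith [ht.2]

lemma memAxis {η0 : ℝ} (h0 : 0 < η0) : ∀ᶠ p in 𝓝[{p : ℝ × ℝ | 0 < p.1}] ((0 : ℝ), η0), 0 < p.1 ∧ 0 < p.2 := by
  have h1 : ∀ᶠ p in 𝓝[{p : ℝ × ℝ | 0 < p.1}] ((0 : ℝ), η0), 0 < p.1 := eventually_mem_nhdsWithin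
  have h2 : ∀ᶠ p in 𝓝[{p : ℝ × ℝ | 0 < p.1}] ((0 : ℝ), η0), 0 < p.2 :=
    nhdsWithin_le_nhds (continuous_snd.continuousAt.eventually (lt_mem_nhds h0))
  exact h1.and h2

theorem Sys.limz (h : Sys n r E X G l) {η0 : ℝ} (h0 : 0 < η0) :
    Tendsto (zf n r E X) (𝓝[{p : ℝ × ℝ | 0 < p.1}] ((0 : ℝ), η0)) (𝓝 (G (0, η0))) := by
  have hE0 := h.Epos (p := (0, η0)) h0 le_rfl
  have hr0 := h.rpos (0, η0) h0
  have hcE : ContinuousAt E (0, η0) := (h.dE (p := (0, η0)) h0).continuousAt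
  have hcr : ContinuousAt r (0, η0) := (h.dr (0, η0) h0).continuousAt
  have h1 := (((hcE.div hcr hr0.ne').tendsto).mono_left
    (nhdsWithin_le_nhds (s := {p : ℝ × ℝ | 0 < p.1}))).mul (h.lim0 h0)
  have e : E (0, η0) / r (0, η0) * (r (0, η0) * G (0, η0) / E (0, η0)) = G (0, η0) := by field_simp
  simp only [Pi.div_apply] at h1
  rw [e] at h1
  refine h1.congr' ?_
  filter_upwards [memAxis h0] with p hp
  have hn := h.npos p hp.2 hp.1
  have hr := h.rpos p hp.2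
  unfold zf
  field_simp

theorem Sys.limm (h : Sys n r E X G l) {η0 : ℝ} (h0 : 0 < η0) :
    Tendsto (mf n r X) (𝓝[{p : ℝ × ℝ | 0 < p.1}] ((0 : ℝ), η0))
      (𝓝 (E (0, η0) / (r (0, η0) ^ 2 * G (0, η0)))) := by
  have hE0 := h.Epos (p := (0, η0)) h0 le_rfl
  have hr0 := h.rpos (0, η0) h0
  have hg0 := (h.Gpos (0, η0) h0).1
  have hcr : ContinuousAt r (0, η0) := (h.dr (0, η0) h0).continuousAt
  have h1 := ((hcr.tendsto).mono_left
    (nhdsWithin_le_nhds (s := {p : ℝ × ℝ | 0 < p.1}))).mul (h.lim0 h0)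
  have h2 := h1.inv₀ (by positivity)
  have e : (r (0, η0) * (r (0, η0) * G (0, η0) / E (0, η0)))⁻¹ = E (0, η0) / (r (0, η0) ^ 2 * G (0, η0)) := by
    field_simp
  rw [e] at h2
  refine h2.congr' ?_
  filter_upwards [memAxis h0] with p hp
  have hn := h.npos p hp.2 hp.1
  have hr := h.rpos p hp.2
  have hX := (h.Xpos p hp.2 hp.1).1
  unfold mf
  field_simp

theorem Sys.limy (h : Sys n r E X G l) {η0 : ℝ} (h0 : 0 < η0) :
    Tendsto (yf n r E X G) (𝓝[{p : ℝ × ℝ | 0 < p.1}] ((0 : ℝ), η0))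
      (𝓝 (E (0, η0) / (r (0, η0) ^ 2 * G (0, η0) ^ 2))) := by
  have hE0 := h.Epos (p := (0, η0)) h0 le_rfl
  have hr0 := h.rpos (0, η0) h0
  have hg0 := (h.Gpos (0, η0) h0).1
  have hcG : ContinuousAt G (0, η0) := (h.dG (0, η0) h0).continuousAt
  have hG := (hcG.tendsto).mono_left (nhdsWithin_le_nhds (s := {p : ℝ × ℝ | 0 < p.1}))
  have h1 := ((h.limm h0).mul ((hG.add_const 2).sub (h.limz h0))).div (hG.const_mul 2) (by positivity)
  have e : E (0, η0) / (r (0, η0) ^ 2 * G (0, η0)) * (G (0, η0) + 2 - G (0, η0)) / (2 * G (0, η0)) =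
      E (0, η0) / (r (0, η0) ^ 2 * G (0, η0) ^ 2) := by
    field_simp; ring
  rw [e] at h1
  exact h1

/-- lower bound for `e` near the axis -/
theorem Sys.e_gt_near (h : Sys n r E X G l) {η0 el : ℝ} (h0 : 0 < η0)
    (hel : 0 < 4 - 3 * el * G (0, η0) + E (0, η0) / (r (0, η0) ^ 2 * G (0, η0)) * (2 - 4 * G (0, η0))) :
    ∀ᶠ p in 𝓝[{p : ℝ × ℝ | 0 < p.1}] ((0 : ℝ), η0), G p + el * X p ^ 2 < zf n r E X p := by
  have hcG : ContinuousAt G (0, η0) := (h.dG (0, η0) h0).continuousAt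
  have hG := (hcG.tendsto).mono_left (nhdsWithin_le_nhds (s := {p : ℝ × ℝ | 0 < p.1}))
  have hz := h.limz h0
  have hm := h.limm h0
  have h1 : Tendsto (fun p => 4 - el * zf n r E X p + mf n r X p * (2 - zf n r E X p - 3 * G p) - 2 * el * G p)
      (𝓝[{p : ℝ × ℝ | 0 < p.1}] ((0 : ℝ), η0))
      (𝓝 (4 - 3 * el * G (0, η0) + E (0, η0) / (r (0, η0) ^ 2 * G (0, η0)) * (2 - 4 * G (0, η0)))) := by
    have := ((tendsto_const_nhds (x := (4 : ℝ))).sub (hz.const_mul el)).add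
      (hm.mul (((tendsto_const_nhds (x := (2 : ℝ))).sub hz).sub (hG.const_mul 3)))
    have := this.sub (hG.const_mul (2 * el))
    have e : 4 - el * G (0, η0) + E (0, η0) / (r (0, η0) ^ 2 * G (0, η0)) * (2 - G (0, η0) - 3 * G (0, η0)) -
        2 * el * G (0, η0) = 4 - 3 * el * G (0, η0) + E (0, η0) / (r (0, η0) ^ 2 * G (0, η0)) * (2 - 4 * G (0, η0)) := by
      ring
    rw [e] at this
    exact this
  have h2 := h1.eventually (lt_mem_nhds hel)
  rw [eventually_nhdsWithin_iff, Metric.eventually_nhds_iff] at h2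
  obtain ⟨δ, hδ, hδ2⟩ := h2
  rw [eventually_nhdsWithin_iff, Metric.eventually_nhds_iff]
  refine ⟨min δ η0, lt_min hδ h0, ?_⟩
  rintro ⟨ξ, η⟩ hd hp
  simp only [mem_ofPred_eq] at hp
  rw [Prod.dist_eq, max_lt_iff] at hd
  simp only at hd
  have hη : 0 < η := by
    have := (hd.2.trans_le (min_le_right _ _))
    rw [Real.dist_eq, abs_lt] at this; linarith
  apply h.Wpos hη hp
  intro t ht ht2
  refine hδ2 (y := (t, η)) ?_ ht
  rw [Prod.dist_eq, max_lt_iff]
  refine ⟨?_, (hd.2.trans_le (min_le_left _ _))⟩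
  have := (hd.1.trans_le (min_le_left _ _))
  simp only
  rw [Real.dist_eq, sub_zero, abs_of_pos hp] at this
  rw [Real.dist_eq, sub_zero, abs_of_pos ht]
  linarith

end

end Pool.Agent.Helper157.Star
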