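import Pool.Agent.Helper157.StarB
import Pool.Agent.Helper157.StarPoly2

set_option autoImplicit false

open Filter Topology Set

namespace Pool.Agent.Helper157.Star

open Pool.Agent.Helper157.StarPoly

noncomputable section

lemma RR_hasDeriv {s m e : ℝ → ℝ} {s' m' e' η : ℝ} (ds : HasDerivAt s s' η) (dm : HasDerivAt m m' η)
    (de : HasDerivAt e e' η) : HasDerivAt (fun t => RR (s t) (m t) (e t))
      (Rs (s η) (m η) (e η) * s' + Rm (s η) (m η) (e η) * m' + Re (s η) (m η) (e η) * e') η := by
  have e1 : HasDerivAt (fun t => e t * s t / 2) ((e' * s η + e η * s') / 2) η := (de.mul ds).div_const 2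
  have e2 : HasDerivAt (fun t => gg (s t) (m t) (e t))
      (m' * (1 - e η * s η / 2) + m η * (0 - (e' * s η + e η * s') / 2)) η :=
    dm.mul ((hasDerivAt_const η (1 : ℝ)).sub e1)
  have e3 : HasDerivAt (fun t => zz (s t) (m t) (e t))
      (m' + ((e' * s η + e η * s') / 2 * (2 - m η) + e η * s η / 2 * (0 - m'))) η :=
    dm.add (e1.mul ((hasDerivAt_const η (2 : ℝ)).sub dm))
  have e4 := (((de.mul ((((hasDerivAt_const η (2 : ℝ)).add (ds.const_mul 6)).add
      (e2.mul ((hasDerivAt_const η (1 : ℝ)).sub ds))))).sub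
      ((((hasDerivAt_const η (3 : ℝ)).add ds).sub (e2.const_mul 2)).const_mul 4)).add
      (((((hasDerivAt_const η (1 : ℝ)).sub (dm.const_mul 2)).const_mul 2).mul
        (((hasDerivAt_const η (2 : ℝ)).add (ds.const_mul 6)).sub
          (e3.mul ((hasDerivAt_const η (3 : ℝ)).add ds))))))
  refine e4.congr_deriv ?_
  simp only [Pi.mul_apply, Pi.add_apply, Pi.sub_apply]
  unfold Rs Rm Re gg zz
  ring

/-- the trap along the critical curve -/
theorem trap {ηb : ℝ} {s m e w lam : ℝ → ℝ}
    (hC : ∀ η, ηb < η → Crit (s η) (m η) (e η)) (hw : ∀ η, ηb < η → 0 < w η)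
    (hlam : ∀ η, ηb < η → lam η = -RR (s η) (m η) (e η) / NN (s η) (m η) (e η))
    (ds : ∀ η, ηb < η → HasDerivAt s
      (w η * (Ds (s η) (m η) (e η) + lam η * (2 * gg (s η) (m η) (e η) * s η))) η)
    (dm : ∀ η, ηb < η → HasDerivAt m
      (w η * (Dm (s η) (m η) (e η) + lam η * (m η * s η * (e η + 2 * m η)))) η)
    (de : ∀ η, ηb < η → HasDerivAt e
      (w η * (De (s η) (m η) (e η) + lam η * (4 - e η * zz (s η) (m η) (e η) +
        m η * (2 - zz (s η) (m η) (e η) - 3 * gg (s η) (m η) (e η)) - 2 * e η * gg (s η) (m η) (e η)))) η)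
    (hstart : ∀ᶠ η in 𝓝[>] ηb, 0 < RR (s η) (m η) (e η) ∧ m η < l1 (s η) ∧ m η < l2 (s η)) :
    ∀ η, ηb < η → 0 < RR (s η) (m η) (e η) := by
  -- derivative of `m - ℓ(s)`
  have dl : ∀ (β c : ℝ) (η : ℝ), ηb < η → HasDerivAt (fun t => m t - (c + β * s t))
      (w η * (m η * s η * (F2 β (s η) (m η) (e η) / NN (s η) (m η) (e η)))) η := by
    intro β c η hη
    have hN := (hC η hη).N_pos
    have h1 := (dm η hη).sub (((ds η hη).const_mul β).const_add c)
    refine h1.congr_deriv ?_
    rw [hlam η hη]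
    unfold F2 Ds Dm
    generalize NN (s η) (m η) (e η) = NV at *
    generalize RR (s η) (m η) (e η) = RV at *
    generalize KK (s η) (m η) (e η) = KV at *
    unfold gg
    field_simp
    ring
  set k1 : ℝ → ℝ := fun t => l1 (s t) - m t with hk1
  set k2 : ℝ → ℝ := fun t => l2 (s t) - m t with hk2
  set k3 : ℝ → ℝ := fun t => RR (s t) (m t) (e t) with hk3
  have c1 : ∀ η, ηb < η → ContinuousAt k1 η := fun η hη => by
    have h1 := (ds η hη).continuousAt
    have h2 := (dm η hη).continuousAt
    simp only [hk1]; unfold l1; fun_prop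
  have c2 : ∀ η, ηb < η → ContinuousAt k2 η := fun η hη => by
    have h1 := (ds η hη).continuousAt
    have h2 := (dm η hη).continuousAt
    simp only [hk2]; unfold l2; fun_prop
  have c3 : ∀ η, ηb < η → ContinuousAt k3 η := fun η hη =>
    (RR_hasDeriv (ds η hη) (dm η hη) (de η hη)).continuousAt
  have good : ∀ η, ηb < η → (0 < k3 η ∧ 0 < k1 η ∧ 0 < k2 η) := by
    by_contra hcon
    push Not at hcon
    obtain ⟨η1, hη1, hbad⟩ := hcon
    -- near ηb good
    obtain ⟨u, hu, hu2⟩ := (mem_nhdsGT_iff_exists_Ioo_subset' hη1).mp hstart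
    simp only [mem_Ioi] at hu
    have hgood0 : ∀ t, ηb < t → t < u → (0 < k3 t ∧ 0 < k1 t ∧ 0 < k2 t) := by
      intro t h1 h2
      have := hu2 (show t ∈ Ioo ηb u from ⟨h1, h2⟩)
      simp only [mem_ofPred_eq] at this
      exact ⟨this.1, by simp only [hk1]; linarith [this.2.1], by simp only [hk2]; linarith [this.2.2]⟩
    set T := {t | ηb < t ∧ ¬ (0 < k3 t ∧ 0 < k1 t ∧ 0 < k2 t)} with hT
    have hTne : T.Nonempty := ⟨η1, hη1, fun hh => by
      have := hbad hh.1 hh.2.1
      linarith [hh.2.2]⟩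
    have hTb : ∀ t ∈ T, u ≤ t := by
      intro t ht
      by_contra h
      push Not at h
      exact ht.2 (hgood0 t ht.1 h)
    have hTbd : BddBelow T := ⟨u, hTb⟩
    set η := sInf T with hη0
    have hηu : u ≤ η := le_csInf hTne hTb
    have hη : ηb < η := lt_of_lt_of_le hu hηu
    have hbefore : ∀ t, ηb < t → t < η → (0 < k3 t ∧ 0 < k1 t ∧ 0 < k2 t) := by
      intro t h1 h2
      by_contra h
      exact absurd (csInf_le hTbd (show t ∈ T from ⟨h1, h⟩)) (not_le.mpr h2)
    have hnear : ∀ᶠ t in 𝓝[<] η, ηb < t ∧ t < η := by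
      filter_upwards [Ioo_mem_nhdsLT hη] with t ht using ht
    have nn1 : 0 ≤ k1 η := ge_of_tendsto ((c1 η hη).tendsto.mono_left nhdsWithin_le_nhds)
      (hnear.mono fun t ht => (hbefore t ht.1 ht.2).2.1.le)
    have nn2 : 0 ≤ k2 η := ge_of_tendsto ((c2 η hη).tendsto.mono_left nhdsWithin_le_nhds)
      (hnear.mono fun t ht => (hbefore t ht.1 ht.2).2.2.le)
    have nn3 : 0 ≤ k3 η := ge_of_tendsto ((c3 η hη).tendsto.mono_left nhdsWithin_le_nhds)
      (hnear.mono fun t ht => (hbefore t ht.1 ht.2).1.le)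
    -- η is bad
    have hηbad : ¬ (0 < k3 η ∧ 0 < k1 η ∧ 0 < k2 η) := by
      rintro ⟨g3, g1, g2⟩
      have h1 := ((c3 η hη).eventually (lt_mem_nhds g3)).and
        (((c1 η hη).eventually (lt_mem_nhds g1)).and ((c2 η hη).eventually (lt_mem_nhds g2)))
      obtain ⟨ε, hε, hε2⟩ := Metric.eventually_nhds_iff.mp h1
      obtain ⟨t, ht, ht2⟩ := exists_lt_of_csInf_lt hTne (show sInf T < η + ε by rw [← hη0]; linarith)
      apply ht.2
      apply hε2
      have : η ≤ t := csInf_le hTbd ht
      rw [Real.dist_eq, abs_lt]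
      constructor <;> linarith
    have hCr := hC η hη
    have hN := hCr.N_pos
    have hs0 := hCr.s0
    have hm0 := hCr.m0
    have hwη := hw η hη
    simp only [hk1] at nn1
    simp only [hk2] at nn2
    simp only [hk3] at nn3
    -- a contradiction when one of the functions vanishes with the wrong derivative
    have kill : ∀ (f : ℝ → ℝ) (d : ℝ), HasDerivAt f d η → 0 < d → f η = 0 →
        (∀ t, ηb < t → t < η → 0 < f t) → False := by
      intro f d hf hd h0 hb
      obtain ⟨t, ht, ht2⟩ := ((sign_left hf hd h0).and hnear).exists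
      have := hb t ht2.1 ht2.2
      linarith
    rcases le_or_gt (s η) (1 / 4) with hs4 | hs4
    · have hl12 : l1 (s η) ≤ l2 (s η) := by unfold l1 l2; linarith
      have hml : m η ≤ l1 (s η) := by linarith
      rcases hml.lt_or_eq with hml' | hml'
      · -- then RR = 0
        have hR0 : RR (s η) (m η) (e η) = 0 := by
          by_contra h
          apply hηbad
          refine ⟨lt_of_le_of_ne nn3 (Ne.symm h), ?_, ?_⟩
          · simp only [hk1]; linarith
          · simp only [hk2]; linarith
        have hP := P1 hs0 hs4 hm0.le hml hCr.es hR0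
        have hl0 : lam η = 0 := by rw [hlam η hη, hR0]; simp
        refine kill k3 _ (RR_hasDeriv (ds η hη) (dm η hη) (de η hη)) ?_ hR0 (fun t h1 h2 => (hbefore t h1 h2).1)
        rw [hl0]
        have : Rs (s η) (m η) (e η) * (w η * (Ds (s η) (m η) (e η) + 0 * (2 * gg (s η) (m η) (e η) * s η))) +
          Rm (s η) (m η) (e η) * (w η * (Dm (s η) (m η) (e η) + 0 * (m η * s η * (e η + 2 * m η)))) +
          Re (s η) (m η) (e η) * (w η * (De (s η) (m η) (e η) + 0 * (4 - e η * zz (s η) (m η) (e η) +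
        m η * (2 - zz (s η) (m η) (e η) - 3 * gg (s η) (m η) (e η)) - 2 * e η * gg (s η) (m η) (e η)))) =
          w η * DR (s η) (m η) (e η) := by unfold DR; ring
        rw [this]
        positivity
      · -- m = l1
        have hF := P2a (e := e η) hs0.le hs4 (by rw [← hml']; exact nn3)
        rw [← hml'] at hF
        have hd := (dl (185 / 1000) (383 / 1000) η hη).neg
        refine kill k1 _ (hd.congr_of_eventuallyEq ?_) ?_ ?_ (fun t h1 h2 => (hbefore t h1 h2).2.1)
        · filter_upwards with t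
          simp only [hk1, Pi.neg_apply]; unfold l1; ring
        · have h5 : F2 (185 / 1000) (s η) (m η) (e η) / NN (s η) (m η) (e η) < 0 := div_neg_of_neg_of_pos hF hN
          have h6 : w η * (m η * s η * (F2 (185 / 1000) (s η) (m η) (e η) / NN (s η) (m η) (e η))) < 0 :=
            mul_neg_of_pos_of_neg hwη (mul_neg_of_pos_of_neg (by positivity) h5)
          linarith
        · simp only [hk1]; linarith
    · have hl12 : l2 (s η) < l1 (s η) := by unfold l1 l2; linarith
      have hml : m η ≤ l2 (s η) := by linarith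
      set σ := Real.sqrt (s η) with hσ
      have hσ2 : σ ^ 2 = s η := Real.sq_sqrt hs0.le
      have hσ0 : 0 < σ := Real.sqrt_pos.mpr hs0
      have hσ1 : 1 / 2 ≤ σ := by
        by_contra h; push Not at h; nlinarith
      have hσlt : σ < 1 := by
        have := hCr.s1
        by_contra h; push Not at h; nlinarith
      have hz := hCr.zs σ hσ0 hσ2
      have hR : 0 < RR (s η) (m η) (e η) := by
        rw [← hσ2]
        exact P3 hσ1 hσlt hm0 (by rw [hσ2]; exact hml) hCr.m1 (by rw [hσ2]; exact hz) (by rw [hσ2]; exact hCr.z2)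
      rcases hml.lt_or_eq with hml' | hml'
      · exact hηbad ⟨hR, by simp only [hk1]; linarith, by simp only [hk2]; linarith⟩
      · have hF := P2b (σ := σ) (e := e η) hσ1 (by rw [hσ2, ← hml']; exact hCr.m1)
          (by rw [hσ2, ← hml']; exact hz)
        rw [hσ2, ← hml'] at hF
        have hd := (dl (15 / 100) (39175 / 100000) η hη).neg
        refine kill k2 _ (hd.congr_of_eventuallyEq ?_) ?_ ?_ (fun t h1 h2 => (hbefore t h1 h2).2.2)
        · filter_upwards with t
          simp only [hk2, Pi.neg_apply]; unfold l2; ring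
        · have h5 : F2 (15 / 100) (s η) (m η) (e η) / NN (s η) (m η) (e η) < 0 := div_neg_of_neg_of_pos hF hN
          have h6 : w η * (m η * s η * (F2 (15 / 100) (s η) (m η) (e η) / NN (s η) (m η) (e η))) < 0 :=
            mul_neg_of_pos_of_neg hwη (mul_neg_of_pos_of_neg (by positivity) h5)
          linarith
        · simp only [hk2]; linarith
  intro η hη
  exact (good η hη).1

end

end Pool.Agent.Helper157.Star
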