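import Pool.Agent.Helper157.StarI
import Pool.Agent.Helper157.StarE
import Pool.Agent.Helper974.Star.N2

set_option autoImplicit false

open Filter Topology Set

namespace Pool.Agent.Helper157.Star

open Pool.Agent.Helper974.Star

noncomputable section

/-! ### coordinates -/

/-- the point `(ξ, η)` with given `(a, b)` -/
def co (a b : ℝ) : ℝ × ℝ := ((Real.artanh (-b) - Real.artanh a) / 2, (Real.artanh (-b) + Real.artanh a) / 2)

lemma co_af {a : ℝ} (b : ℝ) (h1 : -1 < a) (h2 : a < 1) : af (co a b) = a := by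
  unfold af co
  have : (Real.artanh (-b) + Real.artanh a) / 2 - (Real.artanh (-b) - Real.artanh a) / 2 = Real.artanh a := by ring
  simp only
  rw [this, Real.tanh_artanh ⟨h1, h2⟩]

lemma co_bf (a : ℝ) {b : ℝ} (h1 : -1 < b) (h2 : b < 1) : bf (co a b) = b := by
  unfold bf co
  have : (Real.artanh (-b) + Real.artanh a) / 2 + (Real.artanh (-b) - Real.artanh a) / 2 = Real.artanh (-b) := by ring
  simp only
  rw [this, Real.tanh_artanh ⟨by linarith, by linarith⟩, neg_neg]

lemma artanh_neg' (b : ℝ) (h1 : -1 < b) (h2 : b < 1) : Real.artanh (-b) = -Real.artanh b := by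
  apply Real.tanh_injective
  rw [Real.tanh_neg, Real.tanh_artanh ⟨by linarith, by linarith⟩, Real.tanh_artanh ⟨h1, h2⟩]

lemma co_pos {a b : ℝ} (hb : -1 < b) (hba : b < a) (ha : a < 1) : 0 < (co a b).2 := by
  unfold co
  simp only
  rw [artanh_neg' b hb (by linarith)]
  have := Real.artanh_lt_artanh hb ha hba
  linarith

lemma co_nonneg {a b : ℝ} (hb : -1 < b) (hba : b < a) (ha : a < 1) (hab : a + b ≤ 0) : 0 ≤ (co a b).1 := by
  unfold co
  simp only
  have := Real.artanh_le_artanh (x := a) (y := -b) (by linarith) (by linarith) (by linarith)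
  linarith

lemma co_af_bf {p : ℝ × ℝ} : co (af p) (bf p) = p := by
  unfold co af bf
  rw [neg_neg, Real.artanh_tanh, Real.artanh_tanh]
  ext <;> simp

/-- `F` in the `(a, b)` variables -/
def Fv (a b : ℝ) : ℝ := Vc a b + 2 * xx a b ^ 2

lemma FF_eq {p : ℝ × ℝ} (hp : 0 < p.2) : FF nf rf Xf p = Fv (af p) (bf p) := by
  unfold FF Fv
  rw [xx_eq hp]
  unfold Vc
  rw [TT_eq hp, af_eq, bf_eq]
  ring

lemma xf_eq {p : ℝ × ℝ} (hp : 0 < p.2) : xf' rf Xf p = xx (af p) (bf p) := (xx_eq hp).symm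

lemma K_eq {p : ℝ × ℝ} (hp : 0 < p.2) :
    Kf nf rf Ef Xf Gf p = 2 * Gf p * (Lc (af p) (bf p) / 4 - xx (af p) (bf p)) := by
  have h1 := H_eq hp
  rw [xx_eq hp]
  unfold Lc Kf
  have h2 : af p + bf p = -2 * nf p := by unfold nf; ring
  rw [h2]
  linarith

/-! ### monotonicity in `a` -/

lemma comp_path {F : ℝ × ℝ → ℝ} {α β t c1' c2' : ℝ} {c1 c2 : ℝ → ℝ} (hF : HasFDerivAt F (LF α β) (c1 t, c2 t))
    (h1 : HasDerivAt c1 c1' t) (h2 : HasDerivAt c2 c2' t) :
    HasDerivAt (fun t => F (c1 t, c2 t)) (α * c1' + β * c2') t := by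
  have h3 : HasDerivAt (fun t : ℝ => (c1 t, c2 t)) (c1', c2') t := h1.prodMk h2
  have h4 := HasFDerivAt.comp_hasDerivAt (f := fun t : ℝ => (c1 t, c2 t)) t hF h3
  rw [LF_apply] at h4
  exact h4

lemma Xf_gt {p : ℝ × ℝ} (hp : 0 < p.2) : -1 < Xf p := by
  obtain ⟨m1, m2, m3⟩ := S1_mem p hp
  obtain ⟨-, -, t2, -⟩ := facts m1 m2 m3
  have hr := rf_pos hp
  rw [TT_eq hp, af_eq] at t2
  nlinarith

theorem ll_mono {b : ℝ} (hb : -1 < b) (hb1 : b < 1) : StrictMonoOn (fun a => ll a b) (Ioo b 1) := by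
  set v := Real.artanh (-b) with hv
  have key : StrictMonoOn (fun t => lf ((v - t) / 2, (v + t) / 2)) (Ioi (-v)) := by
    have hd : ∀ t, -v < t → HasDerivAt (fun t => lf ((v - t) / 2, (v + t) / 2))
        (-2 * rf ((v - t) / 2, (v + t) / 2) * Xf ((v - t) / 2, (v + t) / 2) * (-1 / 2) +
          rf ((v - t) / 2, (v + t) / 2) * (1 + Xf ((v - t) / 2, (v + t) / 2) ^ 2) * (1 / 2)) t := by
      intro t ht
      have h1 : HasDerivAt (fun t : ℝ => (v - t) / 2) (-1 / 2) t := by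
        have := ((hasDerivAt_id t).const_sub v).div_const 2
        simpa using this
      have h2 : HasDerivAt (fun t : ℝ => (v + t) / 2) (1 / 2) t := by
        have := ((hasDerivAt_id t).const_add v).div_const 2
        simpa using this
      exact comp_path (sysf.dl ((v - t) / 2, (v + t) / 2) (by simp only; linarith)) h1 h2
    apply strictMonoOn_of_deriv_pos (convex_Ioi _)
    · exact fun t ht => (hd t ht).continuousAt.continuousWithinAt
    · intro t ht
      rw [interior_Ioi] at ht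
      rw [(hd t ht).deriv]
      have hp : 0 < ((v - t) / 2, (v + t) / 2).2 := by simp only; simp only [mem_Ioi] at ht; linarith
      have hr := rf_pos hp
      have hX := Xf_gt hp
      generalize rf ((v - t) / 2, (v + t) / 2) = R at *
      generalize Xf ((v - t) / 2, (v + t) / 2) = Y at *
      have : 0 < R * (1 + Y) ^ 2 := mul_pos hr (by have : 0 < 1 + Y := by linarith
                                                   positivity)
      nlinarith
  intro a ha a' ha' haa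
  have e : ∀ x ∈ Ioo b 1, ll x b = lf ((v - Real.artanh x) / 2, (v + Real.artanh x) / 2) := by
    intro x hx
    have h1 : af (co x b) = x := co_af b (by linarith [hx.1]) hx.2
    have h2 : bf (co x b) = b := co_bf x hb hb1
    have h3 : lf (co x b) = ll x b := by unfold lf; rw [h1, h2]
    rw [← h3]; rfl
  have hmem : ∀ x ∈ Ioo b 1, Real.artanh x ∈ Ioi (-v) := by
    intro x hx
    have := co_pos hb hx.1 hx.2
    unfold co at this
    simp only at this
    simp only [mem_Ioi]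
    linarith
  simp only
  rw [e a ha, e a' ha']
  exact key (hmem a ha) (hmem a' ha') (Real.artanh_lt_artanh (by linarith [ha.1]) ha'.2 haa)

/-! ### limits at the Pick end -/

lemma bf_lim {L η0 : ℝ} {c : ℝ → ℝ} (g : Lev lf L η0 c) :
    Tendsto (fun η => bf (c η, η)) atTop (𝓝[>] (-1)) := by
  apply tendsto_nhdsWithin_of_tendsto_nhds_of_eventually_within
  · rw [Metric.tendsto_nhds]
    intro ε hε
    obtain ⟨δ, hδ⟩ : ∃ δ, δ = min ε 1 / 2 := ⟨_, rfl⟩
    have hδ0 : 0 < δ := by rw [hδ]; have := lt_min hε one_pos; linarith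
    have hδ1 : δ < ε := by rw [hδ]; have := min_le_left ε 1; have := lt_min hε one_pos; linarith
    have hδ2 : δ < 1 := by rw [hδ]; have := min_le_right ε 1; linarith
    filter_upwards [eventually_ge_atTop η0, eventually_gt_atTop (Real.artanh (1 - δ))] with η h1 h2
    have h3 := g.nonneg h1
    have h4 : Real.tanh (Real.artanh (1 - δ)) < Real.tanh (η + c η) := tanh_lt' (by linarith)
    rw [Real.tanh_artanh ⟨by linarith, by linarith⟩] at h4
    have h5 := Real.tanh_lt_one (η + c η)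
    unfold bf
    simp only
    rw [Real.dist_eq, abs_lt]
    constructor <;> linarith
  · filter_upwards with η
    simp only [mem_Ioi]
    unfold bf
    simp only
    linarith [Real.tanh_lt_one (η + c η)]

lemma ll_lim0 {a : ℝ} (h0 : -1 < a) (h1 : a < 1) :
    Tendsto (fun b : ℝ => (a, b, TT a b)) (𝓝[>] (-1)) (𝓝 a ×ˢ (𝓝[>] (-1) ×ˢ 𝓝 (-1))) := by
  have hT := B10M.B10_T h0 h1
  have h2 : Tendsto (fun b : ℝ => (a, b)) (𝓝[>] (-1)) (𝓝 a ×ˢ 𝓝[>] (-1)) :=
    tendsto_const_nhds.prodMk tendsto_id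
  have h4 : Tendsto (fun b : ℝ => TT a b) (𝓝[>] (-1)) (𝓝 (-1)) := by
    have := hT.comp h2
    refine this.congr (fun b => ?_)
    simp only [Function.comp_apply]
  exact tendsto_const_nhds.prodMk (tendsto_id.prodMk h4)

lemma ll_lim1 {a : ℝ} (h0 : -1 < a) (h1 : a < 1) :
    Tendsto (fun b => lv a b (TT a b)) (𝓝[>] (-1)) (𝓝 (-Real.log ((1 - a) / 2))) := by
  have hl := B10M.B10_l h0 h1
  rw [B5M.B10_pick_value h0 h1] at hl
  have h4 := hl.comp (ll_lim0 h0 h1)
  refine h4.congr (fun b => ?_)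
  simp only [Function.comp_apply]

lemma ll_lim {a : ℝ} (h0 : -1 < a) (h1 : a < 1) :
    Tendsto (fun b => ll a b) (𝓝[>] (-1)) (𝓝 (-Real.log ((1 - a) / 2))) := by
  unfold ll
  exact ll_lim1 h0 h1

lemma af_lim {L η0 : ℝ} {c : ℝ → ℝ} (g : Lev lf L η0 c) :
    Tendsto (fun η => af (c η, η)) atTop (𝓝 (1 - 2 * Real.exp (-L))) := by
  have hL := g.L0
  have he0 := Real.exp_pos (-L)
  have he1 : Real.exp (-L) < 1 := by rw [Real.exp_lt_one_iff]; linarith
  rw [Metric.tendsto_nhds]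
  intro ε hε
  obtain ⟨δ, hδ⟩ : ∃ δ, δ = min ε (min (2 * Real.exp (-L)) (2 * (1 - Real.exp (-L)))) / 2 := ⟨_, rfl⟩
  have hm : 0 < min ε (min (2 * Real.exp (-L)) (2 * (1 - Real.exp (-L)))) :=
    lt_min hε (lt_min (by linarith) (by linarith))
  have hm1 := min_le_left ε (min (2 * Real.exp (-L)) (2 * (1 - Real.exp (-L))))
  have hm2 := min_le_right ε (min (2 * Real.exp (-L)) (2 * (1 - Real.exp (-L))))
  have hm3 := min_le_left (2 * Real.exp (-L)) (2 * (1 - Real.exp (-L)))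
  have hm4 := min_le_right (2 * Real.exp (-L)) (2 * (1 - Real.exp (-L)))
  have hδ0 : 0 < δ := by rw [hδ]; linarith
  have hδ1 : δ < ε := by rw [hδ]; linarith
  have hδ2 : δ < 2 * Real.exp (-L) := by rw [hδ]; linarith
  have hδ3 : δ < 2 * (1 - Real.exp (-L)) := by rw [hδ]; linarith
  obtain ⟨aP, haP⟩ : ∃ aP, aP = 1 - 2 * Real.exp (-L) := ⟨_, rfl⟩
  have l1 := ll_lim (a := aP - δ) (by linarith) (by linarith)
  have l2 := ll_lim (a := aP + δ) (by linarith) (by linarith)
  have v1 : -Real.log ((1 - (aP - δ)) / 2) < L := by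
    have : Real.log (Real.exp (-L)) < Real.log ((1 - (aP - δ)) / 2) :=
      Real.log_lt_log he0 (by linarith)
    rw [Real.log_exp] at this; linarith
  have v2 : L < -Real.log ((1 - (aP + δ)) / 2) := by
    have : Real.log ((1 - (aP + δ)) / 2) < Real.log (Real.exp (-L)) :=
      Real.log_lt_log (by linarith) (by linarith)
    rw [Real.log_exp] at this; linarith
  have hb := bf_lim g
  have hb2 : ∀ᶠ b in 𝓝[>] (-1 : ℝ), b < aP - δ :=
    nhdsWithin_le_nhds (gt_mem_nhds (show (-1 : ℝ) < aP - δ by linarith))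
  filter_upwards [hb.eventually (l1.eventually (gt_mem_nhds v1)), hb.eventually (l2.eventually (lt_mem_nhds v2)),
    hb.eventually hb2, eventually_ge_atTop η0] with η h1 h2 h3 h4
  have hη : 0 < η := g.e0.trans_le h4
  obtain ⟨m1, m2, m3⟩ := S1_mem (c η, η) hη
  have hlev : ll (af (c η, η)) (bf (c η, η)) = L := g.lev η h4
  have hmono := ll_mono m1 (by linarith)
  rw [Real.dist_eq, abs_lt, ← haP]
  constructor
  · by_contra hcon
    push Not at hcon
    have h5 : af (c η, η) ≤ aP - δ := by linarith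
    have h6 := hmono.monotoneOn ⟨m2, m3⟩ ⟨h3, by linarith⟩ h5
    linarith
  · by_contra hcon
    push Not at hcon
    have h5 : aP + δ ≤ af (c η, η) := by linarith
    have h6 := hmono.monotoneOn ⟨by linarith, by linarith⟩ ⟨m2, m3⟩ h5
    linarith

lemma ab_lim {L η0 : ℝ} {c : ℝ → ℝ} (g : Lev lf L η0 c) :
    Tendsto (fun η => (af (c η, η), bf (c η, η))) atTop (𝓝 (1 - 2 * Real.exp (-L)) ×ˢ 𝓝[>] (-1)) :=
  (af_lim g).prodMk (bf_lim g)

lemma aP_mem {L : ℝ} (hL : 0 < L) : -1 < 1 - 2 * Real.exp (-L) ∧ 1 - 2 * Real.exp (-L) < 1 := by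
  have he0 := Real.exp_pos (-L)
  have he1 : Real.exp (-L) < 1 := by rw [Real.exp_lt_one_iff]; linarith
  constructor <;> linarith

lemma TT_lim {L η0 : ℝ} {c : ℝ → ℝ} (g : Lev lf L η0 c) :
    Tendsto (fun η => TT (af (c η, η)) (bf (c η, η))) atTop (𝓝 (-1)) := by
  have h1 := B10M.B10_T (aP_mem g.L0).1 (aP_mem g.L0).2
  have h2 := ab_lim g
  have h3 := h1.comp h2
  refine h3.congr (fun b => ?_)
  simp only [Function.comp_apply]

lemma xx_lim {L η0 : ℝ} {c : ℝ → ℝ} (g : Lev lf L η0 c) :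
    Tendsto (fun η => xx (af (c η, η)) (bf (c η, η))) atTop (𝓝 (1 - Real.exp (-L))) := by
  have h1 := ((af_lim g).add ((bf_lim g).mono_right nhdsWithin_le_nhds)).div_const 2
  have h2 := h1.sub (TT_lim g)
  have e : (1 - 2 * Real.exp (-L) + -1) / 2 - -1 = 1 - Real.exp (-L) := by ring
  rw [e] at h2
  exact h2

lemma Fv_lim {L η0 : ℝ} {c : ℝ → ℝ} (g : Lev lf L η0 c) :
    Tendsto (fun η => Fv (af (c η, η)) (bf (c η, η))) atTop
      (𝓝 (3 - 8 * Real.exp (-L) + 5 * Real.exp (-L) ^ 2)) := by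
  have ha := af_lim g
  have hb := (bf_lim g).mono_right (nhdsWithin_le_nhds (s := Ioi (-1)))
  have hT := TT_lim g
  have hx := xx_lim g
  have h1 := ((((ha.add hb).pow 2).const_mul 3).div_const 4).sub ((ha.add hb).mul hT)
  have h2 := (h1.sub (ha.mul hb)).add ((hx.pow 2).const_mul 2)
  have e : 3 * (1 - 2 * Real.exp (-L) + -1) ^ 2 / 4 - (1 - 2 * Real.exp (-L) + -1) * -1 -
      (1 - 2 * Real.exp (-L)) * -1 + 2 * (1 - Real.exp (-L)) ^ 2 =
      3 - 8 * Real.exp (-L) + 5 * Real.exp (-L) ^ 2 := by ring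
  rw [e] at h2
  exact h2

lemma K_lim {L η0 : ℝ} {c : ℝ → ℝ} (g : Lev lf L η0 c) :
    Tendsto (fun η => Lc (af (c η, η)) (bf (c η, η)) / 4 - xx (af (c η, η)) (bf (c η, η))) atTop
      (𝓝 (Real.exp (-L) - cP (1 - 2 * Real.exp (-L)) - (1 - Real.exp (-L)))) := by
  obtain ⟨m1, m2⟩ := aP_mem g.L0
  have ha := af_lim g
  have hb := (bf_lim g).mono_right (nhdsWithin_le_nhds (s := Ioi (-1)))
  have hc0 := B10M.B10_c m1 m2
  have hc1 : Tendsto (fun η => cc (af (c η, η)) (bf (c η, η))) atTop (𝓝 (cP (1 - 2 * Real.exp (-L)))) := by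
    have := hc0.comp (ab_lim g)
    refine this.congr (fun b => ?_)
    simp only [Function.comp_apply]
  have h1 := ((((ha.add hb).const_mul (-2)).sub (hc1.const_mul 4)).div_const 4).sub (xx_lim g)
  have e : (-2 * (1 - 2 * Real.exp (-L) + -1) - 4 * cP (1 - 2 * Real.exp (-L))) / 4 - (1 - Real.exp (-L)) =
       Real.exp (-L) - cP (1 - 2 * Real.exp (-L)) - (1 - Real.exp (-L)) := by ring
  rw [e] at h1
  exact h1

/-- sign of the limit -/
lemma K_lim_sign {L : ℝ} (hL : 0 < L) : ∃ d, 0 < d ∧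
    Real.exp (-L) - cP (1 - 2 * Real.exp (-L)) - (1 - Real.exp (-L)) = -(phi (Real.exp (-L)) / d) := by
  obtain ⟨m1, m2⟩ := aP_mem hL
  obtain ⟨h1, h2⟩ := pick_sign (t := Real.exp (-L)) m1 m2 (by ring)
  refine ⟨2 * (Real.sqrt (1 - Real.exp (-L)) - Real.exp (-L) *
    Real.log ((1 + Real.sqrt (1 - Real.exp (-L))) / Real.sqrt (Real.exp (-L)))), by linarith, ?_⟩
  rw [← h2]; ring

/-- if `K > 0` for large `η` then `phi ≤ 0` -/
lemma phi_nonpos {L η0 : ℝ} {c : ℝ → ℝ} (g : Lev lf L η0 c)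
    (hK : ∀ᶠ η in atTop, 0 < Kf nf rf Ef Xf Gf (c η, η)) : phi (Real.exp (-L)) ≤ 0 := by
  obtain ⟨d, hd, hd2⟩ := K_lim_sign g.L0
  have h1 : 0 ≤ Real.exp (-L) - cP (1 - 2 * Real.exp (-L)) - (1 - Real.exp (-L)) := by
    apply ge_of_tendsto (K_lim g)
    filter_upwards [hK, eventually_gt_atTop 0] with η h2 h3
    rw [K_eq (p := (c η, η)) h3] at h2
    have h4 := (sysf.Gpos (c η, η) h3).1
    exact ((pos_iff_pos_of_mul_pos h2).mp (by linarith)).le
  rw [hd2] at h1
  by_contra hcon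
  push Not at hcon
  have := div_pos hcon hd
  linarith

/-- if `K < 0` for large `η` then `phi ≥ 0` -/
lemma phi_nonneg {L η0 : ℝ} {c : ℝ → ℝ} (g : Lev lf L η0 c)
    (hK : ∀ᶠ η in atTop, Kf nf rf Ef Xf Gf (c η, η) < 0) : 0 ≤ phi (Real.exp (-L)) := by
  obtain ⟨d, hd, hd2⟩ := K_lim_sign g.L0
  have h1 : Real.exp (-L) - cP (1 - 2 * Real.exp (-L)) - (1 - Real.exp (-L)) ≤ 0 := by
    apply le_of_tendsto (K_lim g)
    filter_upwards [hK, eventually_gt_atTop 0] with η h2 h3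
    rw [K_eq (p := (c η, η)) h3] at h2
    have h4 := (sysf.Gpos (c η, η) h3).1
    by_contra hcon
    push Not at hcon
    have : 0 < 2 * Gf (c η, η) * (Lc (af (c η, η)) (bf (c η, η)) / 4 - xx (af (c η, η)) (bf (c η, η))) :=
      mul_pos (by linarith) hcon
    linarith
  rw [hd2] at h1
  by_contra hcon
  push Not at hcon
  have := div_neg_of_neg_of_pos hcon hd
  linarith

end

end Pool.Agent.Helper157.Star
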