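import Pool.Agent.Helper157.StarF
import Pool.Agent.Helper974.Star.N1

set_option autoImplicit false

open Filter Topology Set

namespace Pool.Agent.Helper157.Star

open Pool.Agent.Helper974.Star

noncomputable section

/-- the data of the symmetric root -/
structure SymR (kb : ℝ) : Prop where
  k0 : 0 < kb
  k1 : kb < 1
  lo : ∀ k ∈ Ioo (0 : ℝ) kb, qq k (-k) < k * Real.sqrt (1 - k ^ 2)
  hi : ∀ k ∈ Ioo kb 1, k * Real.sqrt (1 - k ^ 2) < qq k (-k)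
  eq : qq kb (-kb) = kb * Real.sqrt (1 - kb ^ 2)
  bd : Real.sqrt (1 - kb ^ 2) / kb < 383 / 1000

/-- the data of the Pick root -/
structure PickR (t1 : ℝ) : Prop where
  gt0 : 10 / 33 < t1
  lt1 : t1 < 1
  eq : phi t1 = 0
  lo : ∀ t ∈ Ioo (0 : ℝ) t1, 0 < phi t
  hi : ∀ t ∈ Ioo t1 1, phi t < 0

lemma qq_pos' {k : ℝ} (h0 : 0 < k) (h1 : k < 1) : 0 < qq k (-k) :=
  (facts (a := k) (b := -k) (by linarith) (by linarith) h1).1

lemma SymR.gam {kb : ℝ} (hk : SymR kb) :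
    y0 rf Ef Gf (Real.artanh kb) = 1 ∧ Gf (0, Real.artanh kb) < 383 / 1000 ∧
      ∃ ξs, Gam nf rf Ef Xf Gf (Real.artanh kb) ξs := by
  have hb0 : 0 < Real.artanh kb := Real.artanh_pos ⟨hk.k0, hk.k1⟩
  have ht : Real.tanh (Real.artanh kb) = kb := Real.tanh_artanh ⟨by linarith [hk.k0], hk.k1⟩
  have hq := qq_pos' hk.k0 hk.k1
  have hk0 := hk.k0
  refine ⟨?_, ?_, ?_⟩
  · rw [y0_eq hb0, ht, ← hk.eq, div_self hq.ne', one_pow]
  · unfold Gf rf
    rw [mem_axis_a.1, mem_axis_a.2, ht, hk.eq]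
    have e : kb * Real.sqrt (1 - kb ^ 2) / ((kb - -kb) / 2) ^ 2 = Real.sqrt (1 - kb ^ 2) / kb := by
      have : (kb - -kb) / 2 = kb := by ring
      rw [this]; field_simp
    rw [e]; exact hk.bd
  · apply sysf.gam hb0 (fun η hη => ninf hη)
    · intro η h1 h2
      obtain ⟨h3, h4⟩ := tanh_mem h1
      have h5 : Real.tanh η < kb := by rw [← ht]; exact tanh_lt' h2
      have h6 := hk.lo _ ⟨h3, h5⟩
      rw [y0_eq h1]
      have h7 : 1 < Real.tanh η * Real.sqrt (1 - Real.tanh η ^ 2) / qq (Real.tanh η) (-Real.tanh η) := by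
        rw [one_lt_div (qq_pos' h3 h4)]; exact h6
      exact one_lt_pow₀ h7 two_ne_zero
    · intro η h2
      have h1 : 0 < η := hb0.trans h2
      obtain ⟨h3, h4⟩ := tanh_mem h1
      have h5 : kb < Real.tanh η := by rw [← ht]; exact tanh_lt' h2
      have h6 := hk.hi _ ⟨h5, h4⟩
      rw [y0_eq h1]
      have h7 : Real.tanh η * Real.sqrt (1 - Real.tanh η ^ 2) / qq (Real.tanh η) (-Real.tanh η) < 1 := by
        rw [div_lt_one (qq_pos' h3 h4)]; exact h6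
      have h8 : 0 ≤ Real.tanh η * Real.sqrt (1 - Real.tanh η ^ 2) / qq (Real.tanh η) (-Real.tanh η) :=
        div_nonneg (by positivity) (qq_pos' h3 h4).le
      exact pow_lt_one₀ h8 h7 two_ne_zero

lemma l0' : ∀ η, 0 < η → lf (0, η) = Real.log (Real.cosh η) := fun _ hη => lf_axis hη

lemma exLev {L : ℝ} (hL : 0 < L) : ∃ η0 c, Lev lf L η0 c :=
  sysf.lev l0' (fun _ _ hη hL => linf hη hL) hL

/-- the value of `l` at the bifurcation point -/
lemma SymR.lb {kb : ℝ} (hk : SymR kb) : lf (0, Real.artanh kb) = Real.log (1 / Real.sqrt (1 - kb ^ 2)) := by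
  rw [l0' _ (Real.artanh_pos ⟨hk.k0, hk.k1⟩), Real.cosh_artanh ⟨by linarith [hk.k0], hk.k1⟩]

lemma SymR.lbpos {kb : ℝ} (hk : SymR kb) : 0 < lf (0, Real.artanh kb) := by
  rw [l0' _ (Real.artanh_pos ⟨hk.k0, hk.k1⟩)]
  have := logcosh_lt le_rfl (Real.artanh_pos ⟨hk.k0, hk.k1⟩)
  simpa using this

/-- critical values are at most `-log t1` -/
lemma crit_le {kb t1 : ℝ} (hk : SymR kb) (ht : PickR t1) {ξs : ℝ → ℝ}
    (g' : Gam nf rf Ef Xf Gf (Real.artanh kb) ξs) {ηs : ℝ} (hs : Real.artanh kb < ηs) :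
    t1 ≤ Real.exp (-Lam lf ξs ηs) := by
  obtain ⟨hy, hG, -⟩ := hk.gam
  have hgt := sysf.Lam_gt g' hy hG hs
  have hL : 0 < Lam lf ξs ηs := hk.lbpos.trans hgt
  obtain ⟨η0, c, g⟩ := exLev hL
  obtain ⟨-, -, -, h4⟩ := sysf.regime3 g' hy hG l0' g hgt hs rfl
  have h5 := phi_nonpos g ((eventually_gt_atTop ηs).mono h4)
  by_contra hcon
  push Not at hcon
  exact absurd (ht.lo _ ⟨Real.exp_pos _, hcon⟩) (not_lt.mpr h5)

lemma crit_lt {kb t1 : ℝ} (hk : SymR kb) (ht : PickR t1) {ξs : ℝ → ℝ}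
    (g' : Gam nf rf Ef Xf Gf (Real.artanh kb) ξs) {ηs : ℝ} (hs : Real.artanh kb < ηs) :
    t1 < Real.exp (-Lam lf ξs ηs) := by
  obtain ⟨hy, hG, -⟩ := hk.gam
  have h1 := crit_le hk ht g' (show Real.artanh kb < ηs + 1 by linarith)
  have h2 := sysf.Lam_mono g' hy hG hs (show ηs + 1 ∈ Ioi _ from by simp only [mem_Ioi]; linarith)
    (show ηs < ηs + 1 by linarith)
  exact h1.trans_lt (Real.exp_lt_exp.mpr (by linarith))

/-- `Mb < M1` -/
theorem Mb_lt {kb t1 : ℝ} (hk : SymR kb) (ht : PickR t1) : 1 / Real.sqrt (1 - kb ^ 2) < 1 / t1 := by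
  obtain ⟨hy, hG, ξs, g'⟩ := hk.gam
  have hs : Real.artanh kb < Real.artanh kb + 1 := by linarith
  have h1 := crit_lt hk ht g' hs
  have h2 := sysf.Lam_gt g' hy hG hs
  rw [hk.lb] at h2
  have h3 : 0 < 1 - kb ^ 2 := by nlinarith [hk.k0, hk.k1]
  have h4 : 0 < 1 / Real.sqrt (1 - kb ^ 2) := by positivity
  have h5 := ht.gt0
  have h6 : Real.exp (Real.log (1 / Real.sqrt (1 - kb ^ 2))) < Real.exp (Lam lf ξs (Real.artanh kb + 1)) :=
    Real.exp_lt_exp.mpr h2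
  rw [Real.exp_log h4] at h6
  refine h6.trans ?_
  rw [lt_div_iff₀ (by linarith)]
  calc Real.exp (Lam lf ξs (Real.artanh kb + 1)) * t1
      < Real.exp (Lam lf ξs (Real.artanh kb + 1)) * Real.exp (-Lam lf ξs (Real.artanh kb + 1)) :=
        mul_lt_mul_of_pos_left h1 (Real.exp_pos _)
    _ = 1 := by rw [← Real.exp_add]; simp

/-! ### statements along a level curve in the `(a, b)` variables -/

lemma lev_axis {L η0 : ℝ} {c : ℝ → ℝ} (g : Lev lf L η0 c) : xx (af (c η0, η0)) (bf (c η0, η0)) = 0 ∧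
    Fv (af (c η0, η0)) (bf (c η0, η0)) = 1 - Real.exp (-L) ^ 2 := by
  have h0 := g.e0
  have hx : xx (af (c η0, η0)) (bf (c η0, η0)) = 0 := by
    rw [g.c0, ← xf_eq (p := (0, η0)) h0]; unfold xf'; rw [sysf.X0 η0 h0, mul_zero]
  refine ⟨hx, ?_⟩
  rw [g.c0, ← FF_eq (p := (0, η0)) h0]
  unfold FF
  rw [sysf.X0 η0 h0, sysf.n0 η0 h0]
  have e1 : rf (0, η0) = Real.tanh η0 := by unfold rf; rw [mem_axis_a.1, mem_axis_a.2]; ring
  have e2 : Real.exp (-L) = 1 / Real.cosh η0 := by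
    rw [Real.exp_neg, ← g.ax, Real.exp_log (Real.cosh_pos η0), one_div]
  have e3 := one_sub_tanh_sq η0
  rw [e1, e2, div_pow, one_pow, ← e3]
  ring

/-- intermediate values of `x` -/
lemma lev_ivt {L η0 : ℝ} {c : ℝ → ℝ} (g : Lev lf L η0 c) {P : ℝ}
    (hP : ∀ η, η0 ≤ η → Fv (af (c η, η)) (bf (c η, η)) ≤ P) {x : ℝ} (h0 : 0 ≤ x) (h1 : x < 1 - Real.exp (-L)) :
    ∃ a b : ℝ, -1 < b ∧ b < a ∧ a < 1 ∧ ll a b = L ∧ xx a b = x ∧ Vc a b + 2 * xx a b ^ 2 ≤ P := by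
  obtain ⟨η1, h2, h3⟩ := (((xx_lim g).eventually (lt_mem_nhds h1)).and (eventually_ge_atTop η0)).exists
  have hc : ContinuousOn (fun t => xf' rf Xf (c t, t)) (Icc η0 η1) :=
    (sysf.comp_contOn g sysf.x_cont).mono Icc_subset_Ici_self
  have e0 : xf' rf Xf (c η0, η0) = 0 := by rw [xf_eq (p := (c η0, η0)) g.e0]; exact (lev_axis g).1
  have e1 : xf' rf Xf (c η1, η1) = xx (af (c η1, η1)) (bf (c η1, η1)) := xf_eq (p := (c η1, η1)) (g.e0.trans_le h3)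
  have hmem : x ∈ Icc (xf' rf Xf (c η0, η0)) (xf' rf Xf (c η1, η1)) :=
    ⟨by rw [e0]; exact h0, by rw [e1]; exact h2.le⟩
  obtain ⟨η, hη, hη2⟩ := intermediate_value_Icc h3 hc hmem
  have hη0 : 0 < η := g.e0.trans_le hη.1
  obtain ⟨m1, m2, m3⟩ := S1_mem (c η, η) hη0
  refine ⟨af (c η, η), bf (c η, η), m1, m2, m3, g.lev η hη.1, ?_, hP η hη.1⟩
  rw [← xf_eq (p := (c η, η)) hη0]; exact hη2

lemma log_facts {M : ℝ} (hM : 1 < M) : 0 < Real.log M ∧ Real.exp (-Real.log M) = 1 / M := by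
  refine ⟨Real.log_pos hM, ?_⟩
  rw [Real.exp_neg, Real.exp_log (by linarith), one_div]

lemma FF_lev {L η0 : ℝ} {c : ℝ → ℝ} (g : Lev lf L η0 c) {η : ℝ} (hη : η0 ≤ η) :
    FF nf rf Xf (c η, η) = Fv (af (c η, η)) (bf (c η, η)) := FF_eq (p := (c η, η)) (g.e0.trans_le hη)

/-- first regime -/
theorem reg1 {kb : ℝ} (hk : SymR kb) {M : ℝ} (hM : 1 < M) (hMb : M ≤ 1 / Real.sqrt (1 - kb ^ 2)) :
    3 - 8 / M + 5 / M ^ 2 ≤ 1 - 1 / M ^ 2 ∧
    (∀ x : ℝ, 0 ≤ x → x < 1 - 1 / M → ∃ a b : ℝ, -1 < b ∧ b < a ∧ a < 1 ∧ ll a b = Real.log M ∧ xx a b = x ∧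
      Vc a b + 2 * xx a b ^ 2 ≤ 1 - 1 / M ^ 2) ∧
    ∃ a b : ℝ, -1 < b ∧ b < a ∧ a < 1 ∧ ll a b = Real.log M ∧ Vc a b + 2 * xx a b ^ 2 = 1 - 1 / M ^ 2 := by
  obtain ⟨hL, hexp⟩ := log_facts hM
  obtain ⟨hy, hG, ξs, g'⟩ := hk.gam
  obtain ⟨η0, c, g⟩ := exLev hL
  have hLb : Real.log M ≤ lf (0, Real.artanh kb) := by
    rw [hk.lb]; exact Real.log_le_log (by linarith) hMb
  have hK : ∀ t ∈ interior (Ici η0), 0 < Kf nf rf Ef Xf Gf (c t, t) := by
    intro t ht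
    rw [interior_Ici] at ht
    exact sysf.regime1 g' hy hG g hLb ht
  have hanti := sysf.lev_F_anti g (convex_Ici η0) le_rfl hK
  have hax := (lev_axis g).2
  rw [hexp] at hax
  have e1 : 1 - (1 / M) ^ 2 = 1 - 1 / M ^ 2 := by rw [div_pow, one_pow]
  rw [e1] at hax
  have hF : ∀ η, η0 ≤ η → Fv (af (c η, η)) (bf (c η, η)) ≤ 1 - 1 / M ^ 2 := by
    intro η hη
    rw [← FF_lev g hη, ← hax, ← FF_lev g le_rfl]
    exact hanti.antitoneOn (mem_Ici.mpr le_rfl) hη hη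
  refine ⟨?_, ?_, ?_⟩
  · have h1 := Fv_lim g
    rw [hexp] at h1
    have h2 : 3 - 8 * (1 / M) + 5 * (1 / M) ^ 2 ≤ 1 - 1 / M ^ 2 :=
      le_of_tendsto h1 ((eventually_ge_atTop η0).mono hF)
    have e2 : 3 - 8 * (1 / M) + 5 * (1 / M) ^ 2 = 3 - 8 / M + 5 / M ^ 2 := by ring
    rwa [e2] at h2
  · intro x h0 h1
    exact lev_ivt g hF h0 (by rw [hexp]; exact h1)
  · obtain ⟨m1, m2, m3⟩ := S1_mem (c η0, η0) g.e0
    exact ⟨af (c η0, η0), bf (c η0, η0), m1, m2, m3, g.lev η0 le_rfl, hax⟩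

/-- third regime -/
theorem reg3 {kb t1 : ℝ} (hk : SymR kb) (ht : PickR t1) {M : ℝ} (hM1 : 1 / t1 ≤ M) :
    ∀ x : ℝ, 0 ≤ x → x < 1 - 1 / M → ∃ a b : ℝ, -1 < b ∧ b < a ∧ a < 1 ∧ ll a b = Real.log M ∧ xx a b = x ∧
      Vc a b + 2 * xx a b ^ 2 ≤ 3 - 8 / M + 5 / M ^ 2 := by
  have ht0 := ht.gt0
  have hM : 1 < M := by
    refine lt_of_lt_of_le ?_ hM1
    rw [lt_div_iff₀ (by linarith)]; linarith [ht.lt1]
  obtain ⟨hL, hexp⟩ := log_facts hM
  obtain ⟨hy, hG, ξs, g'⟩ := hk.gam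
  obtain ⟨η0, c, g⟩ := exLev hL
  have hLb : lf (0, Real.artanh kb) < Real.log M := by
    rw [hk.lb]
    have h3 : 0 < 1 - kb ^ 2 := by nlinarith [hk.k0, hk.k1]
    exact Real.log_lt_log (by positivity) ((Mb_lt hk ht).trans_le hM1)
  have hall : ∀ η, Real.artanh kb < η → Lam lf ξs η < Real.log M := by
    rcases sysf.Lam_range g' hy hG hLb with ⟨ηs, h1, h2⟩ | h
    · exfalso
      have h3 := crit_lt hk ht g' h1
      rw [h2, hexp, lt_div_iff₀ (by linarith)] at h3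
      rw [div_le_iff₀ (by linarith)] at hM1
      linarith
    · exact h
  have hK : ∀ t ∈ interior (Ici η0), Kf nf rf Ef Xf Gf (c t, t) < 0 := by
    intro t ht
    rw [interior_Ici] at ht
    exact sysf.regime2 g' l0' g hLb hall ht
  have hmono := sysf.lev_F_mono g (convex_Ici η0) le_rfl hK
  have hlim := Fv_lim g
  rw [hexp] at hlim
  have e2 : 3 - 8 * (1 / M) + 5 * (1 / M) ^ 2 = 3 - 8 / M + 5 / M ^ 2 := by ring
  rw [e2] at hlim
  have hF : ∀ η, η0 ≤ η → Fv (af (c η, η)) (bf (c η, η)) ≤ 3 - 8 / M + 5 / M ^ 2 := by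
    intro η hη
    apply ge_of_tendsto hlim
    filter_upwards [eventually_ge_atTop η] with η' h1
    rw [← FF_lev g hη, ← FF_lev g (hη.trans h1)]
    exact hmono.monotoneOn hη (hη.trans h1) h1
  intro x h0 h1
  exact lev_ivt g hF h0 (by rw [hexp]; exact h1)

/-- second regime -/
theorem reg2 {kb t1 : ℝ} (hk : SymR kb) (ht : PickR t1) {M : ℝ} (hMb : 1 / Real.sqrt (1 - kb ^ 2) < M)
    (hM1 : M < 1 / t1) :
    ∃ a b : ℝ, -1 < b ∧ b < a ∧ a < 1 ∧ a + b < 0 ∧ ll a b = Real.log M ∧ TT a b = a + b + cc a b ∧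
      (∀ a' b' : ℝ, -1 < b' → b' < a' → a' < 1 → a' + b' < 0 → ll a' b' = Real.log M →
        TT a' b' = a' + b' + cc a' b' → a' = a ∧ b' = b) ∧
      3 - 8 / M + 5 / M ^ 2 ≤ Vc a b + 2 * xx a b ^ 2 ∧
      (∀ x : ℝ, 0 ≤ x → x < 1 - 1 / M → ∃ a' b' : ℝ, -1 < b' ∧ b' < a' ∧ a' < 1 ∧ ll a' b' = Real.log M ∧
        xx a' b' = x ∧ Vc a' b' + 2 * xx a' b' ^ 2 ≤ Vc a b + 2 * xx a b ^ 2) := by
  have h3 : 0 < 1 - kb ^ 2 := by nlinarith [hk.k0, hk.k1]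
  have hs1 : Real.sqrt (1 - kb ^ 2) < 1 := by
    rw [Real.sqrt_lt' one_pos]; nlinarith [hk.k0]
  have hM : 1 < M := by
    refine lt_trans ?_ hMb
    rw [lt_div_iff₀ (Real.sqrt_pos.mpr h3)]; linarith
  obtain ⟨hL, hexp⟩ := log_facts hM
  obtain ⟨hy, hG, ξs, g'⟩ := hk.gam
  obtain ⟨η0, c, g⟩ := exLev hL
  have ht0 := ht.gt0
  have hLb : lf (0, Real.artanh kb) < Real.log M := by
    rw [hk.lb]; exact Real.log_lt_log (by positivity) hMb
  have hnot : ∃ ηs, Real.artanh kb < ηs ∧ Lam lf ξs ηs = Real.log M := by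
    rcases sysf.Lam_range g' hy hG hLb with h | h
    · exact h
    · exfalso
      have h4 := phi_nonneg g ((eventually_gt_atTop η0).mono fun η hη => sysf.regime2 g' l0' g hLb h hη)
      rw [hexp] at h4
      have h5 : 1 / M ∈ Ioo t1 1 := by
        constructor
        · rw [lt_div_iff₀ (by linarith)] at hM1 ⊢; linarith
        · rw [div_lt_one (by linarith)]; exact hM
      exact absurd (ht.hi _ h5) (not_lt.mpr h4)
  obtain ⟨ηs, hs, hsL⟩ := hnot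
  obtain ⟨r1, r2, r3, r4⟩ := sysf.regime3 g' hy hG l0' g hLb hs hsL
  have hηs0 : 0 < ηs := g.e0.trans r1
  have hmono := sysf.lev_F_mono g (convex_Icc η0 ηs) Icc_subset_Ici_self (fun t ht => by
    rw [interior_Icc] at ht; exact r3 t ht.1 ht.2)
  have hanti := sysf.lev_F_anti g (convex_Ici ηs) (Ici_subset_Ici.mpr r1.le) (fun t ht => by
    rw [interior_Ici] at ht; exact r4 t ht)
  have hF : ∀ η, η0 ≤ η → Fv (af (c η, η)) (bf (c η, η)) ≤ Fv (af (c ηs, ηs)) (bf (c ηs, ηs)) := by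
    intro η hη
    rw [← FF_lev g hη, ← FF_lev g r1.le]
    rcases le_total η ηs with h | h
    · exact hmono.monotoneOn ⟨hη, h⟩ ⟨r1.le, le_rfl⟩ h
    · exact hanti.antitoneOn (mem_Ici.mpr le_rfl) h h
  obtain ⟨m1, m2, m3⟩ := S1_mem (c ηs, ηs) hηs0
  have hn := nf_pos (p := (c ηs, ηs)) (g.pos ηs r1)
  have key : ∀ p : ℝ × ℝ, 0 < p.2 → (Kf nf rf Ef Xf Gf p = 0 ↔ TT (af p) (bf p) = af p + bf p + cc (af p) (bf p)) := by
    intro p hp
    rw [K_eq hp]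
    have h4 := (sysf.Gpos p hp).1
    unfold Lc xx
    constructor
    · intro h
      rcases mul_eq_zero.mp h with h5 | h5
      · linarith
      · linarith
    · intro h
      rw [h]; ring
  refine ⟨af (c ηs, ηs), bf (c ηs, ηs), m1, m2, m3, by unfold nf at hn; linarith, g.lev ηs r1.le,
    (key (c ηs, ηs) hηs0).mp r2, ?_, ?_, ?_⟩
  · intro a' b' h1 h2 h4 h5 h6 h7
    have e1 := co_af b' (a := a') (by linarith) h4
    have e2 := co_bf a' h1 (show b' < 1 by linarith)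
    have hp2 := co_pos h1 h2 h4
    have hp1 := co_nonneg h1 h2 h4 h5.le
    have hl : lf (co a' b') = Real.log M := by unfold lf; rw [e1, e2]; exact h6
    obtain ⟨u1, u2⟩ := g.uniq (co a' b') hp1 hp2 hl
    have hK : Kf nf rf Ef Xf Gf (co a' b') = 0 := by
      rw [key _ hp2, e1, e2]; exact h7
    have hco : co a' b' = (c (co a' b').2, (co a' b').2) := by
      rw [← u2]
    have hηη : (co a' b').2 = ηs := by
      rcases u1.lt_or_eq with h8 | h8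
      · rcases lt_trichotomy (co a' b').2 ηs with h9 | h9 | h9
        · have := r3 _ h8 h9
          rw [← hco, hK] at this
          exact absurd this (lt_irrefl _)
        · exact h9
        · have := r4 _ h9
          rw [← hco, hK] at this
          exact absurd this (lt_irrefl _)
      · exfalso
        rw [← h8, g.c0] at u2
        have : nf (co a' b') = 0 := by
          have h10 : co a' b' = (0, (co a' b').2) := by rw [← u2]
          rw [h10]; exact sysf.n0 _ hp2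
        unfold nf at this
        rw [e1, e2] at this
        linarith
    have hco2 : co a' b' = (c ηs, ηs) := by rw [hco, hηη]
    constructor
    · rw [← hco2, e1]
    · rw [← hco2, e2]
  · have h1 := Fv_lim g
    rw [hexp] at h1
    have h2 : 3 - 8 * (1 / M) + 5 * (1 / M) ^ 2 ≤ Fv (af (c ηs, ηs)) (bf (c ηs, ηs)) :=
      le_of_tendsto h1 ((eventually_ge_atTop η0).mono hF)
    have e2 : 3 - 8 * (1 / M) + 5 * (1 / M) ^ 2 = 3 - 8 / M + 5 / M ^ 2 := by ring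
    rw [e2] at h2
    exact h2
  · intro x h0 h1
    exact lev_ivt g hF h0 (by rw [hexp]; exact h1)

theorem ex_sym : ∃ kb, SymR kb := by
  obtain ⟨kb, h1, h2, h3, h4, h5, h6⟩ := sym_root
  exact ⟨kb, h1, h2, h3, h4, h5, h6⟩

theorem ex_pick : ∃ t1, PickR t1 := by
  obtain ⟨t1, h1, h2, h3, h4, h5⟩ := phi_root
  exact ⟨t1, h1, h2, h3, h4, h5⟩

/-- `e < Mb` -/
theorem e_lt_Mb {kb : ℝ} (hk : SymR kb) : Real.exp 1 < 1 / Real.sqrt (1 - kb ^ 2) := by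
  have h1 := hk.bd
  have h3 : 0 < 1 - kb ^ 2 := by nlinarith [hk.k0, hk.k1]
  have hs := Real.sqrt_pos.mpr h3
  have h4 : Real.sqrt (1 - kb ^ 2) ^ 2 = 1 - kb ^ 2 := Real.sq_sqrt h3.le
  rw [div_lt_iff₀ hk.k0] at h1
  have h5 : Real.sqrt (1 - kb ^ 2) < 358 / 1000 := by
    by_contra hcon
    push Not at hcon
    nlinarith [hk.k0]
  rw [lt_div_iff₀ hs]
  have h6 := Real.exp_one_lt_d9
  nlinarith [Real.exp_pos 1]

end

end Pool.Agent.Helper157.Star
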