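import Mathlib

set_option autoImplicit false

open Filter Topology Set

namespace Pool.Agent.Helper157.Star

noncomputable section

/-- the linear form `(u, v) ↦ α u + β v` -/
def LF (α β : ℝ) : ℝ × ℝ →L[ℝ] ℝ := α • ContinuousLinearMap.fst ℝ ℝ ℝ + β • ContinuousLinearMap.snd ℝ ℝ ℝ

lemma LF_apply (α β : ℝ) (v : ℝ × ℝ) : LF α β v = α * v.1 + β * v.2 := by
  simp [LF]

/-- the closed differential system satisfied by the two slit data in the coordinates `(ξ, η)` -/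
structure Sys (n r E X G l : ℝ × ℝ → ℝ) : Prop where
  hE : ∀ p, E p = 1 - n p ^ 2 - r p ^ 2
  rpos : ∀ p : ℝ × ℝ, 0 < p.2 → 0 < r p
  bd : ∀ p : ℝ × ℝ, 0 < p.2 → 0 ≤ p.1 → n p + r p < 1
  Gpos : ∀ p : ℝ × ℝ, 0 < p.2 → 0 < G p ∧ G p < 1
  n0 : ∀ η : ℝ, 0 < η → n (0, η) = 0
  X0 : ∀ η : ℝ, 0 < η → X (0, η) = 0
  npos : ∀ p : ℝ × ℝ, 0 < p.2 → 0 < p.1 → 0 < n p
  Xpos : ∀ p : ℝ × ℝ, 0 < p.2 → 0 < p.1 → 0 < X p ∧ X p < 1
  Hpos : ∀ p : ℝ × ℝ, 0 < p.2 → 0 < p.1 → 0 < 2 * n p - E p * X p / r p - 3 * n p * G p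
  dn : ∀ p : ℝ × ℝ, 0 < p.2 → HasFDerivAt n (LF (E p) (-2 * r p * n p)) p
  dr : ∀ p : ℝ × ℝ, 0 < p.2 → HasFDerivAt r (LF (-2 * r p * n p) (E p)) p
  dX : ∀ p : ℝ × ℝ, 0 < p.2 → HasFDerivAt X
    (LF (r p * G p) (n p * (1 + X p ^ 2) - r p * X p * G p - X p * E p / r p)) p
  dG : ∀ p : ℝ × ℝ, 0 < p.2 → HasFDerivAt G
    (LF (-(2 * n p - E p * X p / r p - 3 * n p * G p))
      (E p * (1 - 2 * G p) / r p - n p * X p * (2 - G p) - r p * G p ^ 2)) p
  dl : ∀ p : ℝ × ℝ, 0 < p.2 → HasFDerivAt l (LF (-2 * r p * X p) (r p * (1 + X p ^ 2))) p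

/-- `z` -/
def zf (n r E X : ℝ × ℝ → ℝ) (p : ℝ × ℝ) : ℝ := E p * X p / (n p * r p)
/-- `μ = n / x` -/
def mf (n r X : ℝ × ℝ → ℝ) (p : ℝ × ℝ) : ℝ := n p / (r p * X p)
/-- `y = τ / x` -/
def yf (n r E X G : ℝ × ℝ → ℝ) (p : ℝ × ℝ) : ℝ := mf n r X p * (G p + 2 - zf n r E X p) / (2 * G p)
/-- `e = (z - G) / s` -/
def ef (n r E X G : ℝ × ℝ → ℝ) (p : ℝ × ℝ) : ℝ := (zf n r E X p - G p) / X p ^ 2

/-- Fréchet derivative composed with a curve `t ↦ (c t, t)` -/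
lemma comp_curve {F : ℝ × ℝ → ℝ} {α β κ η : ℝ} {c : ℝ → ℝ} (hF : HasFDerivAt F (LF α β) (c η, η))
    (hc : HasDerivAt c κ η) : HasDerivAt (fun t => F (c t, t)) (α * κ + β) η := by
  have h1 : HasDerivAt (fun t : ℝ => (c t, t)) (κ, 1) η := hc.prodMk (hasDerivAt_id η)
  have h2 := HasFDerivAt.comp_hasDerivAt (f := fun t : ℝ => (c t, t)) η hF h1
  rw [LF_apply] at h2
  have e : α * ((κ, 1) : ℝ × ℝ).1 + β * ((κ, 1) : ℝ × ℝ).2 = α * κ + β := by simp
  rw [e] at h2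
  exact h2

/-- derivative along a horizontal line -/
lemma comp_line {F : ℝ × ℝ → ℝ} {α β ξ η : ℝ} (hF : HasFDerivAt F (LF α β) (ξ, η)) :
    HasDerivAt (fun t => F (t, η)) α ξ := by
  have h1 : HasDerivAt (fun t : ℝ => (t, η)) (1, 0) ξ := (hasDerivAt_id ξ).prodMk (hasDerivAt_const ξ η)
  have h2 := HasFDerivAt.comp_hasDerivAt (f := fun t : ℝ => (t, η)) ξ hF h1
  rw [LF_apply] at h2
  have e : α * ((1, 0) : ℝ × ℝ).1 + β * ((1, 0) : ℝ × ℝ).2 = α := by simp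
  rw [e] at h2
  exact h2

variable {n r E X G l : ℝ × ℝ → ℝ}

lemma Sys.Epos (h : Sys n r E X G l) {p : ℝ × ℝ} (h2 : 0 < p.2) (h1 : 0 ≤ p.1) : 0 < E p := by
  have hn : 0 ≤ n p := by
    rcases h1.lt_or_eq with h1 | h1
    · exact (h.npos p h2 h1).le
    · have : p = (0, p.2) := by ext <;> simp [← h1]
      rw [this, h.n0 _ h2]
  have := h.bd p h2 h1
  have := h.rpos p h2
  rw [h.hE]; nlinarith

/-- the derivatives of the scaled quantities along a curve `t ↦ (c t, t)` -/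
theorem Sys.curve (h : Sys n r E X G l) {c : ℝ → ℝ} {κ η s z m g w lam : ℝ} (hη : 0 < η) (hc : HasDerivAt c κ η)
    (hpos : 0 < c η) (hs : s = X (c η, η) ^ 2) (hz : z = zf n r E X (c η, η)) (hm : m = mf n r X (c η, η))
    (hg : g = G (c η, η)) (hw : w = r (c η, η) / (2 * s)) (hlam : lam = 2 * X (c η, η) * κ - (1 + s)) :
    HasDerivAt (fun t => X (c t, t) ^ 2)
      (w * (s * (2 * g * (1 - s) + 4 * m * s * (1 + s - z)) + lam * (2 * g * s))) η ∧
    HasDerivAt (fun t => G (c t, t))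
      (w * ((s * (m * (z * (3 + s) - 2 - 6 * s - g * (1 - s)) - 2 * g ^ 2) + 4 * m * g * s * (1 + s - z)) +
        lam * (-(m * s * (2 - z - 3 * g))))) η ∧
    HasDerivAt (fun t => zf n r E X (c t, t))
      (w * ((4 * s * (1 + s + 2 * m * s) + 2 * m * s * z * (1 + s) - 2 * s * z ^ 2 - (z - g) * z * (1 - s)
        - 4 * m * s * z ^ 2) + lam * (4 * s - z * (z - g)))) η ∧
    HasDerivAt (fun t => mf n r X (c t, t))
      (w * (m * ((z - g) * (1 + s) + s * (2 * g - 4)) + lam * (m * (z - g + 2 * m * s)))) η ∧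
    HasDerivAt (fun t => l (c t, t)) (-(r (c η, η) * lam)) η ∧
    HasDerivAt (fun t => r (c t, t) * X (c t, t))
      (w * (r (c η, η) * X (c η, η) * (g * (1 - s) + lam * (g - 2 * m * s)))) η := by
  have hn0 := h.npos (c η, η) hη hpos
  have hr0 := h.rpos (c η, η) hη
  have hX0 := (h.Xpos (c η, η) hη hpos).1
  have hg0 := (h.Gpos (c η, η) hη).1
  have hEE := h.hE (c η, η)
  have dn := comp_curve (h.dn (c η, η) hη) hc
  have dr := comp_curve (h.dr (c η, η) hη) hc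
  have dX := comp_curve (h.dX (c η, η) hη) hc
  have dG := comp_curve (h.dG (c η, η) hη) hc
  have dl := comp_curve (h.dl (c η, η) hη) hc
  have dE : HasDerivAt (fun t => E (c t, t))
      (-(2 * n (c η, η) * (E (c η, η) * κ + -2 * r (c η, η) * n (c η, η))) -
        2 * r (c η, η) * (-2 * r (c η, η) * n (c η, η) * κ + E (c η, η))) η := by
    have h1 := ((hasDerivAt_const η (1 : ℝ)).sub (dn.pow 2)).sub (dr.pow 2)
    have h2 : (fun t => E (c t, t)) = fun t => 1 - n (c t, t) ^ 2 - r (c t, t) ^ 2 := by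
      funext t; exact h.hE _
    rw [h2]
    refine h1.congr_deriv ?_
    push_cast; ring
  unfold zf at hz
  unfold mf at hm
  have dz := (dE.mul dX).div (dn.mul dr) (by simp only [Pi.mul_apply]; positivity)
  have dm := dn.div (dr.mul dX) (by simp only [Pi.mul_apply]; positivity)
  have ds := dX.pow 2
  have dx := dr.mul dX
  simp only [Pi.mul_apply] at dz dm dx
  generalize n (c η, η) = N at *
  generalize r (c η, η) = R at *
  generalize X (c η, η) = Y at *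
  generalize E (c η, η) = e at *
  rw [← hg] at *
  refine ⟨?_, ?_, ?_, ?_, ?_, ?_⟩
  · refine ds.congr_deriv ?_
    rw [hw, hlam, hz, hm, hs]
    push_cast
    field_simp
    rw [hEE]
    ring
  · refine dG.congr_deriv ?_
    rw [hw, hlam, hz, hm, hs]
    field_simp
    rw [hEE]
    ring
  · refine dz.congr_deriv ?_
    rw [hw, hlam, hz, hm, hs]
    field_simp
    rw [hEE]
    ring
  · refine dm.congr_deriv ?_
    rw [hw, hlam, hz, hm, hs]
    field_simp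
    rw [hEE]
    ring
  · refine dl.congr_deriv ?_
    rw [hlam, hs]
    ring
  · refine dx.congr_deriv ?_
    rw [hw, hlam, hm, hs]
    field_simp
    rw [hEE]
    ring

end

end Pool.Agent.Helper157.Star
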