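import Pool.Agent.Helper157.StarSys
import Pool.Agent.Helper157.StarPoly1

set_option autoImplicit false

open Filter Topology Set

namespace Pool.Agent.Helper157.Star

open Pool.Agent.Helper157.StarPoly

noncomputable section

variable {n r E X G l : ℝ × ℝ → ℝ}

/-- `2 G (τ - x)` -/
def Kf (n r E X G : ℝ × ℝ → ℝ) (p : ℝ × ℝ) : ℝ :=
  n p * (2 + G p) - E p * X p / r p - 2 * G p * r p * X p

/-- `ξ`-derivative of `Kf` -/
def Kx (n r E X G : ℝ × ℝ → ℝ) (p : ℝ × ℝ) : ℝ :=
  2 * E p - n p * (2 * n p - E p * X p / r p - 3 * n p * G p) - 4 * r p * n p * X p +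
    2 * (2 * n p - E p * X p / r p - 3 * n p * G p) * r p * X p + 4 * G p * r p * n p * X p
    - 2 * r p ^ 2 * G p ^ 2

/-- `η`-derivative of `Kf` -/
def Ky (n r E X G : ℝ × ℝ → ℝ) (p : ℝ × ℝ) : ℝ :=
  -2 * r p * n p * (2 + G p) +
    n p * (E p * (1 - 2 * G p) / r p - n p * X p * (2 - G p) - r p * G p ^ 2) -
    (((4 * r p * n p ^ 2 - 2 * r p * E p) * X p +
      E p * (n p * (1 + X p ^ 2) - r p * X p * G p - X p * E p / r p)) / r p - E p ^ 2 * X p / r p ^ 2) -
    2 * ((E p * (1 - 2 * G p) / r p - n p * X p * (2 - G p) - r p * G p ^ 2) * r p * X p +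
      G p * E p * X p + G p * r p * (n p * (1 + X p ^ 2) - r p * X p * G p - X p * E p / r p))

lemma Sys.dE (h : Sys n r E X G l) {p : ℝ × ℝ} (hp : 0 < p.2) :
    HasFDerivAt E (LF (-2 * n p * E p + 4 * r p ^ 2 * n p) (4 * r p * n p ^ 2 - 2 * r p * E p)) p := by
  have h1 := ((hasFDerivAt_const (1 : ℝ) p).sub ((h.dn p hp).pow 2)).sub ((h.dr p hp).pow 2)
  have h2 : E = fun q => 1 - n q ^ 2 - r q ^ 2 := by
    funext t; exact h.hE _
  have h3 : HasFDerivAt (fun q => 1 - n q ^ 2 - r q ^ 2)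
      (LF (-2 * n p * E p + 4 * r p ^ 2 * n p) (4 * r p * n p ^ 2 - 2 * r p * E p)) p := by
    refine h1.congr_fderiv ?_
    ext <;> simp [LF] <;> ring
  rw [h2] at h3 ⊢
  simpa using h3

lemma hasFDerivAt_inv' {F : ℝ × ℝ → ℝ} {F' : ℝ × ℝ →L[ℝ] ℝ} {p : ℝ × ℝ} (hF : HasFDerivAt F F' p)
    (h0 : F p ≠ 0) : HasFDerivAt (fun q => (F q)⁻¹) ((-(F p ^ 2)⁻¹) • F') p :=
  (hasDerivAt_inv h0).comp_hasFDerivAt p hF

lemma Sys.dK (h : Sys n r E X G l) {p : ℝ × ℝ} (hp : 0 < p.2) :
    HasFDerivAt (Kf n r E X G) (LF (Kx n r E X G p) (Ky n r E X G p)) p := by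
  have hr0 := h.rpos p hp
  have dn := h.dn p hp
  have dr := h.dr p hp
  have dX := h.dX p hp
  have dG := h.dG p hp
  have dE := h.dE hp
  have d1 := dn.mul (dG.const_add 2)
  have d2 := (dE.mul dX).mul (hasFDerivAt_inv' dr hr0.ne')
  have d3 := ((dG.const_mul 2).mul dr).mul dX
  have d4 := (d1.sub d2).sub d3
  have e : (Kf n r E X G) = fun q => n q * (2 + G q) - E q * X q * (r q)⁻¹ - 2 * G q * r q * X q := by
    funext q; unfold Kf; rw [div_eq_mul_inv]
  rw [e]
  simp only [Pi.mul_apply] at d4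
  refine d4.congr_fderiv ?_
  unfold Kx Ky
  generalize n p = N at *
  generalize r p = R at *
  generalize X p = Y at *
  generalize E p = e at *
  generalize G p = g at *
  ext
  · simp [LF]
    field_simp
    ring
  · simp [LF]
    field_simp
    ring

lemma Kf_eq (h : Sys n r E X G l) {p : ℝ × ℝ} (hp : 0 < p.2) (hp1 : 0 < p.1) :
    Kf n r E X G p = 2 * G p * r p * X p * (yf n r E X G p - 1) := by
  have hr0 := h.rpos p hp
  have hn0 := h.npos p hp hp1
  have hX0 := (h.Xpos p hp hp1).1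
  have hg0 := (h.Gpos p hp).1
  unfold Kf yf mf zf
  field_simp
  ring

/-- at a critical point -/
lemma Kx_crit (h : Sys n r E X G l) {p : ℝ × ℝ} (hp : 0 < p.2) (hp1 : 0 < p.1) (hK : Kf n r E X G p = 0)
    {s m e : ℝ} (hs : s = X p ^ 2) (hm : m = mf n r X p) (he : e = ef n r E X G p) :
    G p = gg s m e ∧ zf n r E X p = zz s m e ∧
    Kx n r E X G p = m * r p ^ 2 * s * NN s m e ∧
    (1 + s) * Kx n r E X G p + 2 * X p * Ky n r E X G p = m * r p ^ 2 * s * RR s m e := by
  have hr0 := h.rpos p hp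
  have hn0 := h.npos p hp hp1
  have hX0 := (h.Xpos p hp hp1).1
  have hg0 := (h.Gpos p hp).1
  obtain ⟨z, hz⟩ : ∃ z, z = zf n r E X p := ⟨_, rfl⟩
  have hm0 : 0 < m := by rw [hm]; unfold mf; positivity
  have hs0 : 0 < s := by rw [hs]; positivity
  have e1 : n p = m * r p * X p := by rw [hm]; unfold mf; field_simp
  have e2 : E p = z * m * r p ^ 2 := by rw [hz, hm]; unfold zf mf; field_simp
  have e3 : e * s = z - G p := by rw [he, hs, hz]; unfold ef; field_simp
  have e4 : z * m = (2 + G p) * m - 2 * G p := by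
    have : Kf n r E X G p = r p * X p * ((2 + G p) * m - 2 * G p - z * m) := by
      unfold Kf; rw [e2, e1]; field_simp; ring
    rw [this] at hK
    have h2 : (2 + G p) * m - 2 * G p - z * m = 0 := by
      rcases mul_eq_zero.mp hK with h3 | h3
      · exact absurd h3 (by positivity)
      · exact h3
    linarith
  have eG : G p = gg s m e := by
    unfold gg
    have : m * (1 - e * s / 2) = m - m * (z - G p) / 2 := by rw [← e3]; ring
    rw [this]; linarith
  have eZ : z = zz s m e := by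
    unfold zz
    have : m + e * s / 2 * (2 - m) = m + (z - G p) / 2 * (2 - m) := by rw [← e3]
    rw [this]
    linarith
  have eN : NN s m e * s = (z - G p) * (2 + G p) - 2 * s * (z - G p) - (1 - (z - G p) / 2) * (6 * m - 4 * m ^ 2) * s := by
    unfold NN; rw [← eG, ← e3]; ring
  have eR : RR s m e * s = (z - G p) * (2 + 6 * s + G p * (1 - s)) - 4 * s * (3 + s - 2 * G p) +
      2 * s * (1 - 2 * m) * (2 + 6 * s - z * (3 + s)) := by
    unfold RR; rw [← eG, ← eZ, ← e3]; ring
  have eg : G p * 2 = (2 + G p - z) * m := by linarith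
  refine ⟨eG, by rw [← hz]; exact eZ, ?_, ?_⟩
  · have : Kx n r E X G p = r p ^ 2 * (2 * z * m - m ^ 2 * s * (2 - z - 3 * G p) - 4 * m * s + 2 * m * s * (2 - z - 3 * G p)
        + 4 * G p * m * s - 2 * G p ^ 2) := by
      unfold Kx; rw [e2, e1, hs]; field_simp
    rw [this, show m * r p ^ 2 * s * NN s m e = m * r p ^ 2 * (NN s m e * s) by ring, eN]
    generalize G p = g at *
    have hz' : z = 2 + g - 2 * g / m := by field_simp; linarith
    rw [hz']
    field_simp
    ring
  · have : (1 + s) * Kx n r E X G p + 2 * X p * Ky n r E X G p = r p ^ 2 * ((1 + s) * (2 * z * m - m ^ 2 * s * (2 - z - 3 * G p) - 4 * m * s + 2 * m * s * (2 - z - 3 * G p)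
        + 4 * G p * m * s - 2 * G p ^ 2) + 2 * s * (-2 * m * (2 + G p) +
        m * (z * m * (1 - 2 * G p) - m * s * (2 - G p) - G p ^ 2) - ((4 * m ^ 2 * s - 2 * z * m) +
        z * m * (m * (1 + s) - G p - z * m) - z ^ 2 * m ^ 2) - 2 * ((z * m * (1 - 2 * G p) - m * s * (2 - G p) - G p ^ 2) +
        G p * z * m + G p * (m * (1 + s) - G p - z * m)))) := by
      unfold Kx Ky; rw [e2, e1, hs]; field_simp
    rw [this, show m * r p ^ 2 * s * RR s m e = m * r p ^ 2 * (RR s m e * s) by ring, eR]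
    generalize G p = g at *
    have hz' : z = 2 + g - 2 * g / m := by field_simp; linarith
    rw [hz']
    field_simp
    ring

end

end Pool.Agent.Helper157.Star
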